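import Pool.Agent.Helper935.MT.Maurey

open MeasureTheory Filter Topology Algebra Submodule
open scoped ENNReal ComplexConjugate NNReal

namespace Pool.Agent.Helper935.MT

variable {d : ℕ}

/-- characters as continuous maps -/
noncomputable def ekC (k : Fin d → ℤ) : C(Torus d, ℂ) := ⟨ek k, continuous_ek k⟩

lemma ekC_apply (k : Fin d → ℤ) (x : Torus d) : ekC k x = ek k x := rfl

/-- the algebra generated by characters -/
noncomputable def ekAlg (d : ℕ) : StarSubalgebra ℂ C(Torus d, ℂ) where
  toSubalgebra := Algebra.adjoin ℂ (Set.range ekC)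
  star_mem' := by
    change Algebra.adjoin ℂ (Set.range ekC) ≤ star (Algebra.adjoin ℂ (Set.range ekC))
    refine adjoin_le ?_
    rintro _ ⟨n, rfl⟩
    refine subset_adjoin ⟨-n, ?_⟩
    ext1 x
    simp only [ekC_apply, ← conj_ek, starRingEnd_apply, ContinuousMap.star_apply]

theorem ekAlg_coe : (ekAlg d).toSubalgebra.toSubmodule = span ℂ (Set.range ekC) := by
  apply adjoin_eq_span_of_subset
  refine .trans (fun x ↦ Submonoid.closure_induction (fun _ ↦ id) ⟨0, ?_⟩ ?_) subset_span
  · ext z
    simp only [ekC_apply, ek_zero, ContinuousMap.one_apply]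
  · rintro _ _ _ _ ⟨m, rfl⟩ ⟨n, rfl⟩
    refine ⟨m + n, ?_⟩
    ext z
    simp only [ekC_apply, ek_add, ContinuousMap.mul_apply]

lemma ek_single (z : Torus d) (i : Fin d) : ek (Pi.single i 1) z = fourier 1 (z i) := by
  unfold ek
  rw [Finset.prod_eq_single i]
  · rw [Pi.single_eq_same]
  · intro j _ hj; rw [Pi.single_eq_of_ne hj]; simp
  · intro h; exact absurd (Finset.mem_univ _) h

theorem ekAlg_separatesPoints : (ekAlg d).SeparatesPoints := by
  classical
  intro x y hxy
  rw [Ne, funext_iff, not_forall] at hxy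
  obtain ⟨i, hi⟩ := hxy
  refine ⟨_, ⟨ekC (Pi.single i 1), subset_adjoin ⟨Pi.single i 1, rfl⟩, rfl⟩, ?_⟩
  simp only [ekC_apply, ek_single]
  rw [fourier_one, fourier_one]
  intro h
  apply hi
  exact AddCircle.injective_toCircle Real.two_pi_pos.ne' (Circle.ext h)

theorem ek_span_dense : (span ℂ (Set.range <| ekC (d := d))).topologicalClosure = ⊤ := by
  rw [← ekAlg_coe]
  exact congr_arg (Subalgebra.toSubmodule <| StarSubalgebra.toSubalgebra ·)
    (ContinuousMap.starSubalgebra_topologicalClosure_eq_top_of_separatesPoints _ ekAlg_separatesPoints)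

lemma int_cont_mul {f : Torus d → ℂ} (hf : Integrable f (mu d)) (g : C(Torus d, ℂ)) :
    Integrable (fun x => f x * g x) (mu d) := by
  refine hf.mul_bdd (c := ‖g‖) g.continuous.aestronglyMeasurable ?_
  exact Filter.Eventually.of_forall (fun x => g.norm_coe_le_norm x)

/-- vanishing Fourier coefficients imply vanishing pairings -/
lemma pairing_zero {f : Torus d → ℂ} (hf : Integrable f (mu d)) (h0 : ∀ k, ft f k = 0)
    (g : C(Torus d, ℂ)) : ∫ x, f x * g x ∂(mu d) = 0 := by
  have hadd : ∀ g g' : C(Torus d, ℂ), ∫ x, f x * (g - g') x ∂(mu d) =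
      ∫ x, f x * g x ∂(mu d) - ∫ x, f x * g' x ∂(mu d) := by
    intro g g'
    rw [← integral_sub (int_cont_mul hf g) (int_cont_mul hf g')]
    congr 1; funext x; rw [ContinuousMap.sub_apply]; ring
  have hcont : Continuous (fun g : C(Torus d, ℂ) => ∫ x, f x * g x ∂(mu d)) := by
    have hlip : LipschitzWith (Real.toNNReal (∫ x, ‖f x‖ ∂(mu d)))
        (fun g : C(Torus d, ℂ) => ∫ x, f x * g x ∂(mu d)) := by
      apply LipschitzWith.of_dist_le_mul
      intro g g'
      rw [dist_eq_norm, dist_eq_norm, ← hadd, Real.coe_toNNReal _ (integral_nonneg fun x => norm_nonneg _),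
        ← integral_mul_const]
      apply norm_integral_le_of_norm_le (hf.norm.mul_const _)
      exact Filter.Eventually.of_forall (fun x => by
        rw [norm_mul]; exact mul_le_mul_of_nonneg_left ((g - g').norm_coe_le_norm x) (norm_nonneg _))
    exact hlip.continuous
  have hspan : ∀ g ∈ span ℂ (Set.range <| ekC (d := d)), ∫ x, f x * g x ∂(mu d) = 0 := by
    intro g hg
    induction hg using Submodule.span_induction with
    | mem g hg =>
      obtain ⟨k, rfl⟩ := hg
      have := h0 (-k)
      unfold ft at this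
      rw [neg_neg] at this
      exact this
    | zero => simp
    | add g g' _ _ h h' =>
      have : ∀ x, f x * (g + g') x = f x * g x + f x * g' x := by
        intro x; rw [ContinuousMap.add_apply]; ring
      simp only [this]
      rw [integral_add (int_cont_mul hf g) (int_cont_mul hf g'), h, h', add_zero]
    | smul c g _ h =>
      have : ∀ x, f x * (c • g) x = c * (f x * g x) := by
        intro x; rw [ContinuousMap.smul_apply, smul_eq_mul]; ring
      simp only [this]
      rw [integral_const_mul, h, mul_zero]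
  have hclosed : IsClosed {g : C(Torus d, ℂ) | ∫ x, f x * g x ∂(mu d) = 0} :=
    isClosed_eq hcont continuous_const
  have hmem : g ∈ (span ℂ (Set.range <| ekC (d := d))).topologicalClosure := by
    rw [ek_span_dense]; trivial
  have hsub : ((span ℂ (Set.range <| ekC (d := d))).topologicalClosure : Set C(Torus d, ℂ)) ⊆
      {g : C(Torus d, ℂ) | ∫ x, f x * g x ∂(mu d) = 0} := by
    rw [Submodule.topologicalClosure_coe]
    exact closure_minimal (fun g hg => hspan g hg) hclosed
  exact hsub hmem

/-- uniqueness theorem for Fourier coefficients of integrable functions -/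
theorem ft_unique {f : Torus d → ℂ} (hf : Integrable f (mu d)) (h0 : ∀ k, ft f k = 0) :
    f =ᵐ[mu d] 0 := by
  apply ae_eq_zero_of_forall_setIntegral_isClosed_eq_zero hf
  intro s hs
  have h1 : ∀ n : ℕ, ∫ x, f x * ((hs.apprSeq n x : ℝ≥0) : ℂ) ∂(mu d) = 0 := by
    intro n
    have hc : Continuous (fun x => (((hs.apprSeq n x : ℝ≥0) : ℝ) : ℂ)) :=
      Complex.continuous_ofReal.comp (NNReal.continuous_coe.comp (hs.apprSeq n).continuous)
    exact pairing_zero hf h0 ⟨_, hc⟩
  have h2 : Tendsto (fun n : ℕ => ∫ x, f x * ((hs.apprSeq n x : ℝ≥0) : ℂ) ∂(mu d)) atTop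
      (𝓝 (∫ x, s.indicator f x ∂(mu d))) := by
    apply tendsto_integral_of_dominated_convergence (fun x => ‖f x‖)
    · intro n
      exact hf.1.mul (Complex.continuous_ofReal.comp
        (NNReal.continuous_coe.comp (hs.apprSeq n).continuous)).aestronglyMeasurable
    · exact hf.norm
    · intro n
      apply Filter.Eventually.of_forall; intro x
      rw [norm_mul]
      apply mul_le_of_le_one_right (norm_nonneg _)
      have := HasOuterApproxClosed.apprSeq_apply_le_one hs n x
      rw [Complex.norm_real, Real.norm_of_nonneg (NNReal.coe_nonneg _)]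
      exact_mod_cast this
    · apply Filter.Eventually.of_forall; intro x
      have h3 := tendsto_pi_nhds.1 (HasOuterApproxClosed.tendsto_apprSeq hs) x
      have h4 : s.indicator f x = f x * (((s.indicator (fun _ => (1 : ℝ≥0)) x : ℝ≥0) : ℝ) : ℂ) := by
        by_cases h : x ∈ s
        · simp [h]
        · simp [h]
      rw [h4]
      apply Tendsto.const_mul
      exact ((Complex.continuous_ofReal.comp NNReal.continuous_coe).tendsto _).comp h3
  simp only [h1] at h2
  rw [integral_indicator hs.measurableSet] at h2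
  exact tendsto_nhds_unique h2 tendsto_const_nhds

/-- the layer of frequencies of total level `l` -/
noncomputable def layer (d l : ℕ) : Finset (Fin d → ℤ) := (box (fun _ => l)).filter (fun k => tlev k = l)

lemma mem_layer {l : ℕ} {k : Fin d → ℤ} : k ∈ layer d l ↔ tlev k = l := by
  unfold layer
  rw [Finset.mem_filter]
  constructor
  · intro h; exact h.2
  · intro h
    refine ⟨?_, h⟩
    rw [mem_box]
    intro j
    have h1 : lev (k j) ≤ l := by
      rw [← h]; unfold tlev
      exact Finset.single_le_sum (f := fun j => lev (k j)) (fun _ _ => Nat.zero_le _) (Finset.mem_univ j)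
    have h2 := (lev_le_iff (k j) (l + 1)).1 (by omega)
    rw [abs_lt] at h2
    constructor
    · have := h2.1.le; exact_mod_cast this
    · have := h2.2.le; exact_mod_cast this

lemma inLayer_layer (l : ℕ) : inLayer l (layer d l) := fun _ hk => mem_layer.1 hk

/-- layer part -/
noncomputable def fl (f : Torus d → ℂ) (l : ℕ) (x : Torus d) : ℂ := tp (layer d l) (ft f) x

lemma BC_fl (f : Torus d → ℂ) (l : ℕ) : BC (fl f l) := BC_tp _ _

/-- a.e. convergence of the layer series -/
theorem ae_tendsto_layers {f : Torus d → ℂ} (hf : Integrable f (mu d))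
    (hs : Summable (fun l => ∫ x, ‖fl f l x‖ ∂(mu d))) :
    ∀ᵐ x ∂(mu d), Tendsto (fun L => ∑ l ∈ Finset.range L, fl f l x) atTop (𝓝 (f x)) := by
  have hmeas : ∀ l, Measurable (fl f l) := fun l => (BC_fl f l).1
  -- a.e. summability
  have h1 : ∑' l, ∫⁻ x, ‖fl f l x‖ₑ ∂(mu d) ≠ ∞ := by
    have e1 : ∀ l, ∫⁻ x, ‖fl f l x‖ₑ ∂(mu d) = ENNReal.ofReal (∫ x, ‖fl f l x‖ ∂(mu d)) := by
      intro l
      rw [ofReal_integral_norm_eq_lintegral_enorm (BC_fl f l).integrable]
    simp only [e1]
    rw [← ENNReal.ofReal_tsum_of_nonneg (fun l => integral_nonneg fun x => norm_nonneg _) hs]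
    exact ENNReal.ofReal_ne_top
  have h2 : ∀ᵐ x ∂(mu d), Summable (fun l => ‖fl f l x‖) := by
    have e1 : ∫⁻ x, ∑' l, ‖fl f l x‖ₑ ∂(mu d) ≠ ∞ := by
      rw [lintegral_tsum (fun l => (hmeas l).enorm.aemeasurable)]; exact h1
    have e2 := ae_lt_top' (AEMeasurable.tsum (fun l => (hmeas l).enorm.aemeasurable)) e1
    filter_upwards [e2] with x hx
    have e3 : ∑' l, ((‖fl f l x‖₊ : ℝ≥0) : ℝ≥0∞) ≠ ∞ := hx.ne
    have e4 := ENNReal.tsum_coe_ne_top_iff_summable.1 e3
    exact NNReal.summable_coe.2 e4
  set G : Torus d → ℂ := fun x => ∑' l, fl f l x with hG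
  have h3 : ∀ᵐ x ∂(mu d), Tendsto (fun L => ∑ l ∈ Finset.range L, fl f l x) atTop (𝓝 (G x)) := by
    filter_upwards [h2] with x hx
    exact (hx.of_norm).hasSum.tendsto_sum_nat
  have hGm : AEStronglyMeasurable G (mu d) := by
    apply aestronglyMeasurable_of_tendsto_ae atTop (f := fun L x => ∑ l ∈ Finset.range L, fl f l x) _ h3
    intro L
    exact (BC.sum (Finset.range L) (fun l _ => BC_fl f l)).1.aestronglyMeasurable
  have hGi : Integrable G (mu d) := by
    refine ⟨hGm, ?_⟩
    rw [hasFiniteIntegral_iff_enorm]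
    calc ∫⁻ x, ‖G x‖ₑ ∂(mu d) ≤ ∫⁻ x, ∑' l, ‖fl f l x‖ₑ ∂(mu d) := by
          apply lintegral_mono; intro x; exact enorm_tsum_le_tsum_enorm
      _ = ∑' l, ∫⁻ x, ‖fl f l x‖ₑ ∂(mu d) := lintegral_tsum (fun l => (hmeas l).enorm.aemeasurable)
      _ < ∞ := h1.lt_top
  have h4 : ∀ k, ft G k = ft f k := by
    intro k
    have e1 : ∀ l, Integrable (fun x => fl f l x * ek (-k) x) (mu d) := fun l =>
      ((BC_fl f l).mul (BC.ek _)).integrable
    have e2 : Summable (fun l => ∫ x, ‖fl f l x * ek (-k) x‖ ∂(mu d)) := by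
      refine hs.congr fun l => ?_
      congr 1; funext x; rw [norm_mul, norm_ek, mul_one]
    have e3 := integral_tsum_of_summable_integral_norm e1 e2
    have e4 : ft G k = ∫ x, ∑' l, fl f l x * ek (-k) x ∂(mu d) := by
      unfold ft; congr 1; funext x; rw [hG, tsum_mul_right]
    rw [e4, ← e3]
    have e5 : ∀ l, ∫ x, fl f l x * ek (-k) x ∂(mu d) = if k ∈ layer d l then ft f k else 0 := by
      intro l
      exact ft_tp (layer d l) (ft f) k
    simp only [e5]
    rw [tsum_eq_single (tlev k)]
    · rw [if_pos (mem_layer.2 rfl)]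
    · intro l hl
      rw [if_neg]
      intro h
      exact hl (mem_layer.1 h).symm
  have h5 : (fun x => f x + -G x) =ᵐ[mu d] 0 := by
    apply ft_unique (hf.add hGi.neg)
    intro k
    have e0 : ft (f + -G) k = ft (fun x => f x + (-G) x) k := rfl
    rw [e0, ft_add hf hGi.neg]
    have : ft (-G) k = - ft G k := by
      unfold ft
      rw [← integral_neg]; congr 1; funext x; rw [Pi.neg_apply]; ring
    rw [this, h4]; ring
  filter_upwards [h3, h5] with x hx3 hx5
  have : f x = G x := by
    have : f x + -G x = 0 := hx5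
    linear_combination this
  rw [this]; exact hx3

/-- closure of bounds under the layer series -/
theorem closure_bound {f : Torus d → ℂ} (hf : Integrable f (mu d))
    (hs : Summable (fun l => ∫ x, ‖fl f l x‖ ∂(mu d))) {G : Torus d → ℂ} (hG : BC G) {p : ℝ≥0∞}
    {E : ℝ≥0∞} {L₀ : ℕ}
    (h : ∀ L, L₀ ≤ L → eLpNorm (fun x => ∑ l ∈ Finset.range L, fl f l x - G x) p (mu d) ≤ E) :
    eLpNorm (fun x => f x - G x) p (mu d) ≤ E := by
  have h1 := ae_tendsto_layers hf hs
  apply Lp.eLpNorm_le_of_ae_tendsto (u := atTop)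
    (f := fun L x => ∑ l ∈ Finset.range L, fl f l x - G x)
  · filter_upwards [eventually_ge_atTop L₀] with L hL
    exact h L hL
  · intro L
    exact ((BC.sum (Finset.range L) (fun l _ => BC_fl f l)).sub hG).1.aestronglyMeasurable
  · filter_upwards [h1] with x hx
    exact hx.sub tendsto_const_nhds

end Pool.Agent.Helper935.MT
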