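import Pool.Agent.Helper935.MT.Clos

open MeasureTheory
open scoped ENNReal ComplexConjugate

namespace Pool.Agent.Helper935.MT

variable {d : ℕ}

lemma eLpNorm_eq {p : ℝ} (hp : 0 < p) {g : Torus d → ℂ} (hg : BC g) :
    eLpNorm g (ENNReal.ofReal p) (mu d) = ENNReal.ofReal (Np p g) := by
  have hmem : MemLp g (ENNReal.ofReal p) (mu d) := by
    obtain ⟨h1, C, hC⟩ := hg
    exact MemLp.of_bound h1.aestronglyMeasurable C (Filter.Eventually.of_forall hC)
  rw [MemLp.eLpNorm_eq_integral_rpow_norm (by simpa using hp) ENNReal.ofReal_ne_top hmem]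
  rw [ENNReal.toReal_ofReal hp.le, ← one_div]
  rfl

/-- representable with at most `M` frequencies -/
def Rep (M : ℝ) (G : Torus d → ℂ) : Prop :=
  ∃ (K : Finset (Fin d → ℤ)) (c : (Fin d → ℤ) → ℂ), (K.card : ℝ) ≤ M ∧ ∀ x, G x = tp K c x

lemma Rep.mono {M M' : ℝ} {G : Torus d → ℂ} (h : Rep M G) (hM : M ≤ M') : Rep M' G := by
  obtain ⟨K, c, h1, h2⟩ := h
  exact ⟨K, c, h1.trans hM, h2⟩

lemma rep_zero : Rep 0 (fun _ : Torus d => (0 : ℂ)) := ⟨∅, 0, by simp, fun x => by simp [tp]⟩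

lemma rep_tp (K : Finset (Fin d → ℤ)) (c : (Fin d → ℤ) → ℂ) : Rep (K.card : ℝ) (tp K c) :=
  ⟨K, c, le_rfl, fun _ => rfl⟩

lemma Rep.add {M M' : ℝ} {G G' : Torus d → ℂ} (h : Rep M G) (h' : Rep M' G') :
    Rep (M + M') (fun x => G x + G' x) := by
  classical
  obtain ⟨K, c, h1, h2⟩ := h
  obtain ⟨K', c', h1', h2'⟩ := h'
  refine ⟨K ∪ K', fun k => (if k ∈ K then c k else 0) + (if k ∈ K' then c' k else 0), ?_, fun x => ?_⟩
  · have : ((K ∪ K').card : ℝ) ≤ K.card + K'.card := by exact_mod_cast Finset.card_union_le K K'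
    linarith
  · beta_reduce
    rw [h2, h2']
    unfold tp
    simp only [add_mul, Finset.sum_add_distrib]
    congr 1
    · rw [← Finset.sum_subset (Finset.subset_union_left : K ⊆ K ∪ K')]
      · apply Finset.sum_congr rfl; intro k hk; rw [if_pos hk]
      · intro k _ hk; rw [if_neg hk, zero_mul]
    · rw [← Finset.sum_subset (Finset.subset_union_right : K' ⊆ K ∪ K')]
      · apply Finset.sum_congr rfl; intro k hk; rw [if_pos hk]
      · intro k _ hk; rw [if_neg hk, zero_mul]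

lemma Rep.sum {ι : Type*} (s : Finset ι) {M : ι → ℝ} {G : ι → Torus d → ℂ}
    (h : ∀ i ∈ s, Rep (M i) (G i)) : Rep (∑ i ∈ s, M i) (fun x => ∑ i ∈ s, G i x) := by
  classical
  induction s using Finset.induction_on with
  | empty => simpa using rep_zero
  | insert i s hi ih =>
    rw [Finset.sum_insert hi]
    have e : (fun x => ∑ j ∈ insert i s, G j x) = fun x => G i x + ∑ j ∈ s, G j x := by
      funext x; rw [Finset.sum_insert hi]
    rw [e]
    exact (h i (Finset.mem_insert_self _ _)).add (ih (fun j hj => h j (Finset.mem_insert_of_mem hj)))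

lemma Rep.BC {M : ℝ} {G : Torus d → ℂ} (h : Rep M G) : BC G := by
  obtain ⟨K, c, _, h2⟩ := h
  have : G = tp K c := funext h2
  rw [this]; exact BC_tp K c

lemma card_box_le (s : Fin d → ℕ) : ((box s).card : ℝ) ≤ 8 ^ d * 2 ^ (∑ j, s j) := by
  unfold box
  rw [Fintype.card_piFinset]
  push_cast
  calc ∏ j, ((Finset.Icc (-((2 : ℤ) ^ (s j + 1))) ((2 : ℤ) ^ (s j + 1))).card : ℝ) ≤ ∏ j, ((8 : ℝ) * 2 ^ (s j)) := by
        apply Finset.prod_le_prod (fun _ _ => Nat.cast_nonneg _)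
        intro j _
        rw [Int.card_Icc]
        have h1 : ((((2 : ℤ) ^ (s j + 1) + 1 - -(2 : ℤ) ^ (s j + 1)).toNat : ℕ) : ℝ) = 4 * 2 ^ (s j) + 1 := by
          have h2 : (2 : ℤ) ^ (s j + 1) + 1 - -(2 : ℤ) ^ (s j + 1) = ((4 * 2 ^ (s j) + 1 : ℕ) : ℤ) := by
            push_cast; ring
          rw [h2, Int.toNat_natCast]; push_cast; ring
        rw [h1]
        have : (1 : ℝ) ≤ 2 ^ (s j) := one_le_pow₀ (by norm_num)
        linarith
    _ = 8 ^ d * 2 ^ (∑ j, s j) := by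
        rw [Finset.prod_mul_distrib, Finset.prod_const, Finset.card_univ, Fintype.card_fin,
          Finset.prod_pow_eq_pow_sum]

/-- number of frequencies in a layer -/
lemma card_layer_le (hd : 0 < d) (l : ℕ) : ((layer d l).card : ℝ) ≤ 2 ^ d * 2 ^ l * (l + 1) ^ (d - 1) := by
  classical
  obtain ⟨e, rfl⟩ : ∃ e, d = e + 1 := ⟨d - 1, by omega⟩
  set T : Finset (Fin (e + 1) → ℕ) :=
    (Fintype.piFinset fun _ => Finset.range (l + 1)).filter (fun s => ∑ j, s j = l) with hT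
  set R : (Fin (e + 1) → ℕ) → Finset (Fin (e + 1) → ℤ) := fun s =>
    Fintype.piFinset fun j => Finset.Ioo (-((2 : ℤ) ^ (s j))) ((2 : ℤ) ^ (s j)) with hR
  have hsub : layer (e + 1) l ⊆ T.biUnion R := by
    intro k hk
    rw [mem_layer] at hk
    rw [Finset.mem_biUnion]
    refine ⟨fun j => lev (k j), ?_, ?_⟩
    · rw [hT, Finset.mem_filter, Fintype.mem_piFinset]
      refine ⟨fun j => ?_, hk⟩
      rw [Finset.mem_range]
      have : lev (k j) ≤ ∑ j, lev (k j) :=
        Finset.single_le_sum (f := fun j => lev (k j)) (fun _ _ => Nat.zero_le _) (Finset.mem_univ j)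
      unfold tlev at hk; omega
    · rw [hR, Fintype.mem_piFinset]
      intro j
      rw [Finset.mem_Ioo]
      have h2 := (lev_le_iff (k j) (lev (k j))).1 le_rfl
      rw [abs_lt] at h2
      constructor
      · have := h2.1; exact_mod_cast this
      · have := h2.2; exact_mod_cast this
  have hcardR : ∀ s ∈ T, (R s).card ≤ 2 ^ (e + 1) * 2 ^ l := by
    intro s hs
    rw [hT, Finset.mem_filter] at hs
    rw [hR, Fintype.card_piFinset]
    calc ∏ j, (Finset.Ioo (-((2 : ℤ) ^ (s j))) ((2 : ℤ) ^ (s j))).card ≤ ∏ j, (2 * 2 ^ (s j)) := by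
          apply Finset.prod_le_prod (fun _ _ => Nat.zero_le _)
          intro j _
          rw [Int.card_Ioo]
          have h2 : (2 : ℤ) ^ (s j) - -(2 : ℤ) ^ (s j) - 1 ≤ ((2 * 2 ^ (s j) : ℕ) : ℤ) := by
            push_cast; linarith
          omega
      _ = 2 ^ (e + 1) * 2 ^ l := by
          rw [Finset.prod_mul_distrib, Finset.prod_const, Finset.card_univ, Fintype.card_fin,
            Finset.prod_pow_eq_pow_sum, hs.2]
  have hcardT : T.card ≤ (l + 1) ^ e := by
    have h1 : T.card ≤ (Fintype.piFinset fun _ : Fin e => Finset.range (l + 1)).card := by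
      apply Finset.card_le_card_of_injOn (fun s => Fin.tail s)
      · intro s hs
        simp only [hT, Finset.coe_filter, Set.mem_ofPred_eq, Fintype.mem_piFinset] at hs
        simp only [Finset.mem_coe, Fintype.mem_piFinset]
        intro j; exact hs.1 _
      · intro s hs s' hs' heq
        simp only [hT, Finset.coe_filter, Set.mem_ofPred_eq] at hs hs'
        have e1 := hs.2
        have e2 := hs'.2
        rw [Fin.sum_univ_succ] at e1 e2
        have e3 : ∀ j : Fin e, s j.succ = s' j.succ := fun j => congrFun heq j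
        have e4 : ∑ j : Fin e, s j.succ = ∑ j : Fin e, s' j.succ := Finset.sum_congr rfl fun j _ => e3 j
        funext j
        refine Fin.cases ?_ ?_ j
        · omega
        · exact e3
    refine h1.trans (le_of_eq ?_)
    rw [Fintype.card_piFinset]; simp
  have h3 : (layer (e + 1) l).card ≤ (l + 1) ^ e * (2 ^ (e + 1) * 2 ^ l) := by
    calc (layer (e + 1) l).card ≤ (T.biUnion R).card := Finset.card_le_card hsub
      _ ≤ T.card * (2 ^ (e + 1) * 2 ^ l) := Finset.card_biUnion_le_card_mul T R _ hcardR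
      _ ≤ (l + 1) ^ e * (2 ^ (e + 1) * 2 ^ l) := Nat.mul_le_mul_right _ hcardT
  have h4 : ((layer (e + 1) l).card : ℝ) ≤ ((l + 1 : ℕ) : ℝ) ^ e * (2 ^ (e + 1) * 2 ^ l) := by exact_mod_cast h3
  refine h4.trans (le_of_eq ?_)
  simp only [Nat.add_sub_cancel]; push_cast; ring

/-- low layers cost -/
lemma rep_low (hd : 0 < d) (f : Torus d → ℂ) (n : ℕ) :
    Rep (2 ^ d * 2 ^ n * (n : ℝ) ^ (d - 1)) (fun x => ∑ l ∈ Finset.range n, fl f l x) := by
  have h1 : Rep (∑ l ∈ Finset.range n, ((layer d l).card : ℝ)) (fun x => ∑ l ∈ Finset.range n, fl f l x) :=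
    Rep.sum _ (fun l _ => rep_tp _ _)
  refine h1.mono ?_
  calc ∑ l ∈ Finset.range n, ((layer d l).card : ℝ) ≤ ∑ l ∈ Finset.range n, 2 ^ l * (2 ^ d * (n : ℝ) ^ (d - 1)) := by
        apply Finset.sum_le_sum; intro l hl
        rw [Finset.mem_range] at hl
        refine (card_layer_le hd l).trans ?_
        have h2 : ((l : ℝ) + 1) ^ (d - 1) ≤ (n : ℝ) ^ (d - 1) := by
          apply pow_le_pow_left₀ (by positivity)
          have : l + 1 ≤ n := hl
          exact_mod_cast this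
        calc (2 : ℝ) ^ d * 2 ^ l * ((l : ℝ) + 1) ^ (d - 1) ≤ 2 ^ d * 2 ^ l * (n : ℝ) ^ (d - 1) :=
              mul_le_mul_of_nonneg_left h2 (by positivity)
          _ = _ := by ring
    _ = (∑ l ∈ Finset.range n, (2 : ℝ) ^ l) * (2 ^ d * (n : ℝ) ^ (d - 1)) := by rw [Finset.sum_mul]
    _ ≤ 2 ^ n * (2 ^ d * (n : ℝ) ^ (d - 1)) := by
        apply mul_le_mul_of_nonneg_right _ (by positivity)
        rw [geom_sum_eq (by norm_num)]; norm_num
    _ = _ := by ring

lemma coef_bound {K : Finset (Fin d → ℤ)} {c : (Fin d → ℤ) → ℂ} {k : Fin d → ℤ} (hk : k ∈ K) :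
    ‖c k‖ ≤ ∫ x, ‖tp K c x‖ ∂(mu d) := by
  have h := norm_ft_le (f := tp K c) k
  rw [ft_tp, if_pos hk] at h
  exact h

/-- the Wiener norm of a layer -/
theorem wiener (d : ℕ) : ∃ C : ℝ, 0 < C ∧ ∀ (l : ℕ) (K : Finset (Fin d → ℤ)) (c : (Fin d → ℤ) → ℂ),
    inLayer l K → ∑ k ∈ K, ‖c k‖ ≤ C * 2 ^ l * ∫ x, ‖tp K c x‖ ∂(mu d) := by
  classical
  obtain ⟨C, hC0, hC⟩ := keyK (p := 2) (r := 2) (by rw [Real.holderConjugate_iff]; norm_num) le_rfl d
  refine ⟨(8 ^ d) ^ (1 / 2 : ℝ) * C, by positivity, fun l K c hK => ?_⟩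
  have h1 : ∑ k ∈ K, ‖c k‖ = ∑ s ∈ SS d l, ∑ k ∈ K, als s k * ‖c k‖ := by
    rw [Finset.sum_comm]
    apply Finset.sum_congr rfl; intro k hk
    rw [← Finset.sum_mul, sum_als (hK k hk), one_mul]
  have h2 : ∀ s ∈ SS d l, ∑ k ∈ K, als s k * ‖c k‖ ≤
      (8 ^ d * 2 ^ l) ^ (1 / 2 : ℝ) * Np 2 (As s (tp K c)) := by
    intro s hs
    have e1 : ∑ k ∈ K, als s k * ‖c k‖ = ∑ k ∈ K ∩ box s, 1 * (als s k * ‖c k‖) := by
      simp only [one_mul]
      symm
      apply Finset.sum_subset Finset.inter_subset_left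
      intro k hk hk2
      have : als s k = 0 := by
        by_contra hne
        apply hk2
        rw [Finset.mem_inter]
        refine ⟨hk, ?_⟩
        rw [mem_box]
        intro j
        have h2 := (als_ne_zero hne j).2
        rw [lev_le_iff, abs_lt] at h2
        constructor
        · have := h2.1.le; exact_mod_cast this
        · have := h2.2.le; exact_mod_cast this
      rw [this, zero_mul]
    rw [e1]
    have e2 := Real.inner_le_Lp_mul_Lq_of_nonneg (K ∩ box s) (p := 2) (q := 2)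
      (by rw [Real.holderConjugate_iff]; norm_num) (f := fun _ => (1 : ℝ)) (g := fun k => als s k * ‖c k‖)
      (fun _ _ => zero_le_one) (fun k _ => mul_nonneg (als_nonneg s k) (norm_nonneg _))
    refine e2.trans ?_
    have e3 : Np 2 (As s (tp K c)) = (∑ k ∈ K, (als s k * ‖c k‖) ^ 2) ^ (1 / 2 : ℝ) := by
      unfold Np
      rw [int_pow_two_eq]
      congr 1
      have : ∀ x, As s (tp K c) x = tp K (fun k => (als s k : ℂ) * c k) x := fun x => As_tp s K c x
      simp only [this]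
      rw [parseval]
      apply Finset.sum_congr rfl; intro k _
      rw [norm_mul, Complex.norm_real, Real.norm_of_nonneg (als_nonneg s k)]
    rw [e3]
    apply mul_le_mul
    · apply Real.rpow_le_rpow (Finset.sum_nonneg fun _ _ => by positivity) _ (by norm_num)
      simp only [Real.one_rpow, Finset.sum_const, nsmul_eq_mul, mul_one]
      have e4 : ((K ∩ box s).card : ℝ) ≤ (box s).card := by
        exact_mod_cast Finset.card_le_card Finset.inter_subset_right
      refine e4.trans ((card_box_le s).trans ?_)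
      apply mul_le_mul_of_nonneg_left _ (by positivity)
      exact pow_le_pow_right₀ (by norm_num) (mem_SS.1 hs).1
    · apply Real.rpow_le_rpow
      · exact Finset.sum_nonneg fun k _ => Real.rpow_nonneg (mul_nonneg (als_nonneg s k) (norm_nonneg _)) _
      · simp only [Real.rpow_two]
        apply Finset.sum_le_sum_of_subset_of_nonneg Finset.inter_subset_left
        intro k _ _; positivity
      · norm_num
    · apply Real.rpow_nonneg
      exact Finset.sum_nonneg fun k _ => Real.rpow_nonneg (mul_nonneg (als_nonneg s k) (norm_nonneg _)) _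
    · positivity
  rw [h1]
  calc ∑ s ∈ SS d l, ∑ k ∈ K, als s k * ‖c k‖
      ≤ ∑ s ∈ SS d l, (8 ^ d * 2 ^ l) ^ (1 / 2 : ℝ) * Np 2 (As s (tp K c)) := Finset.sum_le_sum h2
    _ = (8 ^ d * 2 ^ l) ^ (1 / 2 : ℝ) * ∑ s ∈ SS d l, Np 2 (As s (tp K c)) := by rw [Finset.mul_sum]
    _ ≤ (8 ^ d * 2 ^ l) ^ (1 / 2 : ℝ) * (C * 2 ^ ((l : ℝ) / 2) * ∫ x, ‖tp K c x‖ ∂(mu d)) :=
        mul_le_mul_of_nonneg_left (hC l K c hK) (by positivity)
    _ = (8 ^ d) ^ (1 / 2 : ℝ) * C * 2 ^ l * ∫ x, ‖tp K c x‖ ∂(mu d) := by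
        rw [Real.mul_rpow (by positivity) (by positivity)]
        have e5 : ((2 : ℝ) ^ l) ^ (1 / 2 : ℝ) * 2 ^ ((l : ℝ) / 2) = 2 ^ l := by
          rw [← Real.rpow_natCast 2 l, ← Real.rpow_mul (by norm_num), ← Real.rpow_add (by norm_num)]
          congr 1; ring
        calc (8 ^ d) ^ (1 / 2 : ℝ) * (2 ^ l) ^ (1 / 2 : ℝ) * (C * 2 ^ ((l : ℝ) / 2) * ∫ x, ‖tp K c x‖ ∂(mu d))
            = (8 ^ d) ^ (1 / 2 : ℝ) * C * ((2 ^ l) ^ (1 / 2 : ℝ) * 2 ^ ((l : ℝ) / 2)) *
              ∫ x, ‖tp K c x‖ ∂(mu d) := by ring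
          _ = _ := by rw [e5]

/-- `L_p` norm of a layer for `p ≥ 2` -/
theorem layer_Lp {p : ℝ} (hp : 2 ≤ p) (d : ℕ) : ∃ C : ℝ, 0 < C ∧
    ∀ (l : ℕ) (K : Finset (Fin d → ℤ)) (c : (Fin d → ℤ) → ℂ),
    inLayer l K → Np p (tp K c) ≤ C * 2 ^ ((1 - 1 / p) * l) * ∫ x, ‖tp K c x‖ ∂(mu d) := by
  obtain ⟨C, hC0, hC⟩ := wiener d
  have hp0 : 0 < p := by linarith
  refine ⟨C ^ (1 - 1 / p), by positivity, fun l K c hK => ?_⟩
  set I := ∫ x, ‖tp K c x‖ ∂(mu d) with hI
  have hI0 : 0 ≤ I := integral_nonneg fun x => norm_nonneg _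
  have hW := hC l K c hK
  rw [← hI] at hW
  have hsup : ∀ x, ‖tp K c x‖ ≤ C * 2 ^ l * I := by
    intro x
    refine le_trans ?_ hW
    unfold tp
    refine (norm_sum_le _ _).trans (le_of_eq ?_)
    apply Finset.sum_congr rfl; intro k _; rw [norm_mul, norm_ek, mul_one]
  have h2 : ∫ x, ‖tp K c x‖ ^ 2 ∂(mu d) ≤ C * 2 ^ l * I * I := by
    rw [parseval]
    calc ∑ k ∈ K, ‖c k‖ ^ 2 ≤ ∑ k ∈ K, ‖c k‖ * I := by
          apply Finset.sum_le_sum; intro k hk
          rw [pow_two]; exact mul_le_mul_of_nonneg_left (coef_bound hk) (norm_nonneg _)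
      _ = (∑ k ∈ K, ‖c k‖) * I := by rw [Finset.sum_mul]
      _ ≤ C * 2 ^ l * I * I := mul_le_mul_of_nonneg_right hW hI0
  have hBC := BC_tp K c
  have h3 : ∫ x, ‖tp K c x‖ ^ p ∂(mu d) ≤ (C * 2 ^ l * I) ^ (p - 2) * (C * 2 ^ l * I * I) := by
    calc ∫ x, ‖tp K c x‖ ^ p ∂(mu d) ≤ ∫ x, (C * 2 ^ l * I) ^ (p - 2) * ‖tp K c x‖ ^ 2 ∂(mu d) := by
          apply integral_mono ((BM_rpow' hBC.norm (fun x => norm_nonneg _) hp0.le).integrable _)
            (((hBC.norm.pow 2).integrable _).const_mul _)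
          intro x
          simp only
          rcases (norm_nonneg (tp K c x)).eq_or_lt with h0 | h0
          · rw [← h0, Real.zero_rpow hp0.ne']; simp
          · have : ‖tp K c x‖ ^ p = ‖tp K c x‖ ^ (p - 2) * ‖tp K c x‖ ^ 2 := by
              rw [← Real.rpow_natCast _ 2, ← Real.rpow_add h0]; congr 1; push_cast; ring
            rw [this]
            apply mul_le_mul_of_nonneg_right _ (by positivity)
            exact Real.rpow_le_rpow (norm_nonneg _) (hsup x) (by linarith)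
      _ = (C * 2 ^ l * I) ^ (p - 2) * ∫ x, ‖tp K c x‖ ^ 2 ∂(mu d) := integral_const_mul _ _
      _ ≤ _ := mul_le_mul_of_nonneg_left h2 (by positivity)
  have h4 : (C * 2 ^ l * I) ^ (p - 2) * (C * 2 ^ l * I * I) ≤ ((C * 2 ^ l) ^ (1 - 1 / p) * I) ^ p := by
    rcases hI0.eq_or_lt with h0 | h0
    · rw [← h0]; simp only [mul_zero]; positivity
    · have hA : 0 < C * 2 ^ l := by positivity
      rw [Real.mul_rpow hA.le hI0, Real.mul_rpow (by positivity) hI0, ← Real.rpow_mul hA.le]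
      have e1 : (1 - 1 / p) * p = (p - 2) + 1 := by field_simp; ring
      rw [e1, Real.rpow_add hA, Real.rpow_one]
      have e2 : I ^ p = I ^ (p - 2) * I ^ 2 := by
        rw [← Real.rpow_natCast _ 2, ← Real.rpow_add h0]; congr 1; push_cast; ring
      rw [e2]
      apply le_of_eq; ring
  unfold Np
  have h5 := Real.rpow_le_rpow (int_rpow_nonneg p _) (h3.trans h4) (by positivity : 0 ≤ 1 / p)
  rw [← Real.rpow_mul (by positivity), mul_one_div_cancel hp0.ne', Real.rpow_one] at h5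
  refine h5.trans (le_of_eq ?_)
  rw [Real.mul_rpow hC0.le (by positivity), ← Real.rpow_natCast 2 l, ← Real.rpow_mul (by norm_num),
    mul_comm (l : ℝ)]

end Pool.Agent.Helper935.MT
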