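import Pool.Agent.Helper935.MT.Torus

open MeasureTheory
open scoped ENNReal ComplexConjugate

namespace Pool.Agent.Helper935.MT

lemma sum_Icc_symm {α : Type*} [AddCommMonoid α] (f : ℤ → α) (M : ℕ) :
    ∑ k ∈ Finset.Icc (-(M : ℤ)) M, f k =
      f 0 + ∑ n ∈ Finset.range M, (f ((n : ℤ) + 1) + f (-((n : ℤ) + 1))) := by
  induction M with
  | zero => simp
  | succ M ih =>
    rw [Finset.sum_range_succ, ← add_assoc, ← ih]
    have h1 : Finset.Icc (-((M + 1 : ℕ) : ℤ)) ((M + 1 : ℕ) : ℤ) =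
        insert ((M : ℤ) + 1) (insert (-((M : ℤ) + 1)) (Finset.Icc (-(M : ℤ)) M)) := by
      ext k; simp only [Finset.mem_Icc, Finset.mem_insert]; push_cast; omega
    rw [h1, Finset.sum_insert, Finset.sum_insert]
    · abel
    · simp only [Finset.mem_Icc]; omega
    · simp only [Finset.mem_Icc, Finset.mem_insert]; omega

/-- Fejer weights -/
noncomputable def eta (N : ℕ) (k : ℤ) : ℝ := max 0 (1 - |(k : ℝ)| / N)

lemma eta_nonneg (N : ℕ) (k : ℤ) : 0 ≤ eta N k := le_max_left _ _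

lemma eta_le_one (N : ℕ) (k : ℤ) : eta N k ≤ 1 := by
  unfold eta
  apply max_le (by norm_num)
  have : 0 ≤ |(k : ℝ)| / N := by positivity
  linarith

lemma eta_of_le {N : ℕ} (hN : 0 < N) {k : ℤ} (hk : |(k : ℝ)| ≤ N) : eta N k = 1 - |(k : ℝ)| / N := by
  unfold eta
  rw [max_eq_right]
  have hN' : (0 : ℝ) < N := by exact_mod_cast hN
  have : |(k : ℝ)| / N ≤ 1 := by rw [div_le_one hN']; exact hk
  linarith

lemma eta_of_ge {N : ℕ} (hN : 0 < N) {k : ℤ} (hk : (N : ℝ) ≤ |(k : ℝ)|) : eta N k = 0 := by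
  unfold eta
  rw [max_eq_left]
  have hN' : (0 : ℝ) < N := by exact_mod_cast hN
  have : 1 ≤ |(k : ℝ)| / N := by rw [one_le_div hN']; exact hk
  linarith

lemma eta_neg (N : ℕ) (k : ℤ) : eta N (-k) = eta N k := by unfold eta; simp

/-- the Fejer kernel -/
noncomputable def fej (N : ℕ) (t : Circ) : ℂ :=
  ∑ k ∈ Finset.Icc (-(N : ℤ)) N, (eta N k : ℂ) * fourier k t

lemma fourier_mul_neg (k : ℤ) (t : Circ) : (fourier k t : ℂ) * fourier (-k) t = 1 := by
  rw [← fourier_add]; simp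

lemma fej_identity (N : ℕ) (t : Circ) :
    ∑ k ∈ Finset.Icc (-(N : ℤ)) N, (((N : ℝ) - |(k : ℝ)| : ℝ) : ℂ) * fourier k t =
      ((‖∑ j ∈ Finset.range N, (fourier (j : ℤ) t : ℂ)‖ ^ 2 : ℝ) : ℂ) := by
  rw [sum_Icc_symm (fun k => (((N : ℝ) - |(k : ℝ)| : ℝ) : ℂ) * fourier k t)]
  have habs : ∀ n : ℕ, |(((n : ℤ) + 1 : ℤ) : ℝ)| = (n : ℝ) + 1 := by
    intro n; rw [abs_of_nonneg (by positivity)]; push_cast; ring
  have habs' : ∀ n : ℕ, |((-((n : ℤ) + 1) : ℤ) : ℝ)| = (n : ℝ) + 1 := by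
    intro n; push_cast; rw [abs_neg, abs_of_nonneg (by positivity)]
  simp only [habs, habs']
  induction N with
  | zero => simp
  | succ N ih =>
    have hnorm : ((‖∑ j ∈ Finset.range (N + 1), (fourier (j : ℤ) t : ℂ)‖ ^ 2 : ℝ) : ℂ) =
        ((‖∑ j ∈ Finset.range N, (fourier (j : ℤ) t : ℂ)‖ ^ 2 : ℝ) : ℂ) + 1 +
          ∑ n ∈ Finset.range N, ((fourier ((n : ℤ) + 1) t : ℂ) + fourier (-((n : ℤ) + 1)) t) := by
      have h1 : ∀ w : ℂ, ((‖w‖ ^ 2 : ℝ) : ℂ) = w * conj w := by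
        intro w; rw [Complex.mul_conj, Complex.normSq_eq_norm_sq]
      rw [h1, h1, Finset.sum_range_succ, map_add]
      have h2 : (fourier (N : ℤ) t : ℂ) * conj (fourier (N : ℤ) t) = 1 := by
        rw [← fourier_neg, fourier_mul_neg]
      have h3 : (fourier (N : ℤ) t : ℂ) * conj (∑ j ∈ Finset.range N, (fourier (j : ℤ) t : ℂ)) =
          ∑ n ∈ Finset.range N, (fourier ((n : ℤ) + 1) t : ℂ) := by
        rw [map_sum, Finset.mul_sum, ← Finset.sum_range_reflect]
        apply Finset.sum_congr rfl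
        intro j hj
        rw [Finset.mem_range] at hj
        rw [← fourier_neg, ← fourier_add]
        congr 2
        have : ((N - 1 - j : ℕ) : ℤ) = N - 1 - j := by omega
        rw [this]; ring
      have h4 : (∑ j ∈ Finset.range N, (fourier (j : ℤ) t : ℂ)) * conj (fourier (N : ℤ) t) =
          ∑ n ∈ Finset.range N, (fourier (-((n : ℤ) + 1)) t : ℂ) := by
        rw [Finset.sum_mul, ← Finset.sum_range_reflect]
        apply Finset.sum_congr rfl
        intro j hj
        rw [Finset.mem_range] at hj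
        rw [← fourier_neg, ← fourier_add]
        congr 2
        have : ((N - 1 - j : ℕ) : ℤ) = N - 1 - j := by omega
        rw [this]; ring
      rw [Finset.sum_add_distrib, ← h3, ← h4]
      linear_combination h2
    rw [hnorm, ← ih, Finset.sum_range_succ]
    have h5 : ∀ x ∈ Finset.range N,
        ((((N + 1 : ℕ) : ℝ) - ((x : ℝ) + 1) : ℝ) : ℂ) * fourier ((x : ℤ) + 1) t +
          ((((N + 1 : ℕ) : ℝ) - ((x : ℝ) + 1) : ℝ) : ℂ) * fourier (-((x : ℤ) + 1)) t =
        ((((N : ℝ) - ((x : ℝ) + 1) : ℝ) : ℂ) * fourier ((x : ℤ) + 1) t +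
          (((N : ℝ) - ((x : ℝ) + 1) : ℝ) : ℂ) * fourier (-((x : ℤ) + 1)) t) +
        ((fourier ((x : ℤ) + 1) t : ℂ) + fourier (-((x : ℤ) + 1)) t) := by
      intro x _; push_cast; ring
    rw [Finset.sum_congr rfl h5, Finset.sum_add_distrib]
    simp only [Int.cast_zero, abs_zero, sub_zero, fourier_zero]
    push_cast
    ring

lemma fej_eq {N : ℕ} (hN : 0 < N) (t : Circ) :
    fej N t = (((N : ℝ)⁻¹ * ‖∑ j ∈ Finset.range N, (fourier (j : ℤ) t : ℂ)‖ ^ 2 : ℝ) : ℂ) := by
  have hN' : (0 : ℝ) < N := by exact_mod_cast hN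
  rw [Complex.ofReal_mul, ← fej_identity, Finset.mul_sum]
  unfold fej
  apply Finset.sum_congr rfl
  intro k hk
  rw [Finset.mem_Icc] at hk
  have h1 : |(k : ℝ)| ≤ N := by
    rw [abs_le]; constructor
    · have := hk.1; exact_mod_cast this
    · have := hk.2; exact_mod_cast this
  rw [eta_of_le hN h1]
  have h2 : 1 - |(k : ℝ)| / N = (N : ℝ)⁻¹ * ((N : ℝ) - |(k : ℝ)|) := by field_simp
  rw [h2]; push_cast; ring

lemma norm_fej {N : ℕ} (hN : 0 < N) (t : Circ) : ((‖fej N t‖ : ℝ) : ℂ) = fej N t := by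
  rw [fej_eq hN, Complex.norm_real, Real.norm_of_nonneg (by positivity)]

lemma continuous_fej (N : ℕ) : Continuous (fej N) := by
  unfold fej
  exact continuous_finsetSum _ (fun k _ => continuous_const.mul (fourier k).continuous)

lemma integral_norm_fej {N : ℕ} (hN : 0 < N) : ∫ t, ‖fej N t‖ ∂AddCircle.haarAddCircle = 1 := by
  have h1 : ((∫ t, ‖fej N t‖ ∂AddCircle.haarAddCircle : ℝ) : ℂ) = 1 := by
    rw [← integral_complex_ofReal]
    simp only [norm_fej hN]
    unfold fej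
    rw [integral_finsetSum _ (fun k _ => ?_)]
    · simp only [integral_const_mul, integral_fourier]
      rw [Finset.sum_eq_single 0]
      · have : eta N 0 = 1 := by unfold eta; simp
        simp [this]
      · intro k _ hk; simp [hk]
      · intro h; exfalso; apply h; rw [Finset.mem_Icc]; constructor <;> omega
    · exact (continuous_const.mul (fourier k).continuous).integrable_of_hasCompactSupport
        (HasCompactSupport.of_compactSpace _)
  exact_mod_cast h1

lemma norm_fej_le {N : ℕ} (hN : 0 < N) (t : Circ) : ‖fej N t‖ ≤ N := by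
  have hN' : (0 : ℝ) < N := by exact_mod_cast hN
  rw [fej_eq hN, Complex.norm_real, Real.norm_of_nonneg (by positivity)]
  have h1 : ‖∑ j ∈ Finset.range N, (fourier (j : ℤ) t : ℂ)‖ ≤ N := by
    refine (norm_sum_le _ _).trans ?_
    simp only [norm_fourier]; simp
  calc (N : ℝ)⁻¹ * ‖∑ j ∈ Finset.range N, (fourier (j : ℤ) t : ℂ)‖ ^ 2 ≤ (N : ℝ)⁻¹ * (N : ℝ) ^ 2 := by
        apply mul_le_mul_of_nonneg_left _ (by positivity)
        exact pow_le_pow_left₀ (norm_nonneg _) h1 2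
    _ = (N : ℝ) := by field_simp

lemma fej_neg (N : ℕ) (t : Circ) : fej N (-t) = fej N t := by
  unfold fej
  rw [sum_Icc_symm (fun k => (eta N k : ℂ) * fourier k (-t)),
    sum_Icc_symm (fun k => (eta N k : ℂ) * fourier k t)]
  congr 1
  · simp
  · apply Finset.sum_congr rfl; intro n _
    rw [fourier_arg_neg, fourier_arg_neg, eta_neg, neg_neg]; ring

lemma fej_extend {N M : ℕ} (hN : 0 < N) (hNM : N ≤ M) (t : Circ) :
    fej N t = ∑ k ∈ Finset.Icc (-(M : ℤ)) M, (eta N k : ℂ) * fourier k t := by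
  unfold fej
  apply Finset.sum_subset
  · intro k hk; rw [Finset.mem_Icc] at hk ⊢; omega
  · intro k _ hk
    rw [Finset.mem_Icc] at hk
    rw [eta_of_ge hN, Complex.ofReal_zero, zero_mul]
    rw [not_and_or, not_le, not_le] at hk
    rcases hk with h | h
    · have h1 : (k : ℝ) < -(N : ℝ) := by exact_mod_cast h
      rw [le_abs]; right; linarith
    · have h1 : (N : ℝ) < (k : ℝ) := by exact_mod_cast h
      rw [le_abs]; left; linarith

/-! ### de la Vallee Poussin type weights -/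

/-- low pass weight: `1` for `|k| ≤ 2^j`, `0` for `|k| ≥ 2^(j+1)` -/
noncomputable def vw (j : ℕ) (k : ℤ) : ℝ := 2 * eta (2 ^ (j + 1)) k - eta (2 ^ j) k

lemma vw_formula (j : ℕ) (k : ℤ) : vw j k = max 0 (min 1 (2 - |(k : ℝ)| / 2 ^ j)) := by
  unfold vw
  have h2 : (0 : ℝ) < 2 ^ j := by positivity
  have hc1 : (((2 ^ j : ℕ)) : ℝ) = 2 ^ j := by push_cast; ring
  have hc2 : (((2 ^ (j + 1) : ℕ)) : ℝ) = 2 ^ (j + 1) := by push_cast; ring
  rcases le_total |(k : ℝ)| (2 ^ j) with h | h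
  · have h3 : |(k : ℝ)| / 2 ^ j ≤ 1 := by rw [div_le_one h2]; exact h
    rw [eta_of_le (by positivity) (by rw [hc2, pow_succ]; linarith),
      eta_of_le (by positivity) (by rw [hc1]; exact h), hc1, hc2, pow_succ]
    rw [min_eq_left (by linarith), max_eq_right (by norm_num)]
    field_simp; ring
  · have h3 : 1 ≤ |(k : ℝ)| / 2 ^ j := by rw [one_le_div h2]; exact h
    rw [eta_of_ge (N := 2 ^ j) (by positivity) (by rw [hc1]; exact h), sub_zero,
      min_eq_right (by linarith)]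
    rcases le_total |(k : ℝ)| (2 ^ (j + 1)) with h4 | h4
    · have h5 : |(k : ℝ)| / 2 ^ j ≤ 2 := by rw [div_le_iff₀ h2]; rw [pow_succ] at h4; linarith
      rw [eta_of_le (by positivity) (by rw [hc2]; exact h4), hc2, max_eq_right (by linarith), pow_succ]
      field_simp
    · have h5 : 2 ≤ |(k : ℝ)| / 2 ^ j := by rw [le_div_iff₀ h2]; rw [pow_succ] at h4; linarith
      rw [eta_of_ge (by positivity) (by rw [hc2]; exact h4), max_eq_left (by linarith)]
      ring

lemma vw_nonneg (j : ℕ) (k : ℤ) : 0 ≤ vw j k := by rw [vw_formula]; exact le_max_left _ _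

lemma vw_le_one (j : ℕ) (k : ℤ) : vw j k ≤ 1 := by
  rw [vw_formula]; exact max_le (by norm_num) (min_le_left _ _)

lemma vw_mono {i j : ℕ} (hij : i ≤ j) (k : ℤ) : vw i k ≤ vw j k := by
  rw [vw_formula, vw_formula]
  apply max_le_max_left
  apply min_le_min_left
  have h1 : (2 : ℝ) ^ i ≤ 2 ^ j := pow_le_pow_right₀ (by norm_num) hij
  have : |(k : ℝ)| / 2 ^ j ≤ |(k : ℝ)| / 2 ^ i :=
    div_le_div_of_nonneg_left (abs_nonneg _) (by positivity) h1
  linarith

lemma vw_one {j : ℕ} {k : ℤ} (h : |(k : ℝ)| ≤ 2 ^ j) : vw j k = 1 := by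
  rw [vw_formula]
  have h2 : (0 : ℝ) < 2 ^ j := by positivity
  have h3 : |(k : ℝ)| / 2 ^ j ≤ 1 := by rw [div_le_one h2]; exact h
  rw [min_eq_left (by linarith), max_eq_right (by norm_num)]

lemma vw_zero {j : ℕ} {k : ℤ} (h : (2 : ℝ) ^ (j + 1) ≤ |(k : ℝ)|) : vw j k = 0 := by
  rw [vw_formula]
  have h2 : (0 : ℝ) < 2 ^ j := by positivity
  have h3 : 2 ≤ |(k : ℝ)| / 2 ^ j := by rw [le_div_iff₀ h2]; rw [pow_succ] at h; linarith
  rw [max_eq_left]
  exact (min_le_right _ _).trans (by linarith)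

lemma vw_neg (j : ℕ) (k : ℤ) : vw j (-k) = vw j k := by unfold vw; rw [eta_neg, eta_neg]

/-- dyadic smooth weights -/
noncomputable def al : ℕ → ℤ → ℝ
  | 0, k => vw 0 k
  | (j + 1), k => vw (j + 1) k - vw j k

lemma al_nonneg (j : ℕ) (k : ℤ) : 0 ≤ al j k := by
  cases j with
  | zero => exact vw_nonneg 0 k
  | succ j => simp only [al]; linarith [vw_mono (Nat.le_succ j) k]

lemma al_le_one (j : ℕ) (k : ℤ) : al j k ≤ 1 := by
  cases j with
  | zero => exact vw_le_one 0 k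
  | succ j => simp only [al]; linarith [vw_le_one (j + 1) k, vw_nonneg j k]

lemma al_neg (j : ℕ) (k : ℤ) : al j (-k) = al j k := by
  cases j with
  | zero => exact vw_neg 0 k
  | succ j => simp only [al]; rw [vw_neg, vw_neg]

lemma sum_al (J : ℕ) (k : ℤ) : ∑ j ∈ Finset.range (J + 1), al j k = vw J k := by
  induction J with
  | zero => simp [al]
  | succ J ih => rw [Finset.sum_range_succ, ih]; simp only [al]; ring

lemma al_zero_of_large {j : ℕ} {k : ℤ} (h : (2 : ℝ) ^ (j + 1) ≤ |(k : ℝ)|) : al j k = 0 := by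
  cases j with
  | zero => exact vw_zero h
  | succ j =>
    simp only [al]
    rw [vw_zero h, vw_zero]
    · ring
    · refine le_trans ?_ h
      exact pow_le_pow_right₀ (by norm_num) (by omega)

lemma al_zero_of_small {j : ℕ} {k : ℤ} (h : |(k : ℝ)| ≤ 2 ^ j) : al (j + 1) k = 0 := by
  simp only [al]
  rw [vw_one h, vw_one]
  · ring
  · refine h.trans ?_
    exact pow_le_pow_right₀ (by norm_num) (by omega)

/-- 1-D kernel of a low pass operator -/
noncomputable def Vk (j : ℕ) (t : Circ) : ℂ :=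
  ∑ k ∈ Finset.Icc (-((2 : ℤ) ^ (j + 1))) ((2 : ℤ) ^ (j + 1)), (vw j k : ℂ) * fourier k t

lemma Vk_eq (j : ℕ) (t : Circ) : Vk j t = 2 * fej (2 ^ (j + 1)) t - fej (2 ^ j) t := by
  unfold Vk
  rw [fej_extend (N := 2 ^ j) (M := 2 ^ (j + 1)) (by positivity)
    (Nat.pow_le_pow_right (by norm_num) (by omega))]
  unfold fej
  rw [Finset.mul_sum, ← Finset.sum_sub_distrib]
  have : ((2 ^ (j + 1) : ℕ) : ℤ) = (2 : ℤ) ^ (j + 1) := by push_cast; ring
  rw [this]
  apply Finset.sum_congr rfl; intro k _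
  unfold vw; push_cast; ring

lemma continuous_Vk (j : ℕ) : Continuous (Vk j) := by
  unfold Vk
  exact continuous_finsetSum _ (fun k _ => continuous_const.mul (fourier k).continuous)

lemma Vk_neg (j : ℕ) (t : Circ) : Vk j (-t) = Vk j t := by
  rw [Vk_eq, Vk_eq, fej_neg, fej_neg]

lemma norm_Vk_le (j : ℕ) (t : Circ) : ‖Vk j t‖ ≤ 5 * 2 ^ j := by
  rw [Vk_eq]
  refine (norm_sub_le _ _).trans ?_
  rw [norm_mul]
  have h1 := norm_fej_le (N := 2 ^ (j + 1)) (by positivity) t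
  have h2 := norm_fej_le (N := 2 ^ j) (by positivity) t
  push_cast at h1 h2
  simp only [Complex.norm_ofNat]
  have h3 : (2 : ℝ) ^ (j + 1) = 2 * 2 ^ j := by ring
  rw [h3] at h1
  linarith

lemma int_of_cont {f : Circ → ℝ} (hf : Continuous f) : Integrable f AddCircle.haarAddCircle :=
  hf.integrable_of_hasCompactSupport (HasCompactSupport.of_compactSpace _)

lemma integral_norm_Vk_le (j : ℕ) : ∫ t, ‖Vk j t‖ ∂AddCircle.haarAddCircle ≤ 3 := by
  have h1 : ∀ t, ‖Vk j t‖ ≤ 2 * ‖fej (2 ^ (j + 1)) t‖ + ‖fej (2 ^ j) t‖ := by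
    intro t
    rw [Vk_eq]
    refine (norm_sub_le _ _).trans ?_
    rw [norm_mul]; simp
  calc ∫ t, ‖Vk j t‖ ∂AddCircle.haarAddCircle
      ≤ ∫ t, (2 * ‖fej (2 ^ (j + 1)) t‖ + ‖fej (2 ^ j) t‖) ∂AddCircle.haarAddCircle :=
        integral_mono (int_of_cont (continuous_Vk j).norm)
          (int_of_cont ((continuous_const.mul (continuous_fej _).norm).add (continuous_fej _).norm)) h1
    _ = 3 := by
        rw [integral_add ((int_of_cont (continuous_fej _).norm).const_mul 2)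
          (int_of_cont (continuous_fej _).norm), integral_const_mul, integral_norm_fej (by positivity),
          integral_norm_fej (by positivity)]
        norm_num

/-- 1-D kernel of a block operator -/
noncomputable def Ak (j : ℕ) (t : Circ) : ℂ :=
  ∑ k ∈ Finset.Icc (-((2 : ℤ) ^ (j + 1))) ((2 : ℤ) ^ (j + 1)), (al j k : ℂ) * fourier k t

lemma Ak_zero (t : Circ) : Ak 0 t = Vk 0 t := rfl

lemma Ak_succ (j : ℕ) (t : Circ) : Ak (j + 1) t = Vk (j + 1) t - Vk j t := by
  have h1 : Vk j t = ∑ k ∈ Finset.Icc (-((2 : ℤ) ^ (j + 1 + 1))) ((2 : ℤ) ^ (j + 1 + 1)),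
      (vw j k : ℂ) * fourier k t := by
    unfold Vk
    have hle : (2 : ℤ) ^ (j + 1) ≤ 2 ^ (j + 1 + 1) := pow_le_pow_right₀ (by norm_num) (by omega)
    apply Finset.sum_subset
    · intro k hk; rw [Finset.mem_Icc] at hk ⊢; omega
    · intro k _ hk
      rw [Finset.mem_Icc, not_and_or, not_le, not_le] at hk
      rw [vw_zero, Complex.ofReal_zero, zero_mul]
      rcases hk with h | h
      · have h1 : (k : ℝ) < -(2 : ℝ) ^ (j + 1) := by exact_mod_cast h
        rw [le_abs]; right; linarith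
      · have h1 : (2 : ℝ) ^ (j + 1) < (k : ℝ) := by exact_mod_cast h
        rw [le_abs]; left; linarith
  rw [h1]
  unfold Ak Vk
  rw [← Finset.sum_sub_distrib]
  apply Finset.sum_congr rfl; intro k _
  simp only [al]; push_cast; ring

lemma continuous_Ak (j : ℕ) : Continuous (Ak j) := by
  unfold Ak
  exact continuous_finsetSum _ (fun k _ => continuous_const.mul (fourier k).continuous)

lemma Ak_neg (j : ℕ) (t : Circ) : Ak j (-t) = Ak j t := by
  cases j with
  | zero => rw [Ak_zero, Ak_zero, Vk_neg]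
  | succ j => rw [Ak_succ, Ak_succ, Vk_neg, Vk_neg]

lemma norm_Ak_le (j : ℕ) (t : Circ) : ‖Ak j t‖ ≤ 8 * 2 ^ j := by
  cases j with
  | zero => rw [Ak_zero]; have := norm_Vk_le 0 t; linarith
  | succ j =>
    rw [Ak_succ]
    refine (norm_sub_le _ _).trans ?_
    have h1 := norm_Vk_le (j + 1) t
    have h2 := norm_Vk_le j t
    have h3 : (2 : ℝ) ^ (j + 1) = 2 * 2 ^ j := by ring
    rw [h3] at h1 ⊢
    have : (0 : ℝ) < 2 ^ j := by positivity
    linarith

lemma integral_norm_Ak_le (j : ℕ) : ∫ t, ‖Ak j t‖ ∂AddCircle.haarAddCircle ≤ 6 := by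
  cases j with
  | zero =>
    have h : ∀ t, Ak 0 t = Vk 0 t := Ak_zero
    simp only [h]
    linarith [integral_norm_Vk_le 0]
  | succ j =>
    have h1 : ∀ t, ‖Ak (j + 1) t‖ ≤ ‖Vk (j + 1) t‖ + ‖Vk j t‖ := by
      intro t; rw [Ak_succ]; exact norm_sub_le _ _
    calc ∫ t, ‖Ak (j + 1) t‖ ∂AddCircle.haarAddCircle
        ≤ ∫ t, (‖Vk (j + 1) t‖ + ‖Vk j t‖) ∂AddCircle.haarAddCircle :=
          integral_mono (int_of_cont (continuous_Ak _).norm)
            (int_of_cont ((continuous_Vk _).norm.add (continuous_Vk _).norm)) h1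
      _ ≤ 6 := by
          rw [integral_add (int_of_cont (continuous_Vk _).norm) (int_of_cont (continuous_Vk _).norm)]
          linarith [integral_norm_Vk_le (j + 1), integral_norm_Vk_le j]

/-- 1-D majorant kernel -/
noncomputable def Mk (j : ℕ) (t : Circ) : ℝ := ‖Ak j t‖ + ‖Vk (j + 1) t‖

lemma continuous_Mk (j : ℕ) : Continuous (Mk j) := (continuous_Ak j).norm.add (continuous_Vk _).norm

lemma Mk_nonneg (j : ℕ) (t : Circ) : 0 ≤ Mk j t := add_nonneg (norm_nonneg _) (norm_nonneg _)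

lemma Mk_neg (j : ℕ) (t : Circ) : Mk j (-t) = Mk j t := by unfold Mk; rw [Ak_neg, Vk_neg]

lemma Mk_le (j : ℕ) (t : Circ) : Mk j t ≤ 18 * 2 ^ j := by
  unfold Mk
  have h1 := norm_Ak_le j t
  have h2 := norm_Vk_le (j + 1) t
  have h3 : (2 : ℝ) ^ (j + 1) = 2 * 2 ^ j := by ring
  rw [h3] at h2
  linarith

lemma integral_Mk_le (j : ℕ) : ∫ t, Mk j t ∂AddCircle.haarAddCircle ≤ 18 := by
  unfold Mk
  rw [integral_add (int_of_cont (continuous_Ak _).norm) (int_of_cont (continuous_Vk _).norm)]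
  linarith [integral_norm_Ak_le j, integral_norm_Vk_le (j + 1)]

lemma Mk_conv_le (i j : ℕ) (x z : Circ) :
    ∫ y, Mk i (x - y) * Mk j (y - z) ∂AddCircle.haarAddCircle ≤ 18 ^ 2 * 2 ^ (min i j) := by
  have hc : ∀ i' (f : Circ → Circ), Continuous f → Integrable (fun y => Mk i' (f y)) AddCircle.haarAddCircle :=
    fun i' f hf => int_of_cont ((continuous_Mk i').comp hf)
  have hint : Integrable (fun y => Mk i (x - y) * Mk j (y - z)) AddCircle.haarAddCircle :=
    int_of_cont (((continuous_Mk i).comp (by fun_prop)).mul ((continuous_Mk j).comp (by fun_prop)))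
  rcases le_total i j with h | h
  · rw [min_eq_left h]
    calc ∫ y, Mk i (x - y) * Mk j (y - z) ∂AddCircle.haarAddCircle
        ≤ ∫ y, (18 * 2 ^ i) * Mk j (y - z) ∂AddCircle.haarAddCircle :=
          integral_mono hint ((hc j _ (by fun_prop)).const_mul _)
            (fun y => mul_le_mul_of_nonneg_right (Mk_le _ _) (Mk_nonneg _ _))
      _ = (18 * 2 ^ i) * ∫ y, Mk j y ∂AddCircle.haarAddCircle := by
          rw [integral_const_mul, integral_sub_right_eq_self (fun y => Mk j y) z]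
      _ ≤ (18 * 2 ^ i) * 18 := mul_le_mul_of_nonneg_left (integral_Mk_le j) (by positivity)
      _ = 18 ^ 2 * 2 ^ i := by ring
  · rw [min_eq_right h]
    calc ∫ y, Mk i (x - y) * Mk j (y - z) ∂AddCircle.haarAddCircle
        ≤ ∫ y, Mk i (x - y) * (18 * 2 ^ j) ∂AddCircle.haarAddCircle :=
          integral_mono hint ((hc i _ (by fun_prop)).mul_const _)
            (fun y => mul_le_mul_of_nonneg_left (Mk_le _ _) (Mk_nonneg _ _))
      _ = (∫ y, Mk i y ∂AddCircle.haarAddCircle) * (18 * 2 ^ j) := by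
          rw [integral_mul_const, integral_sub_left_eq_self (fun y => Mk i y) AddCircle.haarAddCircle x]
      _ ≤ 18 * (18 * 2 ^ j) := mul_le_mul_of_nonneg_right (integral_Mk_le i) (by positivity)
      _ = 18 ^ 2 * 2 ^ j := by ring

/-! ### product kernels -/

variable {d : ℕ}

/-- product majorant kernel -/
noncomputable def MM (s : Fin d → ℕ) (x : Torus d) : ℝ := ∏ j, Mk (s j) (x j)

lemma continuous_MM (s : Fin d → ℕ) : Continuous (MM s) :=
  continuous_finsetProd _ (fun j _ => (continuous_Mk (s j)).comp (continuous_apply j))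

lemma BM_MM (s : Fin d → ℕ) : BM (MM s) := BM.of_continuous (continuous_MM s)

lemma MM_nonneg (s : Fin d → ℕ) (x : Torus d) : 0 ≤ MM s x := Finset.prod_nonneg fun _ _ => Mk_nonneg _ _

lemma MM_neg (s : Fin d → ℕ) (x : Torus d) : MM s (-x) = MM s x := by
  unfold MM; apply Finset.prod_congr rfl; intro j _; rw [Pi.neg_apply, Mk_neg]

lemma integral_MM_le (s : Fin d → ℕ) : ∫ x, MM s x ∂(mu d) ≤ 18 ^ d := by
  unfold MM mu
  rw [integral_fintype_prod_eq_prod (fun j t => Mk (s j) t)]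
  calc ∏ j, ∫ t, Mk (s j) t ∂AddCircle.haarAddCircle ≤ ∏ _j : Fin d, (18 : ℝ) :=
        Finset.prod_le_prod (fun _ _ => integral_nonneg fun _ => Mk_nonneg _ _) (fun j _ => integral_Mk_le _)
    _ = 18 ^ d := by simp

lemma integral_MM_nonneg (s : Fin d → ℕ) : 0 ≤ ∫ x, MM s x ∂(mu d) := integral_nonneg (MM_nonneg s)

/-- the pointwise minimum of the levels -/
def mn (s t : Fin d → ℕ) : ℕ := ∑ j, min (s j) (t j)

lemma mn_comm (s t : Fin d → ℕ) : mn s t = mn t s := by
  unfold mn; apply Finset.sum_congr rfl; intro j _; rw [min_comm]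

lemma MM_conv_le (s t : Fin d → ℕ) (x z : Torus d) :
    ∫ y, MM s (x - y) * MM t (y - z) ∂(mu d) ≤ (18 ^ 2) ^ d * 2 ^ (mn s t) := by
  have h1 : ∀ y : Torus d, MM s (x - y) * MM t (y - z) =
      ∏ j, (Mk (s j) (x j - y j) * Mk (t j) (y j - z j)) := by
    intro y; unfold MM; rw [← Finset.prod_mul_distrib]; rfl
  simp only [h1]
  unfold mu
  rw [integral_fintype_prod_eq_prod (fun j t' => Mk (s j) (x j - t') * Mk (t j) (t' - z j))]
  calc ∏ j, ∫ y, Mk (s j) (x j - y) * Mk (t j) (y - z j) ∂AddCircle.haarAddCircle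
      ≤ ∏ j, (18 ^ 2 * 2 ^ (min (s j) (t j)) : ℝ) :=
        Finset.prod_le_prod (fun _ _ => integral_nonneg fun _ => mul_nonneg (Mk_nonneg _ _) (Mk_nonneg _ _))
          (fun j _ => Mk_conv_le _ _ _ _)
    _ = (18 ^ 2) ^ d * 2 ^ (mn s t) := by
        rw [Finset.prod_mul_distrib, Finset.prod_const, Finset.card_univ, Fintype.card_fin,
          Finset.prod_pow_eq_pow_sum]
        rfl

/-- sup bound -/
lemma cv_MM_MM_le (s t : Fin d → ℕ) {h : Torus d → ℝ} (hh : BM h) (hh0 : ∀ x, 0 ≤ h x) (x : Torus d) :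
    cv (MM s) (cv (MM t) h) x ≤ (18 ^ 2) ^ d * 2 ^ (mn s t) * ∫ z, h z ∂(mu d) :=
  cv_cv_le (BM_MM s) (BM_MM t) hh hh0 (MM_conv_le s t) x

end Pool.Agent.Helper935.MT
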