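import Pool.Agent.Helper935.MT.Marc

open MeasureTheory
open scoped ENNReal ComplexConjugate

namespace Pool.Agent.Helper935.MT

variable {d : ℕ}

/-- neighbouring blocks -/
def nb (s : Fin d → ℕ) : Finset (Fin d → ℕ) :=
  Fintype.piFinset fun j => (Finset.range (s j + 2)).filter (fun i => s j ≤ i + 1)

lemma mem_nb {s s' : Fin d → ℕ} : s' ∈ nb s ↔ ∀ j, s' j ≤ s j + 1 ∧ s j ≤ s' j + 1 := by
  unfold nb
  simp only [Fintype.mem_piFinset, Finset.mem_filter, Finset.mem_range]
  constructor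
  · intro h j; have := h j; omega
  · intro h j; have := h j; omega

lemma nb_symm {s s' : Fin d → ℕ} : s' ∈ nb s ↔ s ∈ nb s' := by
  rw [mem_nb, mem_nb]
  constructor <;> (intro h j; have := h j; omega)

lemma card_nb (s : Fin d → ℕ) : (nb s).card ≤ 3 ^ d := by
  unfold nb
  rw [Fintype.card_piFinset]
  calc ∏ j, ((Finset.range (s j + 2)).filter (fun i => s j ≤ i + 1)).card ≤ ∏ _j : Fin d, 3 := by
        apply Finset.prod_le_prod (fun _ _ => Nat.zero_le _)
        intro j _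
        have : (Finset.range (s j + 2)).filter (fun i => s j ≤ i + 1) ⊆ {s j - 1, s j, s j + 1} := by
          intro i hi
          simp only [Finset.mem_filter, Finset.mem_range] at hi
          simp only [Finset.mem_insert, Finset.mem_singleton]
          omega
        exact (Finset.card_le_card this).trans Finset.card_le_three
    _ = 3 ^ d := by simp

lemma sum_nb_als {s : Fin d → ℕ} {k : Fin d → ℤ} (h : als s k ≠ 0) : ∑ s' ∈ nb s, als s' k = 1 := by
  classical
  rw [← sum_als (rfl : tlev k = tlev k)]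
  have hsub : ∀ s', als s' k ≠ 0 → s' ∈ nb s := by
    intro s' h'
    rw [mem_nb]; intro j
    have h1 := als_ne_zero h j
    have h2 := als_ne_zero h' j
    omega
  have h2 : ∑ s' ∈ SS d (tlev k), als s' k = ∑ s' ∈ SS d (tlev k) ∪ nb s, als s' k := by
    apply Finset.sum_subset Finset.subset_union_left
    intro s' _ hs
    by_contra hne
    exact hs (mem_SS_of_als rfl hne)
  have h3 : ∑ s' ∈ nb s, als s' k = ∑ s' ∈ SS d (tlev k) ∪ nb s, als s' k := by
    apply Finset.sum_subset Finset.subset_union_right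
    intro s' _ hs
    by_contra hne
    exact hs (hsub s' hne)
  rw [h2, h3]

lemma sum_nb_As (s : Fin d → ℕ) (f : Torus d → ℂ) (x : Torus d) :
    ∑ s' ∈ nb s, As s' (As s f) x = As s f x := by
  have h1 : As s f = tp (box s) (fun k => (als s k : ℂ) * ft f k) := rfl
  rw [h1]
  simp only [As_tp]
  unfold tp
  rw [Finset.sum_comm]
  apply Finset.sum_congr rfl; intro k _
  rw [← Finset.sum_mul, ← Finset.sum_mul]
  by_cases h : als s k = 0
  · simp [h]
  · have : ∑ s' ∈ nb s, (als s' k : ℂ) = 1 := by rw [← Complex.ofReal_sum, sum_nb_als h]; simp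
    rw [this, one_mul]

/-- pairing bound -/
lemma pair_le {p r : ℝ} (hpr : p.HolderConjugate r) {u v : Torus d → ℂ} (hu : BC u) (hv : BC v) :
    ‖∫ x, u x * v x ∂(mu d)‖ ≤ Np p u * Np r v := by
  have h1 : ‖∫ x, u x * v x ∂(mu d)‖ ≤ ∫ x, ‖u x‖ * ‖v x‖ ∂(mu d) := by
    refine (norm_integral_le_integral_norm _).trans (le_of_eq ?_)
    congr 1; funext x; rw [norm_mul]
  exact h1.trans (holder hpr hu.norm (fun x => norm_nonneg _) hv.norm (fun x => norm_nonneg _))

/-- Upper estimate of a sum of blocks in `L_p`, `p ≤ 2`. -/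
theorem keyJ {p r : ℝ} (hpr : p.HolderConjugate r) (hr : 2 ≤ r) (d : ℕ) :
    ∃ C : ℝ, 0 < C ∧ ∀ (I : Finset (ℕ × (Fin d → ℕ))) (f : ℕ × (Fin d → ℕ) → Torus d → ℂ),
      (∀ i ∈ I, i.2 ∈ SS d i.1) →
      Np p (fun x => ∑ i ∈ I, As i.2 (f i) x) ≤ C * (∑ i ∈ I, Np p (As i.2 (f i)) ^ p) ^ (1 / p) := by
  classical
  have hp0 : 0 < p := hpr.pos
  have hr0 : 0 < r := by linarith
  obtain ⟨Cm, hCm0, hCm⟩ := marc hr d
  set A : ℝ := ((3 ^ d : ℕ) : ℝ) with hA
  have hA0 : 0 < A := by rw [hA]; positivity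
  set M : ℝ := ((d + 1 : ℕ) : ℝ) with hM
  have hM0 : 0 < M := by rw [hM]; positivity
  refine ⟨A ^ (1 / p) * (M * A * Cm) ^ (1 / r), by positivity, fun I f hI => ?_⟩
  set R : Torus d → ℂ := fun x => ∑ i ∈ I, As i.2 (f i) x with hR
  have hRBC : BC R := BC.sum I (fun i _ => BC_As _ _)
  obtain ⟨H, hH, hH1, hH2⟩ := exists_dual hpr hRBC
  have e1 : (Np p R : ℂ) = ∑ i ∈ I, ∑ s' ∈ nb i.2, ∫ x, As i.2 (f i) x * As s' H x ∂(mu d) := by
    rw [← hH2, hR]
    simp only [Finset.sum_mul]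
    rw [integral_finsetSum _ (fun i _ => ((BC_As _ _).mul hH).integrable)]
    apply Finset.sum_congr rfl; intro i _
    have e2 : ∀ x, As i.2 (f i) x * H x = ∑ s' ∈ nb i.2, As s' (As i.2 (f i)) x * H x := by
      intro x; rw [← Finset.sum_mul, sum_nb_As]
    simp only [e2]
    rw [integral_finsetSum _ (fun s' _ => ((BC_As _ _).mul hH).integrable)]
    apply Finset.sum_congr rfl; intro s' _
    exact integral_As_mul s' (BC_As _ _).integrable hH.integrable
  have e3 : Np p R ≤ ∑ i ∈ I, ∑ s' ∈ nb i.2, Np p (As i.2 (f i)) * Np r (As s' H) := by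
    have h1 : Np p R = ‖(Np p R : ℂ)‖ := by rw [Complex.norm_real, Real.norm_of_nonneg (Np_nonneg _ _)]
    rw [h1, e1]
    refine (norm_sum_le _ _).trans (Finset.sum_le_sum fun i _ => ?_)
    refine (norm_sum_le _ _).trans (Finset.sum_le_sum fun s' _ => ?_)
    exact pair_le hpr (BC_As _ _) (BC_As _ _)
  -- Hoelder for sums over the sigma finset
  set J : Finset ((_ : ℕ × (Fin d → ℕ)) × (Fin d → ℕ)) := I.sigma (fun i => nb i.2) with hJ
  have e4 : ∑ i ∈ I, ∑ s' ∈ nb i.2, Np p (As i.2 (f i)) * Np r (As s' H) =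
      ∑ q ∈ J, Np p (As q.1.2 (f q.1)) * Np r (As q.2 H) := by
    rw [hJ, Finset.sum_sigma]
  have e5 := Real.inner_le_Lp_mul_Lq_of_nonneg J hpr (f := fun q => Np p (As q.1.2 (f q.1)))
    (g := fun q => Np r (As q.2 H)) (fun _ _ => Np_nonneg _ _) (fun _ _ => Np_nonneg _ _)
  have e6 : ∑ q ∈ J, Np p (As q.1.2 (f q.1)) ^ p ≤ A * ∑ i ∈ I, Np p (As i.2 (f i)) ^ p := by
    rw [hJ, Finset.sum_sigma, Finset.mul_sum]
    apply Finset.sum_le_sum; intro i _
    simp only [Finset.sum_const, nsmul_eq_mul]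
    apply mul_le_mul_of_nonneg_right _ (Real.rpow_nonneg (Np_nonneg _ _) _)
    rw [hA]; exact_mod_cast card_nb i.2
  have e7 : ∑ q ∈ J, Np r (As q.2 H) ^ r ≤ M * A * Cm := by
    have e8 : ∀ s' : Fin d → ℕ, Np r (As s' H) ^ r = ∫ x, ‖As s' H x‖ ^ r ∂(mu d) := fun s' => Np_rpow hr0 _
    simp only [e8]
    set U : Finset (Fin d → ℕ) := I.biUnion (fun i => nb i.2) with hU
    have e9 : ∑ q ∈ J, ∫ x, ‖As q.2 H x‖ ^ r ∂(mu d) =
        ∑ s' ∈ U, ∑ q ∈ J with q.2 = s', ∫ x, ‖As q.2 H x‖ ^ r ∂(mu d) := by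
      rw [Finset.sum_fiberwise_of_maps_to]
      intro q hq
      rw [hJ, Finset.mem_sigma] at hq
      rw [hU, Finset.mem_biUnion]
      exact ⟨q.1, hq.1, hq.2⟩
    rw [e9]
    have e10 : ∀ s' ∈ U, ∑ q ∈ J with q.2 = s', ∫ x, ‖As q.2 H x‖ ^ r ∂(mu d) ≤
        M * A * ∫ x, ‖As s' H x‖ ^ r ∂(mu d) := by
      intro s' _
      have e11 : ∑ q ∈ J with q.2 = s', ∫ x, ‖As q.2 H x‖ ^ r ∂(mu d) =
          ((J.filter (fun q => q.2 = s')).card : ℝ) * ∫ x, ‖As s' H x‖ ^ r ∂(mu d) := by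
        rw [← nsmul_eq_mul, ← Finset.sum_const]
        apply Finset.sum_congr rfl; intro q hq
        rw [(Finset.mem_filter.1 hq).2]
      rw [e11]
      apply mul_le_mul_of_nonneg_right _ (int_rpow_nonneg _ _)
      have e12 : (J.filter (fun q => q.2 = s')).card ≤ (d + 1) * 3 ^ d := by
        -- map to the pairs (excess, block)
        have e13 : (J.filter (fun q => q.2 = s')).card ≤
            (Finset.range (d + 1) ×ˢ nb s').card := by
          apply Finset.card_le_card_of_injOn (fun q => (q.1.1 - ∑ j, q.1.2 j, q.1.2))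
          · intro q hq
            simp only [Finset.coe_filter, Set.mem_ofPred_eq, hJ, Finset.mem_sigma] at hq
            obtain ⟨⟨hq1, hq2⟩, hq3⟩ := hq
            have := mem_SS.1 (hI q.1 hq1)
            simp only [Finset.coe_product, Set.mem_prod, Finset.mem_coe, Finset.mem_range]
            refine ⟨by omega, ?_⟩
            rw [nb_symm, ← hq3]; exact hq2
          · intro q hq q' hq' heq
            simp only [Finset.coe_filter, Set.mem_ofPred_eq, hJ, Finset.mem_sigma] at hq hq'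
            obtain ⟨⟨hq1, hq2⟩, hq3⟩ := hq
            obtain ⟨⟨hq1', hq2'⟩, hq3'⟩ := hq'
            have h1 := mem_SS.1 (hI q.1 hq1)
            have h2 := mem_SS.1 (hI q'.1 hq1')
            simp only [Prod.mk.injEq] at heq
            obtain ⟨ha, hb⟩ := heq
            rw [hb] at ha h1
            have h3 : q.1.1 = q'.1.1 := by omega
            have h4 : q.1 = q'.1 := Prod.ext h3 hb
            have h5 : q.2 = q'.2 := hq3.trans hq3'.symm
            obtain ⟨a, b⟩ := q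
            obtain ⟨a', b'⟩ := q'
            simp only at h4 h5
            subst h4; subst h5; rfl
        refine e13.trans ?_
        rw [Finset.card_product, Finset.card_range]
        exact Nat.mul_le_mul_left _ (card_nb s')
      rw [hM, hA]; exact_mod_cast e12
    calc ∑ s' ∈ U, ∑ q ∈ J with q.2 = s', ∫ x, ‖As q.2 H x‖ ^ r ∂(mu d)
        ≤ ∑ s' ∈ U, M * A * ∫ x, ‖As s' H x‖ ^ r ∂(mu d) := Finset.sum_le_sum e10
      _ = M * A * ∑ s' ∈ U, ∫ x, ‖As s' H x‖ ^ r ∂(mu d) := by rw [Finset.mul_sum]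
      _ ≤ M * A * (Cm * ∫ x, ‖H x‖ ^ r ∂(mu d)) :=
          mul_le_mul_of_nonneg_left (hCm U H hH) (by positivity)
      _ ≤ M * A * (Cm * 1) := by
          apply mul_le_mul_of_nonneg_left _ (by positivity)
          exact mul_le_mul_of_nonneg_left hH1 hCm0.le
      _ = M * A * Cm := by ring
  have hS0 : 0 ≤ ∑ i ∈ I, Np p (As i.2 (f i)) ^ p :=
    Finset.sum_nonneg fun i _ => Real.rpow_nonneg (Np_nonneg _ _) _
  calc Np p R ≤ ∑ q ∈ J, Np p (As q.1.2 (f q.1)) * Np r (As q.2 H) := e3.trans e4.le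
    _ ≤ (∑ q ∈ J, Np p (As q.1.2 (f q.1)) ^ p) ^ (1 / p) * (∑ q ∈ J, Np r (As q.2 H) ^ r) ^ (1 / r) := e5
    _ ≤ (A * ∑ i ∈ I, Np p (As i.2 (f i)) ^ p) ^ (1 / p) * (M * A * Cm) ^ (1 / r) := by
        apply mul_le_mul
        · apply Real.rpow_le_rpow _ e6 (by positivity)
          exact Finset.sum_nonneg fun q _ => Real.rpow_nonneg (Np_nonneg _ _) _
        · apply Real.rpow_le_rpow _ e7 (by positivity)
          exact Finset.sum_nonneg fun q _ => Real.rpow_nonneg (Np_nonneg _ _) _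
        · apply Real.rpow_nonneg
          exact Finset.sum_nonneg fun q _ => Real.rpow_nonneg (Np_nonneg _ _) _
        · positivity
    _ = A ^ (1 / p) * (M * A * Cm) ^ (1 / r) * (∑ i ∈ I, Np p (As i.2 (f i)) ^ p) ^ (1 / p) := by
        rw [Real.mul_rpow hA0.le hS0]; ring

end Pool.Agent.Helper935.MT
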