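import Pool.Agent.Helper935.MT.Latt

open MeasureTheory
open scoped ENNReal ComplexConjugate

namespace Pool.Agent.Helper935.MT

variable {d : ℕ}

/-- the norm of `L_p` for bounded measurable functions -/
noncomputable def Np (p : ℝ) (g : Torus d → ℂ) : ℝ := (∫ x, ‖g x‖ ^ p ∂(mu d)) ^ (1 / p)

lemma int_rpow_nonneg (p : ℝ) (g : Torus d → ℂ) : 0 ≤ ∫ x, ‖g x‖ ^ p ∂(mu d) :=
  integral_nonneg fun _ => Real.rpow_nonneg (norm_nonneg _) _

lemma Np_nonneg (p : ℝ) (g : Torus d → ℂ) : 0 ≤ Np p g := Real.rpow_nonneg (int_rpow_nonneg p g) _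

lemma Np_rpow {p : ℝ} (hp : 0 < p) (g : Torus d → ℂ) : Np p g ^ p = ∫ x, ‖g x‖ ^ p ∂(mu d) := by
  unfold Np
  rw [← Real.rpow_mul (int_rpow_nonneg p g), one_div_mul_cancel hp.ne', Real.rpow_one]

/-- duality -/
lemma exists_dual {p r : ℝ} (hpr : p.HolderConjugate r) {u : Torus d → ℂ} (hu : BC u) :
    ∃ g : Torus d → ℂ, BC g ∧ ∫ x, ‖g x‖ ^ r ∂(mu d) ≤ 1 ∧ ∫ x, u x * g x ∂(mu d) = (Np p u : ℂ) := by
  have hp1 : 1 < p := hpr.lt
  have hr1 : 1 < r := hpr.symm.lt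
  have hp0 : 0 < p := by linarith
  have hr0 : 0 < r := by linarith
  set N := Np p u with hN
  have hN0 : 0 ≤ N := Np_nonneg p u
  have hNp : N ^ p = ∫ x, ‖u x‖ ^ p ∂(mu d) := Np_rpow hp0 u
  set g : Torus d → ℂ := fun x => conj (u x) * ((‖u x‖ ^ (p - 2) / N ^ (p - 1) : ℝ) : ℂ) with hg
  have hnorm : ∀ x, ‖g x‖ = ‖u x‖ ^ (p - 1) / N ^ (p - 1) := by
    intro x
    rw [hg]
    simp only [norm_mul, RCLike.norm_conj, Complex.norm_real, Real.norm_eq_abs]
    rw [abs_of_nonneg (by positivity)]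
    by_cases hx : ‖u x‖ = 0
    · rw [hx, zero_mul, Real.zero_rpow (by linarith), zero_div]
    · have hx' : 0 < ‖u x‖ := lt_of_le_of_ne (norm_nonneg _) (Ne.symm hx)
      have : ‖u x‖ ^ (p - 1) = ‖u x‖ * ‖u x‖ ^ (p - 2) := by
        nth_rewrite 2 [← Real.rpow_one ‖u x‖]
        rw [← Real.rpow_add hx']; congr 1; ring
      rw [this]; ring
  have hpr' : (p - 1) * r = p := by
    have := hpr.sub_one_mul_conj
    linarith
  obtain ⟨hum, C, hC⟩ := hu
  have hgm : Measurable g := by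
    apply Measurable.mul
    · exact (Complex.continuous_conj.measurable).comp hum
    · exact Complex.measurable_ofReal.comp ((hum.norm.pow_const _).div_const _)
  have hgBC : BC g := by
    refine ⟨hgm, |C| ^ (p - 1) / N ^ (p - 1), fun x => ?_⟩
    rw [hnorm]
    apply div_le_div_of_nonneg_right _ (Real.rpow_nonneg hN0 _)
    exact Real.rpow_le_rpow (norm_nonneg _) ((hC x).trans (le_abs_self _)) (by linarith)
  refine ⟨g, hgBC, ?_, ?_⟩
  · have h1 : ∀ x, ‖g x‖ ^ r = ‖u x‖ ^ p / N ^ p := by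
      intro x
      rw [hnorm, Real.div_rpow (by positivity) (by positivity), ← Real.rpow_mul (norm_nonneg _),
        ← Real.rpow_mul hN0, hpr']
    simp only [h1]
    rw [integral_div, ← hNp]
    exact div_self_le_one _
  · have h1 : ∀ x, u x * g x = ((‖u x‖ ^ p / N ^ (p - 1) : ℝ) : ℂ) := by
      intro x
      rw [hg]
      simp only
      rw [← mul_assoc, Complex.mul_conj, Complex.normSq_eq_norm_sq, ← Complex.ofReal_mul]
      congr 1
      by_cases hx : ‖u x‖ = 0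
      · rw [hx, Real.zero_rpow hp0.ne']; simp
      · have hx' : 0 < ‖u x‖ := lt_of_le_of_ne (norm_nonneg _) (Ne.symm hx)
        have : ‖u x‖ ^ p = ‖u x‖ ^ 2 * ‖u x‖ ^ (p - 2) := by
          rw [← Real.rpow_natCast, ← Real.rpow_add hx']; congr 1; push_cast; ring
        rw [this]; ring
    simp only [h1]
    rw [integral_complex_ofReal, integral_div, ← hNp]
    congr 1
    by_cases hN' : N = 0
    · rw [hN', Real.zero_rpow (by linarith)]; simp
    · have hN'' : 0 < N := lt_of_le_of_ne hN0 (Ne.symm hN')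
      rw [← Real.rpow_sub hN'']
      have : p - (p - 1) = 1 := by ring
      rw [this, Real.rpow_one]

lemma MM_le (s : Fin d → ℕ) (x : Torus d) : MM s x ≤ 18 ^ d * 2 ^ (∑ j, s j) := by
  unfold MM
  calc ∏ j, Mk (s j) (x j) ≤ ∏ j, ((18 : ℝ) * 2 ^ (s j)) :=
        Finset.prod_le_prod (fun _ _ => Mk_nonneg _ _) (fun j _ => Mk_le _ _)
    _ = 18 ^ d * 2 ^ (∑ j, s j) := by
        rw [Finset.prod_mul_distrib, Finset.prod_const, Finset.card_univ, Fintype.card_fin,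
          Finset.prod_pow_eq_pow_sum]

section Aux

variable {r : ℝ}

lemma cv_rpow_le (hr : 1 ≤ r) (s : Fin d → ℕ) {h : Torus d → ℝ} (hh : BM h) (hh0 : ∀ x, 0 ≤ h x)
    (x : Torus d) :
    (cv (MM s) h x) ^ r ≤ (18 ^ d) ^ (r - 1) * cv (MM s) (fun y => h y ^ r) x := by
  have h1 := jensen (μ := mu d) hr ((BM_MM s).comp (measurable_const.sub measurable_id : Measurable fun y => x - y))
    (fun y => MM_nonneg s _) hh hh0
  unfold cv
  refine h1.trans ?_
  apply mul_le_mul_of_nonneg_right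
  · apply Real.rpow_le_rpow (integral_nonneg fun y => MM_nonneg s _) _ (by linarith)
    exact (integral_sub_left (MM s) x).trans_le (integral_MM_le s)
  · exact integral_nonneg fun y => mul_nonneg (MM_nonneg s _) (Real.rpow_nonneg (hh0 y) _)

lemma BM_rpow' {h : Torus d → ℝ} (hh : BM h) (hh0 : ∀ x, 0 ≤ h x) (hr : 0 ≤ r) :
    BM (fun y => h y ^ r) := hh.rpow hh0 hr

lemma cv_sup (s : Fin d → ℕ) {h : Torus d → ℝ} (hh : BM h) (hh0 : ∀ x, 0 ≤ h x)
    (x : Torus d) :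
    cv (MM s) h x ≤ 18 ^ d * 2 ^ (∑ j, s j) * ∫ y, h y ∂(mu d) := by
  unfold cv
  rw [← integral_const_mul]
  apply integral_mono (((BM_MM s).slice hh x).integrable _) ((hh.integrable _).const_mul _)
  intro y
  exact mul_le_mul_of_nonneg_right (MM_le s _) (hh0 y)

/-- `∫ (cv (MM s) h)^r ≤ 18^(d r) ∫ h^r` -/
lemma integral_cv_rpow_le (hr : 1 ≤ r) (s : Fin d → ℕ) {h : Torus d → ℝ} (hh : BM h)
    (hh0 : ∀ x, 0 ≤ h x) :
    ∫ x, (cv (MM s) h x) ^ r ∂(mu d) ≤ (18 ^ d) ^ r * ∫ x, h x ^ r ∂(mu d) := by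
  have hr0 : 0 ≤ r := by linarith
  have hhr := BM_rpow' hh hh0 hr0
  have hI : 0 ≤ ∫ x, h x ^ r ∂(mu d) := integral_nonneg fun x => Real.rpow_nonneg (hh0 x) _
  calc ∫ x, (cv (MM s) h x) ^ r ∂(mu d)
      ≤ ∫ x, (18 ^ d) ^ (r - 1) * cv (MM s) (fun y => h y ^ r) x ∂(mu d) :=
        integral_mono (((BM_rpow' ((BM_MM s).cv hh) (cv_nonneg (MM_nonneg s) hh0) hr0)).integrable _)
          ((((BM_MM s).cv hhr).integrable _).const_mul _) (fun x => cv_rpow_le hr s hh hh0 x)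
    _ = (18 ^ d) ^ (r - 1) * ((∫ x, MM s x ∂(mu d)) * ∫ x, h x ^ r ∂(mu d)) := by
        rw [integral_const_mul, integral_cv (BM_MM s) hhr]
    _ ≤ (18 ^ d) ^ (r - 1) * (18 ^ d * ∫ x, h x ^ r ∂(mu d)) := by
        apply mul_le_mul_of_nonneg_left _ (by positivity)
        exact mul_le_mul_of_nonneg_right (integral_MM_le s) hI
    _ = (18 ^ d) ^ r * ∫ x, h x ^ r ∂(mu d) := by
        rw [← mul_assoc]; congr 1
        nth_rewrite 2 [← Real.rpow_one ((18 : ℝ) ^ d)]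
        rw [← Real.rpow_add (by positivity)]; congr 1; ring

variable {s s' t : Fin d → ℕ} {h h' : Torus d → ℝ}

lemma bound_i (hr : 1 ≤ r) (hh : BM h) (hh0 : ∀ x, 0 ≤ h x) (hh1 : ∫ x, h x ^ r ∂(mu d) ≤ 1)
    (hh' : BM h') (hh0' : ∀ x, 0 ≤ h' x) (hh1' : ∫ x, h' x ^ r ∂(mu d) ≤ 1) :
    ∫ x, (cv (MM t) (fun y => cv (MM s) h y * cv (MM s') h' y) x) ^ r ∂(mu d) ≤
      (18 ^ d) ^ (3 * r) * 2 ^ (mn s s') := by
  have hr0 : 0 ≤ r := by linarith
  have ha := (BM_MM s).cv hh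
  have ha' := (BM_MM s').cv hh'
  have ha0 := cv_nonneg (M := MM s) (MM_nonneg s) hh0
  have ha0' := cv_nonneg (M := MM s') (MM_nonneg s') hh0'
  have hhr := BM_rpow' hh hh0 hr0
  have hhr' := BM_rpow' hh' hh0' hr0
  have hhr0 : ∀ x, 0 ≤ h x ^ r := fun x => Real.rpow_nonneg (hh0 x) _
  have hhr0' : ∀ x, 0 ≤ h' x ^ r := fun x => Real.rpow_nonneg (hh0' x) _
  have hA : (0 : ℝ) < (18 : ℝ) ^ d := by positivity
  have h1 := integral_cv_rpow_le hr t (ha.mul ha') (fun x => mul_nonneg (ha0 x) (ha0' x))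
  have h2 : ∫ x, (cv (MM s) h x * cv (MM s') h' x) ^ r ∂(mu d) ≤
      ((18 ^ d) ^ (r - 1) * (18 ^ d) ^ (r - 1)) * ((18 ^ 2) ^ d * 2 ^ (mn s s')) := by
    calc ∫ x, (cv (MM s) h x * cv (MM s') h' x) ^ r ∂(mu d)
        ≤ ∫ x, ((18 ^ d) ^ (r - 1) * (18 ^ d) ^ (r - 1)) *
            (cv (MM s) (fun y => h y ^ r) x * cv (MM s') (fun y => h' y ^ r) x) ∂(mu d) := by
          apply integral_mono ((BM_rpow' (ha.mul ha') (fun x => mul_nonneg (ha0 x) (ha0' x)) hr0).integrable _)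
            (((((BM_MM s).cv hhr).mul ((BM_MM s').cv hhr')).integrable _).const_mul _)
          intro x
          simp only
          rw [Real.mul_rpow (ha0 x) (ha0' x)]
          have e1 := cv_rpow_le hr s hh hh0 x
          have e2 := cv_rpow_le hr s' hh' hh0' x
          calc cv (MM s) h x ^ r * cv (MM s') h' x ^ r
              ≤ ((18 ^ d) ^ (r - 1) * cv (MM s) (fun y => h y ^ r) x) *
                  ((18 ^ d) ^ (r - 1) * cv (MM s') (fun y => h' y ^ r) x) :=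
                mul_le_mul e1 e2 (Real.rpow_nonneg (ha0' x) _)
                  (mul_nonneg (by positivity) (cv_nonneg (MM_nonneg s) hhr0 x))
            _ = _ := by ring
      _ = ((18 ^ d) ^ (r - 1) * (18 ^ d) ^ (r - 1)) *
            ∫ x, h x ^ r * cv (MM s) (cv (MM s') (fun y => h' y ^ r)) x ∂(mu d) := by
          rw [integral_const_mul]
          congr 1
          exact integral_cv_mul (BM_MM s) (MM_neg s) hhr ((BM_MM s').cv hhr')
      _ ≤ ((18 ^ d) ^ (r - 1) * (18 ^ d) ^ (r - 1)) *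
            ∫ x, h x ^ r * ((18 ^ 2) ^ d * 2 ^ (mn s s')) ∂(mu d) := by
          apply mul_le_mul_of_nonneg_left _ (by positivity)
          apply integral_mono ((hhr.mul ((BM_MM s).cv ((BM_MM s').cv hhr'))).integrable _)
            ((hhr.integrable _).mul_const _)
          intro x
          apply mul_le_mul_of_nonneg_left _ (hhr0 x)
          refine (cv_MM_MM_le s s' hhr' hhr0' x).trans ?_
          exact mul_le_of_le_one_right (by positivity) hh1'
      _ ≤ ((18 ^ d) ^ (r - 1) * (18 ^ d) ^ (r - 1)) * ((18 ^ 2) ^ d * 2 ^ (mn s s')) := by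
          apply mul_le_mul_of_nonneg_left _ (by positivity)
          rw [integral_mul_const]
          exact mul_le_of_le_one_left (by positivity) hh1
  refine h1.trans ((mul_le_mul_of_nonneg_left h2 (by positivity)).trans (le_of_eq ?_))
  have e3 : ((18 : ℝ) ^ d) ^ (3 * r) = (18 ^ d) ^ r * ((18 ^ d) ^ (r - 1) * (18 ^ d) ^ (r - 1)) * (18 ^ 2) ^ d := by
    have : ((18 : ℝ) ^ 2) ^ d = (18 ^ d) ^ (2 : ℝ) := by
      rw [Real.rpow_two, ← pow_mul, ← pow_mul]; ring_nf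
    rw [this, ← Real.rpow_add hA, ← Real.rpow_add hA, ← Real.rpow_add hA]
    congr 1; ring
  rw [e3]; ring

lemma bound_ii (hr : 2 ≤ r) (hh : BM h) (hh0 : ∀ x, 0 ≤ h x) (hh1 : ∫ x, h x ^ r ∂(mu d) ≤ 1)
    (hh' : BM h') (hh0' : ∀ x, 0 ≤ h' x) (hh1' : ∫ x, h' x ^ r ∂(mu d) ≤ 1) :
    ∫ x, (cv (MM t) (fun y => cv (MM s) h y * cv (MM s') h' y) x) ^ r ∂(mu d) ≤
      (18 ^ d) ^ (3 * r) * 2 ^ (mn t s) := by
  have hr0 : 0 ≤ r := by linarith
  have hr1 : 1 ≤ r := by linarith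
  have ha := (BM_MM s).cv hh
  have ha' := (BM_MM s').cv hh'
  have ha0 := cv_nonneg (M := MM s) (MM_nonneg s) hh0
  have ha0' := cv_nonneg (M := MM s') (MM_nonneg s') hh0'
  have har := BM_rpow' ha ha0 hr0
  have har' := BM_rpow' ha' ha0' hr0
  have hhr := BM_rpow' hh hh0 hr0
  have hhr' := BM_rpow' hh' hh0' hr0
  have hhr0 : ∀ x, 0 ≤ h x ^ r := fun x => Real.rpow_nonneg (hh0 x) _
  have hhr0' : ∀ x, 0 ≤ h' x ^ r := fun x => Real.rpow_nonneg (hh0' x) _
  have hA : (0 : ℝ) < (18 : ℝ) ^ d := by positivity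
  -- sup bound of the first factor
  have h3 : ∀ x, cv (MM t) (fun y => cv (MM s) h y ^ r) x ≤
      (18 ^ d) ^ (r - 1) * ((18 ^ 2) ^ d * 2 ^ (mn t s)) := by
    intro x
    calc cv (MM t) (fun y => cv (MM s) h y ^ r) x
        ≤ cv (MM t) (fun y => (18 ^ d) ^ (r - 1) * cv (MM s) (fun y => h y ^ r) y) x := by
          apply cv_mono (BM_MM t) (MM_nonneg t) har ((BM.const _).mul ((BM_MM s).cv hhr))
          intro y; exact cv_rpow_le hr1 s hh hh0 y
      _ = (18 ^ d) ^ (r - 1) * cv (MM t) (cv (MM s) (fun y => h y ^ r)) x := cv_const_mul _ _ _ _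
      _ ≤ (18 ^ d) ^ (r - 1) * ((18 ^ 2) ^ d * 2 ^ (mn t s)) := by
          apply mul_le_mul_of_nonneg_left _ (by positivity)
          refine (cv_MM_MM_le t s hhr hhr0 x).trans ?_
          exact mul_le_of_le_one_right (by positivity) hh1
  -- integral of the second factor
  have h4 : ∫ x, cv (MM t) (fun y => cv (MM s') h' y ^ r) x ∂(mu d) ≤ 18 ^ d * (18 ^ d) ^ r := by
    rw [integral_cv (BM_MM t) har']
    apply mul_le_mul (integral_MM_le t) _ (integral_nonneg fun x => Real.rpow_nonneg (ha0' x) _)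
      (by positivity)
    refine (integral_cv_rpow_le hr1 s' hh' hh0').trans ?_
    exact mul_le_of_le_one_right (by positivity) hh1'
  have h5 : ∀ x, (cv (MM t) (fun y => cv (MM s) h y * cv (MM s') h' y) x) ^ r ≤
      (18 ^ d) ^ (r - 2) * (((18 ^ d) ^ (r - 1) * ((18 ^ 2) ^ d * 2 ^ (mn t s))) *
        cv (MM t) (fun y => cv (MM s') h' y ^ r) x) := by
    intro x
    have h6 := jensen2 (μ := mu d) hr
      ((BM_MM t).comp (measurable_const.sub measurable_id : Measurable fun y => x - y))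
      (fun y => MM_nonneg t _) ha ha0 ha' ha0'
    refine h6.trans ?_
    apply mul_le_mul
    · apply Real.rpow_le_rpow (integral_nonneg fun y => MM_nonneg t _) _ (by linarith)
      exact (integral_sub_left (MM t) x).trans_le (integral_MM_le t)
    · apply mul_le_mul_of_nonneg_right (h3 x)
      exact integral_nonneg fun y => mul_nonneg (MM_nonneg t _) (Real.rpow_nonneg (ha0' y) _)
    · apply mul_nonneg
      · exact integral_nonneg fun y => mul_nonneg (MM_nonneg t _) (Real.rpow_nonneg (ha0 y) _)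
      · exact integral_nonneg fun y => mul_nonneg (MM_nonneg t _) (Real.rpow_nonneg (ha0' y) _)
    · positivity
  calc ∫ x, (cv (MM t) (fun y => cv (MM s) h y * cv (MM s') h' y) x) ^ r ∂(mu d)
      ≤ ∫ x, (18 ^ d) ^ (r - 2) * (((18 ^ d) ^ (r - 1) * ((18 ^ 2) ^ d * 2 ^ (mn t s))) *
        cv (MM t) (fun y => cv (MM s') h' y ^ r) x) ∂(mu d) := by
        apply integral_mono ((BM_rpow' ((BM_MM t).cv (ha.mul ha'))
          (cv_nonneg (MM_nonneg t) (fun x => mul_nonneg (ha0 x) (ha0' x))) hr0).integrable _)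
          (((((BM_MM t).cv har').integrable _).const_mul _).const_mul _) h5
    _ = (18 ^ d) ^ (r - 2) * (((18 ^ d) ^ (r - 1) * ((18 ^ 2) ^ d * 2 ^ (mn t s))) *
        ∫ x, cv (MM t) (fun y => cv (MM s') h' y ^ r) x ∂(mu d)) := by
        rw [integral_const_mul, integral_const_mul]
    _ ≤ (18 ^ d) ^ (r - 2) * (((18 ^ d) ^ (r - 1) * ((18 ^ 2) ^ d * 2 ^ (mn t s))) *
          (18 ^ d * (18 ^ d) ^ r)) := by
        apply mul_le_mul_of_nonneg_left _ (by positivity)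
        exact mul_le_mul_of_nonneg_left h4 (by positivity)
    _ = (18 ^ d) ^ (3 * r) * 2 ^ (mn t s) := by
        have e3 : ((18 : ℝ) ^ d) ^ (3 * r) = (18 ^ d) ^ (r - 2) * (18 ^ d) ^ (r - 1) * (18 ^ 2) ^ d *
            18 ^ d * (18 ^ d) ^ r := by
          have e4 : ((18 : ℝ) ^ 2) ^ d = (18 ^ d) ^ (2 : ℝ) := by
            rw [Real.rpow_two, ← pow_mul, ← pow_mul]; ring_nf
          have e5 : (18 : ℝ) ^ d = (18 ^ d) ^ (1 : ℝ) := by rw [Real.rpow_one]
          rw [e4]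
          nth_rewrite 5 [e5]
          rw [← Real.rpow_add hA, ← Real.rpow_add hA, ← Real.rpow_add hA, ← Real.rpow_add hA]
          congr 1; ring
        rw [e3]; ring

/-- combined bound -/
lemma bound_both (hr : 2 ≤ r) (hh : BM h) (hh0 : ∀ x, 0 ≤ h x) (hh1 : ∫ x, h x ^ r ∂(mu d) ≤ 1)
    (hh' : BM h') (hh0' : ∀ x, 0 ≤ h' x) (hh1' : ∫ x, h' x ^ r ∂(mu d) ≤ 1) {l : ℕ}
    (hs : ∑ j, s j ≤ l) (hs' : ∑ j, s' j ≤ l) (ht : ∑ j, t j ≤ l) :
    (∫ x, (cv (MM t) (fun y => cv (MM s) h y * cv (MM s') h' y) x) ^ r ∂(mu d)) ^ (1 / r) ≤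
      (18 ^ d) ^ 3 * 2 ^ ((l : ℝ) / r) *
        (((2 : ℝ) ^ (-(1 / (4 * r)))) ^ (dst s s') * ((2 : ℝ) ^ (-(1 / (4 * r)))) ^ (dst s t)) := by
  have hr0 : 0 < r := by linarith
  have h1 := bound_i (s := s) (s' := s') (t := t) (by linarith : 1 ≤ r) hh hh0 hh1 hh' hh0' hh1'
  have h2 := bound_ii (s := s) (s' := s') (t := t) hr hh hh0 hh1 hh' hh0' hh1'
  have h3 : ∫ x, (cv (MM t) (fun y => cv (MM s) h y * cv (MM s') h' y) x) ^ r ∂(mu d) ≤
      (18 ^ d) ^ (3 * r) * (2 : ℝ) ^ (((mn s s' : ℝ) + mn t s) / 2) := by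
    rcases le_total (mn s s') (mn t s) with h | h
    · refine h1.trans (mul_le_mul_of_nonneg_left ?_ (by positivity))
      rw [← Real.rpow_natCast]
      apply Real.rpow_le_rpow_of_exponent_le (by norm_num)
      have : (mn s s' : ℝ) ≤ mn t s := by exact_mod_cast h
      linarith
    · refine h2.trans (mul_le_mul_of_nonneg_left ?_ (by positivity))
      rw [← Real.rpow_natCast]
      apply Real.rpow_le_rpow_of_exponent_le (by norm_num)
      have : (mn t s : ℝ) ≤ mn s s' := by exact_mod_cast h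
      linarith
  have h0 : 0 ≤ ∫ x, (cv (MM t) (fun y => cv (MM s) h y * cv (MM s') h' y) x) ^ r ∂(mu d) := by
    apply integral_nonneg; intro x
    apply Real.rpow_nonneg
    exact cv_nonneg (MM_nonneg t) (fun y => mul_nonneg (cv_nonneg (MM_nonneg s) hh0 y)
      (cv_nonneg (MM_nonneg s') hh0' y)) x
  have h4 := Real.rpow_le_rpow h0 h3 (by positivity : 0 ≤ 1 / r)
  refine h4.trans ?_
  rw [Real.mul_rpow (by positivity) (by positivity), ← Real.rpow_mul (by positivity),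
    ← Real.rpow_mul (by positivity)]
  have e1 : 3 * r * (1 / r) = (3 : ℕ) := by field_simp; norm_num
  rw [e1, Real.rpow_natCast, mul_assoc]
  apply mul_le_mul_of_nonneg_left _ (by positivity)
  rw [← Real.rpow_natCast, ← Real.rpow_mul (by norm_num), ← Real.rpow_natCast,
    ← Real.rpow_mul (by norm_num), ← Real.rpow_add (by norm_num), ← Real.rpow_add (by norm_num)]
  apply Real.rpow_le_rpow_of_exponent_le (by norm_num)
  have m1 := two_mn s s'
  have m2 := two_mn t s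
  have m1' : (2 : ℝ) * mn s s' + dst s s' = ∑ j, (s j : ℝ) + ∑ j, (s' j : ℝ) := by exact_mod_cast m1
  have m2' : (2 : ℝ) * mn t s + dst s t = ∑ j, (t j : ℝ) + ∑ j, (s j : ℝ) := by
    rw [dst_comm s t]; exact_mod_cast m2
  have a1 : ∑ j, (s j : ℝ) ≤ l := by exact_mod_cast hs
  have a2 : ∑ j, (s' j : ℝ) ≤ l := by exact_mod_cast hs'
  have a3 : ∑ j, (t j : ℝ) ≤ l := by exact_mod_cast ht
  have e2 : (l : ℝ) / r + (-(1 / (4 * r)) * (dst s s' : ℝ) + -(1 / (4 * r)) * (dst s t : ℝ)) =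
      (l - (dst s s' : ℝ) / 4 - (dst s t : ℝ) / 4) / r := by field_simp; ring
  rw [e2, mul_one_div]
  apply div_le_div_of_nonneg_right _ hr0.le
  linarith

end Aux

end Pool.Agent.Helper935.MT
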