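import Pool.Agent.Helper935.MT.KeyK

open MeasureTheory
open scoped ENNReal ComplexConjugate

namespace Pool.Agent.Helper935.MT

variable {d : ℕ}

lemma class_bound {p r : ℝ} (hpr : p.HolderConjugate r) (hr : 2 ≤ r) {l : ℕ}
    {K : Finset (Fin d → ℤ)} (hK : inLayer l K) (c : (Fin d → ℤ) → ℂ)
    (F : Finset (Fin d → ℕ)) (hF : F ⊆ SS d l) :
    ∑ s ∈ F, Np p (As s (tp K c)) ≤ 18 ^ d * 2 ^ ((l : ℝ) / r) * ∫ x, ‖tp K c x‖ ∂(mu d) +
      ∑ s ∈ F, ∑ t ∈ SS d l, ∑ s' ∈ F.erase s, (18 ^ d) ^ 2 * Np p (As t (tp K c)) *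
        (((2 : ℝ) ^ (-(1 / (4 * r)))) ^ (dst s s') * ((2 : ℝ) ^ (-(1 / (4 * r)))) ^ (dst s t)) := by
  classical
  have hr0 : 0 < r := by linarith
  have hr1 : 1 ≤ r := by linarith
  set f := tp K c with hf
  have hfBC : BC f := BC_tp K c
  set Y : ℝ := 18 ^ d * 2 ^ ((l : ℝ) / r) with hY
  have hY0 : 0 < Y := by positivity
  choose g hgBC hg1 hg2 using fun s : Fin d → ℕ => exists_dual hpr (BC_As s f)
  set h : (Fin d → ℕ) → Torus d → ℝ := fun s x => ‖g s x‖ with hh_def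
  have hh : ∀ s, BM (h s) := fun s => (hgBC s).norm
  have hh0 : ∀ s x, 0 ≤ h s x := fun s x => norm_nonneg _
  have hh1 : ∀ s, ∫ x, h s x ^ r ∂(mu d) ≤ 1 := hg1
  set a : (Fin d → ℕ) → Torus d → ℝ := fun s => cv (MM s) (h s) with ha_def
  have ha : ∀ s, BM (a s) := fun s => (BM_MM s).cv (hh s)
  have ha0 : ∀ s x, 0 ≤ a s x := fun s x => cv_nonneg (MM_nonneg s) (hh0 s) x
  have haY : ∀ s, ∑ j, s j ≤ l → ∀ x, a s x ≤ Y := by
    intro s hs x
    have e1 := cv_rpow_le hr1 s (hh s) (hh0 s) x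
    have e2 := cv_sup s (BM_rpow' (hh s) (hh0 s) hr0.le) (fun x => Real.rpow_nonneg (hh0 s x) _) x
    have e3 : a s x ^ r ≤ Y ^ r := by
      calc a s x ^ r ≤ (18 ^ d) ^ (r - 1) * cv (MM s) (fun y => h s y ^ r) x := e1
        _ ≤ (18 ^ d) ^ (r - 1) * (18 ^ d * 2 ^ (∑ j, s j) * 1) := by
            apply mul_le_mul_of_nonneg_left _ (by positivity)
            refine e2.trans ?_
            exact mul_le_mul_of_nonneg_left (hh1 s) (by positivity)
        _ ≤ (18 ^ d) ^ (r - 1) * (18 ^ d * 2 ^ l * 1) := by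
            apply mul_le_mul_of_nonneg_left _ (by positivity)
            apply mul_le_mul_of_nonneg_right _ zero_le_one
            apply mul_le_mul_of_nonneg_left _ (by positivity)
            exact pow_le_pow_right₀ (by norm_num) hs
        _ = Y ^ r := by
            rw [hY, Real.mul_rpow (by positivity) (by positivity), ← Real.rpow_mul (by norm_num),
              div_mul_cancel₀ _ hr0.ne', Real.rpow_natCast, mul_one, ← mul_assoc]
            congr 1
            nth_rewrite 2 [← Real.rpow_one ((18 : ℝ) ^ d)]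
            rw [← Real.rpow_add (by positivity)]; congr 1; ring
    exact (Real.rpow_le_rpow_iff (ha0 s x) hY0.le hr0).1 e3
  set w : (Fin d → ℕ) → Torus d → ℝ := fun s x => if ∑ j, s j ≤ l then (1 / Y) * a s x else 0 with hw_def
  have hw : ∀ s, BM (w s) := by
    intro s
    by_cases hs : ∑ j, s j ≤ l
    · have : w s = fun x => (1 / Y) * a s x := by funext x; simp only [hw_def, hs, if_true]
      rw [this]; exact (BM.const _).mul (ha s)
    · have : w s = fun x => 0 := by funext x; simp only [hw_def, hs, if_false]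
      rw [this]; exact BM.const 0
  have hw0 : ∀ s x, 0 ≤ w s x := by
    intro s x; simp only [hw_def]; split_ifs
    · exact mul_nonneg (by positivity) (ha0 s x)
    · exact le_rfl
  have hw1 : ∀ s x, w s x ≤ 1 := by
    intro s x; simp only [hw_def]; split_ifs with hs
    · rw [one_div, inv_mul_le_iff₀ hY0, mul_one]; exact haY s hs x
    · exact zero_le_one
  obtain ⟨P, hP1, hP2, hP3, hP4, hP5⟩ := select w hw hw0 hw1 F
  have hFl : ∀ s ∈ F, ∑ j, s j ≤ l := fun s hs => (mem_SS.1 (hF hs)).1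
  have hwa : ∀ s ∈ F, ∀ x, w s x = (1 / Y) * a s x := fun s hs x => by
    simp only [hw_def, hFl s hs, if_true]
  set φ : (Fin d → ℕ) → Torus d → ℂ := fun s => As s (g s) with hφ_def
  have hφ : ∀ s, BC (φ s) := fun s => BC_As s _
  have hφa : ∀ s x, ‖φ s x‖ ≤ a s x := fun s x => norm_As_le s (hgBC s) x
  -- the pairing
  have hN : ∀ s, ∫ x, f x * φ s x ∂(mu d) = (Np p (As s f) : ℂ) := by
    intro s
    rw [← hg2 s]
    exact (integral_As_mul s hfBC.integrable (hgBC s).integrable).symm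
  set Q : (Fin d → ℕ) → Torus d → ℂ := fun s x => φ s x * ((P s x : ℝ) : ℂ) with hQ
  set E : (Fin d → ℕ) → Torus d → ℂ := fun s x => φ s x * ((1 - P s x : ℝ) : ℂ) with hE
  have hQBC : ∀ s, BC (Q s) := fun s => (hφ s).mulR (hP1 s)
  have hEBC : ∀ s, BC (E s) := fun s => (hφ s).mulR ((BM.const 1).sub (hP1 s))
  have hsplit : ∀ s, (Np p (As s f) : ℂ) = ∫ x, f x * Q s x ∂(mu d) + ∫ x, f x * E s x ∂(mu d) := by
    intro s
    rw [← hN s, ← integral_add (hfBC.mul (hQBC s)).integrable (hfBC.mul (hEBC s)).integrable]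
    congr 1; funext x; simp only [hQ, hE]; push_cast; ring
  have hmain : ‖∑ s ∈ F, ∫ x, f x * Q s x ∂(mu d)‖ ≤ Y * ∫ x, ‖f x‖ ∂(mu d) := by
    rw [← integral_finsetSum _ (fun s _ => (hfBC.mul (hQBC s)).integrable), ← integral_const_mul]
    apply norm_integral_le_of_norm_le (((BM.const Y).mul hfBC.norm).integrable _)
    apply Filter.Eventually.of_forall; intro x
    rw [← Finset.mul_sum, norm_mul, mul_comm]
    apply mul_le_mul_of_nonneg_right _ (norm_nonneg _)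
    calc ‖∑ s ∈ F, Q s x‖ ≤ ∑ s ∈ F, ‖Q s x‖ := norm_sum_le _ _
      _ ≤ ∑ s ∈ F, Y * (w s x * P s x) := by
          apply Finset.sum_le_sum; intro s hs
          simp only [hQ]
          rw [norm_mul, Complex.norm_real, Real.norm_of_nonneg (hP2 s x), hwa s hs]
          have : Y * (1 / Y * a s x * P s x) = a s x * P s x := by field_simp
          rw [this]
          exact mul_le_mul_of_nonneg_right (hφa s x) (hP2 s x)
      _ = Y * ∑ s ∈ F, w s x * P s x := by rw [Finset.mul_sum]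
      _ ≤ Y * 1 := mul_le_mul_of_nonneg_left (hP4 x) hY0.le
      _ = Y := mul_one _
  have herr : ∀ s ∈ F, ‖∫ x, f x * E s x ∂(mu d)‖ ≤ ∑ t ∈ SS d l, ∑ s' ∈ F.erase s,
      (18 ^ d) ^ 2 * Np p (As t f) *
        (((2 : ℝ) ^ (-(1 / (4 * r)))) ^ (dst s s') * ((2 : ℝ) ^ (-(1 / (4 * r)))) ^ (dst s t)) := by
    intro s hs
    have e1 : ∫ x, f x * E s x ∂(mu d) = ∑ t ∈ SS d l, ∫ x, As t f x * E s x ∂(mu d) := by
      rw [← integral_finsetSum _ (fun t _ => ((BC_As t f).mul (hEBC s)).integrable)]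
      congr 1; funext x
      rw [← Finset.sum_mul, hf, sum_As_tp hK]
    rw [e1]
    refine (norm_sum_le _ _).trans ?_
    apply Finset.sum_le_sum; intro t ht
    have htl : ∑ j, t j ≤ l := (mem_SS.1 ht).1
    have hu : BC (As t f) := BC_As t f
    have e2 : ‖∫ x, As t f x * E s x ∂(mu d)‖ ≤ ∫ x, ‖As t f x‖ * ‖E s x‖ ∂(mu d) := by
      refine (norm_integral_le_integral_norm _).trans (le_of_eq ?_)
      congr 1; funext x; rw [norm_mul]
    have e3 : ∫ x, ‖As t f x‖ * ‖E s x‖ ∂(mu d) ≤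
        ∫ x, cv (MM t) (fun y => ‖As t f y‖) x * ‖E s x‖ ∂(mu d) := by
      apply integral_mono ((hu.norm.mul (hEBC s).norm).integrable _)
        ((((BM_MM t).cv hu.norm).mul (hEBC s).norm).integrable _)
      intro x
      exact mul_le_mul_of_nonneg_right (norm_box_le t _ x) (norm_nonneg _)
    have e4 : ∫ x, cv (MM t) (fun y => ‖As t f y‖) x * ‖E s x‖ ∂(mu d) =
        ∫ x, ‖As t f x‖ * cv (MM t) (fun y => ‖E s y‖) x ∂(mu d) :=
      integral_cv_mul (BM_MM t) (MM_neg t) hu.norm (hEBC s).norm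
    have hER : ∀ y, ‖E s y‖ ≤ ∑ s' ∈ F.erase s, (1 / Y) * (a s y * a s' y) := by
      intro y
      have q1 := hP5 s hs y (F.erase s) (fun j => by rw [Finset.mem_erase]; tauto)
      have q2 : 0 ≤ 1 - P s y := by linarith [hP3 s y]
      simp only [hE]
      rw [norm_mul, Complex.norm_real, Real.norm_of_nonneg q2]
      calc ‖φ s y‖ * (1 - P s y) ≤ a s y * ∑ j ∈ F.erase s, w j y :=
            mul_le_mul (hφa s y) q1 q2 (ha0 s y)
        _ = ∑ s' ∈ F.erase s, (1 / Y) * (a s y * a s' y) := by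
            rw [Finset.mul_sum]; apply Finset.sum_congr rfl; intro s' hs'
            rw [hwa s' (Finset.mem_of_mem_erase hs')]; ring
    have hRBM : BM (fun y => ∑ s' ∈ F.erase s, (1 / Y) * (a s y * a s' y)) :=
      BM.sum _ (fun s' _ => (BM.const _).mul ((ha s).mul (ha s')))
    have e5 : ∫ x, ‖As t f x‖ * cv (MM t) (fun y => ‖E s y‖) x ∂(mu d) ≤
        ∫ x, ‖As t f x‖ * cv (MM t) (fun y => ∑ s' ∈ F.erase s, (1 / Y) * (a s y * a s' y)) x ∂(mu d) := by
      apply integral_mono ((hu.norm.mul ((BM_MM t).cv (hEBC s).norm)).integrable _)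
        ((hu.norm.mul ((BM_MM t).cv hRBM)).integrable _)
      intro x
      exact mul_le_mul_of_nonneg_left (cv_mono (BM_MM t) (MM_nonneg t) (hEBC s).norm hRBM hER x)
        (norm_nonneg _)
    have e6 : ∫ x, ‖As t f x‖ * cv (MM t) (fun y => ∑ s' ∈ F.erase s, (1 / Y) * (a s y * a s' y)) x ∂(mu d) =
        ∑ s' ∈ F.erase s, (1 / Y) * ∫ x, ‖As t f x‖ * cv (MM t) (fun y => a s y * a s' y) x ∂(mu d) := by
      have e7 : ∀ x, ‖As t f x‖ * cv (MM t) (fun y => ∑ s' ∈ F.erase s, (1 / Y) * (a s y * a s' y)) x =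
          ∑ s' ∈ F.erase s, (1 / Y) * (‖As t f x‖ * cv (MM t) (fun y => a s y * a s' y) x) := by
        intro x
        rw [cv_sum _ (BM_MM t) (fun s' _ => (BM.const _).mul ((ha s).mul (ha s'))), Finset.mul_sum]
        apply Finset.sum_congr rfl; intro s' _
        rw [cv_const_mul]; ring
      simp only [e7]
      rw [integral_finsetSum _ (fun s' _ => (((BM.const (1 / Y)).mul (hu.norm.mul ((BM_MM t).cv
        ((ha s).mul (ha s'))))).integrable _))]
      apply Finset.sum_congr rfl; intro s' _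
      rw [integral_const_mul]
    refine e2.trans (e3.trans (e4.le.trans (e5.trans (e6.le.trans ?_))))
    apply Finset.sum_le_sum; intro s' hs'
    have hs'l := hFl s' (Finset.mem_of_mem_erase hs')
    have e8 := holder (μ := mu d) hpr hu.norm (fun x => norm_nonneg _) ((BM_MM t).cv ((ha s).mul (ha s')))
      (cv_nonneg (MM_nonneg t) (fun y => mul_nonneg (ha0 s y) (ha0 s' y)))
    have e9 := bound_both (t := t) hr (hh s) (hh0 s) (hh1 s) (hh s') (hh0 s') (hh1 s') (hFl s hs) hs'l htl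
    have e10 : (∫ x, ‖As t f x‖ ^ p ∂(mu d)) ^ (1 / p) = Np p (As t f) := rfl
    rw [e10] at e8
    calc (1 / Y) * ∫ x, ‖As t f x‖ * cv (MM t) (fun y => a s y * a s' y) x ∂(mu d)
        ≤ (1 / Y) * (Np p (As t f) * ((18 ^ d) ^ 3 * 2 ^ ((l : ℝ) / r) *
        (((2 : ℝ) ^ (-(1 / (4 * r)))) ^ (dst s s') * ((2 : ℝ) ^ (-(1 / (4 * r)))) ^ (dst s t)))) := by
          apply mul_le_mul_of_nonneg_left _ (by positivity)
          exact e8.trans (mul_le_mul_of_nonneg_left e9 (Np_nonneg _ _))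
      _ = _ := by rw [hY]; field_simp
  have hfin : ((∑ s ∈ F, Np p (As s f) : ℝ) : ℂ) =
      ∑ s ∈ F, ∫ x, f x * Q s x ∂(mu d) + ∑ s ∈ F, ∫ x, f x * E s x ∂(mu d) := by
    rw [Complex.ofReal_sum, ← Finset.sum_add_distrib]
    exact Finset.sum_congr rfl fun s _ => hsplit s
  have hnn : 0 ≤ ∑ s ∈ F, Np p (As s f) := Finset.sum_nonneg fun s _ => Np_nonneg _ _
  calc ∑ s ∈ F, Np p (As s f) = ‖((∑ s ∈ F, Np p (As s f) : ℝ) : ℂ)‖ := by
        rw [Complex.norm_real, Real.norm_of_nonneg hnn]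
    _ ≤ ‖∑ s ∈ F, ∫ x, f x * Q s x ∂(mu d)‖ + ‖∑ s ∈ F, ∫ x, f x * E s x ∂(mu d)‖ := by
        rw [hfin]; exact norm_add_le _ _
    _ ≤ _ := add_le_add hmain ((norm_sum_le _ _).trans (Finset.sum_le_sum herr))

/-- The key inequality: block sums of `L_p` norms for `p ≤ 2`. -/
theorem keyK {p r : ℝ} (hpr : p.HolderConjugate r) (hr : 2 ≤ r) (d : ℕ) :
    ∃ C : ℝ, 0 < C ∧ ∀ (l : ℕ) (K : Finset (Fin d → ℤ)) (c : (Fin d → ℤ) → ℂ), inLayer l K →
      ∑ s ∈ SS d l, Np p (As s (tp K c)) ≤ C * 2 ^ ((l : ℝ) / r) * ∫ x, ‖tp K c x‖ ∂(mu d) := by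
  classical
  have hr0 : 0 < r := by linarith
  set θ : ℝ := (2 : ℝ) ^ (-(1 / (8 * r))) with hθ
  set κ : ℝ := (2 : ℝ) ^ (-(1 / (4 * r))) with hκ
  have hθ0 : 0 < θ := by positivity
  have hθ1 : θ < 1 := by
    rw [hθ]; apply Real.rpow_lt_one_of_one_lt_of_neg (by norm_num)
    have : 0 < 1 / (8 * r) := by positivity
    linarith
  have hκθ : κ = θ * θ := by
    rw [hκ, hθ, ← Real.rpow_add (by norm_num)]; congr 1; field_simp; norm_num
  have hκ0 : 0 < κ := by positivity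
  have hκleθ : κ ≤ θ := by rw [hκθ]; exact mul_le_of_le_one_left hθ0.le hθ1.le
  set Λ : ℝ := (2 * (1 - θ)⁻¹) ^ d with hΛ
  have hΛ0 : 0 < Λ := by
    have : 0 < (1 - θ)⁻¹ := inv_pos.2 (by linarith)
    positivity
  obtain ⟨L, hL⟩ : ∃ L : ℕ, ((18 : ℝ) ^ d) ^ 2 * Λ ^ 2 * θ ^ L ≤ 1 / 2 := by
    have h1 : Filter.Tendsto (fun L : ℕ => ((18 : ℝ) ^ d) ^ 2 * Λ ^ 2 * θ ^ L) Filter.atTop (nhds 0) := by
      have := (tendsto_pow_atTop_nhds_zero_of_lt_one hθ0.le hθ1).const_mul (((18 : ℝ) ^ d) ^ 2 * Λ ^ 2)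
      simpa using this
    have h2 := (h1.eventually (gt_mem_nhds (by norm_num : (0 : ℝ) < 1 / 2))).exists
    obtain ⟨L, hL⟩ := h2
    exact ⟨L, hL.le⟩
  -- make `L` positive
  obtain ⟨L, hL0, hL⟩ : ∃ L : ℕ, 0 < L ∧ ((18 : ℝ) ^ d) ^ 2 * Λ ^ 2 * θ ^ L ≤ 1 / 2 := by
    refine ⟨L + 1, by omega, le_trans ?_ hL⟩
    apply mul_le_mul_of_nonneg_left _ (by positivity)
    exact pow_le_pow_of_le_one hθ0.le hθ1.le (by omega)
  refine ⟨2 * L ^ d * 18 ^ d, by positivity, fun l K c hK => ?_⟩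
  set f := tp K c with hf
  set I := ∫ x, ‖f x‖ ∂(mu d) with hI
  have hI0 : 0 ≤ I := integral_nonneg fun x => norm_nonneg _
  set V : Finset (Fin d → ℕ) := Fintype.piFinset fun _ : Fin d => Finset.range L with hV
  set cl : (Fin d → ℕ) → (Fin d → ℕ) := fun s j => s j % L with hcl
  set F : (Fin d → ℕ) → Finset (Fin d → ℕ) := fun v => (SS d l).filter (fun s => cl s = v) with hFdef
  have hmaps : ∀ s ∈ SS d l, cl s ∈ V := by
    intro s _
    rw [hV, Fintype.mem_piFinset]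
    intro j; rw [Finset.mem_range]; exact Nat.mod_lt _ hL0
  have hfib : ∀ G : (Fin d → ℕ) → ℝ, ∑ v ∈ V, ∑ s ∈ F v, G s = ∑ s ∈ SS d l, G s := by
    intro G
    exact Finset.sum_fiberwise_of_maps_to hmaps G
  have hcardV : (V.card : ℝ) = L ^ d := by
    rw [hV, Fintype.card_piFinset]; simp
  -- the off diagonal sums
  have hoff : ∀ v, ∀ s ∈ F v, ∑ s' ∈ (F v).erase s, κ ^ (dst s s') ≤ θ ^ L * Λ := by
    intro v s hs
    have h1 : ∀ s' ∈ (F v).erase s, κ ^ (dst s s') ≤ θ ^ L * θ ^ (dst s' s) := by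
      intro s' hs'
      rw [Finset.mem_erase] at hs'
      obtain ⟨hne, hs'⟩ := hs'
      rw [hFdef, Finset.mem_filter] at hs hs'
      have hLd : L ≤ dst s s' := by
        obtain ⟨j, hj⟩ : ∃ j, s' j ≠ s j := by
          by_contra hcon; push Not at hcon; exact hne (funext hcon)
        have e1 : s j % L = s' j % L := by
          have := congrFun (hs.2.trans hs'.2.symm) j
          exact this
        have e2 : L ≤ (s j - s' j) + (s' j - s j) := by
          rcases lt_or_gt_of_ne hj with h | h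
          · have := (Nat.modEq_iff_dvd' h.le).1 e1.symm
            have := Nat.le_of_dvd (by omega) this
            omega
          · have := (Nat.modEq_iff_dvd' h.le).1 e1
            have := Nat.le_of_dvd (by omega) this
            omega
        refine e2.trans ?_
        exact Finset.single_le_sum (f := fun j => (s j - s' j) + (s' j - s j)) (fun _ _ => Nat.zero_le _)
          (Finset.mem_univ j)
      rw [hκθ, mul_pow, dst_comm s' s]
      apply mul_le_mul_of_nonneg_right _ (by positivity)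
      exact pow_le_pow_of_le_one hθ0.le hθ1.le hLd
    calc ∑ s' ∈ (F v).erase s, κ ^ (dst s s') ≤ ∑ s' ∈ (F v).erase s, θ ^ L * θ ^ (dst s' s) :=
          Finset.sum_le_sum h1
      _ = θ ^ L * ∑ s' ∈ (F v).erase s, θ ^ (dst s' s) := by rw [Finset.mul_sum]
      _ ≤ θ ^ L * Λ := mul_le_mul_of_nonneg_left (lattice_le hθ0.le hθ1 _ _) (by positivity)
  set T : ℝ := ∑ s ∈ SS d l, Np p (As s f) with hT
  have hT0 : 0 ≤ T := Finset.sum_nonneg fun s _ => Np_nonneg _ _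
  have hclass : ∀ v ∈ V, ∑ s ∈ F v, Np p (As s f) ≤ 18 ^ d * 2 ^ ((l : ℝ) / r) * I +
      (18 ^ d) ^ 2 * (θ ^ L * Λ) * ∑ s ∈ F v, ∑ t ∈ SS d l, Np p (As t f) * κ ^ (dst s t) := by
    intro v _
    have h1 := class_bound hpr hr hK c (F v) (Finset.filter_subset _ _)
    refine h1.trans (add_le_add le_rfl ?_)
    rw [Finset.mul_sum]
    apply Finset.sum_le_sum; intro s hs
    rw [Finset.mul_sum]
    apply Finset.sum_le_sum; intro t _
    have h2 : ∑ s' ∈ (F v).erase s, (18 ^ d) ^ 2 * Np p (As t (tp K c)) *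
        (κ ^ (dst s s') * κ ^ (dst s t)) =
        (18 ^ d) ^ 2 * Np p (As t f) * κ ^ (dst s t) * ∑ s' ∈ (F v).erase s, κ ^ (dst s s') := by
      rw [Finset.mul_sum]; apply Finset.sum_congr rfl; intro s' _; rw [← hf]; ring
    rw [h2]
    calc (18 ^ d) ^ 2 * Np p (As t f) * κ ^ (dst s t) * ∑ s' ∈ (F v).erase s, κ ^ (dst s s')
        ≤ (18 ^ d) ^ 2 * Np p (As t f) * κ ^ (dst s t) * (θ ^ L * Λ) := by
          apply mul_le_mul_of_nonneg_left (hoff v s hs)
          have := Np_nonneg p (As t f)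
          positivity
      _ = _ := by ring
  have hsum := Finset.sum_le_sum hclass
  rw [hfib, Finset.sum_add_distrib, Finset.sum_const, nsmul_eq_mul, hcardV, ← Finset.mul_sum,
    hfib (fun s => ∑ t ∈ SS d l, Np p (As t f) * κ ^ (dst s t)), Finset.sum_comm] at hsum
  have h3 : ∑ t ∈ SS d l, ∑ s ∈ SS d l, Np p (As t f) * κ ^ (dst s t) ≤ T * Λ := by
    rw [hT, Finset.sum_mul]
    apply Finset.sum_le_sum; intro t _
    rw [← Finset.mul_sum]
    apply mul_le_mul_of_nonneg_left _ (Np_nonneg _ _)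
    calc ∑ s ∈ SS d l, κ ^ (dst s t) ≤ ∑ s ∈ SS d l, θ ^ (dst s t) :=
          Finset.sum_le_sum fun s _ => pow_le_pow_left₀ hκ0.le hκleθ _
      _ ≤ Λ := lattice_le hθ0.le hθ1 _ _
  have h4 : (18 ^ d) ^ 2 * (θ ^ L * Λ) * ∑ t ∈ SS d l, ∑ s ∈ SS d l, Np p (As t f) * κ ^ (dst s t) ≤
      1 / 2 * T := by
    calc (18 ^ d) ^ 2 * (θ ^ L * Λ) * ∑ t ∈ SS d l, ∑ s ∈ SS d l, Np p (As t f) * κ ^ (dst s t)
        ≤ (18 ^ d) ^ 2 * (θ ^ L * Λ) * (T * Λ) := mul_le_mul_of_nonneg_left h3 (by positivity)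
      _ = ((18 ^ d) ^ 2 * Λ ^ 2 * θ ^ L) * T := by ring
      _ ≤ 1 / 2 * T := mul_le_mul_of_nonneg_right hL hT0
  have h5 : T ≤ L ^ d * (18 ^ d * 2 ^ ((l : ℝ) / r) * I) + 1 / 2 * T := hsum.trans (add_le_add le_rfl h4)
  linarith

end Pool.Agent.Helper935.MT
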