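import Pool.Agent.Helper935.MT.Op

open MeasureTheory
open scoped ENNReal ComplexConjugate

namespace Pool.Agent.Helper935.MT

variable {d : ℕ}

lemma geom_le {θ : ℝ} (h0 : 0 ≤ θ) (h1 : θ < 1) (J : Finset ℕ) : ∑ n ∈ J, θ ^ n ≤ (1 - θ)⁻¹ := by
  rw [← tsum_geometric_of_lt_one h0 h1]
  exact (summable_geometric_of_lt_one h0 h1).sum_le_tsum J (fun _ _ => by positivity)

lemma geom_inj_le {ι : Type*} {θ : ℝ} (h0 : 0 ≤ θ) (h1 : θ < 1) (J : Finset ι) (g : ι → ℕ)
    (hg : Set.InjOn g J) : ∑ n ∈ J, θ ^ (g n) ≤ (1 - θ)⁻¹ := by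
  classical
  rw [← Finset.sum_image (f := fun n => θ ^ n) (g := g) (s := J) hg]
  exact geom_le h0 h1 _

lemma geom_dist_le {θ : ℝ} (h0 : 0 ≤ θ) (h1 : θ < 1) (J : Finset ℕ) (t : ℕ) :
    ∑ i ∈ J, θ ^ ((i - t) + (t - i)) ≤ 2 * (1 - θ)⁻¹ := by
  rw [← Finset.sum_filter_add_sum_filter_not J (fun i => i ≤ t)]
  have h2 := geom_inj_le h0 h1 (J.filter (fun i => i ≤ t)) (fun i => (i - t) + (t - i)) (by
    intro a ha b hb hab
    simp only [Finset.coe_filter, Set.mem_setOf_eq] at ha hb hab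
    omega)
  have h3 := geom_inj_le h0 h1 (J.filter (fun i => ¬ i ≤ t)) (fun i => (i - t) + (t - i)) (by
    intro a ha b hb hab
    simp only [Finset.coe_filter, Set.mem_setOf_eq] at ha hb hab
    omega)
  linarith

/-- `l1` distance -/
def dst (s t : Fin d → ℕ) : ℕ := ∑ j, ((s j - t j) + (t j - s j))

lemma dst_comm (s t : Fin d → ℕ) : dst s t = dst t s := by
  unfold dst; apply Finset.sum_congr rfl; intro j _; omega

lemma two_mn (s t : Fin d → ℕ) : 2 * mn s t + dst s t = ∑ j, s j + ∑ j, t j := by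
  unfold mn dst
  rw [Finset.mul_sum, ← Finset.sum_add_distrib, ← Finset.sum_add_distrib]
  apply Finset.sum_congr rfl; intro j _; omega

lemma lattice_le {θ : ℝ} (h0 : 0 ≤ θ) (h1 : θ < 1) (S : Finset (Fin d → ℕ)) (t : Fin d → ℕ) :
    ∑ s ∈ S, θ ^ (dst s t) ≤ (2 * (1 - θ)⁻¹) ^ d := by
  classical
  set N : ℕ := ∑ s ∈ S, ∑ j, s j + 1 with hN
  have hsub : S ⊆ Fintype.piFinset (fun _ : Fin d => Finset.range N) := by
    intro s hs
    rw [Fintype.mem_piFinset]
    intro j
    rw [Finset.mem_range, hN]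
    have h2 : s j ≤ ∑ i, s i := Finset.single_le_sum (f := s) (fun _ _ => Nat.zero_le _) (Finset.mem_univ j)
    have h3 : ∑ i, s i ≤ ∑ s ∈ S, ∑ j, s j :=
      Finset.single_le_sum (f := fun s : Fin d → ℕ => ∑ i, s i) (fun _ _ => Nat.zero_le _) hs
    omega
  calc ∑ s ∈ S, θ ^ (dst s t) ≤ ∑ s ∈ Fintype.piFinset (fun _ : Fin d => Finset.range N), θ ^ (dst s t) :=
        Finset.sum_le_sum_of_subset_of_nonneg hsub (fun _ _ _ => by positivity)
    _ = ∏ j : Fin d, ∑ i ∈ Finset.range N, θ ^ ((i - t j) + (t j - i)) := by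
        rw [Finset.prod_univ_sum]
        apply Finset.sum_congr rfl; intro s _
        unfold dst; rw [Finset.prod_pow_eq_pow_sum]
    _ ≤ ∏ _j : Fin d, (2 * (1 - θ)⁻¹) :=
        Finset.prod_le_prod (fun _ _ => Finset.sum_nonneg fun _ _ => by positivity)
          (fun j _ => geom_dist_le h0 h1 _ _)
    _ = (2 * (1 - θ)⁻¹) ^ d := by simp

/-- selection of weights -/
lemma select {α ι : Type*} [MeasurableSpace α] (w : ι → α → ℝ) (hw : ∀ i, BM (w i))
    (h0 : ∀ i x, 0 ≤ w i x) (h1 : ∀ i x, w i x ≤ 1) (F : Finset ι) :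
    ∃ P : ι → α → ℝ, (∀ i, BM (P i)) ∧ (∀ i x, 0 ≤ P i x) ∧ (∀ i x, P i x ≤ 1) ∧
      (∀ x, ∑ i ∈ F, w i x * P i x ≤ 1) ∧
      (∀ i ∈ F, ∀ x, ∀ G : Finset ι, (∀ j, j ∈ G ↔ j ∈ F ∧ j ≠ i) → 1 - P i x ≤ ∑ j ∈ G, w j x) := by
  classical
  have key : ∃ P : ι → α → ℝ, (∀ i, BM (P i)) ∧ (∀ i x, 0 ≤ P i x) ∧ (∀ i x, P i x ≤ 1) ∧
      (∀ x, ∑ i ∈ F, w i x * P i x = 1 - ∏ i ∈ F, (1 - w i x)) ∧
      (∀ i ∈ F, ∀ x, 1 - P i x ≤ ∑ j ∈ F.erase i, w j x) := by
    induction F using Finset.induction_on with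
    | empty =>
      exact ⟨fun _ _ => 1, fun _ => BM.const 1, fun _ _ => by norm_num, fun _ _ => le_rfl, fun x => by simp,
        fun i hi => by simp at hi⟩
    | insert a F ha ih =>
      obtain ⟨P, hP1, hP2, hP3, hP4, hP5⟩ := ih
      have hprod0 : ∀ x, 0 ≤ ∏ i ∈ F, (1 - w i x) := fun x =>
        Finset.prod_nonneg fun i _ => by linarith [h1 i x]
      have hprod1 : ∀ x, ∏ i ∈ F, (1 - w i x) ≤ 1 := fun x =>
        Finset.prod_le_one (fun i _ => by linarith [h1 i x]) (fun i _ => by linarith [h0 i x])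
      have hprodBM : BM (fun x => ∏ i ∈ F, (1 - w i x)) :=
        BM.prod F (fun i _ => (BM.const 1).sub (hw i))
      have hprodsum : ∀ x, 1 - ∏ i ∈ F, (1 - w i x) ≤ ∑ i ∈ F, w i x := by
        intro x
        rw [← hP4 x]
        apply Finset.sum_le_sum; intro i _
        exact mul_le_of_le_one_right (h0 i x) (hP3 i x)
      refine ⟨fun i => if i = a then (fun x => ∏ i ∈ F, (1 - w i x)) else P i, ?_, ?_, ?_, ?_, ?_⟩
      · intro i; by_cases h : i = a
        · simp only [h, if_true]; exact hprodBM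
        · simp only [h, if_false]; exact hP1 i
      · intro i x; by_cases h : i = a
        · simp only [h, if_true]; exact hprod0 x
        · simp only [h, if_false]; exact hP2 i x
      · intro i x; by_cases h : i = a
        · simp only [h, if_true]; exact hprod1 x
        · simp only [h, if_false]; exact hP3 i x
      · intro x
        rw [Finset.sum_insert ha, Finset.prod_insert ha]
        have h2 : ∑ i ∈ F, w i x * (if i = a then (fun x => ∏ i ∈ F, (1 - w i x)) else P i) x =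
            ∑ i ∈ F, w i x * P i x := by
          apply Finset.sum_congr rfl; intro i hi
          have : i ≠ a := fun h => ha (h ▸ hi)
          simp [this]
        rw [h2, hP4 x]
        simp only [if_true]
        ring
      · intro i hi x
        by_cases h : i = a
        · subst h
          simp only [if_true]
          rw [Finset.erase_insert ha]
          exact hprodsum x
        · simp only [h, if_false]
          have hiF : i ∈ F := by
            rcases Finset.mem_insert.1 hi with h' | h'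
            · exact absurd h' h
            · exact h'
          refine (hP5 i hiF x).trans ?_
          apply Finset.sum_le_sum_of_subset_of_nonneg
          · exact Finset.erase_subset_erase _ (Finset.subset_insert _ _)
          · intro j _ _; exact h0 j x
  obtain ⟨P, hP1, hP2, hP3, hP4, hP5⟩ := key
  refine ⟨P, hP1, hP2, hP3, fun x => ?_, fun i hi x G hG => ?_⟩
  · rw [hP4 x]
    have : 0 ≤ ∏ i ∈ F, (1 - w i x) := Finset.prod_nonneg fun i _ => by linarith [h1 i x]
    linarith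
  · have : G = F.erase i := by
      ext j; rw [hG, Finset.mem_erase]; tauto
    rw [this]; exact hP5 i hi x

end Pool.Agent.Helper935.MT
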