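import Pool.Agent.Helper935.MT.UpA

open MeasureTheory
open scoped ENNReal ComplexConjugate

namespace Pool.Agent.Helper935.MT

variable {d : ℕ}

/-- weighted Jensen inequality for finite sums -/
lemma wjensen {ι : Type*} (S : Finset ι) (w x : ι → ℝ) (hw : ∀ i ∈ S, 0 < w i) (hx : ∀ i ∈ S, 0 ≤ x i)
    (N : ℕ) : (∑ i ∈ S, x i) ^ (N + 1) ≤ (∑ i ∈ S, w i) ^ N * ∑ i ∈ S, w i * (x i / w i) ^ (N + 1) := by
  rcases S.eq_empty_or_nonempty with h | h
  · subst h; simp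
  · set W := ∑ i ∈ S, w i with hW
    have hW0 : 0 < W := Finset.sum_pos hw h
    have h1 := Real.pow_arith_mean_le_arith_mean_pow S (fun i => w i / W) (fun i => x i / w i)
      (fun i hi => (div_pos (hw i hi) hW0).le) (by rw [← Finset.sum_div]; exact div_self hW0.ne')
      (fun i hi => div_nonneg (hx i hi) (hw i hi).le) (N + 1)
    have h2 : ∑ i ∈ S, x i = W * ∑ i ∈ S, w i / W * (x i / w i) := by
      rw [Finset.mul_sum]; apply Finset.sum_congr rfl; intro i hi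
      have := (hw i hi).ne'; have := hW0.ne'; field_simp
    rw [h2, mul_pow]
    calc W ^ (N + 1) * (∑ i ∈ S, w i / W * (x i / w i)) ^ (N + 1)
        ≤ W ^ (N + 1) * ∑ i ∈ S, w i / W * (x i / w i) ^ (N + 1) :=
          mul_le_mul_of_nonneg_left h1 (by positivity)
      _ = W ^ N * ∑ i ∈ S, w i * (x i / w i) ^ (N + 1) := by
          rw [Finset.mul_sum, Finset.mul_sum]; apply Finset.sum_congr rfl; intro i _
          have := hW0.ne'; rw [pow_succ]; field_simp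

/-! ### modulated Fejer kernels -/

/-- modulated Fejer kernel with spectrum in `(2^(j-1), 2^j)` -/
noncomputable def mfej (j : ℕ) (t : Circ) : ℂ := fourier (3 * 2 ^ (j - 2)) t * fej (2 ^ (j - 2)) t

noncomputable def etc (j : ℕ) (k : ℤ) : ℝ := eta (2 ^ (j - 2)) (k - 3 * 2 ^ (j - 2))

/-- one dimensional block -/
noncomputable def blk1 (j : ℕ) : Finset ℤ := Finset.Ioo (2 * 2 ^ (j - 2)) (4 * 2 ^ (j - 2))

lemma mfej_eq (j : ℕ) (t : Circ) : mfej j t = ∑ k ∈ blk1 j, (etc j k : ℂ) * fourier k t := by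
  unfold mfej fej blk1
  set N : ℕ := 2 ^ (j - 2) with hN
  have hN0 : 0 < N := by positivity
  have hNc : (2 : ℤ) ^ (j - 2) = (N : ℤ) := by rw [hN]; push_cast; ring
  rw [Finset.mul_sum]
  have h1 : ∑ k ∈ Finset.Ioo (2 * (2 : ℤ) ^ (j - 2)) (4 * 2 ^ (j - 2)), (etc j k : ℂ) * fourier k t =
      ∑ k ∈ Finset.Icc (2 * (N : ℤ)) (4 * N), (etc j k : ℂ) * fourier k t := by
    rw [hNc]
    apply Finset.sum_subset Finset.Ioo_subset_Icc_self
    intro k hk hk2
    rw [Finset.mem_Icc] at hk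
    rw [Finset.mem_Ioo] at hk2
    have h2 : k = 2 * N ∨ k = 4 * N := by omega
    have h3 : etc j k = 0 := by
      unfold etc
      rw [← hN, hNc]
      apply eta_of_ge hN0
      rcases h2 with h2 | h2
      · rw [h2]; push_cast
        have : (2 * (N : ℝ) - 3 * N) = -N := by ring
        rw [this, abs_neg, abs_of_nonneg (by positivity)]
      · rw [h2]; push_cast
        have : (4 * (N : ℝ) - 3 * N) = N := by ring
        rw [this, abs_of_nonneg (by positivity)]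
    rw [h3]; simp
  rw [h1]
  rw [hNc]
  apply Finset.sum_nbij' (fun k : ℤ => k + 3 * (N : ℤ)) (fun k : ℤ => k - 3 * (N : ℤ))
  · intro k hk; rw [Finset.mem_Icc] at hk ⊢; omega
  · intro k hk; rw [Finset.mem_Icc] at hk ⊢; omega
  · intro k _; ring
  · intro k _; ring
  · intro k _
    unfold etc
    rw [← hN, hNc]
    have : k + 3 * (N : ℤ) - 3 * N = k := by ring
    rw [this, fourier_add]; ring

lemma norm_mfej (j : ℕ) (t : Circ) : ‖mfej j t‖ = ‖fej (2 ^ (j - 2)) t‖ := by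
  unfold mfej; rw [norm_mul, norm_fourier, one_mul]

lemma continuous_mfej (j : ℕ) : Continuous (mfej j) := (fourier _).continuous.mul (continuous_fej _)

/-- product kernels -/
noncomputable def FF (s : Fin d → ℕ) (x : Torus d) : ℂ := ∏ j, mfej (s j) (x j)

noncomputable def blk (s : Fin d → ℕ) : Finset (Fin d → ℤ) := Fintype.piFinset fun j => blk1 (s j)

noncomputable def cf (s : Fin d → ℕ) (k : Fin d → ℤ) : ℝ := ∏ j, etc (s j) (k j)

lemma cf_nonneg (s : Fin d → ℕ) (k : Fin d → ℤ) : 0 ≤ cf s k := Finset.prod_nonneg fun _ _ => eta_nonneg _ _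

lemma cf_le_one (s : Fin d → ℕ) (k : Fin d → ℤ) : cf s k ≤ 1 :=
  Finset.prod_le_one (fun _ _ => eta_nonneg _ _) (fun _ _ => eta_le_one _ _)

lemma FF_eq (s : Fin d → ℕ) (x : Torus d) : FF s x = tp (blk s) (fun k => (cf s k : ℂ)) x := by
  unfold FF tp blk
  simp only [mfej_eq]
  rw [Finset.prod_univ_sum]
  apply Finset.sum_congr rfl; intro k _
  unfold cf ek
  rw [Finset.prod_mul_distrib, Complex.ofReal_prod]

lemma BC_FF (s : Fin d → ℕ) : BC (FF s) := by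
  have : FF s = tp (blk s) (fun k => (cf s k : ℂ)) := funext (FF_eq s)
  rw [this]; exact BC_tp _ _

lemma integral_norm_FF (s : Fin d → ℕ) : ∫ x, ‖FF s x‖ ∂(mu d) = 1 := by
  unfold FF mu
  simp only [norm_prod]
  rw [integral_fintype_prod_eq_prod (fun j t => ‖mfej (s j) t‖)]
  apply Finset.prod_eq_one; intro j _
  simp only [norm_mfej]
  exact integral_norm_fej (by positivity)

lemma norm_FF_le (s : Fin d → ℕ) (x : Torus d) : ‖FF s x‖ ≤ 2 ^ (∑ j, s j) := by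
  unfold FF
  rw [norm_prod, ← Finset.prod_pow_eq_pow_sum]
  apply Finset.prod_le_prod (fun _ _ => norm_nonneg _)
  intro j _
  rw [norm_mfej]
  refine (norm_fej_le (by positivity) _).trans ?_
  push_cast
  exact pow_le_pow_right₀ (by norm_num) (by omega)

lemma lev_of_blk1 {j : ℕ} (hj : 2 ≤ j) {k : ℤ} (hk : k ∈ blk1 j) : lev k = j := by
  unfold blk1 at hk
  rw [Finset.mem_Ioo] at hk
  have e1 : (2 : ℤ) * 2 ^ (j - 2) = 2 ^ (j - 1) := by
    rw [← pow_succ']; congr 1; omega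
  have e2 : (4 : ℤ) * 2 ^ (j - 2) = 2 ^ j := by
    have : (4 : ℤ) = 2 ^ 2 := by norm_num
    rw [this, ← pow_add]; congr 1; omega
  rw [e1, e2] at hk
  have hpos : (0 : ℤ) < 2 ^ (j - 1) := by positivity
  have habs : |(k : ℝ)| = (k : ℝ) := by
    apply abs_of_nonneg
    have : (0 : ℤ) ≤ k := by linarith [hk.1]
    exact_mod_cast this
  have h1 : lev k ≤ j := by
    rw [lev_le_iff, habs]
    have := hk.2; exact_mod_cast this
  have h2 : j - 1 < lev k := by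
    rw [lt_lev_iff, habs]
    have := hk.1.le; exact_mod_cast this
  omega

lemma lev_of_blk {s : Fin d → ℕ} (hs : ∀ j, 2 ≤ s j) {k : Fin d → ℤ} (hk : k ∈ blk s) (j : Fin d) :
    lev (k j) = s j := by
  unfold blk at hk
  rw [Fintype.mem_piFinset] at hk
  exact lev_of_blk1 (hs j) (hk j)

lemma tlev_of_blk {s : Fin d → ℕ} (hs : ∀ j, 2 ≤ s j) {k : Fin d → ℤ} (hk : k ∈ blk s) :
    tlev k = ∑ j, s j := by
  unfold tlev; exact Finset.sum_congr rfl fun j _ => lev_of_blk hs hk j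

/-- the core of the one dimensional block -/
noncomputable def gam1 (j : ℕ) : Finset ℤ :=
  Finset.Icc (3 * 2 ^ (j - 2) - ((2 ^ (j - 2) / 2 : ℕ) : ℤ)) (3 * 2 ^ (j - 2) + ((2 ^ (j - 2) / 2 : ℕ) : ℤ))

noncomputable def gam (s : Fin d → ℕ) : Finset (Fin d → ℤ) := Fintype.piFinset fun j => gam1 (s j)

lemma gam1_sub (j : ℕ) : gam1 j ⊆ blk1 j := by
  intro k hk
  unfold gam1 at hk; unfold blk1
  rw [Finset.mem_Icc] at hk
  rw [Finset.mem_Ioo]
  have h0 : 0 < 2 ^ (j - 2) := by positivity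
  have h1 : 2 ^ (j - 2) / 2 < 2 ^ (j - 2) := Nat.div_lt_self h0 (by norm_num)
  have hNc : (2 : ℤ) ^ (j - 2) = ((2 ^ (j - 2) : ℕ) : ℤ) := by push_cast; ring
  rw [hNc] at hk ⊢
  omega

lemma gam_sub (s : Fin d → ℕ) : gam s ⊆ blk s := by
  intro k hk
  unfold gam at hk; unfold blk
  rw [Fintype.mem_piFinset] at hk ⊢
  exact fun j => gam1_sub _ (hk j)

lemma etc_ge {j : ℕ} {k : ℤ} (hk : k ∈ gam1 j) : 1 / 2 ≤ etc j k := by
  unfold gam1 at hk
  rw [Finset.mem_Icc] at hk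
  unfold etc
  set N : ℕ := 2 ^ (j - 2) with hN
  have hN0 : 0 < N := by positivity
  have hNc : (2 : ℤ) ^ (j - 2) = (N : ℤ) := by rw [hN]; push_cast; ring
  rw [hNc] at hk ⊢
  have h1 : |((k - 3 * N : ℤ) : ℝ)| ≤ (N : ℝ) / 2 := by
    have h2 : ((N / 2 : ℕ) : ℝ) ≤ (N : ℝ) / 2 := Nat.cast_div_le
    rw [abs_le]
    have h3 : -((N / 2 : ℕ) : ℤ) ≤ k - 3 * N := by linarith [hk.1]
    have h4 : k - 3 * N ≤ ((N / 2 : ℕ) : ℤ) := by linarith [hk.2]
    have h3' : ((-((N / 2 : ℕ) : ℤ) : ℤ) : ℝ) ≤ ((k - 3 * N : ℤ) : ℝ) := Int.cast_le.2 h3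
    have h4' : ((k - 3 * N : ℤ) : ℝ) ≤ (((N / 2 : ℕ) : ℤ) : ℝ) := Int.cast_le.2 h4
    rw [Int.cast_neg, Int.cast_natCast] at h3'
    rw [Int.cast_natCast] at h4'
    constructor <;> linarith
  have hN' : (0 : ℝ) < N := by exact_mod_cast hN0
  rw [eta_of_le hN0 (by linarith)]
  have : |((k - 3 * N : ℤ) : ℝ)| / N ≤ 1 / 2 := by rw [div_le_iff₀ hN']; linarith
  linarith

lemma cf_ge {s : Fin d → ℕ} {k : Fin d → ℤ} (hk : k ∈ gam s) : (1 / 2 : ℝ) ^ d ≤ cf s k := by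
  unfold cf
  unfold gam at hk
  rw [Fintype.mem_piFinset] at hk
  calc (1 / 2 : ℝ) ^ d = ∏ _j : Fin d, (1 / 2 : ℝ) := by simp
    _ ≤ _ := Finset.prod_le_prod (fun _ _ => by norm_num) (fun j _ => etc_ge (hk j))

lemma card_gam (s : Fin d → ℕ) : (2 : ℝ) ^ (∑ j, s j) ≤ 4 ^ d * ((gam s).card : ℝ) := by
  unfold gam
  rw [Fintype.card_piFinset]
  push_cast
  rw [← Finset.prod_pow_eq_pow_sum]
  have : (4 : ℝ) ^ d = ∏ _j : Fin d, (4 : ℝ) := by simp
  rw [this, ← Finset.prod_mul_distrib]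
  apply Finset.prod_le_prod (fun _ _ => by positivity)
  intro j _
  unfold gam1
  rw [Int.card_Icc]
  set N : ℕ := 2 ^ (s j - 2) with hN
  have h1 : (3 * (2 : ℤ) ^ (s j - 2) + ((N / 2 : ℕ) : ℤ) + 1 - (3 * 2 ^ (s j - 2) - ((N / 2 : ℕ) : ℤ))) =
      ((2 * (N / 2) + 1 : ℕ) : ℤ) := by push_cast; ring
  rw [h1, Int.toNat_natCast]
  have h2 : N ≤ 2 * (N / 2) + 1 := by omega
  have h3 : (2 : ℝ) ^ (s j) ≤ 4 * (N : ℝ) := by
    rw [hN]; push_cast
    have : (4 : ℝ) = 2 ^ 2 := by norm_num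
    rw [this, ← pow_add]
    exact pow_le_pow_right₀ (by norm_num) (by omega)
  have h4 : (N : ℝ) ≤ ((2 * (N / 2) + 1 : ℕ) : ℝ) := by exact_mod_cast h2
  linarith

lemma card_gam_le (s : Fin d → ℕ) : ((gam s).card : ℝ) ≤ 2 ^ (∑ j, s j) := by
  unfold gam
  rw [Fintype.card_piFinset]
  push_cast
  rw [← Finset.prod_pow_eq_pow_sum]
  apply Finset.prod_le_prod (fun _ _ => by positivity)
  intro j _
  unfold gam1
  rw [Int.card_Icc]
  set N : ℕ := 2 ^ (s j - 2) with hN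
  have h1 : (3 * (2 : ℤ) ^ (s j - 2) + ((N / 2 : ℕ) : ℤ) + 1 - (3 * 2 ^ (s j - 2) - ((N / 2 : ℕ) : ℤ))) =
      ((2 * (N / 2) + 1 : ℕ) : ℤ) := by push_cast; ring
  rw [h1, Int.toNat_natCast]
  have h0 : 0 < N := by positivity
  have h2 : 2 * (N / 2) + 1 ≤ 2 ^ (s j) := by
    rcases Nat.lt_or_ge (s j) 2 with h | h
    · have : N = 1 := by rw [hN]; have : s j - 2 = 0 := by omega
                         rw [this]; norm_num
      rw [this]
      have : 1 ≤ 2 ^ (s j) := Nat.one_le_two_pow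
      omega
    · have e1 : 2 ^ (s j) = 4 * N := by
        rw [hN]
        have : (4 : ℕ) = 2 ^ 2 := by norm_num
        rw [this, ← pow_add]; congr 1; omega
      rw [e1]; omega
  exact_mod_cast h2

/-! ### positive majorants -/

/-- positive product kernels -/
noncomputable def PP (s : Fin d → ℕ) (x : Torus d) : ℂ := ∏ j, (2 * fej (2 ^ (s j + 1)) (x j))

noncomputable def cp (s : Fin d → ℕ) (k : Fin d → ℤ) : ℝ := ∏ j, (2 * eta (2 ^ (s j + 1)) (k j))

lemma PP_eq (s : Fin d → ℕ) (x : Torus d) : PP s x = tp (box s) (fun k => (cp s k : ℂ)) x := by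
  unfold PP tp box fej
  simp only [Finset.mul_sum]
  have h1 : ∀ j : Fin d, ((2 ^ (s j + 1) : ℕ) : ℤ) = (2 : ℤ) ^ (s j + 1) := fun j => by push_cast; ring
  simp only [h1]
  rw [Finset.prod_univ_sum]
  apply Finset.sum_congr rfl; intro k _
  unfold cp ek
  rw [Complex.ofReal_prod, ← Finset.prod_mul_distrib]
  apply Finset.prod_congr rfl; intro j _
  push_cast; ring

lemma cp_nonneg (s : Fin d → ℕ) (k : Fin d → ℤ) : 0 ≤ cp s k :=
  Finset.prod_nonneg fun _ _ => mul_nonneg (by norm_num) (eta_nonneg _ _)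

lemma cp_ge {s : Fin d → ℕ} {k : Fin d → ℤ} (hk : ∀ j, |(k j : ℝ)| ≤ 2 ^ (s j)) : 1 ≤ cp s k := by
  unfold cp
  have h0 : (1 : ℝ) = ∏ _j : Fin d, (1 : ℝ) := by simp
  rw [h0]
  apply Finset.prod_le_prod (fun _ _ => zero_le_one)
  intro j _
  have hc : (((2 ^ (s j + 1) : ℕ)) : ℝ) = 2 * 2 ^ (s j) := by push_cast; ring
  have hpos : (0 : ℝ) < 2 ^ (s j) := by positivity
  rw [eta_of_le (by positivity) (by rw [hc]; linarith [hk j]), hc]
  have : |(k j : ℝ)| / (2 * 2 ^ (s j)) ≤ 1 / 2 := by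
    rw [div_le_iff₀ (by positivity)]; linarith [hk j]
  linarith

lemma BC_PP (s : Fin d → ℕ) : BC (PP s) := by
  have : PP s = tp (box s) (fun k => (cp s k : ℂ)) := funext (PP_eq s)
  rw [this]; exact BC_tp _ _

lemma norm_PP_le (s : Fin d → ℕ) (x : Torus d) : ‖PP s x‖ ≤ 4 ^ d * 2 ^ (∑ j, s j) := by
  unfold PP
  rw [norm_prod]
  calc ∏ j, ‖2 * fej (2 ^ (s j + 1)) (x j)‖ ≤ ∏ j, ((4 : ℝ) * 2 ^ (s j)) := by
        apply Finset.prod_le_prod (fun _ _ => norm_nonneg _)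
        intro j _
        rw [norm_mul, Complex.norm_ofNat]
        have := norm_fej_le (N := 2 ^ (s j + 1)) (by positivity) (x j)
        have e : ((2 ^ (s j + 1) : ℕ) : ℝ) = 2 * 2 ^ (s j) := by push_cast; ring
        rw [e] at this; linarith
    _ = 4 ^ d * 2 ^ (∑ j, s j) := by
        rw [Finset.prod_mul_distrib, Finset.prod_const, Finset.card_univ, Fintype.card_fin,
          Finset.prod_pow_eq_pow_sum]

lemma integral_norm_PP (s : Fin d → ℕ) : ∫ x, ‖PP s x‖ ∂(mu d) = 2 ^ d := by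
  unfold PP mu
  simp only [norm_prod]
  rw [integral_fintype_prod_eq_prod (fun j t => ‖2 * fej (2 ^ (s j + 1)) t‖)]
  have : ∀ j : Fin d, ∫ t, ‖2 * fej (2 ^ (s j + 1)) t‖ ∂AddCircle.haarAddCircle = 2 := by
    intro j
    simp only [norm_mul, Complex.norm_ofNat]
    rw [integral_const_mul, integral_norm_fej (by positivity)]; norm_num
  simp only [this]; simp

lemma fej_pair (i j : ℕ) : ∫ t, ‖2 * fej (2 ^ (i + 1)) t‖ * ‖2 * fej (2 ^ (j + 1)) t‖
    ∂AddCircle.haarAddCircle ≤ 8 * 2 ^ (min i j) := by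
  have hc : ∀ n, Continuous (fun t => ‖2 * fej n t‖) := fun n =>
    (continuous_const.mul (continuous_fej n)).norm
  have hI : ∀ n : ℕ, ∫ t, ‖2 * fej (2 ^ (n + 1)) t‖ ∂AddCircle.haarAddCircle = 2 := by
    intro n
    simp only [norm_mul, Complex.norm_ofNat]
    rw [integral_const_mul, integral_norm_fej (by positivity)]; norm_num
  have hS : ∀ (n : ℕ) t, ‖2 * fej (2 ^ (n + 1)) t‖ ≤ 4 * 2 ^ n := by
    intro n t
    rw [norm_mul, Complex.norm_ofNat]
    have := norm_fej_le (N := 2 ^ (n + 1)) (by positivity) t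
    have e : ((2 ^ (n + 1) : ℕ) : ℝ) = 2 * 2 ^ n := by push_cast; ring
    rw [e] at this; linarith
  rcases le_total i j with h | h
  · rw [min_eq_left h]
    calc ∫ t, ‖2 * fej (2 ^ (i + 1)) t‖ * ‖2 * fej (2 ^ (j + 1)) t‖ ∂AddCircle.haarAddCircle
        ≤ ∫ t, (4 * 2 ^ i) * ‖2 * fej (2 ^ (j + 1)) t‖ ∂AddCircle.haarAddCircle :=
          integral_mono (int_of_cont ((hc _).mul (hc _))) ((int_of_cont (hc _)).const_mul _)
            (fun t => mul_le_mul_of_nonneg_right (hS i t) (norm_nonneg _))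
      _ = 8 * 2 ^ i := by rw [integral_const_mul, hI]; ring
  · rw [min_eq_right h]
    calc ∫ t, ‖2 * fej (2 ^ (i + 1)) t‖ * ‖2 * fej (2 ^ (j + 1)) t‖ ∂AddCircle.haarAddCircle
        ≤ ∫ t, ‖2 * fej (2 ^ (i + 1)) t‖ * (4 * 2 ^ j) ∂AddCircle.haarAddCircle :=
          integral_mono (int_of_cont ((hc _).mul (hc _))) ((int_of_cont (hc _)).mul_const _)
            (fun t => mul_le_mul_of_nonneg_left (hS j t) (norm_nonneg _))
      _ = 8 * 2 ^ j := by rw [integral_mul_const, hI]; ring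

lemma PP_pair (s s' : Fin d → ℕ) : ∫ x, ‖PP s x‖ * ‖PP s' x‖ ∂(mu d) ≤ 8 ^ d * 2 ^ (mn s s') := by
  have h1 : ∀ x : Torus d, ‖PP s x‖ * ‖PP s' x‖ =
      ∏ j, (‖2 * fej (2 ^ (s j + 1)) (x j)‖ * ‖2 * fej (2 ^ (s' j + 1)) (x j)‖) := by
    intro x; unfold PP; rw [norm_prod, norm_prod, ← Finset.prod_mul_distrib]
  simp only [h1]
  unfold mu
  rw [integral_fintype_prod_eq_prod (fun j t => ‖2 * fej (2 ^ (s j + 1)) t‖ * ‖2 * fej (2 ^ (s' j + 1)) t‖)]
  calc ∏ j, ∫ t, ‖2 * fej (2 ^ (s j + 1)) t‖ * ‖2 * fej (2 ^ (s' j + 1)) t‖ ∂AddCircle.haarAddCircle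
      ≤ ∏ j, ((8 : ℝ) * 2 ^ (min (s j) (s' j))) :=
        Finset.prod_le_prod (fun _ _ => integral_nonneg fun _ => by positivity) (fun j _ => fej_pair _ _)
    _ = 8 ^ d * 2 ^ (mn s s') := by
        rw [Finset.prod_mul_distrib, Finset.prod_const, Finset.card_univ, Fintype.card_fin,
          Finset.prod_pow_eq_pow_sum]
        rfl

/-- moments of the sum of positive kernels -/
theorem PP_moment (N : ℕ) (d : ℕ) : ∃ C : ℝ, 0 < C ∧ ∀ (l : ℕ) (B : Finset (Fin d → ℕ)),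
    (∀ s ∈ B, ∑ j, s j = l) →
    ∫ x, (∑ s ∈ B, ‖PP s x‖) ^ (N + 2) ∂(mu d) ≤ C * B.card * (2 ^ l) ^ (N + 1) := by
  classical
  set θ : ℝ := (2 : ℝ) ^ (-(1 / (2 * ((N : ℝ) + 1)))) with hθ
  have hθ0 : 0 < θ := by positivity
  have hθ1 : θ < 1 := by
    rw [hθ]; apply Real.rpow_lt_one_of_one_lt_of_neg (by norm_num)
    have : 0 < 1 / (2 * ((N : ℝ) + 1)) := by positivity
    linarith
  set Λ : ℝ := (2 * (1 - θ)⁻¹) ^ d with hΛ
  have hΛ0 : 0 < Λ := by
    have : 0 < (1 - θ)⁻¹ := inv_pos.2 (by linarith)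
    positivity
  refine ⟨Λ ^ (N + 1) * ((4 ^ d) ^ N * 8 ^ d), by positivity, fun l B hB => ?_⟩
  have hBM : ∀ s : Fin d → ℕ, BM (fun x => ‖PP s x‖) := fun s => (BC_PP s).norm
  have hsumBM : BM (fun x => ∑ s ∈ B, ‖PP s x‖) := BM.sum _ (fun s _ => hBM s)
  have h1 : ∀ x : Torus d, (∑ s ∈ B, ‖PP s x‖) ^ (N + 2) =
      ∑ s ∈ B, ‖PP s x‖ * (∑ s' ∈ B, ‖PP s' x‖) ^ (N + 1) := by
    intro x; rw [← Finset.sum_mul, ← pow_succ']
  have h2 : ∀ s ∈ B, ∫ x, ‖PP s x‖ * (∑ s' ∈ B, ‖PP s' x‖) ^ (N + 1) ∂(mu d) ≤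
      Λ ^ (N + 1) * ((4 ^ d) ^ N * 8 ^ d) * (2 ^ l) ^ (N + 1) := by
    intro s hs
    have e1 : ∀ x : Torus d, ‖PP s x‖ * (∑ s' ∈ B, ‖PP s' x‖) ^ (N + 1) ≤
        Λ ^ N * ∑ s' ∈ B, θ ^ (dst s' s) * ((1 / (θ ^ (dst s' s)) ^ (N + 1)) *
          ((4 ^ d * 2 ^ l) ^ N * (‖PP s x‖ * ‖PP s' x‖))) := by
      intro x
      have q1 := wjensen B (fun s' => θ ^ (dst s' s)) (fun s' => ‖PP s' x‖) (fun _ _ => by positivity)
        (fun _ _ => norm_nonneg _) N
      have q2 : (∑ s' ∈ B, θ ^ (dst s' s)) ^ N ≤ Λ ^ N :=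
        pow_le_pow_left₀ (Finset.sum_nonneg fun _ _ => by positivity) (lattice_le hθ0.le hθ1 _ _) N
      calc ‖PP s x‖ * (∑ s' ∈ B, ‖PP s' x‖) ^ (N + 1)
          ≤ ‖PP s x‖ * (Λ ^ N * ∑ s' ∈ B, θ ^ (dst s' s) * (‖PP s' x‖ / θ ^ (dst s' s)) ^ (N + 1)) := by
            apply mul_le_mul_of_nonneg_left _ (norm_nonneg _)
            refine q1.trans (mul_le_mul_of_nonneg_right q2 ?_)
            exact Finset.sum_nonneg fun _ _ => by positivity
        _ = Λ ^ N * ∑ s' ∈ B, θ ^ (dst s' s) * ((1 / (θ ^ (dst s' s)) ^ (N + 1)) *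
            (‖PP s' x‖ ^ N * (‖PP s x‖ * ‖PP s' x‖))) := by
            rw [mul_left_comm, Finset.mul_sum]
            congr 1
            apply Finset.sum_congr rfl; intro s' _
            rw [div_pow, pow_succ ‖PP s' x‖]; ring
        _ ≤ _ := by
            apply mul_le_mul_of_nonneg_left _ (by positivity)
            apply Finset.sum_le_sum; intro s' hs'
            apply mul_le_mul_of_nonneg_left _ (by positivity)
            apply mul_le_mul_of_nonneg_left _ (by positivity)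
            apply mul_le_mul_of_nonneg_right _ (by positivity)
            apply pow_le_pow_left₀ (norm_nonneg _)
            have := norm_PP_le s' x
            rw [hB s' hs'] at this; exact this
    have e2 : BM (fun x : Torus d => Λ ^ N * ∑ s' ∈ B, θ ^ (dst s' s) * ((1 / (θ ^ (dst s' s)) ^ (N + 1)) *
          ((4 ^ d * 2 ^ l) ^ N * (‖PP s x‖ * ‖PP s' x‖)))) :=
      (BM.const _).mul (BM.sum _ (fun s' _ => (BM.const _).mul ((BM.const _).mul ((BM.const _).mul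
        ((hBM s).mul (hBM s'))))))
    have e3 : BM (fun x : Torus d => ‖PP s x‖ * (∑ s' ∈ B, ‖PP s' x‖) ^ (N + 1)) :=
      (hBM s).mul (hsumBM.pow _)
    calc ∫ x, ‖PP s x‖ * (∑ s' ∈ B, ‖PP s' x‖) ^ (N + 1) ∂(mu d)
        ≤ ∫ x, Λ ^ N * ∑ s' ∈ B, θ ^ (dst s' s) * ((1 / (θ ^ (dst s' s)) ^ (N + 1)) *
          ((4 ^ d * 2 ^ l) ^ N * (‖PP s x‖ * ‖PP s' x‖))) ∂(mu d) :=
          integral_mono (e3.integrable _) (e2.integrable _) e1
      _ = Λ ^ N * ∑ s' ∈ B, θ ^ (dst s' s) * ((1 / (θ ^ (dst s' s)) ^ (N + 1)) *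
          ((4 ^ d * 2 ^ l) ^ N * ∫ x, ‖PP s x‖ * ‖PP s' x‖ ∂(mu d))) := by
          rw [integral_const_mul, integral_finsetSum _ (fun s' _ => (((hBM s).mul (hBM s')).integrable _).const_mul _
            |>.const_mul _ |>.const_mul _)]
          simp only [integral_const_mul]
      _ ≤ Λ ^ N * ∑ s' ∈ B, θ ^ (dst s' s) * ((4 ^ d * 2 ^ l) ^ N * (8 ^ d * 2 ^ l)) := by
          apply mul_le_mul_of_nonneg_left _ (by positivity)
          apply Finset.sum_le_sum; intro s' hs'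
          apply mul_le_mul_of_nonneg_left _ (by positivity)
          have q3 := PP_pair s s'
          have q4 : (2 : ℝ) ^ (mn s s') = 2 ^ l * (θ ^ (dst s' s)) ^ (N + 1) := by
            have q5 := two_mn s s'
            rw [hB s hs, hB s' hs', dst_comm] at q5
            have q6 : (2 : ℝ) * mn s s' + dst s' s = l + l := by exact_mod_cast q5
            rw [← Real.rpow_natCast 2 (mn s s'), ← Real.rpow_natCast 2 l, ← pow_mul, hθ,
              ← Real.rpow_natCast, ← Real.rpow_mul (by norm_num), ← Real.rpow_add (by norm_num)]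
            congr 1
            push_cast
            have : ((N : ℝ) + 1) ≠ 0 := by positivity
            field_simp
            linarith
          rw [q4] at q3
          calc (1 / (θ ^ (dst s' s)) ^ (N + 1)) * ((4 ^ d * 2 ^ l) ^ N * ∫ x, ‖PP s x‖ * ‖PP s' x‖ ∂(mu d))
              ≤ (1 / (θ ^ (dst s' s)) ^ (N + 1)) * ((4 ^ d * 2 ^ l) ^ N *
                (8 ^ d * (2 ^ l * (θ ^ (dst s' s)) ^ (N + 1)))) := by
                apply mul_le_mul_of_nonneg_left _ (by positivity)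
                exact mul_le_mul_of_nonneg_left q3 (by positivity)
            _ = (4 ^ d * 2 ^ l) ^ N * (8 ^ d * 2 ^ l) := by field_simp
      _ = Λ ^ N * ((∑ s' ∈ B, θ ^ (dst s' s)) * ((4 ^ d * 2 ^ l) ^ N * (8 ^ d * 2 ^ l))) := by
          rw [Finset.sum_mul]
      _ ≤ Λ ^ N * (Λ * ((4 ^ d * 2 ^ l) ^ N * (8 ^ d * 2 ^ l))) := by
          apply mul_le_mul_of_nonneg_left _ (by positivity)
          exact mul_le_mul_of_nonneg_right (lattice_le hθ0.le hθ1 _ _) (by positivity)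
      _ = Λ ^ (N + 1) * ((4 ^ d) ^ N * 8 ^ d) * (2 ^ l) ^ (N + 1) := by
          rw [mul_pow]; ring
  simp only [h1]
  rw [integral_finsetSum _ (fun s _ => ((hBM s).mul (hsumBM.pow _)).integrable _)]
  calc ∑ s ∈ B, ∫ x, ‖PP s x‖ * (∑ s' ∈ B, ‖PP s' x‖) ^ (N + 1) ∂(mu d)
      ≤ ∑ _s ∈ B, Λ ^ (N + 1) * ((4 ^ d) ^ N * 8 ^ d) * (2 ^ l) ^ (N + 1) := Finset.sum_le_sum h2
    _ = _ := by rw [Finset.sum_const, nsmul_eq_mul]; ring

end Pool.Agent.Helper935.MT
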