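import Pool.Agent.Helper935.MT.LowA

open MeasureTheory
open scoped ENNReal ComplexConjugate

namespace Pool.Agent.Helper935.MT

variable {d : ℕ}

/-! ### domination of Fourier coefficients -/

lemma ft_tp_mul (U : Finset (Fin d → ℤ)) (b : (Fin d → ℤ) → ℂ) {X : Torus d → ℂ} (hX : BC X)
    (k : Fin d → ℤ) : ft (fun x => tp U b x * X x) k = ∑ j ∈ U, b j * ft X (k - j) := by
  have h1 : ft (fun x => tp U b x * X x) k = ∫ x, tp U b x * (X x * ek (-k) x) ∂(mu d) := by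
    unfold ft; congr 1; funext x; ring
  rw [h1, integral_tp_mul U b (hX.mul (BC.ek _)).integrable]
  apply Finset.sum_congr rfl; intro j _
  congr 1
  unfold ft
  congr 1; funext x
  have : -(k - j) = -k + - -j := by abel
  rw [this, ek_add]; ring

/-- coefficient domination -/
def Dom (X Y : Torus d → ℂ) : Prop := ∀ k, ∃ y : ℝ, ft Y k = (y : ℂ) ∧ ‖ft X k‖ ≤ y

lemma Dom.tp_mul {U : Finset (Fin d → ℤ)} {b : (Fin d → ℤ) → ℂ} {φ : (Fin d → ℤ) → ℝ}
    (hb : ∀ k ∈ U, ‖b k‖ ≤ φ k) {X Y : Torus d → ℂ} (hX : BC X) (hY : BC Y) (h : Dom X Y) :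
    Dom (fun x => tp U b x * X x) (fun x => tp U (fun k => (φ k : ℂ)) x * Y x) := by
  intro k
  choose y hy1 hy2 using h
  refine ⟨∑ j ∈ U, φ j * y (k - j), ?_, ?_⟩
  · rw [ft_tp_mul U _ hY, Complex.ofReal_sum]
    apply Finset.sum_congr rfl; intro j _
    rw [hy1]; push_cast; ring
  · rw [ft_tp_mul U _ hX]
    refine (norm_sum_le _ _).trans (Finset.sum_le_sum fun j hj => ?_)
    rw [norm_mul]
    exact mul_le_mul (hb j hj) (hy2 _) (norm_nonneg _) ((norm_nonneg _).trans (hb j hj))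

lemma conj_tp (U : Finset (Fin d → ℤ)) (b : (Fin d → ℤ) → ℂ) (x : Torus d) :
    conj (tp U b x) = tp (U.image (fun k => -k)) (fun k => conj (b (-k))) x := by
  unfold tp
  rw [map_sum, Finset.sum_image (fun a _ b _ h => neg_injective h)]
  apply Finset.sum_congr rfl; intro k _
  beta_reduce
  rw [map_mul, conj_ek, neg_neg]

lemma dom_pow {U : Finset (Fin d → ℤ)} {b : (Fin d → ℤ) → ℂ} {φ : (Fin d → ℤ) → ℝ}
    (hb : ∀ k ∈ U, ‖b k‖ ≤ φ k) (q : ℕ) :
    Dom (fun x => (tp U b x * conj (tp U b x)) ^ q)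
      (fun x => (tp U (fun k => (φ k : ℂ)) x * conj (tp U (fun k => (φ k : ℂ)) x)) ^ q) ∧
    BC (fun x => (tp U b x * conj (tp U b x)) ^ q) ∧
    BC (fun x => (tp U (fun k => (φ k : ℂ)) x * conj (tp U (fun k => (φ k : ℂ)) x)) ^ q) := by
  induction q with
  | zero =>
    simp only [pow_zero]
    refine ⟨?_, BC.const 1, BC.const 1⟩
    intro k
    have h1 : ft (fun _ : Torus d => (1 : ℂ)) k = if k = 0 then 1 else 0 := by
      unfold ft
      simp only [one_mul]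
      rw [integral_ek]
      simp
    refine ⟨if k = 0 then 1 else 0, ?_, ?_⟩
    · rw [h1]; split_ifs <;> simp
    · rw [h1]; split_ifs <;> simp
  | succ q ih =>
    obtain ⟨h1, h2, h3⟩ := ih
    have e : ∀ b : (Fin d → ℤ) → ℂ, (fun x => (tp U b x * conj (tp U b x)) ^ (q + 1)) =
        fun x => tp U b x * (tp (U.image (fun k => -k)) (fun k => conj (b (-k))) x *
          (tp U b x * conj (tp U b x)) ^ q) := by
      intro b; funext x; rw [pow_succ, ← conj_tp]; ring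
    refine ⟨?_, ?_, ?_⟩
    · rw [e, e]
      have h4 : Dom (fun x => tp (U.image (fun k => -k)) (fun k => conj (b (-k))) x *
          (tp U b x * conj (tp U b x)) ^ q)
          (fun x => tp (U.image (fun k => -k)) (fun k => ((φ (-k) : ℝ) : ℂ)) x *
          (tp U (fun k => (φ k : ℂ)) x * conj (tp U (fun k => (φ k : ℂ)) x)) ^ q) := by
        apply Dom.tp_mul _ h2 h3 h1
        intro k hk
        rw [Finset.mem_image] at hk
        obtain ⟨j, hj, rfl⟩ := hk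
        rw [neg_neg, RCLike.norm_conj]; exact hb j hj
      have h5 : ∀ x, tp (U.image (fun k => -k)) (fun k => conj ((φ (-k) : ℝ) : ℂ)) x =
          tp (U.image (fun k => -k)) (fun k => ((φ (-k) : ℝ) : ℂ)) x := by
        intro x; simp only [Complex.conj_ofReal]
      simp only [h5]
      exact Dom.tp_mul hb ((BC_tp _ _).mul h2) ((BC_tp _ _).mul h3) h4
    · rw [e]; exact (BC_tp _ _).mul ((BC_tp _ _).mul h2)
    · rw [e]; exact (BC_tp _ _).mul ((BC_tp _ _).mul h3)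

lemma dom_moment {U : Finset (Fin d → ℤ)} {b : (Fin d → ℤ) → ℂ} {φ : (Fin d → ℤ) → ℝ}
    (hb : ∀ k ∈ U, ‖b k‖ ≤ φ k) (q : ℕ) :
    ∫ x, (‖tp U b x‖ ^ 2) ^ q ∂(mu d) ≤ ∫ x, (‖tp U (fun k => (φ k : ℂ)) x‖ ^ 2) ^ q ∂(mu d) := by
  obtain ⟨h1, h2, h3⟩ := dom_pow hb q
  obtain ⟨y, hy1, hy2⟩ := h1 0
  have e : ∀ b : (Fin d → ℤ) → ℂ, ft (fun x => (tp U b x * conj (tp U b x)) ^ q) 0 =
      ((∫ x, (‖tp U b x‖ ^ 2) ^ q ∂(mu d) : ℝ) : ℂ) := by
    intro b
    unfold ft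
    rw [← integral_complex_ofReal]
    congr 1; funext x
    beta_reduce
    rw [neg_zero, ek_zero, mul_one, Complex.mul_conj, Complex.normSq_eq_norm_sq]; push_cast; ring
  rw [e] at hy1 hy2
  have h4 : ∫ x, (‖tp U (fun k => (φ k : ℂ)) x‖ ^ 2) ^ q ∂(mu d) = y := by exact_mod_cast hy1
  rw [h4]
  rw [Complex.norm_real, Real.norm_eq_abs] at hy2
  exact (le_abs_self _).trans hy2

/-- moment bound for a set of frequencies inside a family of blocks of the same level -/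
theorem layer_moment (Q : ℕ) (d : ℕ) : ∃ C : ℝ, 0 < C ∧ ∀ (l : ℕ) (B : Finset (Fin d → ℕ))
    (V : Finset (Fin d → ℤ)), (∀ s ∈ B, ∑ j, s j = l) → (∀ k ∈ V, ∃ s ∈ B, ∀ j, |(k j : ℝ)| ≤ 2 ^ (s j)) →
    ∫ x, (‖tp V (fun _ => (1 : ℂ)) x‖ ^ 2) ^ (Q + 1) ∂(mu d) ≤ C * B.card * (2 ^ l) ^ (2 * Q + 1) := by
  classical
  obtain ⟨C, hC0, hC⟩ := PP_moment (2 * Q) d
  refine ⟨C, hC0, fun l B V hB hV => ?_⟩
  set U : Finset (Fin d → ℤ) := B.biUnion box with hU
  set φ : (Fin d → ℤ) → ℝ := fun k => ∑ s ∈ B, if k ∈ box s then cp s k else 0 with hφ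
  have hφ0 : ∀ k, ∀ s ∈ B, 0 ≤ (if k ∈ box s then cp s k else 0) := by
    intro k s _; split_ifs
    · exact cp_nonneg s k
    · exact le_rfl
  have hVU : V ⊆ U := by
    intro k hk
    obtain ⟨s, hs, hk2⟩ := hV k hk
    rw [hU, Finset.mem_biUnion]
    refine ⟨s, hs, ?_⟩
    rw [mem_box]; intro j
    have h1 := hk2 j
    rw [abs_le] at h1
    have h2 : (2 : ℤ) ^ (s j) ≤ 2 ^ (s j + 1) := pow_le_pow_right₀ (by norm_num) (by omega)
    constructor
    · have h3 : -(2 : ℤ) ^ (s j) ≤ k j := by have := h1.1; exact_mod_cast this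
      linarith
    · have h3 : k j ≤ (2 : ℤ) ^ (s j) := by have := h1.2; exact_mod_cast this
      linarith
  set b : (Fin d → ℤ) → ℂ := fun k => if k ∈ V then 1 else 0 with hb
  have hH : ∀ x, tp V (fun _ => (1 : ℂ)) x = tp U b x := by
    intro x
    unfold tp
    rw [← Finset.sum_subset hVU]
    · apply Finset.sum_congr rfl; intro k hk; simp only [hb, if_pos hk]
    · intro k _ hk; simp only [hb, if_neg hk, zero_mul]
  have hΦ : ∀ x, tp U (fun k => (φ k : ℂ)) x = ∑ s ∈ B, PP s x := by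
    intro x
    simp only [PP_eq]
    unfold tp
    simp only [hφ, Complex.ofReal_sum, Finset.sum_mul]
    rw [Finset.sum_comm]
    apply Finset.sum_congr rfl; intro s hs
    have hsub : box s ⊆ U := Finset.subset_biUnion_of_mem box hs
    rw [← Finset.sum_subset hsub]
    · apply Finset.sum_congr rfl; intro k hk; rw [if_pos hk]
    · intro k _ hk; rw [if_neg hk]; simp
  have hdom : ∀ k ∈ U, ‖b k‖ ≤ φ k := by
    intro k _
    simp only [hb]
    split_ifs with h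
    · obtain ⟨s, hs, hk2⟩ := hV k h
      have hkb : k ∈ box s := by
        rw [mem_box]; intro j
        have h1 := hk2 j
        rw [abs_le] at h1
        have h2 : (2 : ℤ) ^ (s j) ≤ 2 ^ (s j + 1) := pow_le_pow_right₀ (by norm_num) (by omega)
        constructor
        · have h3 : -(2 : ℤ) ^ (s j) ≤ k j := by have := h1.1; exact_mod_cast this
          linarith
        · have h3 : k j ≤ (2 : ℤ) ^ (s j) := by have := h1.2; exact_mod_cast this
          linarith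
      rw [norm_one]
      calc (1 : ℝ) ≤ cp s k := cp_ge hk2
        _ = (if k ∈ box s then cp s k else 0) := by rw [if_pos hkb]
        _ ≤ φ k := Finset.single_le_sum (f := fun s => if k ∈ box s then cp s k else 0) (hφ0 k) hs
    · rw [norm_zero]; exact Finset.sum_nonneg (hφ0 k)
  simp only [hH]
  refine (dom_moment hdom (Q + 1)).trans ?_
  simp only [hΦ]
  have hBM : ∀ s : Fin d → ℕ, BM (fun x => ‖PP s x‖) := fun s => (BC_PP s).norm
  have hle : ∫ x, (‖∑ s ∈ B, PP s x‖ ^ 2) ^ (Q + 1) ∂(mu d) ≤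
      ∫ x, (∑ s ∈ B, ‖PP s x‖) ^ (2 * Q + 2) ∂(mu d) := by
    apply integral_mono ((((BC.sum B (fun s _ => BC_PP s)).norm.pow 2).pow _).integrable _)
      (((BM.sum B (fun s _ => hBM s)).pow _).integrable _)
    intro x
    simp only
    rw [← pow_mul]
    have : 2 * (Q + 1) = 2 * Q + 2 := by ring
    rw [this]
    exact pow_le_pow_left₀ (norm_nonneg _) (norm_sum_le _ _) _
  exact hle.trans (hC l B hB)

/-! ### the multi-layer estimate -/

lemma exists_level {t z : ℝ} (ht : 1 < t) {l₀ l₁ : ℕ} (h0 : t ^ l₀ ≤ z) (h1 : z < t ^ l₁) :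
    ∃ j ∈ Finset.Ico l₀ l₁, t ^ j ≤ z ∧ z < t ^ (j + 1) := by
  have hz : 1 ≤ z := (one_le_pow₀ ht.le).trans h0
  obtain ⟨j, hj1, hj2⟩ := exists_nat_pow_near hz ht
  refine ⟨j, ?_, hj1, hj2⟩
  rw [Finset.mem_Ico]
  constructor
  · by_contra hcon
    rw [not_le] at hcon
    have : t ^ (j + 1) ≤ t ^ l₀ := pow_le_pow_right₀ ht.le hcon
    linarith
  · by_contra hcon
    rw [not_lt] at hcon
    have : t ^ l₁ ≤ t ^ j := pow_le_pow_right₀ ht.le hcon
    linarith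

theorem jmethod {r : ℝ} (hr : 2 < r) (d : ℕ) (n : ℕ) (hn : r < n) : ∃ C : ℝ, 0 < C ∧
    ∀ (l₀ l₁ : ℕ) (H : ℕ → Torus d → ℂ) (M : ℝ), l₀ ≤ l₁ → 0 ≤ M → (∀ l, BC (H l)) →
    (∀ J : Finset ℕ, J ⊆ Finset.Icc l₀ l₁ →
      ∫ x, ‖∑ l ∈ J, (((2 : ℝ) ^ (-(1 - 2 / r))) ^ l : ℝ) * H l x‖ ^ 2 ∂(mu d) ≤
        ∑ l ∈ J, ((2 : ℝ) ^ (-(1 - 2 / r))) ^ (2 * l) * M) →
    (∀ l ∈ Finset.Icc l₀ l₁, ∫ x, ‖H l x‖ ^ n ∂(mu d) ≤ M * (2 ^ l) ^ (n - 2)) →
    ∫ x, ‖∑ l ∈ Finset.Icc l₀ l₁, (((2 : ℝ) ^ (-(1 - 2 / r))) ^ l : ℝ) * H l x‖ ^ r ∂(mu d) ≤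
      C * ((l₁ + 1 - l₀ : ℕ) : ℝ) * M := by
  classical
  have hr0 : 0 < r := by linarith
  have hn2 : 2 < n := by
    have : (2 : ℝ) < n := by linarith
    exact_mod_cast this
  have hn0 : (0 : ℝ) < n := by linarith
  obtain ⟨n', hn'⟩ : ∃ n', n = n' + 1 := ⟨n - 1, by omega⟩
  set u : ℝ := (2 : ℝ) ^ (-(1 - 2 / r)) with hu
  set t : ℝ := (2 : ℝ) ^ (2 / r) with ht
  set v : ℝ := t ^ (r - 2) with hv
  set ρ : ℝ := t ^ ((n : ℝ) - r) with hρ
  have hu0 : 0 < u := by positivity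
  have ht1 : 1 < t := Real.one_lt_rpow (by norm_num) (by positivity)
  have ht0 : 0 < t := by linarith
  have hv1 : 1 < v := Real.one_lt_rpow ht1 (by linarith)
  have hv0 : 0 < v := by linarith
  have hρ1 : 1 < ρ := Real.one_lt_rpow ht1 (by linarith)
  have hρ0 : 0 < ρ := by linarith
  have huv : u ^ 2 = v⁻¹ := by
    rw [hu, hv, ht, ← Real.rpow_natCast, ← Real.rpow_mul (by norm_num), ← Real.rpow_mul (by norm_num),
      ← Real.rpow_neg (by norm_num)]
    congr 1; push_cast; field_simp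
  have huρ : u ^ n * 2 ^ (n - 2) = ρ := by
    have e1 : ((n - 2 : ℕ) : ℝ) = (n : ℝ) - 2 := by
      rw [Nat.cast_sub (by omega)]; norm_num
    rw [hu, hρ, ht, ← Real.rpow_natCast, ← Real.rpow_mul (by norm_num), ← Real.rpow_natCast,
      ← Real.rpow_add (by norm_num), ← Real.rpow_mul (by norm_num), e1]
    congr 1; field_simp; ring
  set θ : ℝ := ρ ^ (-(1 / (n : ℝ))) with hθ
  have hθ0 : 0 < θ := by positivity
  have hθ1 : θ < 1 := Real.rpow_lt_one_of_one_lt_of_neg hρ1 (by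
    have : 0 < 1 / (n : ℝ) := by positivity
    linarith)
  have hθn : θ ^ n = ρ⁻¹ := by
    rw [hθ, ← Real.rpow_natCast, ← Real.rpow_mul hρ0.le]
    have : -(1 / (n : ℝ)) * n = -1 := by field_simp
    rw [this, Real.rpow_neg_one]
  set W : ℝ := (1 - θ)⁻¹ with hW
  have hW0 : 0 < W := inv_pos.2 (by linarith)
  set A : ℝ := (1 - v⁻¹)⁻¹ with hA
  have hA0 : 0 < A := inv_pos.2 (by have := inv_lt_one_of_one_lt₀ hv1; linarith)
  refine ⟨A + W ^ n + (2 ^ n * W ^ n + 4 * v * A), by positivity, fun l₀ l₁ H M hl hM hH h2 hnn => ?_⟩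
  set Lj : ℕ → Torus d → ℂ := fun j x => ∑ l ∈ (Finset.Icc l₀ l₁).filter (fun l => l ≤ j), (u ^ l : ℝ) * H l x with hLj
  set Hj : ℕ → Torus d → ℂ := fun j x => ∑ l ∈ (Finset.Icc l₀ l₁).filter (fun l => ¬ l ≤ j), (u ^ l : ℝ) * H l x with hHj
  set h : Torus d → ℂ := fun x => ∑ l ∈ Finset.Icc l₀ l₁, (u ^ l : ℝ) * H l x with hh
  have hterm : ∀ l, BC (fun x => ((u ^ l : ℝ) : ℂ) * H l x) := fun l => (BC.const _).mul (hH l)
  have hLBC : ∀ j, BC (Lj j) := fun j => BC.sum _ (fun l _ => hterm l)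
  have hHBC : ∀ j, BC (Hj j) := fun j => BC.sum _ (fun l _ => hterm l)
  have hhBC : BC h := BC.sum _ (fun l _ => hterm l)
  have hsplit : ∀ j x, h x = Lj j x + Hj j x := by
    intro j x; simp only [hh, hLj, hHj]
    rw [Finset.sum_filter_add_sum_filter_not]
  -- bound for the low parts
  have hLn : ∀ j, ∫ x, ‖Lj j x‖ ^ n ∂(mu d) ≤ W ^ n * (M * ρ ^ j) := by
    intro j
    set S := (Finset.Icc l₀ l₁).filter (fun l => l ≤ j) with hS
    have e1 : ∀ x, ‖Lj j x‖ ^ n ≤ W ^ n' * ∑ l ∈ S, θ ^ (j - l) * ((u ^ l * ‖H l x‖) / θ ^ (j - l)) ^ n := by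
      intro x
      have q1 : ‖Lj j x‖ ≤ ∑ l ∈ S, u ^ l * ‖H l x‖ := by
        simp only [hLj]
        refine (norm_sum_le _ _).trans (le_of_eq ?_)
        apply Finset.sum_congr rfl; intro l _
        rw [norm_mul, Complex.norm_real, Real.norm_of_nonneg (by positivity)]
      have q2 := wjensen S (fun l => θ ^ (j - l)) (fun l => u ^ l * ‖H l x‖) (fun _ _ => by positivity)
        (fun _ _ => by positivity) n'
      have q3 : (∑ l ∈ S, θ ^ (j - l)) ≤ W := by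
        apply geom_inj_le hθ0.le hθ1
        intro a ha b hb hab
        simp only [hS, Finset.coe_filter, Set.mem_ofPred_eq] at ha hb
        omega
      rw [← hn'] at q2
      calc ‖Lj j x‖ ^ n ≤ (∑ l ∈ S, u ^ l * ‖H l x‖) ^ n := pow_le_pow_left₀ (norm_nonneg _) q1 n
        _ ≤ (∑ l ∈ S, θ ^ (j - l)) ^ n' * ∑ l ∈ S, θ ^ (j - l) * ((u ^ l * ‖H l x‖) / θ ^ (j - l)) ^ n := q2
        _ ≤ _ := by
            apply mul_le_mul_of_nonneg_right
            · exact pow_le_pow_left₀ (Finset.sum_nonneg fun _ _ => by positivity) q3 _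
            · exact Finset.sum_nonneg fun _ _ => by positivity
    have hint : ∀ l, Integrable (fun x => ‖H l x‖ ^ n) (mu d) := fun l => ((hH l).norm.pow n).integrable _
    have e2 : ∀ l x, θ ^ (j - l) * ((u ^ l * ‖H l x‖) / θ ^ (j - l)) ^ n =
        (θ ^ (j - l) * ((u ^ l) ^ n / (θ ^ (j - l)) ^ n)) * ‖H l x‖ ^ n := by
      intro l x; rw [div_pow, mul_pow]; ring
    simp only [e2] at e1
    calc ∫ x, ‖Lj j x‖ ^ n ∂(mu d)
        ≤ ∫ x, W ^ n' * ∑ l ∈ S, (θ ^ (j - l) * ((u ^ l) ^ n / (θ ^ (j - l)) ^ n)) * ‖H l x‖ ^ n ∂(mu d) :=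
          integral_mono (((hLBC j).norm.pow n).integrable _)
            ((integrable_finsetSum _ fun l _ => (hint l).const_mul _).const_mul _) e1
      _ = W ^ n' * ∑ l ∈ S, (θ ^ (j - l) * ((u ^ l) ^ n / (θ ^ (j - l)) ^ n)) * ∫ x, ‖H l x‖ ^ n ∂(mu d) := by
          rw [integral_const_mul, integral_finsetSum _ (fun l _ => (hint l).const_mul _)]
          simp only [integral_const_mul]
      _ ≤ W ^ n' * ∑ l ∈ S, θ ^ (j - l) * (M * ρ ^ j) := by
          apply mul_le_mul_of_nonneg_left _ (by positivity)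
          apply Finset.sum_le_sum; intro l hl
          rw [hS, Finset.mem_filter] at hl
          rw [mul_assoc]
          apply mul_le_mul_of_nonneg_left _ (by positivity)
          have q4 := hnn l hl.1
          have q5 : (u ^ l) ^ n / (θ ^ (j - l)) ^ n * (M * (2 ^ l) ^ (n - 2)) = M * ρ ^ j := by
            have q6 : (u ^ l) ^ n * (2 ^ l) ^ (n - 2) = ρ ^ l := by
              rw [← huρ, mul_pow, ← pow_mul, ← pow_mul, ← pow_mul, ← pow_mul]; congr 2 <;> ring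
            have q7 : (θ ^ (j - l)) ^ n = (ρ ^ (j - l))⁻¹ := by
              rw [← pow_mul, mul_comm, pow_mul, hθn, inv_pow]
            have q8 : ρ ^ j = ρ ^ l * ρ ^ (j - l) := by rw [← pow_add]; congr 1; omega
            rw [q7, q8, ← q6]; field_simp
          calc (u ^ l) ^ n / (θ ^ (j - l)) ^ n * ∫ x, ‖H l x‖ ^ n ∂(mu d)
              ≤ (u ^ l) ^ n / (θ ^ (j - l)) ^ n * (M * (2 ^ l) ^ (n - 2)) :=
                mul_le_mul_of_nonneg_left q4 (by positivity)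
            _ = _ := q5
      _ = W ^ n' * ((∑ l ∈ S, θ ^ (j - l)) * (M * ρ ^ j)) := by rw [Finset.sum_mul]
      _ ≤ W ^ n' * (W * (M * ρ ^ j)) := by
          apply mul_le_mul_of_nonneg_left _ (by positivity)
          apply mul_le_mul_of_nonneg_right _ (by positivity)
          apply geom_inj_le hθ0.le hθ1
          intro a ha b hb hab
          simp only [hS, Finset.coe_filter, Set.mem_ofPred_eq] at ha hb
          omega
      _ = W ^ n * (M * ρ ^ j) := by rw [hn', pow_succ]; ring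
  -- bound for the high parts
  have hsumv : ∀ (j : ℕ) (J : Finset ℕ), (∀ l ∈ J, j ≤ l) → ∑ l ∈ J, u ^ (2 * l) * M ≤ A * (v⁻¹ ^ j * M) := by
    intro j J hJ
    have q1 : ∀ l ∈ J, u ^ (2 * l) * M = (v⁻¹) ^ (l - j) * (v⁻¹ ^ j * M) := by
      intro l hl
      rw [pow_mul, huv, ← mul_assoc, ← pow_add]; congr 2; have := hJ l hl; omega
    rw [Finset.sum_congr rfl q1, ← Finset.sum_mul]
    apply mul_le_mul_of_nonneg_right _ (by positivity)
    apply geom_inj_le (by positivity) (inv_lt_one_of_one_lt₀ hv1)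
    intro a ha b hb hab
    have := hJ a ha; have := hJ b hb
    simp only at hab
    omega
  have hHn : ∀ j, ∫ x, ‖Hj j x‖ ^ 2 ∂(mu d) ≤ A * (v⁻¹ ^ j * M) := by
    intro j
    refine (h2 _ (Finset.filter_subset _ _)).trans (hsumv j _ ?_)
    intro l hl; rw [Finset.mem_filter] at hl; omega
  have hh2 : ∫ x, ‖h x‖ ^ 2 ∂(mu d) ≤ A * (v⁻¹ ^ l₀ * M) := by
    refine (h2 _ subset_rfl).trans (hsumv l₀ _ ?_)
    intro l hl; rw [Finset.mem_Icc] at hl; exact hl.1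
  have hhn : ∫ x, ‖h x‖ ^ n ∂(mu d) ≤ W ^ n * (M * ρ ^ l₁) := by
    have : h = Lj l₁ := by
      funext x; simp only [hh, hLj]
      congr 1
      rw [Finset.filter_true_of_mem]
      intro l hl; rw [Finset.mem_Icc] at hl; exact hl.2
    rw [this]; exact hLn l₁
  -- pointwise bound
  have hvj : ∀ j : ℕ, (t ^ j) ^ (r - 2) = v ^ j := by
    intro j; rw [hv, ← Real.rpow_natCast t j, ← Real.rpow_mul ht0.le, mul_comm, Real.rpow_mul ht0.le,
      Real.rpow_natCast]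
  have hρj : ∀ j : ℕ, (t ^ j) ^ ((n : ℝ) - r) = ρ ^ j := by
    intro j; rw [hρ, ← Real.rpow_natCast t j, ← Real.rpow_mul ht0.le, mul_comm, Real.rpow_mul ht0.le,
      Real.rpow_natCast]
  have hup : ∀ (z y : ℝ) (j : ℕ), 0 < z → z ≤ t ^ j → z ≤ y → z ^ r ≤ v ^ j * y ^ 2 := by
    intro z y j hz hzj hzy
    have e1 : z ^ r = z ^ (r - 2) * z ^ 2 := by
      rw [← Real.rpow_natCast z 2, ← Real.rpow_add hz]; congr 1; push_cast; ring
    rw [e1, ← hvj]
    exact mul_le_mul (Real.rpow_le_rpow hz.le hzj (by linarith)) (pow_le_pow_left₀ hz.le hzy 2)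
      (by positivity) (by positivity)
  have hdn : ∀ (z y : ℝ) (j : ℕ), t ^ j ≤ z → z ≤ y → z ^ r ≤ (ρ ^ j)⁻¹ * y ^ n := by
    intro z y j hzj hzy
    have htj : 0 < t ^ j := by positivity
    have hz : 0 < z := lt_of_lt_of_le htj hzj
    have e1 : z ^ n = z ^ ((n : ℝ) - r) * z ^ r := by
      rw [← Real.rpow_natCast z n, ← Real.rpow_add hz]; congr 1; ring
    have e2 : ρ ^ j ≤ z ^ ((n : ℝ) - r) := by
      rw [← hρj]; exact Real.rpow_le_rpow htj.le hzj (by linarith)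
    have e3 : ρ ^ j * z ^ r ≤ y ^ n := by
      calc ρ ^ j * z ^ r ≤ z ^ ((n : ℝ) - r) * z ^ r := mul_le_mul_of_nonneg_right e2 (by positivity)
        _ = z ^ n := e1.symm
        _ ≤ y ^ n := pow_le_pow_left₀ hz.le hzy n
    rw [inv_mul_eq_div, le_div_iff₀ (by positivity)]
    linarith
  have hpt : ∀ x, ‖h x‖ ^ r ≤ v ^ l₀ * ‖h x‖ ^ 2 + (ρ ^ l₁)⁻¹ * ‖h x‖ ^ n +
      ∑ j ∈ Finset.Ico l₀ l₁, ((ρ ^ j)⁻¹ * (2 * ‖Lj j x‖) ^ n + v ^ (j + 1) * (2 * ‖Hj j x‖) ^ 2) := by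
    intro x
    set z := ‖h x‖ with hz
    have hz0 : 0 ≤ z := norm_nonneg _
    have hS0 : 0 ≤ ∑ j ∈ Finset.Ico l₀ l₁, ((ρ ^ j)⁻¹ * (2 * ‖Lj j x‖) ^ n + v ^ (j + 1) * (2 * ‖Hj j x‖) ^ 2) :=
      Finset.sum_nonneg fun _ _ => by positivity
    have hA1 : 0 ≤ v ^ l₀ * z ^ 2 := by positivity
    have hA2 : 0 ≤ (ρ ^ l₁)⁻¹ * z ^ n := by positivity
    rcases hz0.eq_or_lt with h0 | h0
    · have hzr : z ^ r = 0 := by rw [← h0, Real.zero_rpow hr0.ne']
      rw [hzr]; linarith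
    · rcases lt_or_ge z (t ^ l₀) with hlt | hge
      · have := hup z z l₀ h0 hlt.le le_rfl
        linarith
      · rcases lt_or_ge z (t ^ l₁) with hlt' | hge'
        · obtain ⟨j, hj, hj1, hj2⟩ := exists_level ht1 hge hlt'
          have hsingle := Finset.single_le_sum
            (f := fun j => (ρ ^ j)⁻¹ * (2 * ‖Lj j x‖) ^ n + v ^ (j + 1) * (2 * ‖Hj j x‖) ^ 2)
            (fun j _ => by positivity) hj
          have hnorm : z ≤ ‖Lj j x‖ + ‖Hj j x‖ := by rw [hz, hsplit j x]; exact norm_add_le _ _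
          have hB1 : 0 ≤ (ρ ^ j)⁻¹ * (2 * ‖Lj j x‖) ^ n := by positivity
          have hB2 : 0 ≤ v ^ (j + 1) * (2 * ‖Hj j x‖) ^ 2 := by positivity
          rcases le_total ‖Lj j x‖ ‖Hj j x‖ with hc | hc
          · have := hup z (2 * ‖Hj j x‖) (j + 1) h0 hj2.le (by linarith)
            linarith
          · have := hdn z (2 * ‖Lj j x‖) j hj1 (by linarith)
            linarith
        · have := hdn z z l₁ hge' le_rfl
          linarith
  -- integrate
  have i1 : Integrable (fun x => ‖h x‖ ^ 2) (mu d) := (hhBC.norm.pow 2).integrable _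
  have i2 : Integrable (fun x => ‖h x‖ ^ n) (mu d) := (hhBC.norm.pow n).integrable _
  have i3 : ∀ j, Integrable (fun x => (2 * ‖Lj j x‖) ^ n) (mu d) := fun j =>
    (((BM.const 2).mul (hLBC j).norm).pow n).integrable _
  have i4 : ∀ j, Integrable (fun x => (2 * ‖Hj j x‖) ^ 2) (mu d) := fun j =>
    (((BM.const 2).mul (hHBC j).norm).pow 2).integrable _
  have i5 : ∀ j ∈ Finset.Ico l₀ l₁, Integrable (fun x => (ρ ^ j)⁻¹ * (2 * ‖Lj j x‖) ^ n +
      v ^ (j + 1) * (2 * ‖Hj j x‖) ^ 2) (mu d) := fun j _ =>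
    ((i3 j).const_mul _).add ((i4 j).const_mul _)
  have i6 : Integrable (fun x => v ^ l₀ * ‖h x‖ ^ 2 + (ρ ^ l₁)⁻¹ * ‖h x‖ ^ n) (mu d) :=
    (i1.const_mul _).add (i2.const_mul _)
  calc ∫ x, ‖h x‖ ^ r ∂(mu d)
      ≤ ∫ x, (v ^ l₀ * ‖h x‖ ^ 2 + (ρ ^ l₁)⁻¹ * ‖h x‖ ^ n +
      ∑ j ∈ Finset.Ico l₀ l₁, ((ρ ^ j)⁻¹ * (2 * ‖Lj j x‖) ^ n + v ^ (j + 1) * (2 * ‖Hj j x‖) ^ 2)) ∂(mu d) :=
        integral_mono ((BM_rpow' hhBC.norm (fun x => norm_nonneg _) hr0.le).integrable _)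
          (i6.add (integrable_finsetSum _ i5)) hpt
    _ = v ^ l₀ * ∫ x, ‖h x‖ ^ 2 ∂(mu d) + (ρ ^ l₁)⁻¹ * ∫ x, ‖h x‖ ^ n ∂(mu d) +
      ∑ j ∈ Finset.Ico l₀ l₁, ((ρ ^ j)⁻¹ * ∫ x, (2 * ‖Lj j x‖) ^ n ∂(mu d) +
        v ^ (j + 1) * ∫ x, (2 * ‖Hj j x‖) ^ 2 ∂(mu d)) := by
        rw [integral_add i6 (integrable_finsetSum _ i5), integral_add (i1.const_mul _) (i2.const_mul _),
          integral_finsetSum _ i5, integral_const_mul, integral_const_mul]
        congr 1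
        apply Finset.sum_congr rfl; intro j _
        rw [integral_add ((i3 j).const_mul _) ((i4 j).const_mul _), integral_const_mul, integral_const_mul]
    _ ≤ A * M + W ^ n * M + ∑ _j ∈ Finset.Ico l₀ l₁, (2 ^ n * W ^ n + 4 * v * A) * M := by
        apply add_le_add
        · apply add_le_add
          · calc v ^ l₀ * ∫ x, ‖h x‖ ^ 2 ∂(mu d) ≤ v ^ l₀ * (A * (v⁻¹ ^ l₀ * M)) :=
                  mul_le_mul_of_nonneg_left hh2 (by positivity)
              _ = A * M := by rw [inv_pow]; field_simp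
          · calc (ρ ^ l₁)⁻¹ * ∫ x, ‖h x‖ ^ n ∂(mu d) ≤ (ρ ^ l₁)⁻¹ * (W ^ n * (M * ρ ^ l₁)) :=
                  mul_le_mul_of_nonneg_left hhn (by positivity)
              _ = W ^ n * M := by field_simp
        · apply Finset.sum_le_sum; intro j _
          have q1 : ∫ x, (2 * ‖Lj j x‖) ^ n ∂(mu d) = 2 ^ n * ∫ x, ‖Lj j x‖ ^ n ∂(mu d) := by
            rw [← integral_const_mul]; congr 1; funext x; rw [mul_pow]
          have q2 : ∫ x, (2 * ‖Hj j x‖) ^ 2 ∂(mu d) = 4 * ∫ x, ‖Hj j x‖ ^ 2 ∂(mu d) := by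
            rw [← integral_const_mul]; congr 1; funext x; rw [mul_pow]; norm_num
          rw [q1, q2]
          calc (ρ ^ j)⁻¹ * (2 ^ n * ∫ x, ‖Lj j x‖ ^ n ∂(mu d)) + v ^ (j + 1) * (4 * ∫ x, ‖Hj j x‖ ^ 2 ∂(mu d))
              ≤ (ρ ^ j)⁻¹ * (2 ^ n * (W ^ n * (M * ρ ^ j))) + v ^ (j + 1) * (4 * (A * (v⁻¹ ^ j * M))) := by
                apply add_le_add
                · apply mul_le_mul_of_nonneg_left _ (by positivity)
                  exact mul_le_mul_of_nonneg_left (hLn j) (by positivity)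
                · apply mul_le_mul_of_nonneg_left _ (by positivity)
                  exact mul_le_mul_of_nonneg_left (hHn j) (by norm_num)
            _ = (2 ^ n * W ^ n + 4 * v * A) * M := by
                have e1 : (ρ ^ j)⁻¹ * ρ ^ j = 1 := inv_mul_cancel₀ (by positivity)
                have e2 : v ^ j * v⁻¹ ^ j = 1 := by rw [← mul_pow, mul_inv_cancel₀ hv0.ne', one_pow]
                calc (ρ ^ j)⁻¹ * (2 ^ n * (W ^ n * (M * ρ ^ j))) + v ^ (j + 1) * (4 * (A * (v⁻¹ ^ j * M)))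
                    = ((ρ ^ j)⁻¹ * ρ ^ j) * (2 ^ n * W ^ n * M) + (v ^ j * v⁻¹ ^ j) * (4 * v * A * M) := by ring
                  _ = _ := by rw [e1, e2]; ring
    _ = (A + W ^ n) * M + ((l₁ - l₀ : ℕ) : ℝ) * ((2 ^ n * W ^ n + 4 * v * A) * M) := by
        rw [Finset.sum_const, Nat.card_Ico, nsmul_eq_mul]; ring
    _ ≤ _ := by
        have q1 : ((l₁ + 1 - l₀ : ℕ) : ℝ) = ((l₁ - l₀ : ℕ) : ℝ) + 1 := by
          have : l₁ + 1 - l₀ = (l₁ - l₀) + 1 := by omega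
          rw [this]; push_cast; ring
        rw [q1]
        have q2 : (0 : ℝ) ≤ ((l₁ - l₀ : ℕ) : ℝ) := Nat.cast_nonneg _
        have q3 : 0 ≤ (A + W ^ n) * M := by positivity
        have q4 : 0 ≤ (2 ^ n * W ^ n + 4 * v * A) * M := by positivity
        nlinarith [mul_nonneg q2 q3]

end Pool.Agent.Helper935.MT
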