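import Pool.Agent.Helper935.MT.LowB

open MeasureTheory
open scoped ENNReal ComplexConjugate

namespace Pool.Agent.Helper935.MT

variable {d : ℕ}

lemma ft_const_mul (c : ℂ) (g : Torus d → ℂ) (k : Fin d → ℤ) :
    ft (fun x => c * g x) k = c * ft g k := by
  unfold ft; rw [← integral_const_mul]; congr 1; funext x; ring

lemma ft_sub {f g : Torus d → ℂ} (hf : BC f) (hg : BC g) (k : Fin d → ℤ) :
    ft (fun x => f x - g x) k = ft f k - ft g k := by
  unfold ft
  rw [← integral_sub (hf.mul (BC.ek _)).integrable (hg.mul (BC.ek _)).integrable]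
  congr 1; funext x; ring

lemma ft_sum {ι : Type*} (S : Finset ι) {g : ι → Torus d → ℂ} (hg : ∀ i ∈ S, BC (g i)) (k : Fin d → ℤ) :
    ft (fun x => ∑ i ∈ S, g i x) k = ∑ i ∈ S, ft (g i) k := by
  unfold ft
  simp only [Finset.sum_mul]
  exact integral_finsetSum _ (fun i hi => ((hg i hi).mul (BC.ek _)).integrable)

lemma ft_FF {s : Fin d → ℕ} (k : Fin d → ℤ) : ft (FF s) k = if k ∈ blk s then (cf s k : ℂ) else 0 := by
  have : FF s = tp (blk s) (fun k => (cf s k : ℂ)) := funext (FF_eq s)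
  rw [this, ft_tp]

lemma fl_FF {s : Fin d → ℕ} (hs : ∀ j, 2 ≤ s j) (l : ℕ) (x : Torus d) :
    fl (FF s) l x = if ∑ j, s j = l then FF s x else 0 := by
  unfold fl tp
  simp only [ft_FF]
  split_ifs with h
  · have hsub : blk s ⊆ layer d l := by
      intro k hk; rw [mem_layer, tlev_of_blk hs hk, h]
    rw [FF_eq]; unfold tp
    rw [← Finset.sum_subset hsub]
    · apply Finset.sum_congr rfl; intro k hk; rw [if_pos hk]
    · intro k _ hk; rw [if_neg hk, zero_mul]
  · apply Finset.sum_eq_zero; intro k hk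
    rw [mem_layer] at hk
    rw [if_neg, zero_mul]
    intro hk2
    exact h ((tlev_of_blk hs hk2).symm.trans hk)

lemma integral_mul_conj_one (V : Finset (Fin d → ℤ)) {g : Torus d → ℂ} (hg : BC g) :
    ∫ x, g x * conj (tp V (fun _ => (1 : ℂ)) x) ∂(mu d) = ∑ k ∈ V, ft g k := by
  have h1 : ∫ x, g x * conj (tp V (fun _ => (1 : ℂ)) x) ∂(mu d) =
      conj (∫ x, tp V (fun _ => (1 : ℂ)) x * conj (g x) ∂(mu d)) := by
    rw [← integral_conj]; congr 1; funext x; rw [map_mul, Complex.conj_conj]; ring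
  rw [h1, integral_tp_conj V _ hg, map_sum]
  apply Finset.sum_congr rfl; intro k _
  rw [one_mul, Complex.conj_conj]

lemma tp_layers {J : Finset ℕ} {V : ℕ → Finset (Fin d → ℤ)} (hV : ∀ l, V l ⊆ layer d l)
    (w : ℕ → ℝ) (x : Torus d) :
    ∑ l ∈ J, ((w l : ℝ) : ℂ) * tp (V l) (fun _ => (1 : ℂ)) x =
      tp (J.biUnion V) (fun k => ((w (tlev k) : ℝ) : ℂ)) x := by
  unfold tp
  rw [Finset.sum_biUnion]
  · apply Finset.sum_congr rfl; intro l _
    rw [Finset.mul_sum]
    apply Finset.sum_congr rfl; intro k hk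
    beta_reduce
    rw [mem_layer.1 (hV l hk)]; ring
  · intro l _ l' _ hne
    rw [Function.onFun, Finset.disjoint_left]
    intro k hk hk'
    exact hne ((mem_layer.1 (hV l hk)).symm.trans (mem_layer.1 (hV l' hk')))

/-- multi-layer bound for the test function -/
theorem hbound {r : ℝ} (hr : 2 ≤ r) (d : ℕ) : ∃ C : ℝ, 0 < C ∧
    ∀ (l₀ l₁ : ℕ) (B : ℕ → Finset (Fin d → ℕ)) (V : ℕ → Finset (Fin d → ℤ)) (M : ℝ), l₀ ≤ l₁ → 0 ≤ M →
    (∀ l ∈ Finset.Icc l₀ l₁, ∀ s ∈ B l, ∑ j, s j = l) → (∀ l, V l ⊆ layer d l) →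
    (∀ l ∈ Finset.Icc l₀ l₁, ∀ k ∈ V l, ∃ s ∈ B l, ∀ j, |(k j : ℝ)| ≤ 2 ^ (s j)) →
    (∀ l ∈ Finset.Icc l₀ l₁, ((V l).card : ℝ) ≤ M) →
    (∀ l ∈ Finset.Icc l₀ l₁, ((B l).card : ℝ) * 2 ^ l ≤ M) →
    ∫ x, ‖∑ l ∈ Finset.Icc l₀ l₁, (((2 : ℝ) ^ (-(1 - 2 / r))) ^ l : ℝ) *
      tp (V l) (fun _ => (1 : ℂ)) x‖ ^ r ∂(mu d) ≤ C * ((l₁ + 1 - l₀ : ℕ) : ℝ) * M := by
  classical
  have horth : ∀ (V : ℕ → Finset (Fin d → ℤ)) (J : Finset ℕ) (M : ℝ), (∀ l, V l ⊆ layer d l) →
      (∀ l ∈ J, ((V l).card : ℝ) ≤ M) →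
      ∫ x, ‖∑ l ∈ J, (((2 : ℝ) ^ (-(1 - 2 / r))) ^ l : ℝ) * tp (V l) (fun _ => (1 : ℂ)) x‖ ^ 2 ∂(mu d) ≤
        ∑ l ∈ J, ((2 : ℝ) ^ (-(1 - 2 / r))) ^ (2 * l) * M := by
    intro V J M hV hM
    simp only [tp_layers (J := J) hV (fun l => ((2 : ℝ) ^ (-(1 - 2 / r))) ^ l)]
    rw [parseval, Finset.sum_biUnion]
    · apply Finset.sum_le_sum; intro l hl
      calc ∑ k ∈ V l, ‖((((2 : ℝ) ^ (-(1 - 2 / r))) ^ (tlev k) : ℝ) : ℂ)‖ ^ 2 =
          ∑ _k ∈ V l, ((2 : ℝ) ^ (-(1 - 2 / r))) ^ (2 * l) := by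
            apply Finset.sum_congr rfl; intro k hk
            rw [mem_layer.1 (hV l hk), Complex.norm_real, Real.norm_of_nonneg (by positivity), ← pow_mul,
              mul_comm l 2]
        _ = ((2 : ℝ) ^ (-(1 - 2 / r))) ^ (2 * l) * (V l).card := by
            rw [Finset.sum_const, nsmul_eq_mul, mul_comm]
        _ ≤ _ := mul_le_mul_of_nonneg_left (hM l hl) (by positivity)
    · intro l _ l' _ hne
      rw [Function.onFun, Finset.disjoint_left]
      intro k hk hk'
      exact hne ((mem_layer.1 (hV l hk)).symm.trans (mem_layer.1 (hV l' hk')))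
  rcases hr.eq_or_lt with h2 | h2
  · subst h2
    refine ⟨1, one_pos, fun l₀ l₁ B V M hl hM hB hV hVB hcV hcB => ?_⟩
    simp only [int_pow_two_eq]
    refine (horth V _ M hV hcV).trans ?_
    have e : (2 : ℝ) ^ (-(1 - 2 / (2 : ℝ))) = 1 := by norm_num
    simp only [e, one_pow, one_mul]
    rw [Finset.sum_const, nsmul_eq_mul, Nat.card_Icc]
  · obtain ⟨Q, hQ⟩ := exists_nat_gt r
    have hnr : r < ((2 * Q + 2 : ℕ) : ℝ) := by
      push_cast
      have : (0 : ℝ) ≤ Q := Nat.cast_nonneg _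
      linarith
    obtain ⟨C₁, hC₁0, hC₁⟩ := jmethod h2 d (2 * Q + 2) hnr
    obtain ⟨C₂, hC₂0, hC₂⟩ := layer_moment Q d
    refine ⟨C₁ * (1 + C₂), by positivity, fun l₀ l₁ B V M hl hM hB hV hVB hcV hcB => ?_⟩
    have h3 := hC₁ l₀ l₁ (fun l => tp (V l) (fun _ => (1 : ℂ))) ((1 + C₂) * M) hl (by positivity)
      (fun l => BC_tp _ _) ?_ ?_
    · refine h3.trans (le_of_eq (by ring))
    · intro J hJ
      refine (horth V J M hV (fun l hl => hcV l (hJ hl))).trans ?_
      apply Finset.sum_le_sum; intro l _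
      apply mul_le_mul_of_nonneg_left _ (by positivity)
      have : 0 ≤ C₂ * M := by positivity
      linarith
    · intro l hl
      have h4 := hC₂ l (B l) (V l) (hB l hl) (hVB l hl)
      have e : ∀ x, (‖tp (V l) (fun _ => (1 : ℂ)) x‖ ^ 2) ^ (Q + 1) =
          ‖tp (V l) (fun _ => (1 : ℂ)) x‖ ^ (2 * Q + 2) := by
        intro x; rw [← pow_mul]; congr 1
      simp only [e] at h4
      refine h4.trans ?_
      have e2 : 2 * Q + 2 - 2 = 2 * Q := by omega
      rw [e2]
      calc C₂ * ((B l).card : ℝ) * (2 ^ l) ^ (2 * Q + 1) = C₂ * (((B l).card : ℝ) * 2 ^ l) * (2 ^ l) ^ (2 * Q) := by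
            rw [pow_succ]; ring
        _ ≤ C₂ * M * (2 ^ l) ^ (2 * Q) := by
            apply mul_le_mul_of_nonneg_right _ (by positivity)
            exact mul_le_mul_of_nonneg_left (hcB l hl) hC₂0.le
        _ ≤ (1 + C₂) * M * (2 ^ l) ^ (2 * Q) := by
            apply mul_le_mul_of_nonneg_right _ (by positivity)
            linarith

lemma blk_abs_le {s : Fin d → ℕ} (hs : ∀ j, 2 ≤ s j) {k : Fin d → ℤ} (hk : k ∈ blk s) (j : Fin d) :
    |(k j : ℝ)| ≤ 2 ^ (s j) := ((lev_le_iff _ _).1 (lev_of_blk hs hk j).le).le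

/-- general lower bound for `p ≤ 2` -/
theorem lowA {p r : ℝ} (hpr : p.HolderConjugate r) (hr : 2 ≤ r) (d : ℕ) : ∃ c : ℝ, 0 < c ∧
    ∀ (l₀ l₁ : ℕ) (B : ℕ → Finset (Fin d → ℕ)) (M D m : ℝ) (eps : ℕ → ℝ), l₀ ≤ l₁ → 0 < M →
    (∀ l ∈ Finset.Icc l₀ l₁, ∀ s ∈ B l, ∑ j, s j = l ∧ ∀ j, 2 ≤ s j) →
    (∀ l ∈ Finset.Icc l₀ l₁, M ≤ ((B l).card : ℝ) * 2 ^ l ∧ ((B l).card : ℝ) * 2 ^ l ≤ 4 * M) →
    (∀ l, 0 ≤ eps l) → 0 ≤ D → (∀ l ∈ Finset.Icc l₀ l₁, D ≤ (2 : ℝ) ^ (2 * (l : ℝ) / r) * eps l) →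
    m ≤ c * (((l₁ + 1 - l₀ : ℕ) : ℝ) * M) →
    ∃ f : Torus d → ℂ, BC f ∧ (∀ l, ∫ x, ‖fl f l x‖ ∂(mu d) ≤ eps l) ∧ ∀ G : Torus d → ℂ, Rep m G →
      c * D * ((l₁ + 1 - l₀ : ℕ) : ℝ) * (((l₁ + 1 - l₀ : ℕ) : ℝ) * M) ^ (-(1 / r)) ≤
        Np p (fun x => f x - G x) := by
  classical
  have hr0 : 0 < r := by linarith
  obtain ⟨C, hC0, hC⟩ := hbound hr d
  -- constants
  set δ : ℝ := (1 / 2 : ℝ) ^ d with hδ
  have hδ0 : 0 < δ := by positivity
  set ω : ℝ := (1 / 4 : ℝ) ^ d with hω
  have hω0 : 0 < ω := by positivity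
  set c₁ : ℝ := δ * ω / 8 / (4 * C) ^ (1 / r) with hc₁
  have hc₁0 : 0 < c₁ := by positivity
  refine ⟨min (ω / 2) c₁, by positivity, fun l₀ l₁ B M D m eps hl hM hB hBM heps hD hDe hm => ?_⟩
  set Nl : ℝ := ((l₁ + 1 - l₀ : ℕ) : ℝ) with hNl
  have hNl1 : 1 ≤ Nl := by
    rw [hNl]; have : 1 ≤ l₁ + 1 - l₀ := by omega
    exact_mod_cast this
  have hNl0 : 0 < Nl := by linarith
  set Λ := Finset.Icc l₀ l₁ with hΛ
  have hcardΛ : (Λ.card : ℝ) = Nl := by rw [hΛ, Nat.card_Icc]
  set a : ℕ → ℝ := fun l => eps l / (B l).card with ha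
  have ha0 : ∀ l, 0 ≤ a l := fun l => div_nonneg (heps l) (Nat.cast_nonneg _)
  have hBc : ∀ l ∈ Λ, 0 < ((B l).card : ℝ) := by
    intro l hl
    have h1 := (hBM l hl).1
    by_contra hcon
    rw [not_lt] at hcon
    have : ((B l).card : ℝ) * 2 ^ l ≤ 0 := mul_nonpos_of_nonpos_of_nonneg hcon (by positivity)
    linarith
  set f : Torus d → ℂ := fun x => ∑ l ∈ Λ, ∑ s ∈ B l, (a l : ℂ) * FF s x with hf
  have hfBC : BC f := BC.sum _ (fun l _ => BC.sum _ (fun s _ => (BC.const _).mul (BC_FF s)))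
  have hft : ∀ k, ft f k = ∑ l ∈ Λ, ∑ s ∈ B l, (a l : ℂ) * ft (FF s) k := by
    intro k
    simp only [hf]
    rw [ft_sum Λ (fun l _ => BC.sum _ (fun s _ => (BC.const _).mul (BC_FF s)))]
    apply Finset.sum_congr rfl; intro l _
    rw [ft_sum (B l) (fun s _ => (BC.const _).mul (BC_FF s))]
    apply Finset.sum_congr rfl; intro s _
    rw [ft_const_mul]
  have hfl : ∀ l x, fl f l x = if l ∈ Λ then ∑ s ∈ B l, (a l : ℂ) * FF s x else 0 := by
    intro l x
    have e1 : fl f l x = ∑ l' ∈ Λ, ∑ s ∈ B l', (a l' : ℂ) * fl (FF s) l x := by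
      unfold fl tp
      simp only [hft, Finset.sum_mul, Finset.mul_sum]
      rw [Finset.sum_comm]
      apply Finset.sum_congr rfl; intro l' _
      rw [Finset.sum_comm]
      apply Finset.sum_congr rfl; intro s _
      apply Finset.sum_congr rfl; intro k _
      ring
    rw [e1]
    have e2 : ∀ l' ∈ Λ, ∑ s ∈ B l', (a l' : ℂ) * fl (FF s) l x =
        if l' = l then ∑ s ∈ B l, (a l : ℂ) * FF s x else 0 := by
      intro l' hl'
      split_ifs with h
      · subst h
        apply Finset.sum_congr rfl; intro s hs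
        rw [fl_FF (hB _ hl' s hs).2, if_pos (hB _ hl' s hs).1]
      · apply Finset.sum_eq_zero; intro s hs
        rw [fl_FF (hB _ hl' s hs).2, if_neg, mul_zero]
        rw [(hB _ hl' s hs).1]; exact h
    rw [Finset.sum_congr rfl e2, Finset.sum_ite_eq']
  refine ⟨f, hfBC, ?_, ?_⟩
  · intro l
    simp only [hfl]
    by_cases h : l ∈ Λ
    · simp only [if_pos h]
      calc ∫ x, ‖∑ s ∈ B l, (a l : ℂ) * FF s x‖ ∂(mu d)
          ≤ ∫ x, ∑ s ∈ B l, a l * ‖FF s x‖ ∂(mu d) := by
            apply integral_mono ((BC.sum _ (fun s _ => (BC.const (a l : ℂ)).mul (BC_FF s))).norm.integrable _)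
              ((BM.sum _ (fun s _ => (BM.const (a l)).mul (BC_FF s).norm)).integrable _)
            intro x
            refine (norm_sum_le _ _).trans (le_of_eq ?_)
            apply Finset.sum_congr rfl; intro s _
            rw [norm_mul, Complex.norm_real, Real.norm_of_nonneg (ha0 l)]
        _ = ∑ s ∈ B l, a l * ∫ x, ‖FF s x‖ ∂(mu d) := by
            rw [integral_finsetSum _ (fun s _ => ((BM.const (a l)).mul (BC_FF s).norm).integrable _)]
            simp only [integral_const_mul]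
        _ = eps l := by
            simp only [integral_norm_FF, mul_one]
            rw [Finset.sum_const, nsmul_eq_mul]; simp only [ha]
            have := (hBc l h).ne'; field_simp
        _ ≤ eps l := le_rfl
    · simp only [if_neg h]; simp; exact heps l
  · intro G hG
    have hGBC := hG.BC
    obtain ⟨K, c', hKm, hGK⟩ := hG
    have hftG : ∀ k, k ∉ K → ft G k = 0 := by
      intro k hk
      have : G = tp K c' := funext hGK
      rw [this, ft_tp, if_neg hk]
    set Γ : ℕ → Finset (Fin d → ℤ) := fun l => if l ∈ Λ then (B l).biUnion gam else ∅ with hΓ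
    set V : ℕ → Finset (Fin d → ℤ) := fun l => Γ l \ K with hV
    have hΓlayer : ∀ l, Γ l ⊆ layer d l := by
      intro l k hk
      simp only [hΓ] at hk
      split_ifs at hk with h
      · rw [Finset.mem_biUnion] at hk
        obtain ⟨s, hs, hks⟩ := hk
        rw [mem_layer, tlev_of_blk (hB l h s hs).2 (gam_sub s hks), (hB l h s hs).1]
      · simp at hk
    have hVlayer : ∀ l, V l ⊆ layer d l := fun l => Finset.sdiff_subset.trans (hΓlayer l)
    have hdisjg : ∀ l ∈ Λ, ∀ s ∈ B l, ∀ s' ∈ B l, s ≠ s' → Disjoint (gam s) (gam s') := by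
      intro l hl s hs s' hs' hne
      rw [Finset.disjoint_left]
      intro k hk hk'
      apply hne
      funext j
      rw [← lev_of_blk (hB l hl s hs).2 (gam_sub s hk) j, lev_of_blk (hB l hl s' hs').2 (gam_sub s' hk') j]
    have hcardΓ : ∀ l ∈ Λ, ω * M ≤ ((Γ l).card : ℝ) ∧ ((Γ l).card : ℝ) ≤ 4 * M := by
      intro l hl
      have e1 : ((Γ l).card : ℝ) = ∑ s ∈ B l, ((gam s).card : ℝ) := by
        simp only [hΓ, if_pos hl]
        rw [Finset.card_biUnion (hdisjg l hl)]; push_cast; rfl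
      rw [e1]
      have e2 : ω * 4 ^ d = 1 := by rw [hω, ← mul_pow]; norm_num
      constructor
      · calc ω * M ≤ ω * (((B l).card : ℝ) * 2 ^ l) := mul_le_mul_of_nonneg_left (hBM l hl).1 hω0.le
          _ = ∑ _s ∈ B l, ω * 2 ^ l := by rw [Finset.sum_const, nsmul_eq_mul]; ring
          _ ≤ ∑ s ∈ B l, ((gam s).card : ℝ) := by
              apply Finset.sum_le_sum; intro s hs
              have := card_gam s
              rw [(hB l hl s hs).1] at this
              calc ω * 2 ^ l ≤ ω * (4 ^ d * ((gam s).card : ℝ)) := mul_le_mul_of_nonneg_left this hω0.le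
                _ = ((gam s).card : ℝ) := by rw [← mul_assoc, e2, one_mul]
      · calc ∑ s ∈ B l, ((gam s).card : ℝ) ≤ ∑ _s ∈ B l, (2 : ℝ) ^ l := by
              apply Finset.sum_le_sum; intro s hs
              have := card_gam_le s
              rw [(hB l hl s hs).1] at this; exact this
          _ = ((B l).card : ℝ) * 2 ^ l := by rw [Finset.sum_const, nsmul_eq_mul]
          _ ≤ 4 * M := (hBM l hl).2
    -- the number of remaining frequencies
    have hrem : Nl * (ω * M) / 2 ≤ ∑ l ∈ Λ, ((V l).card : ℝ) := by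
      have e1 : ∑ l ∈ Λ, ((Γ l ∩ K).card : ℝ) ≤ K.card := by
        have e2 : ∑ l ∈ Λ, (Γ l ∩ K).card = (Λ.biUnion (fun l => Γ l ∩ K)).card := by
          rw [Finset.card_biUnion]
          intro l _ l' _ hne
          rw [Function.onFun, Finset.disjoint_left]
          intro k hk hk'
          rw [Finset.mem_inter] at hk hk'
          exact hne ((mem_layer.1 (hΓlayer l hk.1)).symm.trans (mem_layer.1 (hΓlayer l' hk'.1)))
        have e3 : (Λ.biUnion (fun l => Γ l ∩ K)).card ≤ K.card := by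
          apply Finset.card_le_card
          intro k hk
          rw [Finset.mem_biUnion] at hk
          obtain ⟨l, _, hk⟩ := hk
          exact (Finset.mem_inter.1 hk).2
        rw [← e2] at e3
        exact_mod_cast e3
      have e4 : ∀ l, ((V l).card : ℝ) = ((Γ l).card : ℝ) - ((Γ l ∩ K).card : ℝ) := by
        intro l
        have := Finset.card_sdiff_add_card_inter (Γ l) K
        have h' : ((V l).card : ℝ) + ((Γ l ∩ K).card : ℝ) = ((Γ l).card : ℝ) := by exact_mod_cast this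
        linarith
      simp only [e4]
      rw [Finset.sum_sub_distrib]
      have e5 : Nl * (ω * M) ≤ ∑ l ∈ Λ, ((Γ l).card : ℝ) := by
        calc Nl * (ω * M) = ∑ _l ∈ Λ, ω * M := by rw [Finset.sum_const, nsmul_eq_mul, hcardΛ]
          _ ≤ _ := Finset.sum_le_sum fun l hl => (hcardΓ l hl).1
      have e6 : m ≤ ω / 2 * (Nl * M) :=
        hm.trans (mul_le_mul_of_nonneg_right (min_le_left _ _) (by positivity))
      linarith
    -- the test function
    set u : ℝ := (2 : ℝ) ^ (-(1 - 2 / r)) with hu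
    have hu0 : 0 < u := by positivity
    set h : Torus d → ℂ := fun x => ∑ l ∈ Λ, ((u ^ l : ℝ) : ℂ) * tp (V l) (fun _ => (1 : ℂ)) x with hh
    have hhBC : BC h := BC.sum _ (fun l _ => (BC.const _).mul (BC_tp _ _))
    have hhr : ∫ x, ‖h x‖ ^ r ∂(mu d) ≤ C * Nl * (4 * M) := by
      apply hC l₀ l₁ B V (4 * M) hl (by positivity) (fun l hl s hs => (hB l hl s hs).1) hVlayer
      · intro l hl k hk
        have hk' : k ∈ Γ l := (Finset.mem_sdiff.1 hk).1
        simp only [hΓ] at hk'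
        rw [if_pos hl, Finset.mem_biUnion] at hk'
        obtain ⟨s, hs, hks⟩ := hk'
        exact ⟨s, hs, blk_abs_le (hB l hl s hs).2 (gam_sub s hks)⟩
      · intro l hl
        refine le_trans ?_ (hcardΓ l hl).2
        exact_mod_cast Finset.card_le_card Finset.sdiff_subset
      · intro l hl; exact (hBM l hl).2
    set g : Torus d → ℂ := fun x => f x - G x with hg
    have hgBC : BC g := hfBC.sub hGBC
    -- the coefficients
    have hcoef : ∀ l ∈ Λ, ∀ k ∈ V l, ∃ y : ℝ, ft g k = (y : ℂ) ∧ a l * δ ≤ y := by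
      intro l hl k hk
      have hkK : k ∉ K := (Finset.mem_sdiff.1 hk).2
      have hk' : k ∈ Γ l := (Finset.mem_sdiff.1 hk).1
      simp only [hΓ] at hk'
      rw [if_pos hl, Finset.mem_biUnion] at hk'
      obtain ⟨s, hs, hks⟩ := hk'
      have e1 : ft g k = ft f k := by
        rw [hg, ft_sub hfBC hGBC, hftG k hkK, sub_zero]
      refine ⟨∑ l' ∈ Λ, ∑ s' ∈ B l', a l' * (if k ∈ blk s' then cf s' k else 0), ?_, ?_⟩
      · rw [e1, hft]
        push_cast
        apply Finset.sum_congr rfl; intro l' _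
        apply Finset.sum_congr rfl; intro s' _
        rw [ft_FF]
        split_ifs <;> simp
      · have n1 : ∀ l' ∈ Λ, ∀ s' ∈ B l', 0 ≤ a l' * (if k ∈ blk s' then cf s' k else 0) := by
          intro l' _ s' _
          apply mul_nonneg (ha0 l')
          split_ifs
          · exact cf_nonneg _ _
          · exact le_rfl
        calc a l * δ ≤ a l * cf s k := mul_le_mul_of_nonneg_left (cf_ge hks) (ha0 l)
          _ = a l * (if k ∈ blk s then cf s k else 0) := by rw [if_pos (gam_sub s hks)]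
          _ ≤ ∑ s' ∈ B l, a l * (if k ∈ blk s' then cf s' k else 0) :=
              Finset.single_le_sum (f := fun s' => a l * (if k ∈ blk s' then cf s' k else 0)) (n1 l hl) hs
          _ ≤ _ := Finset.single_le_sum (f := fun l' => ∑ s' ∈ B l', a l' * (if k ∈ blk s' then cf s' k else 0))
              (fun l' hl' => Finset.sum_nonneg (n1 l' hl')) hl
    choose! y hy1 hy2 using hcoef
    have hpair : ∫ x, g x * conj (h x) ∂(mu d) = ((∑ l ∈ Λ, u ^ l * ∑ k ∈ V l, y l k : ℝ) : ℂ) := by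
      have e1 : ∀ x, g x * conj (h x) = ∑ l ∈ Λ, ((u ^ l : ℝ) : ℂ) *
          (g x * conj (tp (V l) (fun _ => (1 : ℂ)) x)) := by
        intro x
        simp only [hh]
        rw [map_sum, Finset.mul_sum]
        apply Finset.sum_congr rfl; intro l _
        rw [map_mul, Complex.conj_ofReal]; ring
      simp only [e1]
      rw [integral_finsetSum _ (fun l _ => ((hgBC.mul (BC_tp _ _).conj).integrable).const_mul _)]
      rw [Complex.ofReal_sum]
      apply Finset.sum_congr rfl; intro l hl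
      rw [integral_const_mul, integral_mul_conj_one _ hgBC]
      rw [Complex.ofReal_mul, Complex.ofReal_sum]
      congr 1
      apply Finset.sum_congr rfl; intro k hk
      exact hy1 l hl k hk
    have hlow : D / (4 * M) * δ * (Nl * (ω * M) / 2) ≤ ∑ l ∈ Λ, u ^ l * ∑ k ∈ V l, y l k := by
      calc D / (4 * M) * δ * (Nl * (ω * M) / 2) ≤ D / (4 * M) * δ * ∑ l ∈ Λ, ((V l).card : ℝ) :=
            mul_le_mul_of_nonneg_left hrem (by positivity)
        _ = ∑ l ∈ Λ, D / (4 * M) * δ * ((V l).card : ℝ) := by rw [Finset.mul_sum]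
        _ ≤ _ := by
            apply Finset.sum_le_sum; intro l hl
            have e1 : D / (4 * M) ≤ u ^ l * a l := by
              have e2 : (0:ℝ) < 4 * M := by positivity
              rw [div_le_iff₀ e2]
              have e3 : u ^ l * 2 ^ l = (2 : ℝ) ^ (2 * (l : ℝ) / r) := by
                rw [hu, ← Real.rpow_natCast, ← Real.rpow_natCast, ← Real.rpow_mul (by norm_num),
                  ← Real.rpow_add (by norm_num)]
                congr 1; ring
              have e4 : eps l * 2 ^ l ≤ a l * (4 * M) := by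
                have e5 : a l * (4 * M) = eps l * (4 * M) / (B l).card := by simp only [ha]; ring
                rw [e5, le_div_iff₀ (hBc l hl), mul_assoc]
                apply mul_le_mul_of_nonneg_left _ (heps l)
                rw [mul_comm]; exact (hBM l hl).2
              calc D ≤ (2 : ℝ) ^ (2 * (l : ℝ) / r) * eps l := hDe l hl
                _ = u ^ l * (eps l * 2 ^ l) := by rw [← e3]; ring
                _ ≤ u ^ l * (a l * (4 * M)) := mul_le_mul_of_nonneg_left e4 (by positivity)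
                _ = u ^ l * a l * (4 * M) := by ring
            calc D / (4 * M) * δ * ((V l).card : ℝ) ≤ u ^ l * a l * δ * ((V l).card : ℝ) := by
                  apply mul_le_mul_of_nonneg_right _ (Nat.cast_nonneg _)
                  exact mul_le_mul_of_nonneg_right e1 hδ0.le
              _ = u ^ l * ∑ _k ∈ V l, a l * δ := by rw [Finset.sum_const, nsmul_eq_mul]; ring
              _ ≤ u ^ l * ∑ k ∈ V l, y l k := by
                  apply mul_le_mul_of_nonneg_left _ (by positivity)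
                  exact Finset.sum_le_sum fun k hk => hy2 l hl k hk
    have hup : ‖∫ x, g x * conj (h x) ∂(mu d)‖ ≤ Np p g * Np r h := by
      have e1 := pair_le hpr hgBC hhBC.conj
      have e2 : Np r (fun x => conj (h x)) = Np r h := by unfold Np; simp only [RCLike.norm_conj]
      rw [e2] at e1; exact e1
    have hNr : Np r h ≤ (4 * C) ^ (1 / r) * (Nl * M) ^ (1 / r) := by
      unfold Np
      rw [← Real.mul_rpow (by positivity) (by positivity)]
      apply Real.rpow_le_rpow (int_rpow_nonneg _ _) _ (by positivity)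
      refine hhr.trans (le_of_eq (by ring))
    have hchain : D / (4 * M) * δ * (Nl * (ω * M) / 2) ≤ Np p g * ((4 * C) ^ (1 / r) * (Nl * M) ^ (1 / r)) := by
      refine hlow.trans ?_
      refine le_trans ?_ (mul_le_mul_of_nonneg_left hNr (Np_nonneg _ _))
      refine le_trans ?_ hup
      rw [hpair, Complex.norm_real]
      exact Real.le_norm_self _
    have hA : 0 < (4 * C) ^ (1 / r) * (Nl * M) ^ (1 / r) := by positivity
    have hfin : D / (4 * M) * δ * (Nl * (ω * M) / 2) / ((4 * C) ^ (1 / r) * (Nl * M) ^ (1 / r)) ≤ Np p g := by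
      rw [div_le_iff₀ hA]; exact hchain
    refine le_trans ?_ hfin
    have e1 : D / (4 * M) * δ * (Nl * (ω * M) / 2) / ((4 * C) ^ (1 / r) * (Nl * M) ^ (1 / r)) =
        c₁ * D * Nl * (Nl * M) ^ (-(1 / r)) := by
      rw [hc₁, Real.rpow_neg (by positivity)]
      have := hM.ne'
      field_simp; ring
    rw [e1]
    apply mul_le_mul_of_nonneg_right _ (by positivity)
    apply mul_le_mul_of_nonneg_right _ hNl0.le
    exact mul_le_mul_of_nonneg_right (min_le_right _ _) hD

end Pool.Agent.Helper935.MT
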