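import Pool.Agent.Helper935.MT.LowC

open MeasureTheory
open scoped ENNReal ComplexConjugate

namespace Pool.Agent.Helper935.MT

variable {d : ℕ}

lemma Np_add_le {q : ℝ} (hq : 1 ≤ q) {f g : Torus d → ℂ} (hf : BC f) (hg : BC g) :
    Np q (fun x => f x + g x) ≤ Np q f + Np q g := by
  have hq0 : 0 < q := by linarith
  have h1 : (1 : ℝ≥0∞) ≤ ENNReal.ofReal q := by
    rw [← ENNReal.ofReal_one]; exact ENNReal.ofReal_le_ofReal hq
  have h2 := eLpNorm_add_le (μ := mu d) hf.1.aestronglyMeasurable hg.1.aestronglyMeasurable h1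
  have e : f + g = fun x => f x + g x := rfl
  rw [e, eLpNorm_eq hq0 (hf.add hg), eLpNorm_eq hq0 hf, eLpNorm_eq hq0 hg,
    ← ENNReal.ofReal_add (Np_nonneg _ _) (Np_nonneg _ _)] at h2
  exact (ENNReal.ofReal_le_ofReal_iff (add_nonneg (Np_nonneg _ _) (Np_nonneg _ _))).1 h2

lemma Np_sum_le {q : ℝ} (hq : 1 ≤ q) {ι : Type*} (S : Finset ι) {f : ι → Torus d → ℂ}
    (hf : ∀ i ∈ S, BC (f i)) : Np q (fun x => ∑ i ∈ S, f i x) ≤ ∑ i ∈ S, Np q (f i) := by
  classical
  induction S using Finset.induction_on with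
  | empty =>
    simp only [Finset.sum_empty]
    unfold Np
    simp only [norm_zero]
    rw [Real.zero_rpow (by linarith)]; simp
    rw [Real.zero_rpow (by have : 0 < q := by linarith
                           positivity)]
  | insert i S hi ih =>
    rw [Finset.sum_insert hi]
    have e : (fun x => ∑ j ∈ insert i S, f j x) = fun x => f i x + ∑ j ∈ S, f j x := by
      funext x; rw [Finset.sum_insert hi]
    rw [e]
    have hS : ∀ j ∈ S, BC (f j) := fun j hj => hf j (Finset.mem_insert_of_mem hj)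
    exact (Np_add_le hq (hf i (Finset.mem_insert_self _ _)) (BC.sum S hS)).trans
      (add_le_add le_rfl (ih hS))

lemma Np_FF {q p : ℝ} (hqp : q.HolderConjugate p) (s : Fin d → ℕ) :
    Np q (FF s) ≤ (2 : ℝ) ^ (((∑ j, s j : ℕ) : ℝ) / p) := by
  have hq0 : 0 < q := hqp.pos
  have hq1 : 1 < q := hqp.lt
  have hp0 : 0 < p := hqp.symm.pos
  set l := ∑ j, s j with hl
  have h1 : ∫ x, ‖FF s x‖ ^ q ∂(mu d) ≤ ((2 : ℝ) ^ l) ^ (q - 1) := by
    calc ∫ x, ‖FF s x‖ ^ q ∂(mu d) ≤ ∫ x, ((2 : ℝ) ^ l) ^ (q - 1) * ‖FF s x‖ ∂(mu d) := by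
          apply integral_mono ((BM_rpow' (BC_FF s).norm (fun x => norm_nonneg _) hq0.le).integrable _)
            (((BC_FF s).norm.integrable _).const_mul _)
          intro x
          simp only
          rcases (norm_nonneg (FF s x)).eq_or_lt with h0 | h0
          · rw [← h0, Real.zero_rpow hq0.ne']; simp
          · have : ‖FF s x‖ ^ q = ‖FF s x‖ ^ (q - 1) * ‖FF s x‖ := by
              nth_rewrite 3 [← Real.rpow_one ‖FF s x‖]
              rw [← Real.rpow_add h0]; congr 1; ring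
            rw [this]
            apply mul_le_mul_of_nonneg_right _ (norm_nonneg _)
            exact Real.rpow_le_rpow (norm_nonneg _) (norm_FF_le s x) (by linarith)
      _ = ((2 : ℝ) ^ l) ^ (q - 1) := by rw [integral_const_mul, integral_norm_FF, mul_one]
  unfold Np
  have h2 := Real.rpow_le_rpow (int_rpow_nonneg q _) h1 (by positivity : 0 ≤ 1 / q)
  refine h2.trans (le_of_eq ?_)
  rw [← Real.rpow_natCast, ← Real.rpow_mul (by norm_num), ← Real.rpow_mul (by norm_num)]
  congr 1
  have h3 : q * p = q + p := hqp.mul_eq_add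
  field_simp
  nlinarith

/-- lower bound for `p ≥ 2`, driven by the duality between `L_1` and `L_∞` -/
theorem lowB {p q : ℝ} (hqp : q.HolderConjugate p) (hp : 2 ≤ p) (hd : 0 < d) : ∃ c : ℝ, 0 < c ∧
    ∀ (l₀ l₁ : ℕ) (m : ℝ) (eps : ℕ → ℝ), 2 * d ≤ l₀ → (∀ l, 0 ≤ eps l) → 1 ≤ m →
    2 * 4 ^ d * m ≤ 2 ^ l₀ → (2 : ℝ) ^ ((l₁ : ℝ) / p) ≤ m ^ (1 / 2 : ℝ) →
    ∃ f : Torus d → ℂ, BC f ∧ (∀ l, ∫ x, ‖fl f l x‖ ∂(mu d) ≤ eps l) ∧ ∀ G : Torus d → ℂ, Rep m G →
      c * m ^ (-(1 / 2 : ℝ)) * ∑ l ∈ Finset.Icc l₀ l₁, 2 ^ l * eps l ≤ Np p (fun x => f x - G x) := by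
  classical
  have hp0 : 0 < p := by linarith
  have hq1 : 1 < q := hqp.lt
  have hq0 : 0 < q := by linarith
  have hq2 : q ≤ 2 := by
    have h3 : q * p = q + p := hqp.mul_eq_add
    by_contra hcon
    rw [not_le] at hcon
    nlinarith
  set θ : ℝ := (2 : ℝ) ^ (-(1 / p)) with hθ
  have hθ0 : 0 < θ := by positivity
  have hθ1 : θ < 1 := Real.rpow_lt_one_of_one_lt_of_neg (by norm_num) (by
    have : 0 < 1 / p := by positivity
    linarith)
  set W : ℝ := (1 - θ)⁻¹ with hW
  have hW0 : 0 < W := inv_pos.2 (by linarith)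
  set ω : ℝ := (1 / 4 : ℝ) ^ d with hω
  have hω0 : 0 < ω := by positivity
  have hω4 : ω * 4 ^ d = 1 := by rw [hω, ← mul_pow]; norm_num
  refine ⟨ω * ω / 2 / (W + 1), by positivity, fun l₀ l₁ m eps hl₀ heps hm1 hm hml => ?_⟩
  set Λ := Finset.Icc l₀ l₁ with hΛ
  -- the blocks
  have hex : ∀ l : ℕ, ∃ s : Fin d → ℕ, 2 * d ≤ l → (∑ j, s j = l ∧ ∀ j, 2 ≤ s j) := by
    intro l
    obtain ⟨e, rfl⟩ : ∃ e, d = e + 1 := ⟨d - 1, by omega⟩
    refine ⟨fun j => if j = 0 then l - 2 * e else 2, fun hl => ⟨?_, ?_⟩⟩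
    · rw [Fin.sum_univ_succ]
      simp only [if_true, Fin.succ_ne_zero, if_false, Finset.sum_const, Finset.card_univ,
        Fintype.card_fin, smul_eq_mul]
      omega
    · intro j; simp only; split_ifs <;> omega
  choose σ hσ using hex
  have hσ1 : ∀ l ∈ Λ, ∑ j, σ l j = l := fun l hl => (hσ l (by rw [hΛ, Finset.mem_Icc] at hl; omega)).1
  have hσ2 : ∀ l ∈ Λ, ∀ j, 2 ≤ σ l j := fun l hl => (hσ l (by rw [hΛ, Finset.mem_Icc] at hl; omega)).2
  have htl : ∀ l ∈ Λ, ∀ k ∈ blk (σ l), tlev k = l := fun l hl k hk => by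
    rw [tlev_of_blk (hσ2 l hl) hk, hσ1 l hl]
  set c0 : (Fin d → ℤ) → ℝ := fun k => cf (σ (tlev k)) k with hc0
  set U : Finset (Fin d → ℤ) := Λ.biUnion (fun l => blk (σ l)) with hU
  have hdisj : ∀ l ∈ Λ, ∀ l' ∈ Λ, l ≠ l' → Disjoint (blk (σ l)) (blk (σ l')) := by
    intro l hl l' hl' hne
    rw [Finset.disjoint_left]
    intro k hk hk'
    exact hne ((htl l hl k hk).symm.trans (htl l' hl' k hk'))
  have hFFeq : ∀ l ∈ Λ, ∀ x, FF (σ l) x = tp (blk (σ l)) (fun k => (c0 k : ℂ)) x := by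
    intro l hl x
    rw [FF_eq]; unfold tp
    apply Finset.sum_congr rfl; intro k hk
    simp only [hc0]
    rw [htl l hl k hk]
  set f : Torus d → ℂ := fun x => ∑ l ∈ Λ, (eps l : ℂ) * FF (σ l) x with hf
  have hfBC : BC f := BC.sum _ (fun l _ => (BC.const _).mul (BC_FF _))
  have hft : ∀ k, ft f k = ∑ l ∈ Λ, (eps l : ℂ) * ft (FF (σ l)) k := by
    intro k
    simp only [hf]
    rw [ft_sum Λ (fun l _ => (BC.const _).mul (BC_FF _))]
    apply Finset.sum_congr rfl; intro l _
    rw [ft_const_mul]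
  have hfl : ∀ l x, fl f l x = if l ∈ Λ then (eps l : ℂ) * FF (σ l) x else 0 := by
    intro l x
    have e1 : fl f l x = ∑ l' ∈ Λ, (eps l' : ℂ) * fl (FF (σ l')) l x := by
      unfold fl tp
      simp only [hft, Finset.sum_mul, Finset.mul_sum]
      rw [Finset.sum_comm]
      apply Finset.sum_congr rfl; intro l' _
      apply Finset.sum_congr rfl; intro k _
      ring
    rw [e1]
    have e2 : ∀ l' ∈ Λ, (eps l' : ℂ) * fl (FF (σ l')) l x =
        if l' = l then (eps l : ℂ) * FF (σ l) x else 0 := by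
      intro l' hl'
      rw [fl_FF (hσ2 l' hl'), hσ1 l' hl']
      split_ifs with h
      · subst h; rfl
      · simp
    rw [Finset.sum_congr rfl e2, Finset.sum_ite_eq']
  refine ⟨f, hfBC, ?_, ?_⟩
  · intro l
    simp only [hfl]
    by_cases h : l ∈ Λ
    · simp only [if_pos h, norm_mul, Complex.norm_real, Real.norm_of_nonneg (heps l)]
      rw [integral_const_mul, integral_norm_FF, mul_one]
    · simp only [if_neg h]; simp; exact heps l
  · intro G hG
    have hGBC := hG.BC
    obtain ⟨K, c', hKm, hGK⟩ := hG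
    have hftG : ∀ k, k ∉ K → ft G k = 0 := by
      intro k hk
      have : G = tp K c' := funext hGK
      rw [this, ft_tp, if_neg hk]
    set g : Torus d → ℂ := fun x => f x - G x with hg
    have hgBC : BC g := hfBC.sub hGBC
    set h : Torus d → ℂ := tp (U \ K) (fun k => (c0 k : ℂ)) with hh
    have hhBC : BC h := BC_tp _ _
    have hc01 : ∀ k, 0 ≤ c0 k ∧ c0 k ≤ 1 := fun k => ⟨cf_nonneg _ _, cf_le_one _ _⟩
    -- norm of the test function
    have hhq : Np q h ≤ (W + 1) * m ^ (1 / 2 : ℝ) := by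
      have e1 : h = fun x => (∑ l ∈ Λ, FF (σ l) x) + tp (U ∩ K) (fun k => -(c0 k : ℂ)) x := by
        funext x
        have e2 : ∑ l ∈ Λ, FF (σ l) x = tp U (fun k => (c0 k : ℂ)) x := by
          rw [Finset.sum_congr rfl (fun l hl => hFFeq l hl x)]
          unfold tp
          rw [hU, Finset.sum_biUnion hdisj]
        rw [e2, hh]
        unfold tp
        rw [← Finset.sum_inter_add_sum_sdiff U K]
        simp only [neg_mul, Finset.sum_neg_distrib]; ring
      rw [e1]
      refine (Np_add_le hq1.le (BC.sum _ (fun l _ => BC_FF _)) (BC_tp _ _)).trans ?_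
      rw [add_mul, one_mul]
      apply add_le_add
      · refine (Np_sum_le hq1.le Λ (fun l _ => BC_FF _)).trans ?_
        calc ∑ l ∈ Λ, Np q (FF (σ l)) ≤ ∑ l ∈ Λ, (2 : ℝ) ^ ((l₁ : ℝ) / p) * θ ^ (l₁ - l) := by
              apply Finset.sum_le_sum; intro l hl
              refine (Np_FF hqp (σ l)).trans (le_of_eq ?_)
              rw [hσ1 l hl, hθ, ← Real.rpow_natCast, ← Real.rpow_mul (by norm_num),
                ← Real.rpow_add (by norm_num)]
              congr 1
              rw [hΛ, Finset.mem_Icc] at hl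
              rw [Nat.cast_sub hl.2]; ring
          _ = (2 : ℝ) ^ ((l₁ : ℝ) / p) * ∑ l ∈ Λ, θ ^ (l₁ - l) := by rw [Finset.mul_sum]
          _ ≤ m ^ (1 / 2 : ℝ) * W := by
              apply mul_le_mul hml _ (Finset.sum_nonneg fun _ _ => by positivity) (by positivity)
              apply geom_inj_le hθ0.le hθ1
              intro a ha b hb hab
              simp only [hΛ, Finset.coe_Icc, Set.mem_Icc] at ha hb
              omega
          _ = _ := mul_comm _ _
      · refine (Np_mono hq0 hq2 (BC_tp _ _)).trans ?_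
        unfold Np
        rw [int_pow_two_eq, parseval]
        apply Real.rpow_le_rpow (Finset.sum_nonneg fun _ _ => by positivity) _ (by norm_num)
        calc ∑ k ∈ U ∩ K, ‖-(c0 k : ℂ)‖ ^ 2 ≤ ∑ _k ∈ U ∩ K, (1 : ℝ) := by
              apply Finset.sum_le_sum; intro k _
              rw [norm_neg, Complex.norm_real, Real.norm_of_nonneg (hc01 k).1]
              exact pow_le_one₀ (hc01 k).1 (hc01 k).2
          _ = ((U ∩ K).card : ℝ) := by simp
          _ ≤ K.card := by exact_mod_cast Finset.card_le_card Finset.inter_subset_right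
          _ ≤ m := hKm
    -- the pairing
    have hpair : ∫ x, g x * conj (h x) ∂(mu d) = ((∑ k ∈ U \ K, eps (tlev k) * c0 k ^ 2 : ℝ) : ℂ) := by
      have h1 : ∫ x, g x * conj (h x) ∂(mu d) = conj (∫ x, h x * conj (g x) ∂(mu d)) := by
        rw [← integral_conj]; congr 1; funext x; rw [map_mul, Complex.conj_conj]; ring
      rw [h1, hh, integral_tp_conj _ _ hgBC, map_sum, Complex.ofReal_sum]
      apply Finset.sum_congr rfl; intro k hk
      rw [map_mul, Complex.conj_conj, Complex.conj_ofReal]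
      rw [Finset.mem_sdiff, hU, Finset.mem_biUnion] at hk
      obtain ⟨⟨l, hl, hkl⟩, hkK⟩ := hk
      have e1 : ft g k = (eps l : ℂ) * (cf (σ l) k : ℂ) := by
        rw [hg, ft_sub hfBC hGBC, hftG k hkK, sub_zero, hft]
        rw [Finset.sum_eq_single l]
        · rw [ft_FF, if_pos hkl]
        · intro l' hl' hne
          rw [ft_FF, if_neg, mul_zero]
          intro hk'
          exact hne ((htl l' hl' k hk').symm.trans (htl l hl k hkl))
        · intro h'; exact absurd hl h'
      rw [e1]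
      simp only [hc0]
      rw [htl l hl k hkl]
      push_cast; ring
    have hlow : ω * ω / 2 * ∑ l ∈ Λ, 2 ^ l * eps l ≤ ∑ k ∈ U \ K, eps (tlev k) * c0 k ^ 2 := by
      have e1 : Λ.biUnion (fun l => gam (σ l) \ K) ⊆ U \ K := by
        intro k hk
        rw [Finset.mem_biUnion] at hk
        obtain ⟨l, hl, hk⟩ := hk
        rw [Finset.mem_sdiff] at hk
        rw [Finset.mem_sdiff, hU, Finset.mem_biUnion]
        exact ⟨⟨l, hl, gam_sub _ hk.1⟩, hk.2⟩
      have e2 : ∑ k ∈ Λ.biUnion (fun l => gam (σ l) \ K), eps (tlev k) * c0 k ^ 2 ≤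
          ∑ k ∈ U \ K, eps (tlev k) * c0 k ^ 2 :=
        Finset.sum_le_sum_of_subset_of_nonneg e1 (fun k _ _ => mul_nonneg (heps _) (by positivity))
      refine le_trans ?_ e2
      rw [Finset.sum_biUnion, Finset.mul_sum]
      · apply Finset.sum_le_sum; intro l hl
        have e3 : ∀ k ∈ gam (σ l) \ K, eps l * ω ≤ eps (tlev k) * c0 k ^ 2 := by
          intro k hk
          rw [Finset.mem_sdiff] at hk
          have e4 := htl l hl k (gam_sub _ hk.1)
          simp only [hc0]
          rw [e4]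
          apply mul_le_mul_of_nonneg_left _ (heps l)
          have e5 := cf_ge hk.1
          calc ω = ((1 / 2 : ℝ) ^ d) ^ 2 := by rw [hω, ← pow_mul, mul_comm, pow_mul]; norm_num
            _ ≤ cf (σ l) k ^ 2 := pow_le_pow_left₀ (by positivity) e5 2
        have e6 : ω * 2 ^ l / 2 ≤ ((gam (σ l) \ K).card : ℝ) := by
          have e7 := card_gam (σ l)
          rw [hσ1 l hl] at e7
          have e8 : ω * 2 ^ l ≤ ((gam (σ l)).card : ℝ) := by
            calc ω * 2 ^ l ≤ ω * (4 ^ d * ((gam (σ l)).card : ℝ)) := mul_le_mul_of_nonneg_left e7 hω0.le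
              _ = _ := by rw [← mul_assoc, hω4, one_mul]
          have e9 : m ≤ ω * 2 ^ l / 2 := by
            have e10 : (2 : ℝ) ^ l₀ ≤ 2 ^ l := by
              rw [hΛ, Finset.mem_Icc] at hl
              exact pow_le_pow_right₀ (by norm_num) hl.1
            have e11 : ω * (2 * 4 ^ d * m) ≤ ω * 2 ^ l := mul_le_mul_of_nonneg_left (hm.trans e10) hω0.le
            have e12 : ω * (2 * 4 ^ d * m) = 2 * m := by
              calc ω * (2 * 4 ^ d * m) = 2 * m * (ω * 4 ^ d) := by ring
                _ = 2 * m := by rw [hω4, mul_one]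
            linarith
          have e13 : ((gam (σ l)).card : ℝ) ≤ ((gam (σ l) \ K).card : ℝ) + (K.card : ℝ) := by
            have := Finset.card_sdiff_add_card_inter (gam (σ l)) K
            have h' : ((gam (σ l) \ K).card : ℝ) + ((gam (σ l) ∩ K).card : ℝ) = ((gam (σ l)).card : ℝ) := by
              exact_mod_cast this
            have h'' : ((gam (σ l) ∩ K).card : ℝ) ≤ K.card := by
              exact_mod_cast Finset.card_le_card Finset.inter_subset_right
            linarith
          linarith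
        calc ω * ω / 2 * (2 ^ l * eps l) = (ω * 2 ^ l / 2) * (eps l * ω) := by ring
          _ ≤ ((gam (σ l) \ K).card : ℝ) * (eps l * ω) :=
              mul_le_mul_of_nonneg_right e6 (mul_nonneg (heps l) hω0.le)
          _ = ∑ _k ∈ gam (σ l) \ K, eps l * ω := by rw [Finset.sum_const, nsmul_eq_mul]
          _ ≤ _ := Finset.sum_le_sum e3
      · intro l hl l' hl' hne
        rw [Function.onFun, Finset.disjoint_left]
        intro k hk hk'
        have h1 := gam_sub _ (Finset.mem_sdiff.1 hk).1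
        have h2 := gam_sub _ (Finset.mem_sdiff.1 hk').1
        exact hne ((htl l hl k h1).symm.trans (htl l' hl' k h2))
    have hup : ‖∫ x, g x * conj (h x) ∂(mu d)‖ ≤ Np p g * Np q h := by
      have e1 := pair_le hqp.symm hgBC hhBC.conj
      have e2 : Np q (fun x => conj (h x)) = Np q h := by unfold Np; simp only [RCLike.norm_conj]
      rw [e2] at e1; exact e1
    have hchain : ω * ω / 2 * ∑ l ∈ Λ, 2 ^ l * eps l ≤ Np p g * ((W + 1) * m ^ (1 / 2 : ℝ)) := by
      refine hlow.trans ?_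
      refine le_trans ?_ (mul_le_mul_of_nonneg_left hhq (Np_nonneg _ _))
      refine le_trans ?_ hup
      rw [hpair, Complex.norm_real]
      exact Real.le_norm_self _
    have hm0 : 0 < m := by linarith
    have hA : 0 < (W + 1) * m ^ (1 / 2 : ℝ) := by positivity
    have hfin : ω * ω / 2 * (∑ l ∈ Λ, 2 ^ l * eps l) / ((W + 1) * m ^ (1 / 2 : ℝ)) ≤ Np p g := by
      rw [div_le_iff₀ hA]; exact hchain
    refine le_trans (le_of_eq ?_) hfin
    rw [Real.rpow_neg hm0.le]; field_simp

end Pool.Agent.Helper935.MT
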