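import Pool.Agent.Helper935.MT.KeyL

open MeasureTheory
open scoped ENNReal ComplexConjugate

namespace Pool.Agent.Helper935.MT

variable {d : ℕ}

lemma BC.conj {g : Torus d → ℂ} (hg : BC g) : BC (fun x => conj (g x)) := by
  obtain ⟨h1, C, hC⟩ := hg
  exact ⟨Complex.continuous_conj.measurable.comp h1, C, fun x => by rw [RCLike.norm_conj]; exact hC x⟩

lemma ft_conj (g : Torus d → ℂ) (k : Fin d → ℤ) : ft (fun x => conj (g x)) (-k) = conj (ft g k) := by
  unfold ft
  rw [← integral_conj]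
  congr 1; funext x
  rw [map_mul, conj_ek]

lemma integral_tp_conj (K : Finset (Fin d → ℤ)) (c : (Fin d → ℤ) → ℂ) {g : Torus d → ℂ}
    (hg : BC g) : ∫ x, tp K c x * conj (g x) ∂(mu d) = ∑ k ∈ K, c k * conj (ft g k) := by
  rw [integral_tp_mul K c hg.conj.integrable]
  simp only [ft_conj]

lemma parseval (K : Finset (Fin d → ℤ)) (c : (Fin d → ℤ) → ℂ) :
    ∫ x, ‖tp K c x‖ ^ 2 ∂(mu d) = ∑ k ∈ K, ‖c k‖ ^ 2 := by
  have h1 : ((∫ x, ‖tp K c x‖ ^ 2 ∂(mu d) : ℝ) : ℂ) = ((∑ k ∈ K, ‖c k‖ ^ 2 : ℝ) : ℂ) := by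
    rw [← integral_complex_ofReal]
    have h2 : ∀ w : ℂ, ((‖w‖ ^ 2 : ℝ) : ℂ) = w * conj w := by
      intro w; rw [Complex.mul_conj, Complex.normSq_eq_norm_sq]
    simp only [h2]
    rw [integral_tp_conj K c (BC_tp K c), Complex.ofReal_sum]
    apply Finset.sum_congr rfl; intro k hk
    rw [ft_tp, if_pos hk, h2]
  exact_mod_cast h1

lemma BM.sq {f : Torus d → ℝ} (hf : BM f) : BM (fun x => f x ^ 2) := by
  simpa [pow_two] using hf.mul hf

/-- Bessel's inequality -/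
lemma bessel (U : Finset (Fin d → ℤ)) {H : Torus d → ℂ} (hH : BC H) :
    ∑ k ∈ U, ‖ft H k‖ ^ 2 ≤ ∫ x, ‖H x‖ ^ 2 ∂(mu d) := by
  set T := tp U (ft H) with hT
  have hTBC : BC T := BC_tp _ _
  have h2 : ∀ w : ℂ, ((‖w‖ ^ 2 : ℝ) : ℂ) = w * conj w := by
    intro w; rw [Complex.mul_conj, Complex.normSq_eq_norm_sq]
  set B : ℝ := ∑ k ∈ U, ‖ft H k‖ ^ 2 with hB
  have e1 : ∫ x, T x * conj (H x) ∂(mu d) = (B : ℂ) := by
    rw [hT, integral_tp_conj U _ hH, hB, Complex.ofReal_sum]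
    apply Finset.sum_congr rfl; intro k _; rw [h2]
  have e2 : ∫ x, H x * conj (T x) ∂(mu d) = (B : ℂ) := by
    have : ∀ x, H x * conj (T x) = conj (T x * conj (H x)) := by
      intro x; rw [map_mul, Complex.conj_conj]; ring
    simp only [this]
    rw [integral_conj, e1, Complex.conj_ofReal]
  have e3 : ((∫ x, ‖H x - T x‖ ^ 2 ∂(mu d) : ℝ) : ℂ) = ((∫ x, ‖H x‖ ^ 2 ∂(mu d) : ℝ) : ℂ) - (B : ℂ) := by
    have e4 : ((∫ x, ‖T x‖ ^ 2 ∂(mu d) : ℝ) : ℂ) = (B : ℂ) := by rw [hT, parseval]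
    rw [← integral_complex_ofReal] at e4
    rw [← integral_complex_ofReal, ← integral_complex_ofReal]
    have e5 : ∀ x, ((‖H x - T x‖ ^ 2 : ℝ) : ℂ) =
        ((‖H x‖ ^ 2 : ℝ) : ℂ) - T x * conj (H x) - H x * conj (T x) + ((‖T x‖ ^ 2 : ℝ) : ℂ) := by
      intro x; simp only [h2]; rw [map_sub]; ring
    simp only [e5]
    have i1 : Integrable (fun x => ((‖H x‖ ^ 2 : ℝ) : ℂ)) (mu d) := by
      simp only [h2]; exact (hH.mul hH.conj).integrable
    have i2 : Integrable (fun x => ((‖T x‖ ^ 2 : ℝ) : ℂ)) (mu d) := by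
      simp only [h2]; exact (hTBC.mul hTBC.conj).integrable
    have j1 : Integrable (fun x => T x * conj (H x)) (mu d) := (hTBC.mul hH.conj).integrable
    have j2 : Integrable (fun x => H x * conj (T x)) (mu d) := (hH.mul hTBC.conj).integrable
    have j3 : Integrable (fun x => ((‖H x‖ ^ 2 : ℝ) : ℂ) - T x * conj (H x)) (mu d) := i1.sub j1
    have j4 : Integrable (fun x => ((‖H x‖ ^ 2 : ℝ) : ℂ) - T x * conj (H x) - H x * conj (T x)) (mu d) :=
      j3.sub j2
    rw [integral_add j4 i2, integral_sub j3 j2, integral_sub i1 j1, e1, e2, e4]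
    ring
  have e6 : ∫ x, ‖H x - T x‖ ^ 2 ∂(mu d) = ∫ x, ‖H x‖ ^ 2 ∂(mu d) - B := by exact_mod_cast e3
  have e7 : 0 ≤ ∫ x, ‖H x - T x‖ ^ 2 ∂(mu d) := integral_nonneg fun x => by positivity
  linarith

lemma sum_als_le (S : Finset (Fin d → ℕ)) (k : Fin d → ℤ) : ∑ s ∈ S, als s k ≤ 1 := by
  classical
  calc ∑ s ∈ S, als s k ≤ ∑ s ∈ SS d (tlev k) ∪ S, als s k :=
        Finset.sum_le_sum_of_subset_of_nonneg Finset.subset_union_right (fun s _ _ => als_nonneg s k)
    _ = ∑ s ∈ SS d (tlev k), als s k := by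
        symm
        apply Finset.sum_subset Finset.subset_union_left
        intro s _ hs
        by_contra hne
        exact hs (mem_SS_of_als rfl hne)
    _ = 1 := sum_als rfl

lemma bessel_blocks (S : Finset (Fin d → ℕ)) {H : Torus d → ℂ} (hH : BC H) :
    ∑ s ∈ S, ∫ x, ‖As s H x‖ ^ 2 ∂(mu d) ≤ ∫ x, ‖H x‖ ^ 2 ∂(mu d) := by
  classical
  set U : Finset (Fin d → ℤ) := S.biUnion box with hU
  have h1 : ∀ s ∈ S, ∫ x, ‖As s H x‖ ^ 2 ∂(mu d) ≤ ∑ k ∈ U, als s k * ‖ft H k‖ ^ 2 := by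
    intro s hs
    have : ∀ x, As s H x = tp (box s) (fun k => (als s k : ℂ) * ft H k) x := fun x => rfl
    simp only [this]
    rw [parseval]
    calc ∑ k ∈ box s, ‖(als s k : ℂ) * ft H k‖ ^ 2 ≤ ∑ k ∈ box s, als s k * ‖ft H k‖ ^ 2 := by
          apply Finset.sum_le_sum; intro k _
          rw [norm_mul, Complex.norm_real, Real.norm_of_nonneg (als_nonneg s k), mul_pow]
          apply mul_le_mul_of_nonneg_right _ (by positivity)
          rw [pow_two]
          exact mul_le_of_le_one_right (als_nonneg s k) (als_le_one s k)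
      _ ≤ ∑ k ∈ U, als s k * ‖ft H k‖ ^ 2 := by
          apply Finset.sum_le_sum_of_subset_of_nonneg
          · exact Finset.subset_biUnion_of_mem box hs
          · intro k _ _; exact mul_nonneg (als_nonneg s k) (by positivity)
  calc ∑ s ∈ S, ∫ x, ‖As s H x‖ ^ 2 ∂(mu d) ≤ ∑ s ∈ S, ∑ k ∈ U, als s k * ‖ft H k‖ ^ 2 :=
        Finset.sum_le_sum h1
    _ = ∑ k ∈ U, (∑ s ∈ S, als s k) * ‖ft H k‖ ^ 2 := by
        rw [Finset.sum_comm]; apply Finset.sum_congr rfl; intro k _; rw [Finset.sum_mul]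
    _ ≤ ∑ k ∈ U, 1 * ‖ft H k‖ ^ 2 := by
        apply Finset.sum_le_sum; intro k _
        exact mul_le_mul_of_nonneg_right (sum_als_le S k) (by positivity)
    _ ≤ ∫ x, ‖H x‖ ^ 2 ∂(mu d) := by simp only [one_mul]; exact bessel U hH

lemma norm_As_sup (s : Fin d → ℕ) {g : Torus d → ℂ} (hg : BC g) {B : ℝ} (hB : ∀ x, ‖g x‖ ≤ B)
    (x : Torus d) : ‖As s g x‖ ≤ 18 ^ d * B := by
  refine (norm_As_le s hg x).trans ?_
  have hB0 : 0 ≤ B := (norm_nonneg _).trans (hB 0)
  calc cv (MM s) (fun y => ‖g y‖) x ≤ cv (MM s) (fun _ => B) x :=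
        cv_mono (BM_MM s) (MM_nonneg s) hg.norm (BM.const B) hB x
    _ = (∫ y, MM s y ∂(mu d)) * B := by
        unfold cv; rw [integral_mul_const, integral_sub_left]
    _ ≤ 18 ^ d * B := mul_le_mul_of_nonneg_right (integral_MM_le s) hB0

lemma As_add (s : Fin d → ℕ) {f g : Torus d → ℂ} (hf : BC f) (hg : BC g) (x : Torus d) :
    As s (fun y => f y + g y) x = As s f x + As s g x := by
  unfold As
  simp only [ft_add hf.integrable hg.integrable]
  unfold tp
  rw [← Finset.sum_add_distrib]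
  apply Finset.sum_congr rfl; intro k _; ring

/-- geometric sum over integers below a threshold -/
lemma zgeom_le {w : ℝ} (hw : 1 < w) (n : ℤ) (J : Finset ℤ) (hJ : ∀ i ∈ J, i ≤ n) :
    ∑ i ∈ J, w ^ i ≤ w ^ n * (1 - w⁻¹)⁻¹ := by
  have hw0 : 0 < w := by linarith
  have h1 : ∀ i ∈ J, w ^ i = w ^ n * (w⁻¹) ^ (n - i).toNat := by
    intro i hi
    have h2 : ((n - i).toNat : ℤ) = n - i := Int.toNat_of_nonneg (by linarith [hJ i hi])
    rw [← zpow_natCast, h2, inv_zpow', ← zpow_add₀ hw0.ne']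
    congr 1; ring
  rw [Finset.sum_congr rfl h1, ← Finset.mul_sum]
  apply mul_le_mul_of_nonneg_left _ (by positivity)
  apply geom_inj_le (by positivity) (inv_lt_one_of_one_lt₀ hw)
  intro a ha b hb hab
  have h3 := hJ a ha
  have h4 := hJ b hb
  have h5 : ((n - a).toNat : ℤ) = n - a := Int.toNat_of_nonneg (by linarith)
  have h6 : ((n - b).toNat : ℤ) = n - b := Int.toNat_of_nonneg (by linarith)
  simp only at hab
  omega

lemma int_pow_two_eq (H : Torus d → ℂ) : ∫ x, ‖H x‖ ^ (2 : ℝ) ∂(mu d) = ∫ x, ‖H x‖ ^ 2 ∂(mu d) := by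
  simp only [Real.rpow_two]

/-- The Marcinkiewicz type inequality for block operators. -/
theorem marc {r : ℝ} (hr : 2 ≤ r) (d : ℕ) :
    ∃ C : ℝ, 0 < C ∧ ∀ (S : Finset (Fin d → ℕ)) (H : Torus d → ℂ), BC H →
      ∑ s ∈ S, ∫ x, ‖As s H x‖ ^ r ∂(mu d) ≤ C * ∫ x, ‖H x‖ ^ r ∂(mu d) := by
  classical
  rcases hr.eq_or_lt with h2 | h2
  · subst h2
    refine ⟨1, one_pos, fun S H hH => ?_⟩
    simp only [int_pow_two_eq]
    rw [one_mul]; exact bessel_blocks S hH
  · have hr2 : 0 < r - 2 := by linarith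
    have hr0 : 0 < r := by linarith
    set A : ℝ := 18 ^ d with hA
    have hA0 : 0 < A := by positivity
    set κ : ℝ := 1 / (2 * A) with hκ
    have hκ0 : 0 < κ := by positivity
    set w : ℝ := 2 ^ (r - 2) with hw
    have hw1 : 1 < w := by rw [hw]; exact Real.one_lt_rpow (by norm_num) hr2
    have hw0 : 0 < w := by linarith
    have hwz : ∀ i : ℤ, w ^ i = ((2 : ℝ) ^ i) ^ (r - 2) := by
      intro i
      rw [hw, ← Real.rpow_intCast, ← Real.rpow_intCast, ← Real.rpow_mul (by norm_num),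
        ← Real.rpow_mul (by norm_num), mul_comm]
    set D : ℝ := w * (1 - w⁻¹)⁻¹ * (1 / κ) ^ (r - 2) with hD
    have hw2 : 0 < (1 - w⁻¹)⁻¹ := by
      apply inv_pos.2; have := inv_lt_one_of_one_lt₀ hw1; linarith
    have hD0 : 0 < D := by positivity
    refine ⟨4 * D, by positivity, fun S H hH => ?_⟩
    obtain ⟨B, hB⟩ := hH.2
    have hB0 : 0 ≤ B := (norm_nonneg _).trans (hB 0)
    apply le_of_forall_pos_le_add
    intro ε hε
    -- choice of the levels
    obtain ⟨i₁, hi₁⟩ : ∃ i₁ : ℤ, A * B < (2 : ℝ) ^ (i₁ + 1) := by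
      obtain ⟨n, hn⟩ := pow_unbounded_of_one_lt (A * B) (by norm_num : (1 : ℝ) < 2)
      refine ⟨n, hn.trans_le ?_⟩
      rw [← zpow_natCast]
      exact zpow_le_zpow_right₀ (by norm_num) (by omega)
    obtain ⟨i₀, hi₀⟩ : ∃ i₀ : ℤ, w ^ i₀ * ∫ x, ‖H x‖ ^ 2 ∂(mu d) ≤ ε := by
      have h1 : Filter.Tendsto (fun n : ℕ => (w⁻¹) ^ n * ∫ x, ‖H x‖ ^ 2 ∂(mu d)) Filter.atTop (nhds 0) := by
        have := (tendsto_pow_atTop_nhds_zero_of_lt_one (by positivity)
          (inv_lt_one_of_one_lt₀ hw1)).mul_const (∫ x, ‖H x‖ ^ 2 ∂(mu d))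
        simpa using this
      obtain ⟨n, hn⟩ := (h1.eventually (gt_mem_nhds hε)).exists
      refine ⟨-(n : ℤ), ?_⟩
      rw [zpow_neg, zpow_natCast, ← inv_pow]; exact hn.le
    set Hi : ℤ → Torus d → ℂ := fun i x => if κ * 2 ^ i ≤ ‖H x‖ then H x else 0 with hHi
    set Lo : ℤ → Torus d → ℂ := fun i x => if κ * 2 ^ i ≤ ‖H x‖ then 0 else H x with hLo
    have hms : ∀ i : ℤ, MeasurableSet {x | κ * 2 ^ i ≤ ‖H x‖} := fun i =>
      measurableSet_le measurable_const hH.1.norm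
    have hHiBC : ∀ i, BC (Hi i) := by
      intro i
      refine ⟨Measurable.ite (hms i) hH.1 measurable_const, B, fun x => ?_⟩
      simp only [hHi]; split_ifs
      · exact hB x
      · simpa using hB0
    have hLoBC : ∀ i, BC (Lo i) := by
      intro i
      refine ⟨Measurable.ite (hms i) measurable_const hH.1, B, fun x => ?_⟩
      simp only [hLo]; split_ifs
      · simpa using hB0
      · exact hB x
    have hsumHL : ∀ i, H = fun x => Hi i x + Lo i x := by
      intro i; funext x; simp only [hHi, hLo]; split_ifs <;> simp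
    have hLoB : ∀ i : ℤ, ∀ x, ‖Lo i x‖ ≤ κ * 2 ^ i := by
      intro i x; simp only [hLo]; split_ifs with h
      · rw [norm_zero]; positivity
      · exact (not_le.1 h).le
    have hpt : ∀ s x, ‖As s H x‖ ^ r ≤
        ∑ i ∈ Finset.Icc i₀ i₁, w ^ (i + 1) * (4 * ‖As s (Hi i) x‖ ^ 2) + w ^ i₀ * ‖As s H x‖ ^ 2 := by
      intro s x
      set z := ‖As s H x‖ with hz
      have hz0 : 0 ≤ z := norm_nonneg _
      have hsum0 : 0 ≤ ∑ i ∈ Finset.Icc i₀ i₁, w ^ (i + 1) * (4 * ‖As s (Hi i) x‖ ^ 2) :=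
        Finset.sum_nonneg fun i _ => by positivity
      have hzr : 0 < z → z ^ r = z ^ (r - 2) * z ^ 2 := by
        intro h
        rw [← Real.rpow_natCast z 2, ← Real.rpow_add h]; congr 1; push_cast; ring
      rcases lt_or_ge z ((2 : ℝ) ^ i₀) with hlt | hge
      · rcases hz0.eq_or_lt with h0 | h0
        · rw [← h0, Real.zero_rpow hr0.ne']; simp only [ne_eq, OfNat.ofNat_ne_zero, not_false_eq_true, zero_pow, mul_zero, add_zero]
          exact hsum0
        · have : z ^ r ≤ w ^ i₀ * z ^ 2 := by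
            rw [hzr h0, hwz]
            apply mul_le_mul_of_nonneg_right _ (by positivity)
            exact Real.rpow_le_rpow hz0 hlt.le hr2.le
          linarith
      · have hzpos : 0 < z := lt_of_lt_of_le (by positivity) hge
        obtain ⟨i, hi1, hi2⟩ := exists_mem_Ico_zpow hzpos (by norm_num : (1 : ℝ) < 2)
        have hi0' : i₀ ≤ i := by
          by_contra hcon
          rw [not_le] at hcon
          have : (2 : ℝ) ^ (i + 1) ≤ 2 ^ i₀ := zpow_le_zpow_right₀ (by norm_num) (by omega)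
          linarith
        have hi1' : i ≤ i₁ := by
          by_contra hcon
          rw [not_le] at hcon
          have h3 : (2 : ℝ) ^ (i₁ + 1) ≤ 2 ^ i := zpow_le_zpow_right₀ (by norm_num) (by omega)
          have h4 : z ≤ A * B := norm_As_sup s hH hB x
          linarith
        have h5 : z ≤ 2 * ‖As s (Hi i) x‖ := by
          have h6 : As s H x = As s (Hi i) x + As s (Lo i) x := by
            conv_lhs => rw [hsumHL i]
            exact As_add s (hHiBC i) (hLoBC i) x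
          have h7 : ‖As s (Lo i) x‖ ≤ A * (κ * 2 ^ i) := norm_As_sup s (hLoBC i) (hLoB i) x
          have h8 : A * (κ * 2 ^ i) = 2 ^ i / 2 := by rw [hκ]; field_simp
          have h9 : z ≤ ‖As s (Hi i) x‖ + ‖As s (Lo i) x‖ := by rw [hz, h6]; exact norm_add_le _ _
          linarith
        have h10 : z ^ r ≤ w ^ (i + 1) * (4 * ‖As s (Hi i) x‖ ^ 2) := by
          rw [hzr hzpos, hwz]
          apply mul_le_mul
          · exact Real.rpow_le_rpow hz0 hi2.le hr2.le
          · calc z ^ 2 ≤ (2 * ‖As s (Hi i) x‖) ^ 2 := pow_le_pow_left₀ hz0 h5 2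
              _ = 4 * ‖As s (Hi i) x‖ ^ 2 := by ring
          · positivity
          · positivity
        have h11 : w ^ (i + 1) * (4 * ‖As s (Hi i) x‖ ^ 2) ≤
            ∑ i ∈ Finset.Icc i₀ i₁, w ^ (i + 1) * (4 * ‖As s (Hi i) x‖ ^ 2) :=
          Finset.single_le_sum (f := fun i : ℤ => w ^ (i + 1) * (4 * ‖As s (Hi i) x‖ ^ 2))
            (fun i _ => by positivity) (Finset.mem_Icc.2 ⟨hi0', hi1'⟩)
        have h12 : 0 ≤ w ^ i₀ * z ^ 2 := by positivity
        linarith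
    -- integrate
    have hAsr : ∀ s, Integrable (fun x => ‖As s H x‖ ^ r) (mu d) := fun s =>
      (BM_rpow' (BC_As s H).norm (fun x => norm_nonneg _) hr0.le).integrable _
    have hAs2 : ∀ s (G : Torus d → ℂ), Integrable (fun x => ‖As s G x‖ ^ 2) (mu d) := fun s G =>
      ((BC_As s G).norm.sq).integrable _
    have hint : ∀ s, ∫ x, ‖As s H x‖ ^ r ∂(mu d) ≤
        ∑ i ∈ Finset.Icc i₀ i₁, w ^ (i + 1) * (4 * ∫ x, ‖As s (Hi i) x‖ ^ 2 ∂(mu d)) +
          w ^ i₀ * ∫ x, ‖As s H x‖ ^ 2 ∂(mu d) := by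
      intro s
      have hi3 : ∀ i ∈ Finset.Icc i₀ i₁,
          Integrable (fun x => w ^ (i + 1) * (4 * ‖As s (Hi i) x‖ ^ 2)) (mu d) := fun i _ =>
        ((hAs2 s _).const_mul _).const_mul _
      calc ∫ x, ‖As s H x‖ ^ r ∂(mu d) ≤
          ∫ x, (∑ i ∈ Finset.Icc i₀ i₁, w ^ (i + 1) * (4 * ‖As s (Hi i) x‖ ^ 2) +
            w ^ i₀ * ‖As s H x‖ ^ 2) ∂(mu d) :=
            integral_mono (hAsr s) ((integrable_finsetSum _ hi3).add ((hAs2 s _).const_mul _)) (hpt s)
        _ = _ := by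
            rw [integral_add (integrable_finsetSum _ hi3) ((hAs2 s _).const_mul _),
              integral_finsetSum _ hi3, integral_const_mul]
            congr 1
            apply Finset.sum_congr rfl; intro i _
            rw [integral_const_mul, integral_const_mul]
    have hHi2 : ∀ i, Integrable (fun x => ‖Hi i x‖ ^ 2) (mu d) := fun i =>
      ((hHiBC i).norm.sq).integrable _
    have hfinal : ∫ x, ∑ i ∈ Finset.Icc i₀ i₁, w ^ (i + 1) * (4 * ‖Hi i x‖ ^ 2) ∂(mu d) ≤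
        4 * D * ∫ x, ‖H x‖ ^ r ∂(mu d) := by
      rw [← integral_const_mul]
      apply integral_mono (integrable_finsetSum _ fun i _ => ((hHi2 i).const_mul _).const_mul _)
        (((BM_rpow' hH.norm (fun x => norm_nonneg _) hr0.le).integrable _).const_mul _)
      intro x
      simp only
      set Y := ‖H x‖ with hY
      have hY0 : 0 ≤ Y := norm_nonneg _
      rcases hY0.eq_or_lt with h0 | h0
      · have : ∀ i : ℤ, Hi i x = 0 := by
          intro i; simp only [hHi]; rw [if_neg]; rw [← hY, ← h0, not_le]; positivity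
        simp only [this]
        rw [← h0, Real.zero_rpow hr0.ne']; simp
      · obtain ⟨n, hn1, hn2⟩ := exists_mem_Ico_zpow (by positivity : 0 < Y / κ) (by norm_num : (1 : ℝ) < 2)
        have h1 : ∑ i ∈ Finset.Icc i₀ i₁, w ^ (i + 1) * (4 * ‖Hi i x‖ ^ 2) =
            (4 * Y ^ 2 * w) * ∑ i ∈ (Finset.Icc i₀ i₁).filter (fun i => κ * 2 ^ i ≤ Y), w ^ i := by
          rw [Finset.mul_sum, Finset.sum_filter]
          apply Finset.sum_congr rfl; intro i _
          simp only [hHi]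
          split_ifs with h
          · rw [zpow_add₀ hw0.ne', zpow_one]; ring
          · simp
        rw [h1]
        have h2 : ∑ i ∈ (Finset.Icc i₀ i₁).filter (fun i => κ * 2 ^ i ≤ Y), w ^ i ≤ w ^ n * (1 - w⁻¹)⁻¹ := by
          apply zgeom_le hw1
          intro i hi
          rw [Finset.mem_filter] at hi
          by_contra hcon
          rw [not_le] at hcon
          have h3 : (2 : ℝ) ^ (n + 1) ≤ 2 ^ i := zpow_le_zpow_right₀ (by norm_num) (by omega)
          have h4 : (2 : ℝ) ^ i ≤ Y / κ := by rw [le_div_iff₀ hκ0]; linarith [hi.2]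
          linarith
        have h3 : w ^ n ≤ (1 / κ) ^ (r - 2) * Y ^ (r - 2) := by
          rw [hwz, ← Real.mul_rpow (by positivity) hY0]
          apply Real.rpow_le_rpow (by positivity) _ hr2.le
          rw [one_div_mul_eq_div]; exact hn1
        calc (4 * Y ^ 2 * w) * ∑ i ∈ (Finset.Icc i₀ i₁).filter (fun i => κ * 2 ^ i ≤ Y), w ^ i
            ≤ (4 * Y ^ 2 * w) * (((1 / κ) ^ (r - 2) * Y ^ (r - 2)) * (1 - w⁻¹)⁻¹) := by
              apply mul_le_mul_of_nonneg_left _ (by positivity)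
              exact h2.trans (mul_le_mul_of_nonneg_right h3 hw2.le)
          _ = 4 * D * (Y ^ (r - 2) * Y ^ 2) := by rw [hD]; ring
          _ = 4 * D * Y ^ r := by
              rw [← Real.rpow_natCast Y 2, ← Real.rpow_add h0]; congr 2; push_cast; ring
    calc ∑ s ∈ S, ∫ x, ‖As s H x‖ ^ r ∂(mu d)
        ≤ ∑ s ∈ S, (∑ i ∈ Finset.Icc i₀ i₁, w ^ (i + 1) * (4 * ∫ x, ‖As s (Hi i) x‖ ^ 2 ∂(mu d)) +
          w ^ i₀ * ∫ x, ‖As s H x‖ ^ 2 ∂(mu d)) := Finset.sum_le_sum fun s _ => hint s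
      _ = ∑ i ∈ Finset.Icc i₀ i₁, w ^ (i + 1) * (4 * ∑ s ∈ S, ∫ x, ‖As s (Hi i) x‖ ^ 2 ∂(mu d)) +
          w ^ i₀ * ∑ s ∈ S, ∫ x, ‖As s H x‖ ^ 2 ∂(mu d) := by
          rw [Finset.sum_add_distrib, Finset.sum_comm, Finset.mul_sum]
          congr 1
          apply Finset.sum_congr rfl; intro i _
          rw [Finset.mul_sum, Finset.mul_sum]
      _ ≤ ∑ i ∈ Finset.Icc i₀ i₁, w ^ (i + 1) * (4 * ∫ x, ‖Hi i x‖ ^ 2 ∂(mu d)) +
          w ^ i₀ * ∫ x, ‖H x‖ ^ 2 ∂(mu d) := by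
          apply add_le_add
          · apply Finset.sum_le_sum; intro i _
            apply mul_le_mul_of_nonneg_left _ (by positivity)
            apply mul_le_mul_of_nonneg_left _ (by norm_num)
            exact bessel_blocks S (hHiBC i)
          · exact mul_le_mul_of_nonneg_left (bessel_blocks S hH) (by positivity)
      _ = ∫ x, ∑ i ∈ Finset.Icc i₀ i₁, w ^ (i + 1) * (4 * ‖Hi i x‖ ^ 2) ∂(mu d) +
          w ^ i₀ * ∫ x, ‖H x‖ ^ 2 ∂(mu d) := by
          rw [integral_finsetSum _ (fun i _ => ((hHi2 i).const_mul _).const_mul _)]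
          congr 1
          apply Finset.sum_congr rfl; intro i _
          rw [integral_const_mul, integral_const_mul]
      _ ≤ 4 * D * ∫ x, ‖H x‖ ^ r ∂(mu d) + ε := add_le_add hfinal hi₀

end Pool.Agent.Helper935.MT
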