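import Pool.Agent.Helper935.MT.KeyJ

open MeasureTheory
open scoped ENNReal ComplexConjugate

namespace Pool.Agent.Helper935.MT

variable {d : ℕ}

lemma real_taylor (q : ℕ) : ∃ C : ℝ, 0 ≤ C ∧ ∀ x y M : ℝ, 0 ≤ x → x ≤ M ^ 2 → |y| ≤ 3 * M → 1 ≤ M →
    |(x + y) ^ (q + 1) - x ^ (q + 1) - (q + 1) * x ^ q * y| ≤ C * (M ^ 2) ^ q := by
  induction q with
  | zero =>
    refine ⟨0, le_rfl, fun x y M _ _ _ _ => ?_⟩
    simp
  | succ q ih =>
    obtain ⟨C, hC, h⟩ := ih
    refine ⟨4 * C + 9 * (q + 1), by positivity, fun x y M hx hxM hy hM => ?_⟩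
    have e1 : (x + y) ^ (q + 1 + 1) - x ^ (q + 1 + 1) - (((q + 1 : ℕ) : ℝ) + 1) * x ^ (q + 1) * y =
        (x + y) * ((x + y) ^ (q + 1) - x ^ (q + 1) - (q + 1) * x ^ q * y) + (q + 1) * x ^ q * y ^ 2 := by
      push_cast; ring
    rw [e1]
    have h1 := h x y M hx hxM hy hM
    have hM2 : M ≤ M ^ 2 := by nlinarith
    have h2 : |x + y| ≤ 4 * M ^ 2 := by
      refine (abs_add_le _ _).trans ?_
      rw [abs_of_nonneg hx]; linarith
    have h3 : |(q + 1) * x ^ q * y ^ 2| ≤ 9 * (q + 1) * (M ^ 2) ^ (q + 1) := by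
      rw [abs_of_nonneg (by positivity)]
      have h4 : x ^ q ≤ (M ^ 2) ^ q := pow_le_pow_left₀ hx hxM q
      have h5 : y ^ 2 ≤ 9 * M ^ 2 := by
        rw [← sq_abs]
        calc |y| ^ 2 ≤ (3 * M) ^ 2 := pow_le_pow_left₀ (abs_nonneg _) hy 2
          _ = 9 * M ^ 2 := by ring
      calc ((q : ℝ) + 1) * x ^ q * y ^ 2 ≤ ((q : ℝ) + 1) * (M ^ 2) ^ q * (9 * M ^ 2) :=
            mul_le_mul (mul_le_mul_of_nonneg_left h4 (by positivity)) h5 (by positivity) (by positivity)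
        _ = _ := by ring
    calc |(x + y) * ((x + y) ^ (q + 1) - x ^ (q + 1) - (q + 1) * x ^ q * y) + (q + 1) * x ^ q * y ^ 2|
        ≤ |x + y| * |(x + y) ^ (q + 1) - x ^ (q + 1) - (q + 1) * x ^ q * y| + |(q + 1) * x ^ q * y ^ 2| := by
          refine (abs_add_le _ _).trans ?_; rw [abs_mul]
      _ ≤ 4 * M ^ 2 * (C * (M ^ 2) ^ q) + 9 * (q + 1) * (M ^ 2) ^ (q + 1) :=
          add_le_add (mul_le_mul h2 h1 (abs_nonneg _) (by positivity)) h3
      _ = _ := by ring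

lemma complex_taylor (q : ℕ) : ∃ C : ℝ, 0 ≤ C ∧ ∀ z h : ℂ, ‖h‖ ≤ 1 →
    (‖z + h‖ ^ 2) ^ (q + 1) ≤ (‖z‖ ^ 2) ^ (q + 1) +
      2 * (q + 1) * (‖z‖ ^ 2) ^ q * (z * conj h).re + C * ((‖z‖ ^ 2) ^ q + 1) := by
  obtain ⟨C, hC, h⟩ := real_taylor q
  refine ⟨C + (q + 1), by positivity, fun z w hw => ?_⟩
  set M := max ‖z‖ 1 with hM
  have hM1 : 1 ≤ M := le_max_right _ _
  have hzM : ‖z‖ ≤ M := le_max_left _ _
  have hre : |(z * conj w).re| ≤ ‖z‖ := by
    refine (Complex.abs_re_le_norm _).trans ?_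
    rw [norm_mul, RCLike.norm_conj]
    exact mul_le_of_le_one_right (norm_nonneg _) hw
  have hw2 : ‖w‖ ^ 2 ≤ 1 := pow_le_one₀ (norm_nonneg _) hw
  set y : ℝ := 2 * (z * conj w).re + ‖w‖ ^ 2 with hy
  have hexp : ‖z + w‖ ^ 2 = ‖z‖ ^ 2 + y := by
    rw [hy, ← Complex.normSq_eq_norm_sq, Complex.normSq_add, ← Complex.normSq_eq_norm_sq,
      ← Complex.normSq_eq_norm_sq]; ring
  have hyM : |y| ≤ 3 * M := by
    rw [hy]
    refine (abs_add_le _ _).trans ?_
    have h2' : |(2 : ℝ)| = 2 := abs_of_nonneg (by norm_num)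
    rw [abs_mul, abs_of_nonneg (by positivity : (0:ℝ) ≤ ‖w‖ ^ 2), h2']
    linarith
  have h1 := h (‖z‖ ^ 2) y M (by positivity) (pow_le_pow_left₀ (norm_nonneg _) hzM 2) hyM hM1
  have h2 := (abs_le.1 h1).2
  have h3 : (M ^ 2) ^ q ≤ (‖z‖ ^ 2) ^ q + 1 := by
    rcases le_total ‖z‖ 1 with h' | h'
    · have : M = 1 := by rw [hM, max_eq_right h']
      rw [this]; simp
    · have : M = ‖z‖ := by rw [hM, max_eq_left h']
      rw [this]; linarith
  rw [hexp]
  have h4 : (q + 1) * (‖z‖ ^ 2) ^ q * ‖w‖ ^ 2 ≤ (q + 1) * (‖z‖ ^ 2) ^ q :=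
    mul_le_of_le_one_right (by positivity) hw2
  have h5 : C * (M ^ 2) ^ q ≤ C * ((‖z‖ ^ 2) ^ q + 1) := mul_le_mul_of_nonneg_left h3 hC
  have h6 : ((q : ℝ) + 1) * (‖z‖ ^ 2) ^ q * y =
      2 * (q + 1) * (‖z‖ ^ 2) ^ q * (z * conj w).re + (q + 1) * (‖z‖ ^ 2) ^ q * ‖w‖ ^ 2 := by
    rw [hy]; ring
  have h7 : (0 : ℝ) ≤ q + 1 := by positivity
  nlinarith

lemma BM.pow {α : Type*} [MeasurableSpace α] {f : α → ℝ} (hf : BM f) (n : ℕ) : BM (fun x => f x ^ n) := by
  induction n with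
  | zero => simpa using BM.const (α := α) 1
  | succ n ih => simpa [pow_succ] using ih.mul hf

lemma Np_mono {p p' : ℝ} (hp : 0 < p) (hpp : p ≤ p') {g : Torus d → ℂ} (hg : BC g) : Np p g ≤ Np p' g := by
  have hp' : 0 < p' := by linarith
  have h1 := jensen (μ := mu d) (r := p' / p) (by rw [le_div_iff₀ hp]; linarith) (BM.const 1)
    (fun _ => zero_le_one) (BM_rpow' hg.norm (fun x => norm_nonneg _) hp.le)
    (fun x => Real.rpow_nonneg (norm_nonneg _) _)
  simp only [one_mul, integral_const, probReal_univ, smul_eq_mul, mul_one, Real.one_rpow] at h1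
  have h2 : ∀ x, (‖g x‖ ^ p) ^ (p' / p) = ‖g x‖ ^ p' := by
    intro x; rw [← Real.rpow_mul (norm_nonneg _)]; congr 1; field_simp
  simp only [h2] at h1
  unfold Np
  have h3 := Real.rpow_le_rpow (Real.rpow_nonneg (int_rpow_nonneg p g) _) h1 (by positivity : 0 ≤ 1 / p')
  rw [← Real.rpow_mul (int_rpow_nonneg p g)] at h3
  have h4 : p' / p * (1 / p') = 1 / p := by field_simp
  rw [h4] at h3
  exact h3

/-- moment comparison -/
lemma moment_le (q : ℕ) {D : Torus d → ℂ} (hD : BC D) {E : ℝ} (hE : 0 ≤ E)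
    (h : ∫ x, (‖D x‖ ^ 2) ^ (q + 1) ∂(mu d) ≤ E ^ (q + 1)) :
    ∫ x, (‖D x‖ ^ 2) ^ q ∂(mu d) ≤ E ^ q := by
  rcases Nat.eq_zero_or_pos q with hq | hq
  · subst hq; simp
  · have hqr : (0 : ℝ) < q := by exact_mod_cast hq
    have hI0 : 0 ≤ ∫ x, (‖D x‖ ^ 2) ^ q ∂(mu d) := integral_nonneg fun x => by positivity
    have h1 := jensen (μ := mu d) (r := ((q : ℝ) + 1) / q) (by rw [le_div_iff₀ hqr]; linarith) (BM.const 1)
      (fun _ => zero_le_one) ((hD.norm.pow 2).pow q) (fun x => by positivity)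
    simp only [one_mul, integral_const, probReal_univ, smul_eq_mul, mul_one, Real.one_rpow] at h1
    have h2 : ∀ x, ((‖D x‖ ^ 2) ^ q) ^ (((q : ℝ) + 1) / q) = (‖D x‖ ^ 2) ^ (q + 1) := by
      intro x
      have hqne : (q : ℝ) ≠ 0 := hqr.ne'
      have hq3 : (q : ℝ) * (((q : ℝ) + 1) / q) = ((q + 1 : ℕ) : ℝ) := by push_cast; field_simp
      rw [← Real.rpow_natCast (‖D x‖ ^ 2) q, ← Real.rpow_mul (by positivity), hq3, Real.rpow_natCast]
    simp only [h2] at h1
    have h3 := h1.trans h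
    have h4 := Real.rpow_le_rpow (Real.rpow_nonneg hI0 _) h3 (by positivity : (0:ℝ) ≤ q / (q + 1))
    rw [← Real.rpow_mul hI0] at h4
    have h5 : ((q : ℝ) + 1) / q * (q / (q + 1)) = 1 := by field_simp
    rw [h5, Real.rpow_one, ← Real.rpow_natCast E (q + 1), ← Real.rpow_mul hE] at h4
    have h6 : ((q + 1 : ℕ) : ℝ) * ((q : ℝ) / (q + 1)) = q := by push_cast; field_simp
    rw [h6, Real.rpow_natCast] at h4
    exact h4

/-- one greedy step -/
lemma greedy_step (q : ℕ) : ∃ C : ℝ, 0 ≤ C ∧ ∀ {ι : Type} (K : Finset ι) (lam : ι → ℝ)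
    (h : ι → Torus d → ℂ) (D : Torus d → ℂ), (∀ k ∈ K, 0 ≤ lam k) → ∑ k ∈ K, lam k = 1 →
    (∀ k, BC (h k)) → (∀ k x, ‖h k x‖ ≤ 1) → (∀ x, ∑ k ∈ K, (lam k : ℂ) * h k x = 0) → BC D →
    ∃ k ∈ K, ∫ x, (‖D x + h k x‖ ^ 2) ^ (q + 1) ∂(mu d) ≤
      ∫ x, (‖D x‖ ^ 2) ^ (q + 1) ∂(mu d) + C * (∫ x, (‖D x‖ ^ 2) ^ q ∂(mu d) + 1) := by
  obtain ⟨C, hC, ht⟩ := complex_taylor q
  refine ⟨C, hC, fun {ι} K lam h D hl0 hl1 hh hh1 hsum hD => ?_⟩
  by_contra hcon
  push Not at hcon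
  set T := ∫ x, (‖D x‖ ^ 2) ^ (q + 1) ∂(mu d) + C * (∫ x, (‖D x‖ ^ 2) ^ q ∂(mu d) + 1) with hT
  have hi : ∀ k, BM (fun x => (‖D x + h k x‖ ^ 2) ^ (q + 1)) := fun k => ((hD.add (hh k)).norm.pow 2).pow _
  have hre : ∀ k, BM (fun x => (D x * conj (h k x)).re) := by
    intro k
    obtain ⟨h1, B, hB⟩ := hD.mul (hh k).conj
    exact ⟨Complex.measurable_re.comp h1, B, fun x => (Complex.abs_re_le_norm _).trans (hB x)⟩
  have h1 : ∑ k ∈ K, lam k * T < ∑ k ∈ K, lam k * ∫ x, (‖D x + h k x‖ ^ 2) ^ (q + 1) ∂(mu d) := by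
    obtain ⟨k0, hk0, hlk0⟩ : ∃ k ∈ K, 0 < lam k := by
      by_contra hc
      push Not at hc
      have : ∑ k ∈ K, lam k ≤ 0 := Finset.sum_nonpos hc
      linarith
    apply Finset.sum_lt_sum
    · intro k hk; exact mul_le_mul_of_nonneg_left (hcon k hk).le (hl0 k hk)
    · exact ⟨k0, hk0, mul_lt_mul_of_pos_left (hcon k0 hk0) hlk0⟩
  rw [← Finset.sum_mul, hl1, one_mul] at h1
  have hDq : BM (fun x => (‖D x‖ ^ 2) ^ q) := (hD.norm.pow 2).pow q
  have h2 : ∀ k ∈ K, ∫ x, (‖D x + h k x‖ ^ 2) ^ (q + 1) ∂(mu d) ≤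
      T + ∫ x, 2 * (q + 1) * (‖D x‖ ^ 2) ^ q * (D x * conj (h k x)).re ∂(mu d) := by
    intro k _
    have e1 : BM (fun x => (‖D x‖ ^ 2) ^ (q + 1)) := (hD.norm.pow 2).pow _
    have e2 : BM (fun x => 2 * (q + 1) * (‖D x‖ ^ 2) ^ q * (D x * conj (h k x)).re) :=
      ((BM.const _).mul hDq).mul (hre k)
    have e3 : BM (fun x => C * ((‖D x‖ ^ 2) ^ q + 1)) := (BM.const _).mul (hDq.add (BM.const 1))
    calc ∫ x, (‖D x + h k x‖ ^ 2) ^ (q + 1) ∂(mu d)
        ≤ ∫ x, ((‖D x‖ ^ 2) ^ (q + 1) + 2 * (q + 1) * (‖D x‖ ^ 2) ^ q * (D x * conj (h k x)).re +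
            C * ((‖D x‖ ^ 2) ^ q + 1)) ∂(mu d) :=
          integral_mono ((hi k).integrable _) (((e1.add e2).add e3).integrable _)
            (fun x => ht (D x) (h k x) (hh1 k x))
      _ = _ := by
          rw [integral_add ((e1.add e2).integrable _) (e3.integrable _),
            integral_add (e1.integrable _) (e2.integrable _), integral_const_mul C,
            integral_add (hDq.integrable _) (integrable_const _)]
          simp only [integral_const, probReal_univ, smul_eq_mul, mul_one]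
          rw [hT]; ring
  have h3 : ∑ k ∈ K, lam k * ∫ x, (‖D x + h k x‖ ^ 2) ^ (q + 1) ∂(mu d) ≤
      ∑ k ∈ K, lam k * (T + ∫ x, 2 * (q + 1) * (‖D x‖ ^ 2) ^ q * (D x * conj (h k x)).re ∂(mu d)) :=
    Finset.sum_le_sum fun k hk => mul_le_mul_of_nonneg_left (h2 k hk) (hl0 k hk)
  have h4 : ∑ k ∈ K, lam k * (T + ∫ x, 2 * (q + 1) * (‖D x‖ ^ 2) ^ q * (D x * conj (h k x)).re ∂(mu d)) =
      T + ∫ x, 2 * (q + 1) * (‖D x‖ ^ 2) ^ q * (D x * conj (∑ k ∈ K, (lam k : ℂ) * h k x)).re ∂(mu d) := by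
    rw [Finset.sum_congr rfl (fun k _ => mul_add (lam k) T _), Finset.sum_add_distrib, ← Finset.sum_mul,
      hl1, one_mul]
    congr 1
    have e1 : ∀ k ∈ K, Integrable (fun x => lam k * (2 * (q + 1) * (‖D x‖ ^ 2) ^ q * (D x * conj (h k x)).re)) (mu d) :=
      fun k _ => (((BM.const _).mul (((BM.const _).mul hDq).mul (hre k))).integrable _)
    have e2 : ∀ k ∈ K, lam k * ∫ x, 2 * (q + 1) * (‖D x‖ ^ 2) ^ q * (D x * conj (h k x)).re ∂(mu d) =
        ∫ x, lam k * (2 * (q + 1) * (‖D x‖ ^ 2) ^ q * (D x * conj (h k x)).re) ∂(mu d) := by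
      intro k _; rw [integral_const_mul]
    rw [Finset.sum_congr rfl e2, ← integral_finsetSum _ e1]
    congr 1; funext x
    rw [map_sum, Finset.mul_sum, Complex.re_sum, Finset.mul_sum]
    apply Finset.sum_congr rfl; intro k _
    rw [map_mul, Complex.conj_ofReal]
    have : D x * ((lam k : ℂ) * conj (h k x)) = (lam k : ℂ) * (D x * conj (h k x)) := by ring
    rw [this, Complex.re_ofReal_mul]; ring
  have h5 : ∫ x, 2 * (q + 1) * (‖D x‖ ^ 2) ^ q * (D x * conj (∑ k ∈ K, (lam k : ℂ) * h k x)).re ∂(mu d) = 0 := by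
    simp only [hsum]; simp
  rw [h5, add_zero] at h4
  linarith

/-- greedy approximation of trigonometric polynomials with absolutely summable coefficients -/
theorem maurey (q : ℕ) (d : ℕ) : ∃ E : ℝ, 0 < E ∧ ∀ (K : Finset (Fin d → ℤ)) (c : (Fin d → ℤ) → ℂ) (n : ℕ),
    0 < n → ∃ K' : Finset (Fin d → ℤ), K'.card ≤ n ∧ ∃ c' : (Fin d → ℤ) → ℂ,
      ∫ x, (‖tp K c x - tp K' c' x‖ ^ 2) ^ (q + 1) ∂(mu d) ≤
        ((E * ∑ k ∈ K, ‖c k‖) ^ 2 / n) ^ (q + 1) := by
  classical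
  obtain ⟨C, hC, hg⟩ := greedy_step (d := d) q
  -- the growth constant
  set G : ℝ := 2 * C + 1 with hG
  have hG1 : 1 ≤ G := by linarith
  have hG0 : 0 < G := by linarith
  refine ⟨2 * G, by positivity, fun K c n hn => ?_⟩
  set A : ℝ := ∑ k ∈ K, ‖c k‖ with hA
  have hA0 : 0 ≤ A := Finset.sum_nonneg fun _ _ => norm_nonneg _
  rcases hA0.eq_or_lt with hA0' | hA0'
  · refine ⟨∅, by simp, c, ?_⟩
    have h1 : ∀ k ∈ K, c k = 0 := by
      intro k hk
      have := (Finset.sum_eq_zero_iff_of_nonneg (fun k _ => norm_nonneg (c k))).1 hA0'.symm k hk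
      exact norm_eq_zero.1 this
    have h2 : ∀ x, tp K c x = 0 := by
      intro x; unfold tp; apply Finset.sum_eq_zero; intro k hk; rw [h1 k hk, zero_mul]
    have h3 : ∀ x, tp (∅ : Finset (Fin d → ℤ)) c x = 0 := by intro x; simp [tp]
    simp only [h2, h3]; simp only [sub_zero, norm_zero]
    rw [← hA0']; simp
  · set lam : (Fin d → ℤ) → ℝ := fun k => ‖c k‖ / A with hlam
    have hl0 : ∀ k ∈ K, 0 ≤ lam k := fun k _ => by positivity
    have hl1 : ∑ k ∈ K, lam k = 1 := by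
      rw [hlam, ← Finset.sum_div]; exact div_self hA0'.ne'
    set sg : (Fin d → ℤ) → ℂ := fun k => c k / ‖c k‖ with hsg
    have hsg1 : ∀ k, ‖sg k‖ ≤ 1 := by
      intro k; rw [hsg]; simp only [norm_div, Complex.norm_real, norm_norm]; exact div_self_le_one _
    have hcsg : ∀ k, (lam k : ℂ) * sg k * A = c k := by
      intro k
      rw [hlam, hsg]
      by_cases h : ‖c k‖ = 0
      · have : c k = 0 := norm_eq_zero.1 h
        simp [this]
      · have h1 : (‖c k‖ : ℂ) ≠ 0 := by exact_mod_cast h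
        have h2 : (A : ℂ) ≠ 0 := by exact_mod_cast hA0'.ne'
        push_cast; field_simp
    set h : (Fin d → ℤ) → Torus d → ℂ := fun k x => (tp K c x - A * sg k * ek k x) / (2 * A) with hh
    have hhBC : ∀ k, BC (h k) := by
      intro k
      have : h k = fun x => (tp K c x - A * sg k * ek k x) * (2 * A : ℂ)⁻¹ := by
        funext x; rw [hh]; simp only [div_eq_mul_inv]
      rw [this]
      exact ((BC_tp K c).sub ((BC.const _).mul (BC.ek k))).mul (BC.const _)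
    have hFle : ∀ x, ‖tp K c x‖ ≤ A := by
      intro x; unfold tp
      refine (norm_sum_le _ _).trans (le_of_eq ?_)
      apply Finset.sum_congr rfl; intro k _; rw [norm_mul, norm_ek, mul_one]
    have hh1 : ∀ k x, ‖h k x‖ ≤ 1 := by
      intro k x
      rw [hh]; simp only [norm_div, norm_mul, Complex.norm_ofNat, Complex.norm_real]
      rw [Real.norm_of_nonneg hA0, div_le_one (by positivity)]
      refine (norm_sub_le _ _).trans ?_
      rw [norm_mul, norm_mul, norm_ek, mul_one, Complex.norm_real, Real.norm_of_nonneg hA0]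
      have := mul_le_of_le_one_right hA0 (hsg1 k)
      linarith [hFle x]
    have hsum : ∀ x, ∑ k ∈ K, (lam k : ℂ) * h k x = 0 := by
      intro x
      have h1 : ∀ k ∈ K, (lam k : ℂ) * h k x = ((lam k : ℂ) * tp K c x - c k * ek k x) / (2 * A) := by
        intro k _
        rw [← hcsg k, hh]; ring
      rw [Finset.sum_congr rfl h1, ← Finset.sum_div, Finset.sum_sub_distrib, ← Finset.sum_mul]
      have h2 : ∑ k ∈ K, (lam k : ℂ) = 1 := by rw [← Complex.ofReal_sum, hl1]; simp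
      rw [h2, one_mul]; unfold tp; simp
    -- the greedy induction
    have key : ∀ j : ℕ, ∃ K' : Finset (Fin d → ℤ), K'.card ≤ j ∧ ∃ c' : (Fin d → ℤ) → ℂ,
        ∫ x, (‖(j * tp K c x - tp K' c' x) / (2 * A)‖ ^ 2) ^ (q + 1) ∂(mu d) ≤ (G * j) ^ (q + 1) := by
      intro j
      induction j with
      | zero =>
        refine ⟨∅, by simp, c, ?_⟩
        have h3 : ∀ x, tp (∅ : Finset (Fin d → ℤ)) c x = 0 := by intro x; simp [tp]
        simp [h3]
      | succ j ih =>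
        obtain ⟨K', hK', c', hc'⟩ := ih
        set D : Torus d → ℂ := fun x => (j * tp K c x - tp K' c' x) / (2 * A) with hD
        have hDBC : BC D := by
          have : D = fun x => (j * tp K c x - tp K' c' x) * (2 * A : ℂ)⁻¹ := by
            funext x; rw [hD]; simp only [div_eq_mul_inv]
          rw [this]
          exact (((BC.const _).mul (BC_tp K c)).sub (BC_tp K' c')).mul (BC.const _)
        obtain ⟨k, _, hk2⟩ := hg K lam h D hl0 hl1 hhBC hh1 hsum hDBC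
        refine ⟨insert k K', (Finset.card_insert_le _ _).trans (by omega),
          fun i => (if i ∈ K' then c' i else 0) + (if i = k then A * sg k else 0), ?_⟩
        have e1 : ∀ x, (((j + 1 : ℕ) : ℂ) * tp K c x - tp (insert k K')
            (fun i => (if i ∈ K' then c' i else 0) + (if i = k then A * sg k else 0)) x) / (2 * A) =
            D x + h k x := by
          intro x
          have e2 : tp (insert k K') (fun i => (if i ∈ K' then c' i else 0) + (if i = k then A * sg k else 0)) x =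
              tp K' c' x + A * sg k * ek k x := by
            unfold tp
            simp only [add_mul, Finset.sum_add_distrib]
            congr 1
            · rw [← Finset.sum_subset (Finset.subset_insert k K')]
              · apply Finset.sum_congr rfl; intro i hi; rw [if_pos hi]
              · intro i _ hi; rw [if_neg hi, zero_mul]
            · rw [Finset.sum_eq_single k]
              · simp
              · intro i _ hi; rw [if_neg hi, zero_mul]
              · intro hk; exact absurd (Finset.mem_insert_self _ _) hk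
          rw [e2, hD, hh]; push_cast; ring
        simp only [e1]
        have e3 : ∫ x, (‖D x‖ ^ 2) ^ q ∂(mu d) ≤ (G * j) ^ q := moment_le q hDBC (by positivity) hc'
        have e4 : (G * j) ^ (q + 1) + C * ((G * j) ^ q + 1) ≤ (G * ((j + 1 : ℕ) : ℝ)) ^ (q + 1) := by
          have e5 : 0 ≤ G * (j : ℝ) := by positivity
          have e6 : G * ((j + 1 : ℕ) : ℝ) = G * j + G := by push_cast; ring
          rw [e6]
          have e7 : (G * j + G) ^ (q + 1) = (G * j + G) ^ q * (G * j) + (G * j + G) ^ q * G := by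
            rw [pow_succ]; ring
          have e8 : (G * j) ^ q ≤ (G * j + G) ^ q := pow_le_pow_left₀ e5 (by linarith) q
          have e9 : (1 : ℝ) ≤ (G * j + G) ^ q := one_le_pow₀ (by linarith)
          have e10 : (G * j) ^ (q + 1) ≤ (G * j + G) ^ q * (G * j) := by
            rw [pow_succ]; exact mul_le_mul_of_nonneg_right e8 e5
          have e11 : C * ((G * j) ^ q + 1) ≤ (G * j + G) ^ q * G := by
            have : (G * j) ^ q + 1 ≤ 2 * (G * j + G) ^ q := by linarith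
            calc C * ((G * j) ^ q + 1) ≤ C * (2 * (G * j + G) ^ q) := mul_le_mul_of_nonneg_left this hC
              _ ≤ (G * j + G) ^ q * G := by
                  rw [hG]; nlinarith
          linarith
        calc ∫ x, (‖D x + h k x‖ ^ 2) ^ (q + 1) ∂(mu d) ≤
            ∫ x, (‖D x‖ ^ 2) ^ (q + 1) ∂(mu d) + C * (∫ x, (‖D x‖ ^ 2) ^ q ∂(mu d) + 1) := hk2
          _ ≤ (G * j) ^ (q + 1) + C * ((G * j) ^ q + 1) := by
              apply add_le_add hc'
              apply mul_le_mul_of_nonneg_left _ hC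
              linarith
          _ ≤ _ := e4
    obtain ⟨K', hK', c', hc'⟩ := key n
    have hn' : (0 : ℝ) < n := by exact_mod_cast hn
    refine ⟨K', hK', fun k => c' k / n, ?_⟩
    have e1 : ∀ x, tp K c x - tp K' (fun k => c' k / n) x =
        ((n * tp K c x - tp K' c' x) / (2 * A)) * ((2 * A / n : ℝ) : ℂ) := by
      intro x
      have e2 : tp K' (fun k => c' k / n) x = tp K' c' x / n := by
        unfold tp; rw [Finset.sum_div]; apply Finset.sum_congr rfl; intro k _; ring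
      have h2 : (A : ℂ) ≠ 0 := by exact_mod_cast hA0'.ne'
      have h3 : (n : ℂ) ≠ 0 := by exact_mod_cast hn.ne'
      rw [e2]; push_cast; field_simp
    have e2 : ∀ x, (‖tp K c x - tp K' (fun k => c' k / n) x‖ ^ 2) ^ (q + 1) =
        ((2 * A / n) ^ 2) ^ (q + 1) * (‖(n * tp K c x - tp K' c' x) / (2 * A)‖ ^ 2) ^ (q + 1) := by
      intro x
      rw [e1 x, norm_mul, Complex.norm_real, Real.norm_of_nonneg (by positivity), mul_pow, mul_pow]
      ring
    simp only [e2]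
    rw [integral_const_mul]
    calc ((2 * A / n) ^ 2) ^ (q + 1) *
          ∫ x, (‖(n * tp K c x - tp K' c' x) / (2 * A)‖ ^ 2) ^ (q + 1) ∂(mu d)
        ≤ ((2 * A / n) ^ 2) ^ (q + 1) * (G * n) ^ (q + 1) := mul_le_mul_of_nonneg_left hc' (by positivity)
      _ = ((2 * A / n) ^ 2 * (G * n)) ^ (q + 1) := (mul_pow _ _ _).symm
      _ ≤ ((2 * G * A) ^ 2 / n) ^ (q + 1) := by
          apply pow_le_pow_left₀ (by positivity)
          have : (2 * A / n) ^ 2 * (G * n) = (4 * A ^ 2) * G / n := by field_simp; ring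
          rw [this]
          apply div_le_div_of_nonneg_right _ hn'.le
          have : (2 * G * A) ^ 2 = (4 * A ^ 2) * (G * G) := by ring
          rw [this]
          apply mul_le_mul_of_nonneg_left _ (by positivity)
          nlinarith

/-- `L_p` form -/
theorem maureyLp (p : ℝ) (hp : 0 < p) (d : ℕ) : ∃ E : ℝ, 0 < E ∧
    ∀ (K : Finset (Fin d → ℤ)) (c : (Fin d → ℤ) → ℂ) (n : ℕ),
    0 < n → ∃ K' : Finset (Fin d → ℤ), K'.card ≤ n ∧ ∃ c' : (Fin d → ℤ) → ℂ,
      Np p (fun x => tp K c x - tp K' c' x) ≤ E * (∑ k ∈ K, ‖c k‖) * (n : ℝ) ^ (-(1 / 2 : ℝ)) := by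
  obtain ⟨q, hq⟩ := exists_nat_ge (p / 2)
  obtain ⟨E, hE, h⟩ := maurey q d
  refine ⟨E, hE, fun K c n hn => ?_⟩
  obtain ⟨K', hK', c', hc'⟩ := h K c n hn
  refine ⟨K', hK', c', ?_⟩
  have hBC : BC (fun x => tp K c x - tp K' c' x) := (BC_tp _ _).sub (BC_tp _ _)
  have hn' : (0 : ℝ) < n := by exact_mod_cast hn
  have hq2 : p ≤ 2 * ((q : ℝ) + 1) := by linarith
  refine (Np_mono hp hq2 hBC).trans ?_
  have hA0 : 0 ≤ ∑ k ∈ K, ‖c k‖ := Finset.sum_nonneg fun _ _ => norm_nonneg _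
  have e1 : ∀ x, ‖tp K c x - tp K' c' x‖ ^ (2 * ((q : ℝ) + 1)) =
      (‖tp K c x - tp K' c' x‖ ^ 2) ^ (q + 1) := by
    intro x
    rw [← pow_mul, ← Real.rpow_natCast]; congr 1; push_cast; ring
  unfold Np
  simp only [e1]
  have e2 := Real.rpow_le_rpow (integral_nonneg fun x => by positivity) hc'
    (by positivity : 0 ≤ 1 / (2 * ((q : ℝ) + 1)))
  refine e2.trans (le_of_eq ?_)
  have e3 : (((E * ∑ k ∈ K, ‖c k‖) ^ 2 / n) ^ (q + 1)) =
      ((E * ∑ k ∈ K, ‖c k‖) * (n : ℝ) ^ (-(1 / 2 : ℝ))) ^ (2 * ((q : ℝ) + 1)) := by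
    rw [Real.mul_rpow (by positivity) (by positivity), ← Real.rpow_mul hn'.le, div_pow,
      div_eq_mul_inv]
    congr 1
    · rw [← pow_mul, ← Real.rpow_natCast]; congr 1; push_cast; ring
    · rw [← Real.rpow_natCast, ← Real.rpow_neg hn'.le]; congr 1; push_cast; ring
  rw [e3, ← Real.rpow_mul (by positivity)]
  have e4 : 2 * ((q : ℝ) + 1) * (1 / (2 * ((q : ℝ) + 1))) = 1 := by field_simp
  rw [e4, Real.rpow_one]

end Pool.Agent.Helper935.MT
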