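import Pool.Agent.Helper935.MT.Kern

open MeasureTheory
open scoped ENNReal ComplexConjugate

namespace Pool.Agent.Helper935.MT

variable {d : ℕ}

/-- bounded measurable complex function -/
def BC (g : Torus d → ℂ) : Prop := Measurable g ∧ ∃ C, ∀ x, ‖g x‖ ≤ C

lemma BC.norm {g : Torus d → ℂ} (hg : BC g) : BM (fun x => ‖g x‖) := by
  obtain ⟨h1, C, hC⟩ := hg
  exact ⟨h1.norm, C, fun x => by rw [abs_of_nonneg (norm_nonneg _)]; exact hC x⟩

lemma BC.integrable {g : Torus d → ℂ} (hg : BC g) : Integrable g (mu d) := by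
  obtain ⟨h1, C, hC⟩ := hg
  exact (integrable_const C).mono' h1.aestronglyMeasurable (Filter.Eventually.of_forall hC)

lemma BC.mul {f g : Torus d → ℂ} (hf : BC f) (hg : BC g) : BC (fun x => f x * g x) := by
  obtain ⟨h1, C, hC⟩ := hf
  obtain ⟨h2, D, hD⟩ := hg
  refine ⟨h1.mul h2, |C| * |D|, fun x => ?_⟩
  rw [norm_mul]
  exact mul_le_mul ((hC x).trans (le_abs_self _)) ((hD x).trans (le_abs_self _)) (norm_nonneg _)
    (abs_nonneg _)

lemma BC.add {f g : Torus d → ℂ} (hf : BC f) (hg : BC g) : BC (fun x => f x + g x) := by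
  obtain ⟨h1, C, hC⟩ := hf
  obtain ⟨h2, D, hD⟩ := hg
  exact ⟨h1.add h2, C + D, fun x => (norm_add_le _ _).trans (add_le_add (hC x) (hD x))⟩

lemma BC.sub {f g : Torus d → ℂ} (hf : BC f) (hg : BC g) : BC (fun x => f x - g x) := by
  obtain ⟨h1, C, hC⟩ := hf
  obtain ⟨h2, D, hD⟩ := hg
  exact ⟨h1.sub h2, C + D, fun x => (norm_sub_le _ _).trans (add_le_add (hC x) (hD x))⟩

lemma BC.of_continuous {f : Torus d → ℂ} (hf : Continuous f) : BC f := by
  refine ⟨hf.measurable, ?_⟩
  obtain ⟨C, hC⟩ := (isCompact_range hf.norm).bddAbove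
  exact ⟨C, fun x => hC ⟨x, rfl⟩⟩

lemma BC.const (c : ℂ) : BC (fun _ : Torus d => c) := BC.of_continuous continuous_const

lemma BC.sum {ι : Type*} (s : Finset ι) {f : ι → Torus d → ℂ} (hf : ∀ i ∈ s, BC (f i)) :
    BC (fun x => ∑ i ∈ s, f i x) := by
  classical
  induction s using Finset.induction_on with
  | empty => simpa using BC.const (d := d) 0
  | insert i s hi ih =>
    have h : (fun x => ∑ j ∈ insert i s, f j x) = fun x => f i x + ∑ j ∈ s, f j x := by
      funext x; rw [Finset.sum_insert hi]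
    rw [h]
    exact (hf i (Finset.mem_insert_self _ _)).add (ih (fun j hj => hf j (Finset.mem_insert_of_mem hj)))

lemma BC.mulR {f : Torus d → ℂ} {P : Torus d → ℝ} (hf : BC f) (hP : BM P) :
    BC (fun x => f x * (P x : ℂ)) := by
  obtain ⟨h1, C, hC⟩ := hP
  exact hf.mul ⟨Complex.measurable_ofReal.comp h1, C, fun x => by
    rw [Complex.norm_real]; exact hC x⟩

/-- Fourier coefficient -/
noncomputable def ft (g : Torus d → ℂ) (k : Fin d → ℤ) : ℂ := ∫ x, g x * ek (-k) x ∂(mu d)

lemma BC.ek (k : Fin d → ℤ) : BC (ek k) := BC.of_continuous (continuous_ek k)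

/-- trigonometric polynomial -/
noncomputable def tp (K : Finset (Fin d → ℤ)) (c : (Fin d → ℤ) → ℂ) (x : Torus d) : ℂ :=
  ∑ k ∈ K, c k * ek k x

lemma continuous_tp (K : Finset (Fin d → ℤ)) (c : (Fin d → ℤ) → ℂ) : Continuous (tp K c) :=
  continuous_finsetSum _ (fun k _ => continuous_const.mul (continuous_ek k))

lemma BC_tp (K : Finset (Fin d → ℤ)) (c : (Fin d → ℤ) → ℂ) : BC (tp K c) :=
  BC.of_continuous (continuous_tp K c)

lemma integral_tp_mul (K : Finset (Fin d → ℤ)) (c : (Fin d → ℤ) → ℂ) {g : Torus d → ℂ}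
    (hg : Integrable g (mu d)) :
    ∫ x, tp K c x * g x ∂(mu d) = ∑ k ∈ K, c k * ft g (-k) := by
  unfold tp ft
  simp only [Finset.sum_mul]
  have hi : ∀ k : Fin d → ℤ, Integrable (fun x => c k * ek k x * g x) (mu d) := by
    intro k
    have h1 : Integrable (fun x => g x * ek k x) (mu d) := by
      refine hg.mul_bdd (c := 1) (continuous_ek k).aestronglyMeasurable ?_
      exact Filter.Eventually.of_forall (fun x => (norm_ek k x).le)
    refine (h1.const_mul (c k)).congr (Filter.Eventually.of_forall fun x => ?_)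
    simp only; ring
  rw [integral_finsetSum _ (fun k _ => hi k)]
  apply Finset.sum_congr rfl; intro k _
  rw [← integral_const_mul]
  congr 1; funext x; rw [neg_neg]; ring

lemma ft_tp (K : Finset (Fin d → ℤ)) (c : (Fin d → ℤ) → ℂ) (k : Fin d → ℤ) :
    ft (tp K c) k = if k ∈ K then c k else 0 := by
  unfold ft
  rw [integral_tp_mul K c (BC.ek (-k)).integrable]
  have h1 : ∀ j : Fin d → ℤ, ft (ek (-k)) (-j) = if j = k then 1 else 0 := by
    intro j
    unfold ft
    simp only [neg_neg, ← ek_add]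
    rw [integral_ek]
    have : (-k + j = 0) ↔ j = k := by
      constructor
      · intro h; rw [neg_add_eq_zero] at h; exact h.symm
      · intro h; rw [h]; simp
    simp only [this]
  simp only [h1]
  simp

lemma ft_add {f g : Torus d → ℂ} (hf : Integrable f (mu d)) (hg : Integrable g (mu d)) (k : Fin d → ℤ) :
    ft (fun x => f x + g x) k = ft f k + ft g k := by
  unfold ft
  rw [← integral_add]
  · congr 1; funext x; ring
  · exact hf.mul_bdd (c := 1) (continuous_ek _).aestronglyMeasurable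
      (Filter.Eventually.of_forall (fun x => (norm_ek _ x).le))
  · exact hg.mul_bdd (c := 1) (continuous_ek _).aestronglyMeasurable
      (Filter.Eventually.of_forall (fun x => (norm_ek _ x).le))

lemma norm_ft_le {f : Torus d → ℂ} (k : Fin d → ℤ) :
    ‖ft f k‖ ≤ ∫ x, ‖f x‖ ∂(mu d) := by
  unfold ft
  refine (norm_integral_le_integral_norm _).trans (le_of_eq ?_)
  congr 1; funext x; rw [norm_mul, norm_ek, mul_one]

/-! ### block operators -/

/-- block multiplier -/
noncomputable def als (s : Fin d → ℕ) (k : Fin d → ℤ) : ℝ := ∏ j, al (s j) (k j)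

lemma als_nonneg (s : Fin d → ℕ) (k : Fin d → ℤ) : 0 ≤ als s k := Finset.prod_nonneg fun _ _ => al_nonneg _ _

lemma als_le_one (s : Fin d → ℕ) (k : Fin d → ℤ) : als s k ≤ 1 :=
  Finset.prod_le_one (fun _ _ => al_nonneg _ _) (fun _ _ => al_le_one _ _)

lemma als_neg (s : Fin d → ℕ) (k : Fin d → ℤ) : als s (-k) = als s k := by
  unfold als; apply Finset.prod_congr rfl; intro j _; rw [Pi.neg_apply, al_neg]

/-- frequency box of a block -/
noncomputable def box (s : Fin d → ℕ) : Finset (Fin d → ℤ) :=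
  Fintype.piFinset fun j => Finset.Icc (-((2 : ℤ) ^ (s j + 1))) ((2 : ℤ) ^ (s j + 1))

lemma mem_box {s : Fin d → ℕ} {k : Fin d → ℤ} :
    k ∈ box s ↔ ∀ j, -((2 : ℤ) ^ (s j + 1)) ≤ k j ∧ k j ≤ (2 : ℤ) ^ (s j + 1) := by
  unfold box; simp only [Fintype.mem_piFinset, Finset.mem_Icc]

lemma neg_mem_box {s : Fin d → ℕ} {k : Fin d → ℤ} : -k ∈ box s ↔ k ∈ box s := by
  rw [mem_box, mem_box]
  constructor
  · intro h j; have := h j; rw [Pi.neg_apply] at this; constructor <;> linarith [this.1, this.2]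
  · intro h j; have := h j; rw [Pi.neg_apply]; constructor <;> linarith [this.1, this.2]

/-- block kernel -/
noncomputable def AAk (s : Fin d → ℕ) (x : Torus d) : ℂ := ∏ j, Ak (s j) (x j)

lemma AAk_eq (s : Fin d → ℕ) (x : Torus d) : AAk s x = tp (box s) (fun k => (als s k : ℂ)) x := by
  unfold AAk tp box Ak
  rw [Finset.prod_univ_sum]
  apply Finset.sum_congr rfl; intro k _
  unfold als ek
  beta_reduce
  rw [Finset.prod_mul_distrib, Complex.ofReal_prod]

/-- low pass kernel -/
noncomputable def VVk (s : Fin d → ℕ) (x : Torus d) : ℂ := ∏ j, Vk (s j + 1) (x j)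

noncomputable def vws (s : Fin d → ℕ) (k : Fin d → ℤ) : ℝ := ∏ j, vw (s j + 1) (k j)

lemma VVk_eq (s : Fin d → ℕ) (x : Torus d) :
    VVk s x = tp (box (fun j => s j + 1)) (fun k => (vws s k : ℂ)) x := by
  unfold VVk tp box Vk
  rw [Finset.prod_univ_sum]
  apply Finset.sum_congr rfl; intro k _
  unfold vws ek
  beta_reduce
  rw [Finset.prod_mul_distrib, Complex.ofReal_prod]

lemma norm_AAk_le (s : Fin d → ℕ) (x : Torus d) : ‖AAk s x‖ ≤ MM s x := by
  unfold AAk MM
  rw [norm_prod]
  apply Finset.prod_le_prod (fun _ _ => norm_nonneg _)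
  intro j _; unfold Mk; linarith [norm_nonneg (Vk (s j + 1) (x j))]

lemma norm_VVk_le (s : Fin d → ℕ) (x : Torus d) : ‖VVk s x‖ ≤ MM s x := by
  unfold VVk MM
  rw [norm_prod]
  apply Finset.prod_le_prod (fun _ _ => norm_nonneg _)
  intro j _; unfold Mk; linarith [norm_nonneg (Ak (s j) (x j))]

/-- complex convolution with a trigonometric polynomial -/
lemma tp_conv (K : Finset (Fin d → ℤ)) (c : (Fin d → ℤ) → ℂ) {g : Torus d → ℂ}
    (hg : Integrable g (mu d)) (x : Torus d) :
    ∫ y, tp K c (x - y) * g y ∂(mu d) = tp K (fun k => c k * ft g k) x := by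
  have h1 : ∀ y, tp K c (x - y) * g y = tp (K.image (fun k => -k)) (fun k => c (-k) * ek (-k) x) y * g y := by
    intro y
    congr 1
    unfold tp
    rw [Finset.sum_image (fun a _ b _ h => neg_injective h)]
    apply Finset.sum_congr rfl; intro k _
    beta_reduce
    rw [ek_arg_sub, neg_neg]; ring
  simp only [h1]
  rw [integral_tp_mul _ _ hg, Finset.sum_image (fun a _ b _ h => neg_injective h)]
  unfold tp
  apply Finset.sum_congr rfl; intro k _
  beta_reduce
  rw [neg_neg]; ring

/-- block operator -/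
noncomputable def As (s : Fin d → ℕ) (g : Torus d → ℂ) (x : Torus d) : ℂ :=
  tp (box s) (fun k => (als s k : ℂ) * ft g k) x

lemma As_eq (s : Fin d → ℕ) {g : Torus d → ℂ} (hg : Integrable g (mu d)) (x : Torus d) :
    As s g x = ∫ y, AAk s (x - y) * g y ∂(mu d) := by
  simp only [AAk_eq]
  rw [tp_conv _ _ hg]; rfl

lemma BC_As (s : Fin d → ℕ) (g : Torus d → ℂ) : BC (As s g) := BC_tp _ _

lemma norm_conv_le {A g : Torus d → ℂ} {M : Torus d → ℝ} (hM : BM M)
    (hA : ∀ x, ‖A x‖ ≤ M x) (hg : BC g) (x : Torus d) :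
    ‖∫ y, A (x - y) * g y ∂(mu d)‖ ≤ cv M (fun y => ‖g y‖) x := by
  unfold cv
  apply norm_integral_le_of_norm_le ((hM.slice hg.norm x).integrable _)
  exact Filter.Eventually.of_forall fun y => by
    rw [norm_mul]; exact mul_le_mul_of_nonneg_right (hA _) (norm_nonneg _)

lemma norm_As_le (s : Fin d → ℕ) {g : Torus d → ℂ} (hg : BC g) (x : Torus d) :
    ‖As s g x‖ ≤ cv (MM s) (fun y => ‖g y‖) x := by
  rw [As_eq s hg.integrable]
  exact norm_conv_le (BM_MM s) (norm_AAk_le s) hg x

/-- `u` reproduces under the low pass operator -/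
lemma repro (s : Fin d → ℕ) (c : (Fin d → ℤ) → ℂ) (x : Torus d) :
    ∫ y, VVk s (x - y) * tp (box s) c y ∂(mu d) = tp (box s) c x := by
  simp only [VVk_eq]
  rw [tp_conv _ _ (BC_tp _ _).integrable]
  unfold tp
  have hsub : box s ⊆ box (fun j => s j + 1) := by
    intro k hk
    rw [mem_box] at hk ⊢
    intro j
    have h1 : (2 : ℤ) ^ (s j + 1) ≤ 2 ^ (s j + 1 + 1) := pow_le_pow_right₀ (by norm_num) (by omega)
    have := hk j
    constructor <;> linarith [this.1, this.2]
  rw [← Finset.sum_subset hsub]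
  · apply Finset.sum_congr rfl; intro k hk
    have h1 : ft (fun y => ∑ k ∈ box s, c k * ek k y) k = c k := by
      have := ft_tp (box s) c k
      rw [if_pos hk] at this; exact this
    beta_reduce
    rw [h1]
    have h2 : vws s k = 1 := by
      unfold vws
      apply Finset.prod_eq_one; intro j _
      apply vw_one
      rw [mem_box] at hk
      have := hk j
      rw [abs_le]
      constructor
      · have := this.1; exact_mod_cast this
      · have := this.2; exact_mod_cast this
    rw [h2]; simp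
  · intro k _ hk
    have h1 : ft (fun y => ∑ k ∈ box s, c k * ek k y) k = 0 := by
      have := ft_tp (box s) c k
      rw [if_neg hk] at this; exact this
    beta_reduce
    rw [h1]; simp

lemma norm_box_le (s : Fin d → ℕ) (c : (Fin d → ℤ) → ℂ) (x : Torus d) :
    ‖tp (box s) c x‖ ≤ cv (MM s) (fun y => ‖tp (box s) c y‖) x := by
  conv_lhs => rw [← repro s c x]
  exact norm_conv_le (BM_MM s) (norm_VVk_le s) (BC_tp _ _) x

/-- symmetry of the block operators -/
lemma integral_As_mul (s : Fin d → ℕ) {f g : Torus d → ℂ} (hf : Integrable f (mu d))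
    (hg : Integrable g (mu d)) :
    ∫ x, As s f x * g x ∂(mu d) = ∫ x, f x * As s g x ∂(mu d) := by
  have h1 : ∫ x, f x * As s g x ∂(mu d) = ∫ x, As s g x * f x ∂(mu d) := by
    congr 1; funext x; ring
  rw [h1]
  unfold As
  rw [integral_tp_mul _ _ hg, integral_tp_mul _ _ hf]
  have h2 : ∑ k ∈ box s, (als s k : ℂ) * ft f k * ft g (-k) =
      ∑ k ∈ box s, (als s (-k) : ℂ) * ft f (-k) * ft g (- -k) := by
    exact Finset.sum_nbij' (fun k => -k) (fun k => -k) (fun k hk => neg_mem_box.2 hk)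
      (fun k hk => neg_mem_box.2 hk) (fun k _ => neg_neg k) (fun k _ => neg_neg k)
      (fun k _ => by simp)
  rw [h2]
  apply Finset.sum_congr rfl; intro k _
  rw [als_neg, neg_neg]; ring

/-! ### levels and layers -/

/-- dyadic level of an integer -/
def lev (k : ℤ) : ℕ := Nat.size k.natAbs

lemma lev_le_iff (k : ℤ) (n : ℕ) : lev k ≤ n ↔ |(k : ℝ)| < 2 ^ n := by
  unfold lev
  rw [Nat.size_le]
  have : |(k : ℝ)| = ((k.natAbs : ℕ) : ℝ) := by rw [Nat.cast_natAbs, Int.cast_abs]
  rw [this]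
  constructor
  · intro h; exact_mod_cast h
  · intro h; exact_mod_cast h

lemma lt_lev_iff (k : ℤ) (n : ℕ) : n < lev k ↔ (2 : ℝ) ^ n ≤ |(k : ℝ)| := by
  rw [← not_le, lev_le_iff, not_lt]

lemma al_ne_zero {i : ℕ} {k : ℤ} (h : al i k ≠ 0) : i ≤ lev k ∧ lev k ≤ i + 1 := by
  constructor
  · by_contra hcon
    rw [not_le] at hcon
    apply h
    obtain ⟨j, rfl⟩ : ∃ j, i = j + 1 := ⟨i - 1, by omega⟩
    apply al_zero_of_small
    exact ((lev_le_iff k j).1 (by omega)).le
  · by_contra hcon
    rw [not_le] at hcon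
    apply h
    apply al_zero_of_large
    exact (lt_lev_iff k (i + 1)).1 hcon

/-- total level -/
def tlev (k : Fin d → ℤ) : ℕ := ∑ j, lev (k j)

lemma als_ne_zero {s : Fin d → ℕ} {k : Fin d → ℤ} (h : als s k ≠ 0) :
    (∀ j, s j ≤ lev (k j) ∧ lev (k j) ≤ s j + 1) := by
  intro j
  apply al_ne_zero
  intro h0
  apply h
  exact Finset.prod_eq_zero (Finset.mem_univ j) h0

/-- the blocks relevant for layer `l` -/
def SS (d l : ℕ) : Finset (Fin d → ℕ) :=
  (Fintype.piFinset fun _ => Finset.range (l + 1)).filter fun s => ∑ j, s j ≤ l ∧ l ≤ ∑ j, s j + d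

lemma mem_SS {l : ℕ} {s : Fin d → ℕ} : s ∈ SS d l ↔ ∑ j, s j ≤ l ∧ l ≤ ∑ j, s j + d := by
  unfold SS
  rw [Finset.mem_filter, Fintype.mem_piFinset]
  constructor
  · intro h; exact h.2
  · intro h
    refine ⟨fun j => ?_, h⟩
    rw [Finset.mem_range]
    have : s j ≤ ∑ i, s i := Finset.single_le_sum (f := s) (fun _ _ => Nat.zero_le _) (Finset.mem_univ j)
    omega

lemma mem_SS_of_als {l : ℕ} {s : Fin d → ℕ} {k : Fin d → ℤ} (hk : tlev k = l) (h : als s k ≠ 0) :
    s ∈ SS d l := by
  rw [mem_SS]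
  have h1 := als_ne_zero h
  unfold tlev at hk
  constructor
  · rw [← hk]; exact Finset.sum_le_sum fun j _ => (h1 j).1
  · rw [← hk]
    calc ∑ j, lev (k j) ≤ ∑ j : Fin d, (s j + 1) := Finset.sum_le_sum fun j _ => (h1 j).2
      _ = ∑ j, s j + d := by rw [Finset.sum_add_distrib]; simp

lemma sum_als {l : ℕ} {k : Fin d → ℤ} (hk : tlev k = l) : ∑ s ∈ SS d l, als s k = 1 := by
  classical
  set P : Finset (Fin d → ℕ) := Fintype.piFinset fun j => Finset.range (lev (k j) + 1) with hP
  have h1 : ∑ s ∈ P, als s k = 1 := by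
    unfold als
    rw [hP, ← Finset.prod_univ_sum (fun j => Finset.range (lev (k j) + 1)) (fun j i => al i (k j))]
    apply Finset.prod_eq_one; intro j _
    rw [sum_al]
    apply vw_one
    exact ((lev_le_iff _ _).1 le_rfl).le
  have h2 : ∑ s ∈ SS d l, als s k = ∑ s ∈ SS d l ∪ P, als s k := by
    apply Finset.sum_subset Finset.subset_union_left
    intro s _ hs
    by_contra hne
    exact hs (mem_SS_of_als hk hne)
  have h3 : ∑ s ∈ P, als s k = ∑ s ∈ SS d l ∪ P, als s k := by
    apply Finset.sum_subset Finset.subset_union_right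
    intro s _ hs
    by_contra hne
    apply hs
    rw [hP, Fintype.mem_piFinset]
    intro j; rw [Finset.mem_range]
    have := (als_ne_zero hne j).1
    omega
  rw [h2, ← h3, h1]

/-- a trigonometric polynomial with spectrum in layer `l` -/
def inLayer (l : ℕ) (K : Finset (Fin d → ℤ)) : Prop := ∀ k ∈ K, tlev k = l

lemma As_tp (s : Fin d → ℕ) (K : Finset (Fin d → ℤ)) (c : (Fin d → ℤ) → ℂ) (x : Torus d) :
    As s (tp K c) x = tp K (fun k => (als s k : ℂ) * c k) x := by
  classical
  unfold As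
  simp only [ft_tp]
  unfold tp
  have h1 : ∑ k ∈ box s, (als s k : ℂ) * (if k ∈ K then c k else 0) * ek k x =
      ∑ k ∈ box s ∩ K, (als s k : ℂ) * c k * ek k x := by
    rw [← Finset.sum_filter_add_sum_filter_not (box s) (fun k => k ∈ K)]
    rw [Finset.filter_mem_eq_inter]
    have : ∑ k ∈ box s with k ∉ K, (als s k : ℂ) * (if k ∈ K then c k else 0) * ek k x = 0 := by
      apply Finset.sum_eq_zero; intro k hk
      rw [Finset.mem_filter] at hk
      rw [if_neg hk.2]; simp
    rw [this, add_zero]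
    apply Finset.sum_congr rfl; intro k hk
    rw [Finset.mem_inter] at hk
    rw [if_pos hk.2]
  rw [h1]
  apply Finset.sum_subset Finset.inter_subset_right
  intro k hk hk2
  have : als s k = 0 := by
    by_contra hne
    apply hk2
    rw [Finset.mem_inter]
    refine ⟨?_, hk⟩
    rw [mem_box]
    intro j
    have h2 := (als_ne_zero hne j).2
    rw [lev_le_iff] at h2
    rw [abs_lt] at h2
    constructor
    · have := h2.1.le; exact_mod_cast this
    · have := h2.2.le; exact_mod_cast this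
  rw [this]; simp

lemma sum_As_tp {l : ℕ} {K : Finset (Fin d → ℤ)} (hK : inLayer l K) (c : (Fin d → ℤ) → ℂ) (x : Torus d) :
    ∑ s ∈ SS d l, As s (tp K c) x = tp K c x := by
  simp only [As_tp]
  unfold tp
  rw [Finset.sum_comm]
  apply Finset.sum_congr rfl; intro k hk
  rw [← Finset.sum_mul, ← Finset.sum_mul]
  have h1 : ∑ s ∈ SS d l, (als s k : ℂ) = 1 := by
    rw [← Complex.ofReal_sum, sum_als (hK k hk)]; simp
  rw [h1, one_mul]

end Pool.Agent.Helper935.MT
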