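import Pool.Agent.Helper935.MT.LowD

open MeasureTheory
open scoped ENNReal ComplexConjugate

namespace Pool.Agent.Helper935.MT

/-- comparable numbers have comparable powers -/
lemma rpow_comp {K u v : ℝ} (hK : 1 ≤ K) (hu : 0 < u) (hv : 0 < v) (h1 : u ≤ K * v) (h2 : v ≤ K * u) (t : ℝ) :
    u ^ t ≤ K ^ |t| * v ^ t := by
  have hK0 : 0 < K := by linarith
  rcases le_total 0 t with ht | ht
  · rw [abs_of_nonneg ht, ← Real.mul_rpow hK0.le hv.le]
    exact Real.rpow_le_rpow hu.le h1 ht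
  · rw [abs_of_nonpos ht]
    have h3 : v ^ (-t) ≤ K ^ (-t) * u ^ (-t) := by
      rw [← Real.mul_rpow hK0.le hu.le]
      exact Real.rpow_le_rpow hv.le h2 (by linarith)
    rw [Real.rpow_neg hv.le, Real.rpow_neg hu.le] at h3
    have hut : 0 < u ^ t := by positivity
    have hvt : 0 < v ^ t := by positivity
    rw [inv_le_iff_one_le_mul₀ hvt] at h3
    calc u ^ t = u ^ t * 1 := (mul_one _).symm
      _ ≤ u ^ t * (K ^ (-t) * (u ^ t)⁻¹ * v ^ t) := mul_le_mul_of_nonneg_left h3 hut.le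
      _ = K ^ (-t) * v ^ t := by field_simp

lemma one_add_pow_le (Γ δ : ℝ) (hδ : 0 < δ) : ∃ C : ℝ, 1 ≤ C ∧ ∀ j : ℝ, 0 ≤ j →
    (1 + j) ^ |Γ| ≤ C * (2 : ℝ) ^ (δ * j) := by
  set G : ℝ := |Γ| + 1 with hG
  have hG0 : 0 < G := by positivity
  set δ' : ℝ := δ / G with hδ'
  have hδ'0 : 0 < δ' := by positivity
  have hl2 : 0 < Real.log 2 := Real.log_pos (by norm_num)
  set c : ℝ := min 1 (δ' * Real.log 2) with hc
  have hc0 : 0 < c := lt_min one_pos (by positivity)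
  refine ⟨max 1 ((1 / c) ^ G), le_max_left _ _, fun j hj => ?_⟩
  have h1 : 1 + j ≤ (1 / c) * (2 : ℝ) ^ (δ' * j) := by
    have e1 : (2 : ℝ) ^ (δ' * j) = Real.exp (Real.log 2 * (δ' * j)) := by
      rw [Real.rpow_def_of_pos (by norm_num)]
    have e2 := Real.add_one_le_exp (Real.log 2 * (δ' * j))
    rw [e1, one_div_mul_eq_div, le_div_iff₀ hc0]
    have e3 : (1 + j) * c ≤ 1 + δ' * Real.log 2 * j := by
      have h5 : c ≤ 1 := min_le_left _ _
      have h6 : c ≤ δ' * Real.log 2 := min_le_right _ _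
      nlinarith
    linarith
  calc (1 + j) ^ |Γ| ≤ (1 + j) ^ G := Real.rpow_le_rpow_of_exponent_le (by linarith) (by linarith)
    _ ≤ ((1 / c) * (2 : ℝ) ^ (δ' * j)) ^ G := Real.rpow_le_rpow (by linarith) h1 hG0.le
    _ = (1 / c) ^ G * (2 : ℝ) ^ (δ * j) := by
        rw [Real.mul_rpow (by positivity) (by positivity), ← Real.rpow_mul (by norm_num)]
        congr 2; rw [hδ']; field_simp
    _ ≤ _ := mul_le_mul_of_nonneg_right (le_max_right _ _) (by positivity)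

/-- comparison of polynomial weights -/
lemma bar_le (γ δ : ℝ) (hδ : 0 < δ) : ∃ C : ℝ, 1 ≤ C ∧ ∀ l n : ℕ, 1 ≤ n →
    (max (l : ℝ) 1) ^ γ ≤ C * ((n : ℝ) ^ γ * (2 : ℝ) ^ (δ * |(l : ℝ) - n|)) ∧
    (n : ℝ) ^ γ ≤ C * ((max (l : ℝ) 1) ^ γ * (2 : ℝ) ^ (δ * |(l : ℝ) - n|)) := by
  obtain ⟨C, hC1, hC⟩ := one_add_pow_le γ δ hδ
  refine ⟨C, hC1, fun l n hn => ?_⟩
  have hn' : (1 : ℝ) ≤ n := by exact_mod_cast hn
  set L : ℝ := max (l : ℝ) 1 with hL
  have hL1 : 1 ≤ L := le_max_right _ _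
  have hLl : (l : ℝ) ≤ L := le_max_left _ _
  set j : ℝ := |(l : ℝ) - n| with hj
  have hj0 : 0 ≤ j := abs_nonneg _
  have hj1 : (l : ℝ) - n ≤ j := le_abs_self _
  have hj2 : -((l : ℝ) - n) ≤ j := neg_le_abs _
  have hl0 : (0 : ℝ) ≤ l := Nat.cast_nonneg _
  have h1 : L ≤ (1 + j) * n := by
    apply max_le
    · nlinarith
    · nlinarith
  have h2 : (n : ℝ) ≤ (1 + j) * L := by
    have : (n : ℝ) ≤ L + j := by linarith
    nlinarith
  have h3 := hC j hj0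
  constructor
  · calc L ^ γ ≤ (1 + j) ^ |γ| * (n : ℝ) ^ γ := rpow_comp (by linarith) (by linarith) (by linarith) h1 h2 γ
      _ ≤ C * (2 : ℝ) ^ (δ * j) * (n : ℝ) ^ γ := mul_le_mul_of_nonneg_right h3 (by positivity)
      _ = _ := by ring
  · calc (n : ℝ) ^ γ ≤ (1 + j) ^ |γ| * L ^ γ := rpow_comp (by linarith) (by linarith) (by linarith) h2 h1 γ
      _ ≤ C * (2 : ℝ) ^ (δ * j) * L ^ γ := mul_le_mul_of_nonneg_right h3 (by positivity)
      _ = _ := by ring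

lemma sum_down (lam γ : ℝ) (hl : 0 < lam) : ∃ C : ℝ, 0 < C ∧ ∀ (n : ℕ) (F : Finset ℕ), 1 ≤ n →
    (∀ l ∈ F, n ≤ l) → ∑ l ∈ F, (2 : ℝ) ^ (-(lam * l)) * (max (l : ℝ) 1) ^ γ ≤
      C * ((2 : ℝ) ^ (-(lam * n)) * (n : ℝ) ^ γ) := by
  obtain ⟨C, hC1, hC⟩ := bar_le γ (lam / 2) (by positivity)
  set θ : ℝ := (2 : ℝ) ^ (-(lam / 2)) with hθ
  have hθ0 : 0 < θ := by positivity
  have hθ1 : θ < 1 := Real.rpow_lt_one_of_one_lt_of_neg (by norm_num) (by linarith)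
  have hW : 0 < (1 - θ)⁻¹ := inv_pos.2 (by linarith)
  refine ⟨C * (1 - θ)⁻¹, by positivity, fun n F hn hF => ?_⟩
  have h1 : ∀ l ∈ F, (2 : ℝ) ^ (-(lam * l)) * (max (l : ℝ) 1) ^ γ ≤
      (C * ((2 : ℝ) ^ (-(lam * n)) * (n : ℝ) ^ γ)) * θ ^ (l - n) := by
    intro l hl
    have hnl := hF l hl
    have hnl' : (n : ℝ) ≤ l := by exact_mod_cast hnl
    have h2 := (hC l n hn).1
    rw [abs_of_nonneg (by linarith : (0 : ℝ) ≤ (l : ℝ) - n)] at h2
    have h3 : θ ^ (l - n) = (2 : ℝ) ^ (-(lam / 2) * ((l : ℝ) - n)) := by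
      rw [hθ, ← Real.rpow_natCast, ← Real.rpow_mul (by norm_num), Nat.cast_sub hnl]
    rw [h3]
    calc (2 : ℝ) ^ (-(lam * l)) * (max (l : ℝ) 1) ^ γ ≤
        (2 : ℝ) ^ (-(lam * l)) * (C * ((n : ℝ) ^ γ * (2 : ℝ) ^ (lam / 2 * ((l : ℝ) - n)))) :=
          mul_le_mul_of_nonneg_left h2 (by positivity)
      _ = (C * (n : ℝ) ^ γ) * ((2 : ℝ) ^ (-(lam * l)) * (2 : ℝ) ^ (lam / 2 * ((l : ℝ) - n))) := by ring
      _ = (C * (n : ℝ) ^ γ) * ((2 : ℝ) ^ (-(lam * n)) * (2 : ℝ) ^ (-(lam / 2) * ((l : ℝ) - n))) := by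
          rw [← Real.rpow_add (by norm_num), ← Real.rpow_add (by norm_num)]; congr 2; ring
      _ = _ := by ring
  calc ∑ l ∈ F, (2 : ℝ) ^ (-(lam * l)) * (max (l : ℝ) 1) ^ γ
      ≤ ∑ l ∈ F, (C * ((2 : ℝ) ^ (-(lam * n)) * (n : ℝ) ^ γ)) * θ ^ (l - n) := Finset.sum_le_sum h1
    _ = (C * ((2 : ℝ) ^ (-(lam * n)) * (n : ℝ) ^ γ)) * ∑ l ∈ F, θ ^ (l - n) := by rw [Finset.mul_sum]
    _ ≤ (C * ((2 : ℝ) ^ (-(lam * n)) * (n : ℝ) ^ γ)) * (1 - θ)⁻¹ := by
        apply mul_le_mul_of_nonneg_left _ (by positivity)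
        apply geom_inj_le hθ0.le hθ1
        intro a ha b hb hab
        have := hF a ha; have := hF b hb
        simp only at hab
        omega
    _ = _ := by ring

lemma sum_up (lam γ : ℝ) (hl : 0 < lam) : ∃ C : ℝ, 0 < C ∧ ∀ (n : ℕ) (F : Finset ℕ), 1 ≤ n →
    (∀ l ∈ F, l ≤ n) → ∑ l ∈ F, (2 : ℝ) ^ (lam * l) * (max (l : ℝ) 1) ^ γ ≤
      C * ((2 : ℝ) ^ (lam * n) * (n : ℝ) ^ γ) := by
  obtain ⟨C, hC1, hC⟩ := bar_le γ (lam / 2) (by positivity)
  set θ : ℝ := (2 : ℝ) ^ (-(lam / 2)) with hθ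
  have hθ0 : 0 < θ := by positivity
  have hθ1 : θ < 1 := Real.rpow_lt_one_of_one_lt_of_neg (by norm_num) (by linarith)
  have hW : 0 < (1 - θ)⁻¹ := inv_pos.2 (by linarith)
  refine ⟨C * (1 - θ)⁻¹, by positivity, fun n F hn hF => ?_⟩
  have h1 : ∀ l ∈ F, (2 : ℝ) ^ (lam * l) * (max (l : ℝ) 1) ^ γ ≤
      (C * ((2 : ℝ) ^ (lam * n) * (n : ℝ) ^ γ)) * θ ^ (n - l) := by
    intro l hl
    have hnl := hF l hl
    have hnl' : (l : ℝ) ≤ n := by exact_mod_cast hnl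
    have h2 := (hC l n hn).1
    rw [abs_of_nonpos (by linarith : (l : ℝ) - n ≤ 0)] at h2
    have h3 : θ ^ (n - l) = (2 : ℝ) ^ (-(lam / 2) * ((n : ℝ) - l)) := by
      rw [hθ, ← Real.rpow_natCast, ← Real.rpow_mul (by norm_num), Nat.cast_sub hnl]
    rw [h3]
    calc (2 : ℝ) ^ (lam * l) * (max (l : ℝ) 1) ^ γ ≤
        (2 : ℝ) ^ (lam * l) * (C * ((n : ℝ) ^ γ * (2 : ℝ) ^ (lam / 2 * -((l : ℝ) - n)))) :=
          mul_le_mul_of_nonneg_left h2 (by positivity)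
      _ = (C * (n : ℝ) ^ γ) * ((2 : ℝ) ^ (lam * l) * (2 : ℝ) ^ (lam / 2 * -((l : ℝ) - n))) := by ring
      _ = (C * (n : ℝ) ^ γ) * ((2 : ℝ) ^ (lam * n) * (2 : ℝ) ^ (-(lam / 2) * ((n : ℝ) - l))) := by
          rw [← Real.rpow_add (by norm_num), ← Real.rpow_add (by norm_num)]; congr 2; ring
      _ = _ := by ring
  calc ∑ l ∈ F, (2 : ℝ) ^ (lam * l) * (max (l : ℝ) 1) ^ γ
      ≤ ∑ l ∈ F, (C * ((2 : ℝ) ^ (lam * n) * (n : ℝ) ^ γ)) * θ ^ (n - l) := Finset.sum_le_sum h1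
    _ = (C * ((2 : ℝ) ^ (lam * n) * (n : ℝ) ^ γ)) * ∑ l ∈ F, θ ^ (n - l) := by rw [Finset.mul_sum]
    _ ≤ (C * ((2 : ℝ) ^ (lam * n) * (n : ℝ) ^ γ)) * (1 - θ)⁻¹ := by
        apply mul_le_mul_of_nonneg_left _ (by positivity)
        apply geom_inj_le hθ0.le hθ1
        intro a ha b hb hab
        have := hF a ha; have := hF b hb
        omega
    _ = _ := by ring

/-- the class parameters -/
noncomputable def ep (a γ : ℝ) (l : ℕ) : ℝ := (2 : ℝ) ^ (-(a * l)) * (max (l : ℝ) 1) ^ γ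

lemma bar_pos (l : ℕ) : 0 < max (l : ℝ) 1 := lt_of_lt_of_le one_pos (le_max_right _ _)

lemma ep_pos (a γ : ℝ) (l : ℕ) : 0 < ep a γ l := by
  unfold ep; have := bar_pos l; positivity

lemma ep_summable {a : ℝ} (ha : 0 < a) (γ : ℝ) : Summable (ep a γ) := by
  obtain ⟨C, hC0, hC⟩ := sum_down a γ ha
  apply summable_of_sum_le (c := C * ((2 : ℝ) ^ (-(a * (1 : ℕ))) * ((1 : ℕ) : ℝ) ^ γ) + ep a γ 0)
    (fun l => (ep_pos a γ l).le)
  intro F
  have h1 : ∑ l ∈ F, ep a γ l ≤ ∑ l ∈ F.filter (fun l => 1 ≤ l), ep a γ l + ep a γ 0 := by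
    rw [← Finset.sum_filter_add_sum_filter_not F (fun l => 1 ≤ l)]
    apply add_le_add le_rfl
    calc ∑ l ∈ F.filter (fun l => ¬ 1 ≤ l), ep a γ l ≤ ∑ l ∈ {0}, ep a γ l := by
          apply Finset.sum_le_sum_of_subset_of_nonneg
          · intro l hl; rw [Finset.mem_filter] at hl; rw [Finset.mem_singleton]; omega
          · intro l _ _; exact (ep_pos a γ l).le
      _ = ep a γ 0 := by simp
  refine h1.trans (add_le_add ?_ le_rfl)
  exact hC 1 _ le_rfl (fun l hl => (Finset.mem_filter.1 hl).2)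

/-- rate in terms of the dyadic parameter -/
noncomputable def Rt (A B D : ℝ) (n : ℕ) : ℝ := (2 : ℝ) ^ (-(A * n)) * (n : ℝ) ^ B * (Real.log n) ^ D

/-- rate function -/
noncomputable def Ft (A B D : ℝ) (x : ℝ) : ℝ := x ^ (-A) * (Real.log x) ^ B * (Real.log (Real.log x)) ^ D

lemma tendsto_loglog : Filter.Tendsto (fun x : ℝ => Real.log (Real.log x)) Filter.atTop Filter.atTop :=
  Real.tendsto_log_atTop.comp Real.tendsto_log_atTop

lemma Ft_comp (A B D : ℝ) (K : ℝ) (hK : 1 ≤ K) : ∃ (C x₀ : ℝ), 0 < C ∧ ∀ x y : ℝ, x₀ ≤ x → x₀ ≤ y →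
    x ≤ K * y → y ≤ K * x → Ft A B D x ≤ C * Ft A B D y := by
  have hK0 : 0 < K := by linarith
  obtain ⟨x₁, hx₁⟩ := Filter.eventually_atTop.1 (tendsto_loglog.eventually_ge_atTop (Real.log 2 + 1))
  obtain ⟨x₂, hx₂⟩ := Filter.eventually_atTop.1 (Real.tendsto_log_atTop.eventually_ge_atTop (Real.log K + 1))
  refine ⟨K ^ |-A| * 2 ^ |B| * 2 ^ |D|, max (max x₁ x₂) 1, by positivity, fun x y hx hy hxy hyx => ?_⟩
  have key : ∀ z, max (max x₁ x₂) 1 ≤ z → 0 < z ∧ Real.log K + 1 ≤ Real.log z ∧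
      Real.log 2 + 1 ≤ Real.log (Real.log z) := by
    intro z hz
    refine ⟨lt_of_lt_of_le one_pos ((le_max_right _ _).trans hz), hx₂ z ?_, hx₁ z ?_⟩
    · exact (le_max_right _ _).trans ((le_max_left _ _).trans hz)
    · exact (le_max_left _ _).trans ((le_max_left _ _).trans hz)
  have hlK : 0 ≤ Real.log K := Real.log_nonneg hK
  have hl2 : 0 < Real.log 2 := Real.log_pos (by norm_num)
  have step : ∀ x y : ℝ, max (max x₁ x₂) 1 ≤ x → max (max x₁ x₂) 1 ≤ y → x ≤ K * y →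
      Real.log x ≤ 2 * Real.log y ∧ Real.log (Real.log x) ≤ 2 * Real.log (Real.log y) := by
    intro x y hx hy hxy
    obtain ⟨a1, a2, a3⟩ := key x hx
    obtain ⟨b1, b2, b3⟩ := key y hy
    have h1 : Real.log x ≤ 2 * Real.log y := by
      have := Real.log_le_log a1 hxy
      rw [Real.log_mul hK0.ne' b1.ne'] at this
      linarith
    refine ⟨h1, ?_⟩
    have h2 := Real.log_le_log (by linarith) h1
    rw [Real.log_mul (by norm_num) (by linarith)] at h2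
    linarith
  obtain ⟨a1, a2, a3⟩ := key x hx
  obtain ⟨b1, b2, b3⟩ := key y hy
  obtain ⟨s1, s2⟩ := step x y hx hy hxy
  obtain ⟨t1, t2⟩ := step y x hy hx hyx
  have r1 := rpow_comp hK a1 b1 hxy hyx (-A)
  have r2 := rpow_comp (by norm_num : (1 : ℝ) ≤ 2) (by linarith) (by linarith) s1 t1 B
  have r3 := rpow_comp (by norm_num : (1 : ℝ) ≤ 2) (by linarith) (by linarith) s2 t2 D
  have p1 : 0 ≤ y ^ (-A) := by positivity
  have p2 : 0 ≤ (Real.log y) ^ B := Real.rpow_nonneg (by linarith) _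
  have p3 : 0 ≤ (Real.log (Real.log x)) ^ D := Real.rpow_nonneg (by linarith) _
  have p4 : 0 ≤ (Real.log x) ^ B := Real.rpow_nonneg (by linarith) _
  unfold Ft
  calc x ^ (-A) * (Real.log x) ^ B * (Real.log (Real.log x)) ^ D
      ≤ (K ^ |-A| * y ^ (-A)) * (2 ^ |B| * (Real.log y) ^ B) * (2 ^ |D| * (Real.log (Real.log y)) ^ D) := by
        apply mul_le_mul
        · exact mul_le_mul r1 r2 p4 (by positivity)
        · exact r3
        · exact p3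
        · positivity
    _ = _ := by ring

lemma Rt_Ft (A B D : ℝ) : ∃ (C : ℝ) (N₀ : ℕ), 0 < C ∧ ∀ n : ℕ, N₀ ≤ n →
    Rt A B D n ≤ C * Ft A B D ((2 : ℝ) ^ n) ∧ Ft A B D ((2 : ℝ) ^ n) ≤ C * Rt A B D n := by
  have hl2 : 0 < Real.log 2 := Real.log_pos (by norm_num)
  set K : ℝ := max 2 (1 / Real.log 2) with hK
  have hK1 : 1 ≤ K := le_trans (by norm_num) (le_max_left _ _)
  have hK0 : 0 < K := by linarith
  have hl2' : Real.log 2 ≤ 1 := by
    have := Real.log_le_sub_one_of_pos (by norm_num : (0 : ℝ) < 2); linarith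
  have hll : Real.log (Real.log 2) ≤ 0 := Real.log_nonpos hl2.le hl2'
  obtain ⟨N₀, hN₀⟩ := Filter.eventually_atTop.1
    ((Real.tendsto_log_atTop.comp tendsto_natCast_atTop_atTop).eventually_ge_atTop
      (2 * (-Real.log (Real.log 2)) + 1))
  refine ⟨K ^ |B| * K ^ |D|, max N₀ 1, by positivity, fun n hn => ?_⟩
  have hn1 : 1 ≤ n := (le_max_right _ _).trans hn
  have hn' : (1 : ℝ) ≤ n := by exact_mod_cast hn1
  have h1 : 2 * (-Real.log (Real.log 2)) + 1 ≤ Real.log n := hN₀ n ((le_max_left _ _).trans hn)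
  have e1 : Real.log ((2 : ℝ) ^ n) = n * Real.log 2 := by rw [Real.log_pow]
  have e2 : Real.log (Real.log ((2 : ℝ) ^ n)) = Real.log n + Real.log (Real.log 2) := by
    rw [e1, Real.log_mul (by linarith) hl2.ne']
  have e3 : ((2 : ℝ) ^ n) ^ (-A) = (2 : ℝ) ^ (-(A * n)) := by
    rw [← Real.rpow_natCast, ← Real.rpow_mul (by norm_num)]; congr 1; ring
  have q1 : (n : ℝ) ≤ K * (n * Real.log 2) := by
    have : 1 / Real.log 2 ≤ K := le_max_right _ _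
    calc (n : ℝ) = 1 / Real.log 2 * (n * Real.log 2) := by field_simp
      _ ≤ _ := mul_le_mul_of_nonneg_right this (by positivity)
  have q2 : n * Real.log 2 ≤ K * (n : ℝ) := by
    have : Real.log 2 * n ≤ K * n := mul_le_mul_of_nonneg_right (hl2'.trans hK1) (by positivity)
    linarith
  have hK2 : 2 ≤ K := le_max_left _ _
  have q3 : Real.log n ≤ K * (Real.log n + Real.log (Real.log 2)) := by
    have : 2 * (Real.log n + Real.log (Real.log 2)) ≤ K * (Real.log n + Real.log (Real.log 2)) :=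
      mul_le_mul_of_nonneg_right hK2 (by linarith)
    linarith
  have q4 : Real.log n + Real.log (Real.log 2) ≤ K * Real.log n := by
    have : 1 * Real.log n ≤ K * Real.log n := mul_le_mul_of_nonneg_right hK1 (by linarith)
    linarith
  have pn : 0 < (n : ℝ) := by linarith
  have pn2 : 0 < (n : ℝ) * Real.log 2 := by positivity
  have pl : 0 < Real.log n := by linarith
  have pl2 : 0 < Real.log n + Real.log (Real.log 2) := by linarith
  have r1 := rpow_comp hK1 pn pn2 q1 q2 B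
  have r2 := rpow_comp hK1 pn2 pn q2 q1 B
  have r3 := rpow_comp hK1 pl pl2 q3 q4 D
  have r4 := rpow_comp hK1 pl2 pl q4 q3 D
  unfold Rt Ft
  rw [e2, e1, e3]
  constructor
  · calc (2 : ℝ) ^ (-(A * n)) * (n : ℝ) ^ B * (Real.log n) ^ D
        ≤ (2 : ℝ) ^ (-(A * n)) * (K ^ |B| * (n * Real.log 2) ^ B) *
          (K ^ |D| * (Real.log n + Real.log (Real.log 2)) ^ D) := by
          apply mul_le_mul _ r3 (by positivity) (by positivity)
          exact mul_le_mul_of_nonneg_left r1 (by positivity)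
      _ = _ := by ring
  · calc (2 : ℝ) ^ (-(A * n)) * (n * Real.log 2) ^ B * (Real.log n + Real.log (Real.log 2)) ^ D
        ≤ (2 : ℝ) ^ (-(A * n)) * (K ^ |B| * (n : ℝ) ^ B) * (K ^ |D| * (Real.log n) ^ D) := by
          apply mul_le_mul _ r4 (by positivity) (by positivity)
          exact mul_le_mul_of_nonneg_left r2 (by positivity)
      _ = _ := by ring

/-- a small logarithm -/
lemma small_log (k : ℕ) : ∃ N₀ : ℕ, ∀ n : ℕ, N₀ ≤ n → 4 * Nat.log 2 (n ^ k) ≤ n := by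
  have h1 : Filter.Tendsto (fun n : ℕ => (n : ℝ) ^ k / ((2 : ℝ) ^ (1 / 4 : ℝ)) ^ n) Filter.atTop (nhds 0) :=
    tendsto_pow_const_div_const_pow_of_one_lt k (Real.one_lt_rpow (by norm_num) (by norm_num))
  obtain ⟨N₀, hN₀⟩ := Filter.eventually_atTop.1 (h1.eventually (gt_mem_nhds (by norm_num : (0:ℝ) < 1)))
  refine ⟨max N₀ 1, fun n hn => ?_⟩
  have hn1 : 1 ≤ n := (le_max_right _ _).trans hn
  have h2 := hN₀ n ((le_max_left _ _).trans hn)
  rw [div_lt_one (by positivity)] at h2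
  have h3 : 2 ^ Nat.log 2 (n ^ k) ≤ n ^ k := Nat.pow_log_le_self 2 (by positivity)
  have h4 : (2 : ℝ) ^ (Nat.log 2 (n ^ k)) ≤ (n : ℝ) ^ k := by exact_mod_cast h3
  have h5 : (2 : ℝ) ^ ((Nat.log 2 (n ^ k) : ℕ) : ℝ) < (2 : ℝ) ^ ((1 / 4 : ℝ) * n) := by
    rw [Real.rpow_natCast, Real.rpow_mul (by norm_num), Real.rpow_natCast]; linarith
  have h6 := (Real.rpow_lt_rpow_left_iff (by norm_num : (1 : ℝ) < 2)).1 h5
  have h7 : ((4 * Nat.log 2 (n ^ k) : ℕ) : ℝ) < n := by push_cast; linarith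
  have h8 : 4 * Nat.log 2 (n ^ k) < n := by exact_mod_cast h7
  omega

end Pool.Agent.Helper935.MT
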