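import Pool.Agent.Helper935.MT.Rates

open MeasureTheory
open scoped ENNReal ComplexConjugate

namespace Pool.Agent.Helper935.MT

variable {d : ℕ}

/-- membership in the class -/
def InW (a γ : ℝ) (f : Torus d → ℂ) : Prop :=
  Integrable f (mu d) ∧ ∀ l, ∫ x, ‖fl f l x‖ ∂(mu d) ≤ ep a γ l

/-- upper estimate at the dyadic scale -/
def UpS (d : ℕ) (p a γ A B D : ℝ) : Prop :=
  ∃ (C S : ℝ) (N₀ : ℕ), 0 < C ∧ 0 < S ∧ ∀ n : ℕ, N₀ ≤ n → ∀ f : Torus d → ℂ, InW a γ f →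
    ∃ G : Torus d → ℂ, Rep (S * 2 ^ n) G ∧
      eLpNorm (fun x => f x - G x) (ENNReal.ofReal p) (mu d) ≤ ENNReal.ofReal (C * Rt A B D n)

/-- lower estimate at the dyadic scale -/
def LoS (d : ℕ) (p a γ A B D : ℝ) : Prop :=
  ∃ (c : ℝ) (N₀ : ℕ), 0 < c ∧ ∀ n : ℕ, N₀ ≤ n → ∃ f : Torus d → ℂ, BC f ∧ InW a γ f ∧
    ∀ G : Torus d → ℂ, Rep (2 ^ n) G → c * Rt A B D n ≤ Np p (fun x => f x - G x)

lemma pw (x γ p L : ℝ) (hL : 0 < L) : ((2 : ℝ) ^ x * L ^ γ) ^ p = (2 : ℝ) ^ (x * p) * L ^ (γ * p) := by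
  rw [Real.mul_rpow (by positivity) (by positivity), ← Real.rpow_mul (by norm_num), ← Real.rpow_mul hL.le]

lemma Rt_zero (A B : ℝ) (n : ℕ) : Rt A B 0 n = (2 : ℝ) ^ (-(A * n)) * (n : ℝ) ^ B := by
  unfold Rt; rw [Real.rpow_zero, mul_one]

lemma two_pow_rpow (n : ℕ) : (2 : ℝ) ^ n = (2 : ℝ) ^ (n : ℝ) := (Real.rpow_natCast _ _).symm

/-- upper estimate, regime `β < a < 2 β`, `p ≤ 2` -/
theorem up3 {p r : ℝ} (hpr : p.HolderConjugate r) (hr : 2 ≤ r) (hd : 0 < d) {a : ℝ} (γ : ℝ)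
    (h1 : 1 / r < a) (h2 : a < 2 / r) : UpS d p a γ (a - 1 / r) γ 0 := by
  have hp0 : 0 < p := hpr.pos
  have hr0 : 0 < r := by linarith
  have hr1 : 0 < 1 / r := by positivity
  obtain ⟨C, hC0, hC⟩ := upper_small hpr hr hd
  set lam : ℝ := (2 / r - a) / 2 with hlam
  have hlam0 : 0 < lam := by linarith
  set κ : ℝ := lam * r with hκ
  have hκ0 : 0 < κ := by positivity
  obtain ⟨C₁, hC₁0, hC₁⟩ := sum_up (lam * p) (γ * p) (by positivity)
  obtain ⟨C₂, hC₂0, hC₂⟩ := sum_down ((a - 1 / r) * p) (γ * p) (mul_pos (by linarith) hp0)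
  obtain ⟨C₄, hC₄0, hC₄⟩ := sum_up κ 0 hκ0
  refine ⟨C * (C₁ + C₂) ^ (1 / p), 2 ^ d + C * C₄, 1, by positivity, by positivity, fun n hn f hf => ?_⟩
  have hn0 : (0 : ℝ) < n := by exact_mod_cast hn
  have ha0 : 0 < a := by linarith
  set m : ℕ → ℝ := fun l => (2 : ℝ) ^ ((n : ℝ) - κ * ((n : ℝ) - l)) with hm
  set E : ℝ := (C₁ + C₂) ^ (1 / p) * ((2 : ℝ) ^ (-((a - 1 / r) * n)) * (n : ℝ) ^ γ) with hE
  have hEp : E ^ p = (C₁ + C₂) * ((2 : ℝ) ^ (-((a - 1 / r) * n)) * (n : ℝ) ^ γ) ^ p := by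
    rw [hE, Real.mul_rpow (by positivity) (by positivity), ← Real.rpow_mul (by positivity),
      one_div_mul_cancel hp0.ne', Real.rpow_one]
  have hQ : 0 ≤ ((2 : ℝ) ^ (-((a - 1 / r) * n)) * (n : ℝ) ^ γ) ^ p := by positivity
  have key := hC (ep a γ) (fun l => (ep_pos a γ l).le) (ep_summable ha0 γ) f hf.1 hf.2
    0 (n + 1) m E (Nat.zero_le _) (fun l => by simp only [hm]; positivity) (by positivity) ?_ ?_
  · obtain ⟨G, hG1, hG2⟩ := key
    refine ⟨G, hG1.mono ?_, ?_⟩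
    · have e1 : ∑ l ∈ Finset.Ico 0 (n + 1), m l ≤ C₄ * 2 ^ n := by
        have q1 := hC₄ n (Finset.Ico 0 (n + 1)) hn (fun l hl => by rw [Finset.mem_Ico] at hl; omega)
        simp only [Real.rpow_zero, mul_one] at q1
        have q2 : ∀ l ∈ Finset.Ico 0 (n + 1), m l = (2 : ℝ) ^ ((n : ℝ) - κ * n) * (2 : ℝ) ^ (κ * l) := by
          intro l _; simp only [hm]; rw [← Real.rpow_add (by norm_num)]; congr 1; ring
        rw [Finset.sum_congr rfl q2, ← Finset.mul_sum]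
        calc (2 : ℝ) ^ ((n : ℝ) - κ * n) * ∑ l ∈ Finset.Ico 0 (n + 1), (2 : ℝ) ^ (κ * l)
            ≤ (2 : ℝ) ^ ((n : ℝ) - κ * n) * (C₄ * (2 : ℝ) ^ (κ * n)) :=
              mul_le_mul_of_nonneg_left q1 (by positivity)
          _ = C₄ * ((2 : ℝ) ^ ((n : ℝ) - κ * n) * (2 : ℝ) ^ (κ * n)) := by ring
          _ = C₄ * 2 ^ n := by
              rw [← Real.rpow_add (by norm_num), two_pow_rpow]; congr 2; ring
      have e2 : (2 : ℝ) ^ d * 2 ^ 0 * ((0 : ℕ) : ℝ) ^ (d - 1) ≤ 2 ^ d * 2 ^ n := by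
        have q3 : ((0 : ℕ) : ℝ) ^ (d - 1) ≤ 1 := by
          rw [Nat.cast_zero]; exact pow_le_one₀ le_rfl zero_le_one
        have q4 : (1 : ℝ) ≤ 2 ^ n := one_le_pow₀ (by norm_num)
        calc (2 : ℝ) ^ d * 2 ^ 0 * ((0 : ℕ) : ℝ) ^ (d - 1) ≤ 2 ^ d * 2 ^ 0 * 1 :=
              mul_le_mul_of_nonneg_left q3 (by positivity)
          _ = 2 ^ d * 1 := by norm_num
          _ ≤ _ := mul_le_mul_of_nonneg_left q4 (by positivity)
      calc (2 : ℝ) ^ d * 2 ^ 0 * ((0 : ℕ) : ℝ) ^ (d - 1) + C * ∑ l ∈ Finset.Ico 0 (n + 1), m l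
          ≤ 2 ^ d * 2 ^ n + C * (C₄ * 2 ^ n) := add_le_add e2 (mul_le_mul_of_nonneg_left e1 hC0.le)
        _ = _ := by ring
    · refine hG2.trans (le_of_eq ?_)
      rw [Rt_zero]; congr 1; rw [hE]; ring
  · -- middle sum
    have e1 : ∀ l ∈ Finset.Ico 0 (n + 1), (2 ^ ((l : ℝ) / r) * ep a γ l * (2 ^ l / m l) ^ (1 / r)) ^ p =
        (2 : ℝ) ^ ((lam - 1 / r) * n * p) * ((2 : ℝ) ^ (lam * p * l) * (max (l : ℝ) 1) ^ (γ * p)) := by
      intro l _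
      have q1 : (2 : ℝ) ^ ((l : ℝ) / r) * ep a γ l * (2 ^ l / m l) ^ (1 / r) =
          (2 : ℝ) ^ ((lam - 1 / r) * n + lam * l) * (max (l : ℝ) 1) ^ γ := by
        unfold ep
        simp only [hm]
        rw [two_pow_rpow l, ← Real.rpow_sub (by norm_num), ← Real.rpow_mul (by norm_num)]
        calc (2 : ℝ) ^ ((l : ℝ) / r) * ((2 : ℝ) ^ (-(a * l)) * (max (l : ℝ) 1) ^ γ) *
              (2 : ℝ) ^ (((l : ℝ) - ((n : ℝ) - κ * ((n : ℝ) - l))) * (1 / r)) =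
              ((2 : ℝ) ^ ((l : ℝ) / r) * (2 : ℝ) ^ (-(a * l)) *
              (2 : ℝ) ^ (((l : ℝ) - ((n : ℝ) - κ * ((n : ℝ) - l))) * (1 / r))) * (max (l : ℝ) 1) ^ γ := by ring
          _ = _ := by
              rw [← Real.rpow_add (by norm_num), ← Real.rpow_add (by norm_num)]
              congr 2
              rw [hκ, hlam]; field_simp; ring
      rw [q1, pw _ _ _ _ (bar_pos l)]
      have q2 : ((lam - 1 / r) * n + lam * l) * p = (lam - 1 / r) * n * p + lam * p * l := by ring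
      rw [q2, Real.rpow_add (by norm_num)]; ring
    rw [Finset.sum_congr rfl e1, ← Finset.mul_sum]
    have q3 := hC₁ n (Finset.Ico 0 (n + 1)) hn (fun l hl => by rw [Finset.mem_Ico] at hl; omega)
    calc (2 : ℝ) ^ ((lam - 1 / r) * n * p) * ∑ l ∈ Finset.Ico 0 (n + 1),
          (2 : ℝ) ^ (lam * p * l) * (max (l : ℝ) 1) ^ (γ * p)
        ≤ (2 : ℝ) ^ ((lam - 1 / r) * n * p) * (C₁ * ((2 : ℝ) ^ (lam * p * n) * (n : ℝ) ^ (γ * p))) :=
          mul_le_mul_of_nonneg_left q3 (by positivity)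
      _ = C₁ * (((2 : ℝ) ^ ((lam - 1 / r) * n * p) * (2 : ℝ) ^ (lam * p * n)) * (n : ℝ) ^ (γ * p)) := by ring
      _ = C₁ * ((2 : ℝ) ^ (-((a - 1 / r) * n)) * (n : ℝ) ^ γ) ^ p := by
          rw [pw _ _ _ _ hn0, ← Real.rpow_add (by norm_num)]
          congr 3; rw [hlam]; field_simp; ring
      _ ≤ E ^ p := by
          rw [hEp]; exact mul_le_mul_of_nonneg_right (by linarith) hQ
  · intro L
    have e1 : ∀ l ∈ Finset.Ico (n + 1) L, (2 ^ ((l : ℝ) / r) * ep a γ l) ^ p =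
        (2 : ℝ) ^ (-((a - 1 / r) * p * l)) * (max (l : ℝ) 1) ^ (γ * p) := by
      intro l _
      unfold ep
      rw [← mul_assoc, ← Real.rpow_add (by norm_num), pw _ _ _ _ (bar_pos l)]
      congr 2; field_simp; ring
    rw [Finset.sum_congr rfl e1]
    have q3 := hC₂ n (Finset.Ico (n + 1) L) hn (fun l hl => by rw [Finset.mem_Ico] at hl; omega)
    refine q3.trans ?_
    calc C₂ * ((2 : ℝ) ^ (-((a - 1 / r) * p * n)) * (n : ℝ) ^ (γ * p))
        = C₂ * ((2 : ℝ) ^ (-((a - 1 / r) * n)) * (n : ℝ) ^ γ) ^ p := by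
          rw [pw _ _ _ _ hn0]; congr 3; ring
      _ ≤ E ^ p := by
          rw [hEp]; exact mul_le_mul_of_nonneg_right (by linarith) hQ

/-- tail of the class in the regime `p ≤ 2` -/
lemma tail_bound {p r a : ℝ} (hp0 : 0 < p) (hr0 : 0 < r) (γ : ℝ) (h1 : 1 / r < a) : ∃ C : ℝ, 0 < C ∧
    ∀ n L : ℕ, 1 ≤ n → ∑ l ∈ Finset.Ico (n + 1) L, (2 ^ ((l : ℝ) / r) * ep a γ l) ^ p ≤
      C * ((2 : ℝ) ^ (-((a - 1 / r) * n)) * (n : ℝ) ^ γ) ^ p := by
  obtain ⟨C₂, hC₂0, hC₂⟩ := sum_down ((a - 1 / r) * p) (γ * p) (mul_pos (by linarith) hp0)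
  refine ⟨C₂, hC₂0, fun n L hn => ?_⟩
  have hn0 : (0 : ℝ) < n := by exact_mod_cast hn
  have e1 : ∀ l ∈ Finset.Ico (n + 1) L, (2 ^ ((l : ℝ) / r) * ep a γ l) ^ p =
      (2 : ℝ) ^ (-((a - 1 / r) * p * l)) * (max (l : ℝ) 1) ^ (γ * p) := by
    intro l _
    unfold ep
    rw [← mul_assoc, ← Real.rpow_add (by norm_num), pw _ _ _ _ (bar_pos l)]
    congr 2; field_simp; ring
  rw [Finset.sum_congr rfl e1]
  have q3 := hC₂ n (Finset.Ico (n + 1) L) hn (fun l hl => by rw [Finset.mem_Ico] at hl; omega)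
  refine q3.trans (le_of_eq ?_)
  rw [pw _ _ _ _ hn0]; congr 3; ring

/-- the cut-off for the low layers -/
lemma cutoff (d : ℕ) : ∃ N₀ : ℕ, ∀ n : ℕ, N₀ ≤ n → 4 ≤ n ∧ 4 * Nat.log 2 (n ^ (d - 1)) ≤ n ∧
    (2 : ℝ) ^ (Nat.log 2 (n ^ (d - 1))) ≤ (n : ℝ) ^ (d - 1) ∧
    (n : ℝ) ^ (d - 1) ≤ 2 * (2 : ℝ) ^ (Nat.log 2 (n ^ (d - 1))) := by
  obtain ⟨N₀, hN₀⟩ := small_log (d - 1)
  refine ⟨max N₀ 4, fun n hn => ?_⟩
  have hn4 : 4 ≤ n := (le_max_right _ _).trans hn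
  refine ⟨hn4, hN₀ n ((le_max_left _ _).trans hn), ?_, ?_⟩
  · have h3 : 2 ^ Nat.log 2 (n ^ (d - 1)) ≤ n ^ (d - 1) := Nat.pow_log_le_self 2 (by positivity)
    exact_mod_cast h3
  · have h3 : n ^ (d - 1) < 2 ^ (Nat.log 2 (n ^ (d - 1)) + 1) := Nat.lt_pow_succ_log_self (by norm_num) _
    have h4 : n ^ (d - 1) ≤ 2 * 2 ^ (Nat.log 2 (n ^ (d - 1))) := by rw [pow_succ] at h3; omega
    exact_mod_cast h4

lemma half_comp {n n₀ : ℕ} (γ : ℝ) (hn : 0 < n) (h1 : n ≤ 2 * n₀) (h2 : n₀ ≤ n) :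
    (n₀ : ℝ) ^ γ ≤ 2 ^ |γ| * (n : ℝ) ^ γ := by
  have a1 : (0 : ℝ) < n := by exact_mod_cast hn
  have a2 : (n : ℝ) ≤ 2 * n₀ := by exact_mod_cast h1
  have a3 : (n₀ : ℝ) ≤ n := by exact_mod_cast h2
  exact rpow_comp (by norm_num) (by linarith) a1 (by linarith) a2 γ

/-- upper estimate, regime `a > 2 β`, `p ≤ 2` -/
theorem up1 {p r : ℝ} (hpr : p.HolderConjugate r) (hr : 2 ≤ r) (hd : 0 < d) {a : ℝ} (γ : ℝ)
    (h2 : 2 / r < a) : UpS d p a γ (a - 1 / r) (γ + (d - 1 : ℕ) * (a - 2 / r)) 0 := by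
  have hp0 : 0 < p := hpr.pos
  have hr0 : 0 < r := by linarith
  have hr1 : 0 < 1 / r := by positivity
  have h1 : 1 / r < a := by
    have : 2 / r = 1 / r + 1 / r := by ring
    linarith
  obtain ⟨C, hC0, hC⟩ := upper_small hpr hr hd
  obtain ⟨N₀, hN₀⟩ := cutoff d
  set lam : ℝ := (a - 2 / r) / 2 with hlam
  have hlam0 : 0 < lam := by linarith
  set κ : ℝ := lam * r with hκ
  have hκ0 : 0 < κ := by positivity
  obtain ⟨C₁, hC₁0, hC₁⟩ := sum_down (lam * p) (γ * p) (by positivity)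
  obtain ⟨C₂, hC₂0, hC₂⟩ := tail_bound hp0 hr0 γ h1
  obtain ⟨C₄, hC₄0, hC₄⟩ := sum_down κ 0 hκ0
  set C₅ : ℝ := (2 ^ |γ|) ^ p * C₁ + C₂ with hC₅
  have hC₅0 : 0 < C₅ := by positivity
  refine ⟨C * C₅ ^ (1 / p), 2 ^ (d + 1) + C * C₄, N₀, by positivity, by positivity, fun n hn f hf => ?_⟩
  obtain ⟨hn4, he1, he2, he3⟩ := hN₀ n hn
  set e : ℕ := Nat.log 2 (n ^ (d - 1)) with he
  have hn0 : (0 : ℝ) < n := by
    have : 0 < n := by omega
    exact_mod_cast this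
  have hn1 : (1 : ℝ) ≤ n := by
    have : 1 ≤ n := by omega
    exact_mod_cast this
  have ha0 : 0 < a := by linarith
  set n₀ : ℕ := n - e with hn₀
  have hn₀1 : 1 ≤ n₀ := by omega
  have hn₀n : n₀ ≤ n := by omega
  have hn₀2 : n ≤ 2 * n₀ := by omega
  have hn₀r : (n₀ : ℝ) = n - e := by rw [hn₀, Nat.cast_sub (by omega)]
  have hn₀0 : (0 : ℝ) < n₀ := by exact_mod_cast hn₀1
  set Bx : ℝ := γ + (d - 1 : ℕ) * (a - 2 / r) with hBx
  set m : ℕ → ℝ := fun l => (2 : ℝ) ^ ((n : ℝ) - κ * ((l : ℝ) - n₀)) with hm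
  set E : ℝ := C₅ ^ (1 / p) * ((2 : ℝ) ^ (-((a - 1 / r) * n)) * (n : ℝ) ^ Bx) with hE
  have hEp : E ^ p = C₅ * ((2 : ℝ) ^ (-((a - 1 / r) * n)) * (n : ℝ) ^ Bx) ^ p := by
    rw [hE, Real.mul_rpow (by positivity) (by positivity), ← Real.rpow_mul (by positivity),
      one_div_mul_cancel hp0.ne', Real.rpow_one]
  have hQ : 0 ≤ ((2 : ℝ) ^ (-((a - 1 / r) * n)) * (n : ℝ) ^ Bx) ^ p := by positivity
  -- the key comparison
  have hkey : (2 : ℝ) ^ (-((n : ℝ) / r) - 2 * lam * n₀) * (n₀ : ℝ) ^ γ ≤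
      2 ^ |γ| * ((2 : ℝ) ^ (-((a - 1 / r) * n)) * (n : ℝ) ^ Bx) := by
    have q1 : (n₀ : ℝ) ^ γ ≤ 2 ^ |γ| * (n : ℝ) ^ γ := half_comp γ (by omega) hn₀2 hn₀n
    have q2 : (2 : ℝ) ^ (2 * lam * e) ≤ (n : ℝ) ^ ((d - 1 : ℕ) * (a - 2 / r)) := by
      have e1 : (2 : ℝ) ^ (2 * lam * e) = ((2 : ℝ) ^ e) ^ (2 * lam) := by
        rw [two_pow_rpow, ← Real.rpow_mul (by norm_num)]; congr 1; ring
      have e2 : (n : ℝ) ^ ((d - 1 : ℕ) * (a - 2 / r)) = ((n : ℝ) ^ (d - 1)) ^ (2 * lam) := by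
        rw [← Real.rpow_natCast, ← Real.rpow_mul hn0.le]; congr 1; rw [hlam]; ring
      rw [e1, e2]
      exact Real.rpow_le_rpow (by positivity) he2 (by positivity)
    have q3 : (2 : ℝ) ^ (-((n : ℝ) / r) - 2 * lam * n₀) =
        (2 : ℝ) ^ (-((a - 1 / r) * n)) * (2 : ℝ) ^ (2 * lam * e) := by
      rw [← Real.rpow_add (by norm_num), hn₀r]; congr 1; rw [hlam]; field_simp; ring
    rw [q3]
    calc (2 : ℝ) ^ (-((a - 1 / r) * n)) * (2 : ℝ) ^ (2 * lam * e) * (n₀ : ℝ) ^ γ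
        ≤ (2 : ℝ) ^ (-((a - 1 / r) * n)) * (n : ℝ) ^ ((d - 1 : ℕ) * (a - 2 / r)) * (2 ^ |γ| * (n : ℝ) ^ γ) := by
          apply mul_le_mul _ q1 (by positivity) (by positivity)
          exact mul_le_mul_of_nonneg_left q2 (by positivity)
      _ = 2 ^ |γ| * ((2 : ℝ) ^ (-((a - 1 / r) * n)) * ((n : ℝ) ^ γ * (n : ℝ) ^ ((d - 1 : ℕ) * (a - 2 / r)))) := by
          ring
      _ = _ := by rw [← Real.rpow_add hn0]
  have key := hC (ep a γ) (fun l => (ep_pos a γ l).le) (ep_summable ha0 γ) f hf.1 hf.2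
    n₀ (n + 1) m E (by omega) (fun l => by simp only [hm]; positivity) (by positivity) ?_ ?_
  · obtain ⟨G, hG1, hG2⟩ := key
    refine ⟨G, hG1.mono ?_, ?_⟩
    · have e1 : ∑ l ∈ Finset.Ico n₀ (n + 1), m l ≤ C₄ * 2 ^ n := by
        have q1 := hC₄ n₀ (Finset.Ico n₀ (n + 1)) hn₀1 (fun l hl => by rw [Finset.mem_Ico] at hl; omega)
        simp only [Real.rpow_zero, mul_one] at q1
        have q2 : ∀ l ∈ Finset.Ico n₀ (n + 1), m l = (2 : ℝ) ^ ((n : ℝ) + κ * n₀) * (2 : ℝ) ^ (-(κ * l)) := by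
          intro l _; simp only [hm]; rw [← Real.rpow_add (by norm_num)]; congr 1; ring
        rw [Finset.sum_congr rfl q2, ← Finset.mul_sum]
        calc (2 : ℝ) ^ ((n : ℝ) + κ * n₀) * ∑ l ∈ Finset.Ico n₀ (n + 1), (2 : ℝ) ^ (-(κ * l))
            ≤ (2 : ℝ) ^ ((n : ℝ) + κ * n₀) * (C₄ * (2 : ℝ) ^ (-(κ * n₀))) :=
              mul_le_mul_of_nonneg_left q1 (by positivity)
          _ = C₄ * ((2 : ℝ) ^ ((n : ℝ) + κ * n₀) * (2 : ℝ) ^ (-(κ * n₀))) := by ring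
          _ = C₄ * 2 ^ n := by
              rw [← Real.rpow_add (by norm_num), two_pow_rpow]; congr 2; ring
      have e2 : (2 : ℝ) ^ d * 2 ^ n₀ * (n₀ : ℝ) ^ (d - 1) ≤ 2 ^ (d + 1) * 2 ^ n := by
        have q3 : (n₀ : ℝ) ^ (d - 1) ≤ 2 * (2 : ℝ) ^ e := by
          refine le_trans ?_ he3
          exact pow_le_pow_left₀ hn₀0.le (by exact_mod_cast hn₀n) _
        calc (2 : ℝ) ^ d * 2 ^ n₀ * (n₀ : ℝ) ^ (d - 1) ≤ 2 ^ d * 2 ^ n₀ * (2 * (2 : ℝ) ^ e) :=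
              mul_le_mul_of_nonneg_left q3 (by positivity)
          _ = 2 ^ (d + 1) * (2 ^ n₀ * 2 ^ e) := by ring
          _ = 2 ^ (d + 1) * 2 ^ n := by rw [← pow_add]; congr 2; omega
      calc (2 : ℝ) ^ d * 2 ^ n₀ * (n₀ : ℝ) ^ (d - 1) + C * ∑ l ∈ Finset.Ico n₀ (n + 1), m l
          ≤ 2 ^ (d + 1) * 2 ^ n + C * (C₄ * 2 ^ n) := add_le_add e2 (mul_le_mul_of_nonneg_left e1 hC0.le)
        _ = _ := by ring
    · refine hG2.trans (le_of_eq ?_)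
      rw [Rt_zero]; congr 1; rw [hE]; ring
  · -- middle sum
    have e1 : ∀ l ∈ Finset.Ico n₀ (n + 1), (2 ^ ((l : ℝ) / r) * ep a γ l * (2 ^ l / m l) ^ (1 / r)) ^ p =
        (2 : ℝ) ^ ((-((n : ℝ) / r) - lam * n₀) * p) * ((2 : ℝ) ^ (-(lam * p * l)) * (max (l : ℝ) 1) ^ (γ * p)) := by
      intro l _
      have q1 : (2 : ℝ) ^ ((l : ℝ) / r) * ep a γ l * (2 ^ l / m l) ^ (1 / r) =
          (2 : ℝ) ^ ((-((n : ℝ) / r) - lam * n₀) + -(lam * l)) * (max (l : ℝ) 1) ^ γ := by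
        unfold ep
        simp only [hm]
        rw [two_pow_rpow l, ← Real.rpow_sub (by norm_num), ← Real.rpow_mul (by norm_num)]
        calc (2 : ℝ) ^ ((l : ℝ) / r) * ((2 : ℝ) ^ (-(a * l)) * (max (l : ℝ) 1) ^ γ) *
              (2 : ℝ) ^ (((l : ℝ) - ((n : ℝ) - κ * ((l : ℝ) - n₀))) * (1 / r)) =
              ((2 : ℝ) ^ ((l : ℝ) / r) * (2 : ℝ) ^ (-(a * l)) *
              (2 : ℝ) ^ (((l : ℝ) - ((n : ℝ) - κ * ((l : ℝ) - n₀))) * (1 / r))) * (max (l : ℝ) 1) ^ γ := by ring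
          _ = _ := by
              rw [← Real.rpow_add (by norm_num), ← Real.rpow_add (by norm_num)]
              congr 2
              rw [hκ, hlam]; field_simp; ring
      rw [q1, pw _ _ _ _ (bar_pos l)]
      have q2 : ((-((n : ℝ) / r) - lam * n₀) + -(lam * l)) * p =
          (-((n : ℝ) / r) - lam * n₀) * p + -(lam * p * l) := by ring
      rw [q2, Real.rpow_add (by norm_num)]; ring
    rw [Finset.sum_congr rfl e1, ← Finset.mul_sum]
    have q3 := hC₁ n₀ (Finset.Ico n₀ (n + 1)) hn₀1 (fun l hl => by rw [Finset.mem_Ico] at hl; omega)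
    calc (2 : ℝ) ^ ((-((n : ℝ) / r) - lam * n₀) * p) * ∑ l ∈ Finset.Ico n₀ (n + 1),
          (2 : ℝ) ^ (-(lam * p * l)) * (max (l : ℝ) 1) ^ (γ * p)
        ≤ (2 : ℝ) ^ ((-((n : ℝ) / r) - lam * n₀) * p) * (C₁ * ((2 : ℝ) ^ (-(lam * p * n₀)) * (n₀ : ℝ) ^ (γ * p))) :=
          mul_le_mul_of_nonneg_left q3 (by positivity)
      _ = C₁ * (((2 : ℝ) ^ ((-((n : ℝ) / r) - lam * n₀) * p) * (2 : ℝ) ^ (-(lam * p * n₀))) * (n₀ : ℝ) ^ (γ * p)) := by
          ring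
      _ = C₁ * ((2 : ℝ) ^ (-((n : ℝ) / r) - 2 * lam * n₀) * (n₀ : ℝ) ^ γ) ^ p := by
          rw [pw _ _ _ _ hn₀0, ← Real.rpow_add (by norm_num)]
          congr 3; ring
      _ ≤ C₁ * (2 ^ |γ| * ((2 : ℝ) ^ (-((a - 1 / r) * n)) * (n : ℝ) ^ Bx)) ^ p := by
          apply mul_le_mul_of_nonneg_left _ hC₁0.le
          exact Real.rpow_le_rpow (by positivity) hkey hp0.le
      _ = ((2 ^ |γ|) ^ p * C₁) * ((2 : ℝ) ^ (-((a - 1 / r) * n)) * (n : ℝ) ^ Bx) ^ p := by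
          rw [Real.mul_rpow (by positivity) (by positivity)]; ring
      _ ≤ E ^ p := by
          rw [hEp]; exact mul_le_mul_of_nonneg_right (by linarith) hQ
  · intro L
    refine (hC₂ n L (by omega)).trans ?_
    calc C₂ * ((2 : ℝ) ^ (-((a - 1 / r) * n)) * (n : ℝ) ^ γ) ^ p
        ≤ C₂ * ((2 : ℝ) ^ (-((a - 1 / r) * n)) * (n : ℝ) ^ Bx) ^ p := by
          apply mul_le_mul_of_nonneg_left _ hC₂0.le
          apply Real.rpow_le_rpow (by positivity) _ hp0.le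
          apply mul_le_mul_of_nonneg_left _ (by positivity)
          apply Real.rpow_le_rpow_of_exponent_le hn1
          rw [hBx]
          have : 0 ≤ ((d - 1 : ℕ) : ℝ) * (a - 2 / r) := mul_nonneg (Nat.cast_nonneg _) (by linarith)
          linarith
      _ ≤ E ^ p := by
          rw [hEp]; apply mul_le_mul_of_nonneg_right _ hQ
          have : 0 < (2 ^ |γ|) ^ p * C₁ := by positivity
          linarith

/-- upper estimate, regime `a = 2 β`, `p ≤ 2` -/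
theorem up2 {p r : ℝ} (hpr : p.HolderConjugate r) (hr : 2 ≤ r) (hd : 0 < d) {a : ℝ} (γ : ℝ)
    (h2 : a = 2 / r) : UpS d p a γ (a - 1 / r) γ 1 := by
  have hp0 : 0 < p := hpr.pos
  have hr0 : 0 < r := by linarith
  have hr1 : 0 < 1 / r := by positivity
  have h1 : 1 / r < a := by
    have : 2 / r = 1 / r + 1 / r := by ring
    linarith
  obtain ⟨C, hC0, hC⟩ := upper_small hpr hr hd
  obtain ⟨N₀, hN₀⟩ := cutoff d
  obtain ⟨C₂, hC₂0, hC₂⟩ := tail_bound hp0 hr0 γ h1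
  have hl2 : 0 < Real.log 2 := Real.log_pos (by norm_num)
  set g : ℝ := (d - 1 : ℕ) / Real.log 2 + 1 with hg
  have hg0 : 0 < g := by positivity
  set C₅ : ℝ := (2 ^ |γ| * g) ^ p + C₂ with hC₅
  have hC₅0 : 0 < C₅ := by positivity
  refine ⟨C * C₅ ^ (1 / p), 2 ^ (d + 1) + C, N₀, by positivity, by positivity, fun n hn f hf => ?_⟩
  obtain ⟨hn4, he1, he2, he3⟩ := hN₀ n hn
  set e : ℕ := Nat.log 2 (n ^ (d - 1)) with he
  have hn0 : (0 : ℝ) < n := by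
    have : 0 < n := by omega
    exact_mod_cast this
  have hln : 1 ≤ Real.log n := by
    have e1 : Real.log 4 ≤ Real.log n := Real.log_le_log (by norm_num) (by exact_mod_cast hn4)
    have e2 : Real.log 4 = 2 * Real.log 2 := by
      rw [show (4 : ℝ) = 2 ^ 2 by norm_num, Real.log_pow]; norm_num
    have := Real.log_two_gt_d9
    linarith
  have ha0 : 0 < a := by linarith
  set n₀ : ℕ := n - e with hn₀
  have hn₀1 : 1 ≤ n₀ := by omega
  have hn₀n : n₀ ≤ n := by omega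
  have hn₀2 : n ≤ 2 * n₀ := by omega
  have hn₀0 : (0 : ℝ) < n₀ := by exact_mod_cast hn₀1
  set N : ℝ := (e : ℝ) + 1 with hN
  have hNp : 0 < N := by positivity
  have hNlog : N ≤ g * Real.log n := by
    have q1 : (e : ℝ) * Real.log 2 ≤ (d - 1 : ℕ) * Real.log n := by
      have := Real.log_le_log (by positivity) he2
      rw [Real.log_pow, Real.log_pow] at this; exact this
    have q2 : (e : ℝ) ≤ (d - 1 : ℕ) / Real.log 2 * Real.log n := by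
      rw [div_mul_eq_mul_div, le_div_iff₀ hl2]; exact q1
    rw [hN, hg]; linarith
  set m : ℕ → ℝ := fun l => (2 : ℝ) ^ n / N with hm
  set E : ℝ := C₅ ^ (1 / p) * ((2 : ℝ) ^ (-((a - 1 / r) * n)) * (n : ℝ) ^ γ * Real.log n) with hE
  have hEp : E ^ p = C₅ * ((2 : ℝ) ^ (-((a - 1 / r) * n)) * (n : ℝ) ^ γ * Real.log n) ^ p := by
    rw [hE, Real.mul_rpow (by positivity) (by positivity), ← Real.rpow_mul (by positivity),
      one_div_mul_cancel hp0.ne', Real.rpow_one]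
  have hQ : 0 ≤ ((2 : ℝ) ^ (-((a - 1 / r) * n)) * (n : ℝ) ^ γ * Real.log n) ^ p := by positivity
  have key := hC (ep a γ) (fun l => (ep_pos a γ l).le) (ep_summable ha0 γ) f hf.1 hf.2
    n₀ (n + 1) m E (by omega) (fun l => by simp only [hm]; positivity) (by positivity) ?_ ?_
  · obtain ⟨G, hG1, hG2⟩ := key
    refine ⟨G, hG1.mono ?_, ?_⟩
    · have hcard : ((n + 1 - n₀ : ℕ) : ℝ) = N := by
        have : n + 1 - n₀ = e + 1 := by omega
        rw [this, hN]; push_cast; ring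
      have e1 : ∑ l ∈ Finset.Ico n₀ (n + 1), m l = 2 ^ n := by
        simp only [hm]
        rw [Finset.sum_const, Nat.card_Ico, nsmul_eq_mul, hcard]; field_simp
      have e2 : (2 : ℝ) ^ d * 2 ^ n₀ * (n₀ : ℝ) ^ (d - 1) ≤ 2 ^ (d + 1) * 2 ^ n := by
        have q3 : (n₀ : ℝ) ^ (d - 1) ≤ 2 * (2 : ℝ) ^ e := by
          refine le_trans ?_ he3
          exact pow_le_pow_left₀ hn₀0.le (by exact_mod_cast hn₀n) _
        calc (2 : ℝ) ^ d * 2 ^ n₀ * (n₀ : ℝ) ^ (d - 1) ≤ 2 ^ d * 2 ^ n₀ * (2 * (2 : ℝ) ^ e) :=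
              mul_le_mul_of_nonneg_left q3 (by positivity)
          _ = 2 ^ (d + 1) * (2 ^ n₀ * 2 ^ e) := by ring
          _ = 2 ^ (d + 1) * 2 ^ n := by rw [← pow_add]; congr 2; omega
      rw [e1]
      calc (2 : ℝ) ^ d * 2 ^ n₀ * (n₀ : ℝ) ^ (d - 1) + C * 2 ^ n
          ≤ 2 ^ (d + 1) * 2 ^ n + C * 2 ^ n := add_le_add e2 le_rfl
        _ = _ := by ring
    · refine hG2.trans (le_of_eq ?_)
      unfold Rt
      rw [Real.rpow_one]; congr 1; rw [hE]; ring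
  · have e1 : ∀ l ∈ Finset.Ico n₀ (n + 1), (2 ^ ((l : ℝ) / r) * ep a γ l * (2 ^ l / m l) ^ (1 / r)) ^ p ≤
        ((2 : ℝ) ^ (-((n : ℝ) / r)) * N ^ (1 / r) * (2 ^ |γ| * (n : ℝ) ^ γ)) ^ p := by
      intro l hl
      rw [Finset.mem_Ico] at hl
      have q1 : (2 : ℝ) ^ ((l : ℝ) / r) * ep a γ l * (2 ^ l / m l) ^ (1 / r) =
          (2 : ℝ) ^ (-((n : ℝ) / r)) * N ^ (1 / r) * (max (l : ℝ) 1) ^ γ := by
        unfold ep
        simp only [hm]
        have q2 : (2 : ℝ) ^ l / ((2 : ℝ) ^ n / N) = (2 : ℝ) ^ ((l : ℝ) - n) * N := by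
          rw [Real.rpow_sub (by norm_num), Real.rpow_natCast, Real.rpow_natCast]; field_simp
        rw [q2, Real.mul_rpow (by positivity) hNp.le, ← Real.rpow_mul (by norm_num)]
        calc (2 : ℝ) ^ ((l : ℝ) / r) * ((2 : ℝ) ^ (-(a * l)) * (max (l : ℝ) 1) ^ γ) *
              ((2 : ℝ) ^ (((l : ℝ) - n) * (1 / r)) * N ^ (1 / r)) =
              ((2 : ℝ) ^ ((l : ℝ) / r) * (2 : ℝ) ^ (-(a * l)) * (2 : ℝ) ^ (((l : ℝ) - n) * (1 / r))) *
                N ^ (1 / r) * (max (l : ℝ) 1) ^ γ := by ring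
          _ = _ := by
              rw [← Real.rpow_add (by norm_num), ← Real.rpow_add (by norm_num)]
              congr 3
              rw [h2]; field_simp; ring
      rw [q1]
      apply Real.rpow_le_rpow (by have := bar_pos l; positivity) _ hp0.le
      apply mul_le_mul_of_nonneg_left _ (by positivity)
      have hl1 : (1 : ℝ) ≤ l := by
        have : 1 ≤ l := by omega
        exact_mod_cast this
      rw [max_eq_left hl1]
      exact half_comp γ (by omega) (by omega) (by omega)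
    have hcard : ((n + 1 - n₀ : ℕ) : ℝ) = N := by
      have : n + 1 - n₀ = e + 1 := by omega
      rw [this, hN]; push_cast; ring
    calc ∑ l ∈ Finset.Ico n₀ (n + 1), (2 ^ ((l : ℝ) / r) * ep a γ l * (2 ^ l / m l) ^ (1 / r)) ^ p
        ≤ ∑ _l ∈ Finset.Ico n₀ (n + 1),
            ((2 : ℝ) ^ (-((n : ℝ) / r)) * N ^ (1 / r) * (2 ^ |γ| * (n : ℝ) ^ γ)) ^ p := Finset.sum_le_sum e1
      _ = N * ((2 : ℝ) ^ (-((n : ℝ) / r)) * N ^ (1 / r) * (2 ^ |γ| * (n : ℝ) ^ γ)) ^ p := by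
          rw [Finset.sum_const, Nat.card_Ico, nsmul_eq_mul, hcard]
      _ = ((2 : ℝ) ^ (-((n : ℝ) / r)) * N * (2 ^ |γ| * (n : ℝ) ^ γ)) ^ p := by
          have q5 : N = (N ^ (1 / p)) ^ p := by
            rw [← Real.rpow_mul hNp.le, one_div_mul_cancel hp0.ne', Real.rpow_one]
          nth_rewrite 1 [q5]
          rw [← Real.mul_rpow (by positivity) (by positivity)]
          congr 1
          have q6 : N ^ (1 / p) * N ^ (1 / r) = N := by
            rw [← Real.rpow_add hNp]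
            have : 1 / p + 1 / r = 1 := by
              have := hpr.inv_add_inv_eq_one; simpa [one_div] using this
            rw [this, Real.rpow_one]
          calc N ^ (1 / p) * ((2 : ℝ) ^ (-((n : ℝ) / r)) * N ^ (1 / r) * (2 ^ |γ| * (n : ℝ) ^ γ)) =
              (2 : ℝ) ^ (-((n : ℝ) / r)) * (N ^ (1 / p) * N ^ (1 / r)) * (2 ^ |γ| * (n : ℝ) ^ γ) := by ring
            _ = _ := by rw [q6]
      _ ≤ ((2 ^ |γ| * g) * ((2 : ℝ) ^ (-((a - 1 / r) * n)) * (n : ℝ) ^ γ * Real.log n)) ^ p := by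
          apply Real.rpow_le_rpow (by positivity) _ hp0.le
          have q7 : -((n : ℝ) / r) = -((a - 1 / r) * n) := by rw [h2]; ring
          rw [q7]
          calc (2 : ℝ) ^ (-((a - 1 / r) * n)) * N * (2 ^ |γ| * (n : ℝ) ^ γ)
              ≤ (2 : ℝ) ^ (-((a - 1 / r) * n)) * (g * Real.log n) * (2 ^ |γ| * (n : ℝ) ^ γ) := by
                apply mul_le_mul_of_nonneg_right _ (by positivity)
                exact mul_le_mul_of_nonneg_left hNlog (by positivity)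
            _ = _ := by ring
      _ = (2 ^ |γ| * g) ^ p * ((2 : ℝ) ^ (-((a - 1 / r) * n)) * (n : ℝ) ^ γ * Real.log n) ^ p :=
          Real.mul_rpow (by positivity) (by positivity)
      _ ≤ E ^ p := by
          rw [hEp]; exact mul_le_mul_of_nonneg_right (by linarith) hQ
  · intro L
    refine (hC₂ n L (by omega)).trans ?_
    calc C₂ * ((2 : ℝ) ^ (-((a - 1 / r) * n)) * (n : ℝ) ^ γ) ^ p
        ≤ C₂ * ((2 : ℝ) ^ (-((a - 1 / r) * n)) * (n : ℝ) ^ γ * Real.log n) ^ p := by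
          apply mul_le_mul_of_nonneg_left _ hC₂0.le
          apply Real.rpow_le_rpow (by positivity) _ hp0.le
          exact le_mul_of_one_le_right (by positivity) hln
      _ ≤ E ^ p := by
          rw [hEp]; apply mul_le_mul_of_nonneg_right _ hQ
          have : 0 < (2 ^ |γ| * g) ^ p := by positivity
          linarith

end Pool.Agent.Helper935.MT
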