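import Pool.Agent.Helper935.MT.RegS

open MeasureTheory
open scoped ENNReal ComplexConjugate

namespace Pool.Agent.Helper935.MT

variable {d : ℕ}

/-- existence of families of blocks -/
lemma exists_blocks (hd : 0 < d) (l K : ℕ) (hl : 2 * d ≤ l) (hK : K ≤ (l / d - 1) ^ (d - 1)) :
    ∃ B : Finset (Fin d → ℕ), B.card = K ∧ ∀ s ∈ B, ∑ j, s j = l ∧ ∀ j, 2 ≤ s j := by
  classical
  obtain ⟨e, rfl⟩ : ∃ e, d = e + 1 := ⟨d - 1, by omega⟩
  simp only [Nat.add_sub_cancel] at hK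
  set w := l / (e + 1) with hw
  have hwl : (e + 1) * w ≤ l := Nat.mul_div_le l (e + 1)
  have hw2 : 2 ≤ w := by rw [hw, Nat.le_div_iff_mul_le (by omega)]; exact hl
  set T0 : Finset (Fin e → ℕ) := Fintype.piFinset fun _ : Fin e => Finset.Icc 2 w with hT0
  set φ : (Fin e → ℕ) → (Fin (e + 1) → ℕ) := fun v => Fin.cons (l - ∑ j, v j) v with hφ
  have hinj : Function.Injective φ := by
    intro v v' h
    funext j
    have := congrFun h j.succ
    simpa [hφ] using this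
  have hcard : (T0.image φ).card = (w - 1) ^ e := by
    rw [Finset.card_image_of_injective _ hinj, hT0, Fintype.card_piFinset]
    simp only [Nat.card_Icc, Finset.prod_const, Finset.card_univ, Fintype.card_fin]
    congr 1
  obtain ⟨B, hB1, hB2⟩ := Finset.exists_subset_card_eq (s := T0.image φ) (n := K) (by rw [hcard]; exact hK)
  refine ⟨B, hB2, fun s hs => ?_⟩
  have hs' := hB1 hs
  rw [Finset.mem_image] at hs'
  obtain ⟨v, hv, rfl⟩ := hs'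
  rw [hT0, Fintype.mem_piFinset] at hv
  have hsum : ∑ j, v j ≤ e * w := by
    calc ∑ j, v j ≤ ∑ _j : Fin e, w := Finset.sum_le_sum fun j _ => (Finset.mem_Icc.1 (hv j)).2
      _ = e * w := by simp
  have hexp : (e + 1) * w = e * w + w := by ring
  constructor
  · rw [Fin.sum_univ_succ]
    simp only [hφ, Fin.cons_zero, Fin.cons_succ]
    omega
  · intro j
    refine Fin.cases ?_ ?_ j
    · simp only [hφ, Fin.cons_zero]; omega
    · intro i; simp only [hφ, Fin.cons_succ]; exact (Finset.mem_Icc.1 (hv i)).1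

lemma blocks_room (hd : 0 < d) {n l : ℕ} (hn : 4 * d ≤ n) (hl : n ≤ 2 * l) :
    2 * d ≤ l ∧ n / (4 * d) ≤ l / d - 1 := by
  refine ⟨by omega, ?_⟩
  have h1 : n / (4 * d) * (4 * d) ≤ n := Nat.div_mul_le_self n (4 * d)
  have h2 : (n / (4 * d) + 1) * d ≤ l := by
    have h3 : n / (4 * d) * (4 * d) = 4 * (n / (4 * d) * d) := by ring
    have h4 : (n / (4 * d) + 1) * d = n / (4 * d) * d + d := by ring
    omega
  have h3 : n / (4 * d) + 1 ≤ l / d := by rw [Nat.le_div_iff_mul_le hd]; exact h2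
  omega

lemma exists_shift {c : ℝ} (hc : 0 < c) : ∃ t : ℕ, 1 ≤ c * 2 ^ t := by
  obtain ⟨t, ht⟩ := pow_unbounded_of_one_lt (1 / c) (by norm_num : (1 : ℝ) < 2)
  refine ⟨t, ?_⟩
  rw [div_lt_iff₀ hc] at ht
  linarith

/-- single layer lower bound -/
lemma lo_single {p r : ℝ} (hpr : p.HolderConjugate r) (hr : 2 ≤ r) (hd : 0 < d) (a γ : ℝ) :
    ∃ (c : ℝ) (N₀ : ℕ), 0 < c ∧ ∀ n : ℕ, N₀ ≤ n → ∀ e : ℕ, 4 * e ≤ n → 2 ^ e ≤ (n / (4 * d)) ^ (d - 1) →
    ∃ f : Torus d → ℂ, BC f ∧ InW a γ f ∧ ∀ G : Torus d → ℂ, Rep (2 ^ n) G →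
      c * ((2 : ℝ) ^ ((2 / r - a) * ((n : ℝ) - e)) * (2 : ℝ) ^ (-((n : ℝ) / r)) * (n : ℝ) ^ γ) ≤
        Np p (fun x => f x - G x) := by
  classical
  have hr0 : 0 < r := by linarith
  obtain ⟨c, hc0, hc⟩ := lowA hpr hr d
  obtain ⟨t, ht⟩ := exists_shift hc0
  refine ⟨c * ((2 : ℝ) ^ ((2 / r - a) * t) * (2 : ℝ) ^ (-((t : ℝ) / r)) * (2 ^ |γ|)⁻¹), max (4 * d) (t + 1), by positivity,
    fun n hn e he heK => ?_⟩
  have hn1 : 4 * d ≤ n := (le_max_left _ _).trans hn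
  have hn2 : t + 1 ≤ n := (le_max_right _ _).trans hn
  set l : ℕ := n + t - e with hl
  have hln : n ≤ 2 * l := by omega
  have hln2 : l ≤ 2 * n := by omega
  obtain ⟨hr1, hr2⟩ := blocks_room hd hn1 hln
  obtain ⟨B, hB1, hB2⟩ := exists_blocks hd l (2 ^ e) hr1 (heK.trans (Nat.pow_le_pow_left hr2 _))
  have hcard : ((l + 1 - l : ℕ) : ℝ) = 1 := by
    have : l + 1 - l = 1 := by omega
    rw [this]; norm_num
  have hM : ((2 ^ e : ℕ) : ℝ) * 2 ^ l = 2 ^ (n + t) := by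
    push_cast; rw [← pow_add]; congr 1; omega
  have hlr : (l : ℝ) = n + t - e := by rw [hl, Nat.cast_sub (by omega)]; push_cast; ring
  obtain ⟨f, hf1, hf2, hf3⟩ := hc l l (fun _ => B) (2 ^ (n + t)) ((2 : ℝ) ^ (2 * (l : ℝ) / r) * ep a γ l) (2 ^ n)
    (ep a γ) le_rfl (by positivity) (fun l' hl' s hs => by
      rw [Finset.Icc_self, Finset.mem_singleton] at hl'; subst hl'; exact hB2 s hs)
    (fun l' hl' => by
      rw [Finset.Icc_self, Finset.mem_singleton] at hl'; subst hl'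
      rw [hB1, hM]
      exact ⟨le_rfl, by have : (0:ℝ) < 2 ^ (n + t) := by positivity
                        linarith⟩)
    (fun l' => (ep_pos a γ l').le) (by have := ep_pos a γ l; positivity)
    (fun l' hl' => by rw [Finset.Icc_self, Finset.mem_singleton] at hl'; subst hl'; exact le_rfl)
    (by
      rw [hcard, one_mul, pow_add]
      calc (2 : ℝ) ^ n = 1 * 2 ^ n := (one_mul _).symm
        _ ≤ (c * 2 ^ t) * 2 ^ n := mul_le_mul_of_nonneg_right ht (by positivity)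
        _ = _ := by ring)
  refine ⟨f, hf1, ⟨hf1.integrable, hf2⟩, fun G hG => ?_⟩
  refine le_trans ?_ (hf3 G hG)
  rw [hcard, one_mul, mul_one]
  have hn0 : (0 : ℝ) < n := by
    have : 0 < n := by omega
    exact_mod_cast this
  have hl1 : 1 ≤ l := by omega
  have hl1' : (1 : ℝ) ≤ l := by exact_mod_cast hl1
  have hγ : (2 ^ |γ|)⁻¹ * (n : ℝ) ^ γ ≤ (max (l : ℝ) 1) ^ γ := by
    rw [max_eq_left hl1', inv_mul_le_iff₀ (by positivity)]
    apply rpow_comp (by norm_num) hn0 (by linarith)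
    · exact_mod_cast hln
    · exact_mod_cast hln2
  have e1 : c * ((2 : ℝ) ^ (2 * (l : ℝ) / r) * ep a γ l) * ((2 : ℝ) ^ (n + t)) ^ (-(1 / r)) =
      c * ((2 : ℝ) ^ ((2 / r - a) * t) * (2 : ℝ) ^ (-((t : ℝ) / r)) * (2 : ℝ) ^ ((2 / r - a) * ((n : ℝ) - e)) *
        (2 : ℝ) ^ (-((n : ℝ) / r))) * (max (l : ℝ) 1) ^ γ := by
    unfold ep
    rw [two_pow_rpow (n + t), ← Real.rpow_mul (by norm_num), ← Real.rpow_add (by norm_num),
      ← Real.rpow_add (by norm_num), ← Real.rpow_add (by norm_num)]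
    calc c * ((2 : ℝ) ^ (2 * (l : ℝ) / r) * ((2 : ℝ) ^ (-(a * l)) * (max (l : ℝ) 1) ^ γ)) *
          (2 : ℝ) ^ (((n + t : ℕ) : ℝ) * -(1 / r)) =
        c * ((2 : ℝ) ^ (2 * (l : ℝ) / r) * (2 : ℝ) ^ (-(a * l)) * (2 : ℝ) ^ (((n + t : ℕ) : ℝ) * -(1 / r))) *
          (max (l : ℝ) 1) ^ γ := by ring
      _ = _ := by
          rw [← Real.rpow_add (by norm_num), ← Real.rpow_add (by norm_num)]
          congr 3
          rw [hlr]; push_cast; field_simp; ring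
  rw [e1]
  calc c * ((2 : ℝ) ^ ((2 / r - a) * t) * (2 : ℝ) ^ (-((t : ℝ) / r)) * (2 ^ |γ|)⁻¹) *
        ((2 : ℝ) ^ ((2 / r - a) * ((n : ℝ) - e)) * (2 : ℝ) ^ (-((n : ℝ) / r)) * (n : ℝ) ^ γ)
      = c * ((2 : ℝ) ^ ((2 / r - a) * t) * (2 : ℝ) ^ (-((t : ℝ) / r)) * (2 : ℝ) ^ ((2 / r - a) * ((n : ℝ) - e)) *
        (2 : ℝ) ^ (-((n : ℝ) / r))) * ((2 ^ |γ|)⁻¹ * (n : ℝ) ^ γ) := by ring
    _ ≤ _ := mul_le_mul_of_nonneg_left hγ (by positivity)

/-- lower estimate, regime `a < 2 β`, `p ≤ 2` -/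
theorem lo3 {p r : ℝ} (hpr : p.HolderConjugate r) (hr : 2 ≤ r) (hd : 0 < d) (a γ : ℝ) :
    LoS d p a γ (a - 1 / r) γ 0 := by
  have hr0 : 0 < r := by linarith
  obtain ⟨c, N₀, hc0, hc⟩ := lo_single hpr hr hd a γ
  refine ⟨c, max N₀ (4 * d), hc0, fun n hn => ?_⟩
  have hn1 : 4 * d ≤ n := (le_max_right _ _).trans hn
  obtain ⟨f, hf1, hf2, hf3⟩ := hc n ((le_max_left _ _).trans hn) 0 (by omega) (by
    have : 1 ≤ n / (4 * d) := by rw [Nat.le_div_iff_mul_le (by omega)]; omega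
    rw [pow_zero]; exact Nat.one_le_pow _ _ this)
  refine ⟨f, hf1, hf2, fun G hG => ?_⟩
  refine le_trans (le_of_eq ?_) (hf3 G hG)
  rw [Rt_zero, ← Real.rpow_add (by norm_num)]
  congr 3
  push_cast; field_simp; ring

/-- the number of blocks used -/
lemma width (hd : 0 < d) : ∃ N₀ : ℕ, ∀ n : ℕ, N₀ ≤ n → ∃ q : ℕ, 4 * d ≤ n ∧ 4 * ((d - 1) * q) ≤ n ∧
    2 ^ ((d - 1) * q) ≤ (n / (4 * d)) ^ (d - 1) ∧ n ≤ (8 * d) * 2 ^ q := by
  obtain ⟨N₀, hN₀⟩ := cutoff d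
  refine ⟨max N₀ (4 * d), fun n hn => ?_⟩
  have hn1 : 4 * d ≤ n := (le_max_right _ _).trans hn
  obtain ⟨_, h1, _, _⟩ := hN₀ n ((le_max_left _ _).trans hn)
  set v := n / (4 * d) with hv
  have hv1 : 1 ≤ v := by rw [hv, Nat.le_div_iff_mul_le (by omega)]; omega
  have hvn : v ≤ n := Nat.div_le_self _ _
  have h2 : 2 ^ Nat.log 2 v ≤ v := Nat.pow_log_le_self 2 (by omega)
  have h3 : v < 2 ^ (Nat.log 2 v + 1) := Nat.lt_pow_succ_log_self (by norm_num) _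
  have h4 : 2 ^ ((d - 1) * Nat.log 2 v) ≤ v ^ (d - 1) := by
    rw [mul_comm, pow_mul]; exact Nat.pow_le_pow_left h2 _
  refine ⟨Nat.log 2 v, hn1, ?_, h4, ?_⟩
  · have h5 : (d - 1) * Nat.log 2 v ≤ Nat.log 2 (n ^ (d - 1)) := by
      apply Nat.le_log_of_pow_le (by norm_num)
      exact h4.trans (Nat.pow_le_pow_left hvn _)
    omega
  · have h6 : n < (v + 1) * (4 * d) := by
      rw [← Nat.div_lt_iff_lt_mul (by omega : 0 < 4 * d)]; omega
    have h7 : v + 1 ≤ 2 * 2 ^ Nat.log 2 v := by rw [pow_succ] at h3; omega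
    calc n ≤ (v + 1) * (4 * d) := h6.le
      _ ≤ (2 * 2 ^ Nat.log 2 v) * (4 * d) := Nat.mul_le_mul_right _ h7
      _ = _ := by ring

/-- lower estimate, regime `a > 2 β`, `p ≤ 2` -/
theorem lo1 {p r : ℝ} (hpr : p.HolderConjugate r) (hr : 2 ≤ r) (hd : 0 < d) {a : ℝ} (γ : ℝ)
    (h2 : 2 / r < a) : LoS d p a γ (a - 1 / r) (γ + (d - 1 : ℕ) * (a - 2 / r)) 0 := by
  have hr0 : 0 < r := by linarith
  obtain ⟨c, N₀, hc0, hc⟩ := lo_single hpr hr hd a γ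
  obtain ⟨N₁, hN₁⟩ := width hd
  set δ : ℝ := a - 2 / r with hδ
  have hδ0 : 0 < δ := by linarith
  set Q : ℝ := (((8 * d : ℕ) : ℝ) ^ (d - 1)) ^ δ with hQ
  have hd8 : (0 : ℝ) < ((8 * d : ℕ) : ℝ) := by
    have : 0 < 8 * d := by omega
    exact_mod_cast this
  have hQ0 : 0 < Q := by positivity
  refine ⟨c * Q⁻¹, max N₀ N₁, by positivity, fun n hn => ?_⟩
  obtain ⟨q, hq1, hq2, hq3, hq4⟩ := hN₁ n ((le_max_right _ _).trans hn)
  set e := (d - 1) * q with he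
  obtain ⟨f, hf1, hf2, hf3⟩ := hc n ((le_max_left _ _).trans hn) e hq2 hq3
  refine ⟨f, hf1, hf2, fun G hG => ?_⟩
  refine le_trans ?_ (hf3 G hG)
  have hn0 : (0 : ℝ) < n := by
    have : 0 < n := by omega
    exact_mod_cast this
  have e1 : (n : ℝ) ^ (d - 1) ≤ ((8 * d : ℕ) : ℝ) ^ (d - 1) * (2 : ℝ) ^ e := by
    have h5 : (n : ℝ) ≤ ((8 * d : ℕ) : ℝ) * 2 ^ q := by exact_mod_cast hq4
    calc (n : ℝ) ^ (d - 1) ≤ (((8 * d : ℕ) : ℝ) * 2 ^ q) ^ (d - 1) := pow_le_pow_left₀ hn0.le h5 _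
      _ = _ := by rw [mul_pow, ← pow_mul, he, mul_comm q]
  have e2 : (n : ℝ) ^ ((d - 1 : ℕ) * δ) ≤ Q * (2 : ℝ) ^ (δ * e) := by
    have h6 : (n : ℝ) ^ ((d - 1 : ℕ) * δ) = ((n : ℝ) ^ (d - 1)) ^ δ := by
      rw [← Real.rpow_natCast, ← Real.rpow_mul hn0.le]
    have h7 : (2 : ℝ) ^ (δ * e) = ((2 : ℝ) ^ e) ^ δ := by
      rw [two_pow_rpow, ← Real.rpow_mul (by norm_num)]; congr 1; ring
    rw [h6, h7, hQ, ← Real.mul_rpow (by positivity) (by positivity)]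
    exact Real.rpow_le_rpow (by positivity) e1 hδ0.le
  rw [Rt_zero, Real.rpow_add hn0]
  calc c * Q⁻¹ * ((2 : ℝ) ^ (-((a - 1 / r) * n)) * ((n : ℝ) ^ γ * (n : ℝ) ^ ((d - 1 : ℕ) * δ)))
      = (c * ((2 : ℝ) ^ (-((a - 1 / r) * n)) * (n : ℝ) ^ γ)) * (Q⁻¹ * (n : ℝ) ^ ((d - 1 : ℕ) * δ)) := by ring
    _ ≤ (c * ((2 : ℝ) ^ (-((a - 1 / r) * n)) * (n : ℝ) ^ γ)) * (2 : ℝ) ^ (δ * e) := by
        apply mul_le_mul_of_nonneg_left _ (by positivity)
        rw [inv_mul_le_iff₀ hQ0]; exact e2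
    _ = c * (((2 : ℝ) ^ (-((a - 1 / r) * n)) * (2 : ℝ) ^ (δ * e)) * (n : ℝ) ^ γ) := by ring
    _ = _ := by
        rw [← Real.rpow_add (by norm_num), ← Real.rpow_add (by norm_num)]
        congr 3
        rw [hδ]; field_simp; ring

/-- lower estimate, regime `a = 2 β`, `p ≤ 2` -/
theorem lo2 {p r : ℝ} (hpr : p.HolderConjugate r) (hr : 2 ≤ r) (hd : 2 ≤ d) {a : ℝ} (γ : ℝ)
    (h2 : a = 2 / r) : LoS d p a γ (a - 1 / r) γ 1 := by
  classical
  have hr0 : 0 < r := by linarith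
  obtain ⟨c, hc0, hc⟩ := lowA hpr hr d
  obtain ⟨t, ht⟩ := exists_shift hc0
  obtain ⟨N₁, hN₁⟩ := width (by omega : 0 < d)
  obtain ⟨N₂, hN₂⟩ := Filter.eventually_atTop.1
    ((Real.tendsto_log_atTop.comp tendsto_natCast_atTop_atTop).eventually_ge_atTop
      (2 * Real.log ((4 * d : ℕ) : ℝ) + 1))
  refine ⟨c * (2 ^ |γ|)⁻¹ * (1 / 2) * (2 : ℝ) ^ (-(((t : ℝ) + 1) / r)), max (max N₁ N₂) (t + 1), by positivity,
    fun n hn => ?_⟩
  obtain ⟨q, hq1, hq2, hq3, hq4⟩ := hN₁ n ((le_max_left _ _).trans ((le_max_left _ _).trans hn))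
  have hlog := hN₂ n ((le_max_right _ _).trans ((le_max_left _ _).trans hn))
  have hn2 : t + 1 ≤ n := (le_max_right _ _).trans hn
  set e := (d - 1) * q with he
  have hn0 : (0 : ℝ) < n := by
    have : 0 < n := by omega
    exact_mod_cast this
  set g : ℕ := Nat.log 2 (e + 1) with hg
  have hg1 : 2 ^ g ≤ e + 1 := Nat.pow_log_le_self 2 (by omega)
  have hg2 : e + 1 < 2 ^ (g + 1) := Nat.lt_pow_succ_log_self (by norm_num) _
  have hge : g ≤ e := by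
    have : g < 2 ^ g := Nat.lt_two_pow_self
    omega
  set n' : ℕ := n + t - g with hn'
  set l₀ : ℕ := n' - e with hl₀
  have hrange : ∀ l ∈ Finset.Icc l₀ n', n ≤ 2 * l ∧ l ≤ 2 * n ∧ n' - l ≤ e := by
    intro l hl; rw [Finset.mem_Icc] at hl
    refine ⟨by omega, by omega, by omega⟩
  have hBex : ∀ l, ∃ B : Finset (Fin d → ℕ), l ∈ Finset.Icc l₀ n' →
      (B.card = 2 ^ (n' - l) ∧ ∀ s ∈ B, ∑ j, s j = l ∧ ∀ j, 2 ≤ s j) := by
    intro l
    by_cases hl : l ∈ Finset.Icc l₀ n'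
    · obtain ⟨r1, r2, r3⟩ := hrange l hl
      obtain ⟨s1, s2⟩ := blocks_room (by omega : 0 < d) hq1 r1
      have h5 : 2 ^ (n' - l) ≤ (l / d - 1) ^ (d - 1) :=
        (Nat.pow_le_pow_right (by norm_num) r3).trans (hq3.trans (Nat.pow_le_pow_left s2 _))
      obtain ⟨B, hB1, hB2⟩ := exists_blocks (by omega : 0 < d) l (2 ^ (n' - l)) s1 h5
      exact ⟨B, fun _ => ⟨hB1, hB2⟩⟩
    · exact ⟨∅, fun h => absurd h hl⟩
  choose B hB using hBex
  have hcard : ((n' + 1 - l₀ : ℕ) : ℝ) = ((e + 1 : ℕ) : ℝ) := by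
    have : n' + 1 - l₀ = e + 1 := by omega
    rw [this]
  have hpow : (2 : ℝ) ^ g * 2 ^ n' = 2 ^ (n + t) := by rw [← pow_add]; congr 1; omega
  have hm1 : (2 : ℝ) ^ (n + t) ≤ ((e + 1 : ℕ) : ℝ) * 2 ^ n' := by
    rw [← hpow]; apply mul_le_mul_of_nonneg_right _ (by positivity); exact_mod_cast hg1
  have hm2 : ((e + 1 : ℕ) : ℝ) * 2 ^ n' ≤ 2 ^ (n + t + 1) := by
    have h6 : ((e + 1 : ℕ) : ℝ) ≤ 2 * 2 ^ g := by
      have : e + 1 ≤ 2 * 2 ^ g := by rw [pow_succ] at hg2; omega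
      exact_mod_cast this
    calc ((e + 1 : ℕ) : ℝ) * 2 ^ n' ≤ (2 * 2 ^ g) * 2 ^ n' := mul_le_mul_of_nonneg_right h6 (by positivity)
      _ = 2 * (2 ^ g * 2 ^ n') := by ring
      _ = 2 ^ (n + t + 1) := by rw [hpow, pow_succ]; ring
  obtain ⟨f, hf1, hf2, hf3⟩ := hc l₀ n' B (2 ^ n') ((2 ^ |γ|)⁻¹ * (n : ℝ) ^ γ) (2 ^ n)
    (ep a γ) (by omega) (by positivity) (fun l hl s hs => (hB l hl).2 s hs)
    (fun l hl => by
      rw [(hB l hl).1]
      have h7 : ((2 ^ (n' - l) : ℕ) : ℝ) * 2 ^ l = 2 ^ n' := by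
        rw [Finset.mem_Icc] at hl
        push_cast; rw [← pow_add]; congr 1; omega
      rw [h7]
      exact ⟨le_rfl, by have : (0:ℝ) < 2 ^ n' := by positivity
                        linarith⟩)
    (fun l => (ep_pos a γ l).le) (by positivity)
    (fun l hl => by
      obtain ⟨r1, r2, r3⟩ := hrange l hl
      have hl1 : 1 ≤ l := by omega
      have hl1' : (1 : ℝ) ≤ l := by exact_mod_cast hl1
      have h8 : (2 : ℝ) ^ (2 * (l : ℝ) / r) * ep a γ l = (l : ℝ) ^ γ := by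
        unfold ep
        rw [max_eq_left hl1', ← mul_assoc, ← Real.rpow_add (by norm_num)]
        have : 2 * (l : ℝ) / r + -(a * l) = 0 := by rw [h2]; ring
        rw [this, Real.rpow_zero, one_mul]
      rw [h8, inv_mul_le_iff₀ (by positivity)]
      apply rpow_comp (by norm_num) hn0 (by linarith)
      · exact_mod_cast r1
      · exact_mod_cast r2)
    (by
      rw [hcard]
      calc (2 : ℝ) ^ n = 1 * 2 ^ n := (one_mul _).symm
        _ ≤ (c * 2 ^ t) * 2 ^ n := mul_le_mul_of_nonneg_right ht (by positivity)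
        _ = c * 2 ^ (n + t) := by rw [pow_add]; ring
        _ ≤ _ := mul_le_mul_of_nonneg_left hm1 hc0.le)
  refine ⟨f, hf1, ⟨hf1.integrable, hf2⟩, fun G hG => ?_⟩
  refine le_trans ?_ (hf3 G hG)
  rw [hcard]
  -- number of layers
  have hNl : 1 / 2 * Real.log n ≤ ((e + 1 : ℕ) : ℝ) := by
    have h9 : (n : ℝ) ≤ ((4 * d : ℕ) : ℝ) * 2 ^ (q + 1) := by
      have : n ≤ (4 * d) * 2 ^ (q + 1) := by rw [pow_succ]; calc n ≤ 8 * d * 2 ^ q := hq4
                                                             _ = _ := by ring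
      exact_mod_cast this
    have h10 : Real.log n ≤ Real.log ((4 * d : ℕ) : ℝ) + (q + 1) * Real.log 2 := by
      have hd4 : (0 : ℝ) < ((4 * d : ℕ) : ℝ) := by
        have : 0 < 4 * d := by omega
        exact_mod_cast this
      have := Real.log_le_log hn0 h9
      rw [Real.log_mul hd4.ne' (by positivity), Real.log_pow] at this
      push_cast at this ⊢; exact this
    have h11 : Real.log 2 ≤ 1 := by
      have := Real.log_two_lt_d9; linarith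
    have h12 : 2 * Real.log ((4 * d : ℕ) : ℝ) + 1 ≤ Real.log n := hlog
    have h13 : (q : ℝ) + 1 ≤ ((e + 1 : ℕ) : ℝ) := by
      have : q + 1 ≤ e + 1 := by
        have : 1 * q ≤ (d - 1) * q := Nat.mul_le_mul_right _ (by omega)
        omega
      exact_mod_cast this
    have h14 : ((q : ℝ) + 1) * Real.log 2 ≤ (q : ℝ) + 1 := mul_le_of_le_one_right (by positivity) h11
    linarith
  have hlogn : 0 ≤ Real.log n := by
    apply Real.log_nonneg
    have : 1 ≤ n := by omega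
    exact_mod_cast this
  have hX : (2 : ℝ) ^ (-(((t : ℝ) + 1) / r)) * (2 : ℝ) ^ (-((n : ℝ) / r)) ≤ (((e + 1 : ℕ) : ℝ) * 2 ^ n') ^ (-(1 / r)) := by
    have h15 : (2 : ℝ) ^ (-(((t : ℝ) + 1) / r)) * (2 : ℝ) ^ (-((n : ℝ) / r)) = ((2 : ℝ) ^ (n + t + 1)) ^ (-(1 / r)) := by
      rw [two_pow_rpow (n + t + 1), ← Real.rpow_mul (by norm_num), ← Real.rpow_add (by norm_num)]
      congr 1; push_cast; field_simp; ring
    rw [h15]
    apply Real.rpow_le_rpow_of_nonpos (by positivity) hm2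
    have : 0 < 1 / r := by positivity
    linarith
  unfold Rt
  rw [Real.rpow_one]
  have e3 : -((a - 1 / r) * n) = -((n : ℝ) / r) := by rw [h2]; ring
  rw [e3]
  calc c * (2 ^ |γ|)⁻¹ * (1 / 2) * (2 : ℝ) ^ (-(((t : ℝ) + 1) / r)) *
        ((2 : ℝ) ^ (-((n : ℝ) / r)) * (n : ℝ) ^ γ * Real.log n)
      = c * ((2 ^ |γ|)⁻¹ * (n : ℝ) ^ γ) * ((1 / 2 * Real.log n) *
        ((2 : ℝ) ^ (-(((t : ℝ) + 1) / r)) * (2 : ℝ) ^ (-((n : ℝ) / r)))) := by ring
    _ ≤ c * ((2 ^ |γ|)⁻¹ * (n : ℝ) ^ γ) * (((e + 1 : ℕ) : ℝ) * (((e + 1 : ℕ) : ℝ) * 2 ^ n') ^ (-(1 / r))) := by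
        apply mul_le_mul_of_nonneg_left _ (by positivity)
        exact mul_le_mul hNl hX (by positivity) (by positivity)
    _ = _ := by ring

end Pool.Agent.Helper935.MT
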