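import Pool.Agent.Helper935.MT.RegT

open MeasureTheory
open scoped ENNReal ComplexConjugate

namespace Pool.Agent.Helper935.MT

variable {d : ℕ}

/-- upper estimate, regime `a > 1`, `p ≥ 2` -/
theorem upA {p : ℝ} (hp : 2 ≤ p) (hd : 0 < d) {a : ℝ} (γ : ℝ) (h1 : 1 < a) :
    UpS d p a γ (a - 1 / 2) (γ + (d - 1 : ℕ) * (a - 1)) 0 := by
  have hp0 : 0 < p := by linarith
  have hip : 0 < 1 / p := by positivity
  have hip2 : 1 / p ≤ 1 / 2 := by rw [div_le_div_iff₀ hp0 (by norm_num)]; linarith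
  obtain ⟨C, hC0, hC⟩ := upper_large hp hd
  obtain ⟨N₀, hN₀⟩ := cutoff d
  obtain ⟨C₁, hC₁0, hC₁⟩ := sum_down (a - 1) γ (by linarith)
  obtain ⟨C₂, hC₂0, hC₂⟩ := sum_down (a - (1 - 1 / p)) γ (by linarith)
  obtain ⟨D', hD'⟩ := exists_nat_ge ((a - 1 / 2) / (a - (1 - 1 / p)))
  set D : ℕ := D' + 1 with hD
  have hDr : (a - 1 / 2) ≤ (a - (1 - 1 / p)) * D := by
    have h3 : 0 < a - (1 - 1 / p) := by linarith
    have h4 : (a - 1 / 2) / (a - (1 - 1 / p)) ≤ D := by rw [hD]; push_cast; linarith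
    rw [div_le_iff₀ h3] at h4; linarith
  have hD1 : 1 ≤ D := by omega
  have hD0 : (0 : ℝ) < D := by exact_mod_cast hD1
  refine ⟨C * (C₁ * 2 ^ |γ| + C₂ * (D : ℝ) ^ γ), 2 ^ (d + 1) + 1, N₀, by positivity, by positivity,
    fun n hn f hf => ?_⟩
  obtain ⟨hn4, he1, he2, he3⟩ := hN₀ n hn
  set e : ℕ := Nat.log 2 (n ^ (d - 1)) with he
  have hn0 : (0 : ℝ) < n := by
    have : 0 < n := by omega
    exact_mod_cast this
  have hn1 : (1 : ℝ) ≤ n := by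
    have : 1 ≤ n := by omega
    exact_mod_cast this
  set n₀ : ℕ := n - e with hn₀
  have hn₀1 : 1 ≤ n₀ := by omega
  have hn₀n : n₀ ≤ n := by omega
  have hn₀2 : n ≤ 2 * n₀ := by omega
  have hn₀r : (n₀ : ℝ) = n - e := by rw [hn₀, Nat.cast_sub (by omega)]
  have hn₀0 : (0 : ℝ) < n₀ := by exact_mod_cast hn₀1
  set Bx : ℝ := γ + (d - 1 : ℕ) * (a - 1) with hBx
  set T : ℝ := (2 : ℝ) ^ (-((a - 1 / 2) * n)) * (n : ℝ) ^ Bx with hT
  have hT0 : 0 < T := by positivity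
  have hnDn : n ≤ D * n := Nat.le_mul_of_pos_left n hD1
  set E₁ : ℝ := C₁ * 2 ^ |γ| * ((2 : ℝ) ^ (-((a - 1) * n)) * (n : ℝ) ^ Bx) with hE₁
  set E₂ : ℝ := C₂ * (D : ℝ) ^ γ * T with hE₂
  obtain ⟨G, hG1, hG2⟩ := hC (ep a γ) (fun l => (ep_pos a γ l).le) (ep_summable (by linarith) γ) f hf.1 hf.2
    n₀ (D * n) (2 ^ n) E₁ E₂ (by omega) (by positivity) (by positivity)
    (by
      have e1 : ∀ l ∈ Finset.Ico n₀ (D * n), 2 ^ l * ep a γ l = (2 : ℝ) ^ (-((a - 1) * l)) * (max (l : ℝ) 1) ^ γ := by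
        intro l _
        unfold ep
        rw [two_pow_rpow l, ← mul_assoc, ← Real.rpow_add (by norm_num)]; congr 2; ring
      rw [Finset.sum_congr rfl e1]
      refine (hC₁ n₀ _ hn₀1 (fun l hl => by rw [Finset.mem_Ico] at hl; omega)).trans ?_
      have q1 : (n₀ : ℝ) ^ γ ≤ 2 ^ |γ| * (n : ℝ) ^ γ := half_comp γ (by omega) hn₀2 hn₀n
      have q2 : (2 : ℝ) ^ ((a - 1) * e) ≤ (n : ℝ) ^ ((d - 1 : ℕ) * (a - 1)) := by
        have e1 : (2 : ℝ) ^ ((a - 1) * e) = ((2 : ℝ) ^ e) ^ (a - 1) := by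
          rw [two_pow_rpow, ← Real.rpow_mul (by norm_num)]; congr 1; ring
        have e2 : (n : ℝ) ^ ((d - 1 : ℕ) * (a - 1)) = ((n : ℝ) ^ (d - 1)) ^ (a - 1) := by
          rw [← Real.rpow_natCast, ← Real.rpow_mul hn0.le]
        rw [e1, e2]
        exact Real.rpow_le_rpow (by positivity) he2 (by linarith)
      have q3 : (2 : ℝ) ^ (-((a - 1) * n₀)) = (2 : ℝ) ^ (-((a - 1) * n)) * (2 : ℝ) ^ ((a - 1) * e) := by
        rw [← Real.rpow_add (by norm_num), hn₀r]; congr 1; ring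
      rw [q3]
      calc C₁ * ((2 : ℝ) ^ (-((a - 1) * n)) * (2 : ℝ) ^ ((a - 1) * e) * (n₀ : ℝ) ^ γ)
          ≤ C₁ * ((2 : ℝ) ^ (-((a - 1) * n)) * (n : ℝ) ^ ((d - 1 : ℕ) * (a - 1)) * (2 ^ |γ| * (n : ℝ) ^ γ)) := by
            apply mul_le_mul_of_nonneg_left _ hC₁0.le
            apply mul_le_mul _ q1 (by positivity) (by positivity)
            exact mul_le_mul_of_nonneg_left q2 (by positivity)
        _ = C₁ * 2 ^ |γ| * ((2 : ℝ) ^ (-((a - 1) * n)) * ((n : ℝ) ^ γ * (n : ℝ) ^ ((d - 1 : ℕ) * (a - 1)))) := by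
            ring
        _ = E₁ := by rw [← Real.rpow_add hn0])
    (by
      intro L
      have e1 : ∀ l ∈ Finset.Ico (D * n) L, (2 : ℝ) ^ ((1 - 1 / p) * l) * ep a γ l =
          (2 : ℝ) ^ (-((a - (1 - 1 / p)) * l)) * (max (l : ℝ) 1) ^ γ := by
        intro l _
        unfold ep
        rw [← mul_assoc, ← Real.rpow_add (by norm_num)]; congr 2; ring
      rw [Finset.sum_congr rfl e1]
      refine (hC₂ (D * n) _ (by omega) (fun l hl => by rw [Finset.mem_Ico] at hl; omega)).trans ?_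
      push_cast
      rw [Real.mul_rpow hD0.le hn0.le]
      calc C₂ * ((2 : ℝ) ^ (-((a - (1 - 1 / p)) * (D * n))) * ((D : ℝ) ^ γ * (n : ℝ) ^ γ))
          ≤ C₂ * ((2 : ℝ) ^ (-((a - 1 / 2) * n)) * ((D : ℝ) ^ γ * (n : ℝ) ^ Bx)) := by
            apply mul_le_mul_of_nonneg_left _ hC₂0.le
            apply mul_le_mul
            · apply Real.rpow_le_rpow_of_exponent_le (by norm_num)
              have := mul_le_mul_of_nonneg_right hDr hn0.le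
              nlinarith
            · apply mul_le_mul_of_nonneg_left _ (by positivity)
              apply Real.rpow_le_rpow_of_exponent_le hn1
              have : 0 ≤ ((d - 1 : ℕ) : ℝ) * (a - 1) := mul_nonneg (Nat.cast_nonneg _) (by linarith)
              linarith
            · positivity
            · positivity
        _ = E₂ := by rw [hE₂, hT]; ring)
  refine ⟨G, hG1.mono ?_, ?_⟩
  · have e2 : (2 : ℝ) ^ d * 2 ^ n₀ * (n₀ : ℝ) ^ (d - 1) ≤ 2 ^ (d + 1) * 2 ^ n := by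
      have q3 : (n₀ : ℝ) ^ (d - 1) ≤ 2 * (2 : ℝ) ^ e := by
        refine le_trans ?_ he3
        exact pow_le_pow_left₀ hn₀0.le (by exact_mod_cast hn₀n) _
      calc (2 : ℝ) ^ d * 2 ^ n₀ * (n₀ : ℝ) ^ (d - 1) ≤ 2 ^ d * 2 ^ n₀ * (2 * (2 : ℝ) ^ e) :=
            mul_le_mul_of_nonneg_left q3 (by positivity)
        _ = 2 ^ (d + 1) * (2 ^ n₀ * 2 ^ e) := by ring
        _ = 2 ^ (d + 1) * 2 ^ n := by rw [← pow_add]; congr 2; omega
    push_cast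
    linarith
  · refine hG2.trans (ENNReal.ofReal_le_ofReal ?_)
    rw [Rt_zero]
    have e3 : ((2 ^ n : ℕ) : ℝ) ^ (-(1 / 2 : ℝ)) = (2 : ℝ) ^ (-((n : ℝ) / 2)) := by
      push_cast; rw [two_pow_rpow, ← Real.rpow_mul (by norm_num)]; congr 1; ring
    have e4 : (2 : ℝ) ^ (-((a - 1) * n)) * (2 : ℝ) ^ (-((n : ℝ) / 2)) = (2 : ℝ) ^ (-((a - 1 / 2) * n)) := by
      rw [← Real.rpow_add (by norm_num)]; congr 1; ring
    rw [e3]
    apply le_of_eq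
    calc C * (E₁ * (2 : ℝ) ^ (-((n : ℝ) / 2)) + E₂)
        = C * (C₁ * 2 ^ |γ| * (((2 : ℝ) ^ (-((a - 1) * n)) * (2 : ℝ) ^ (-((n : ℝ) / 2))) * (n : ℝ) ^ Bx) +
          C₂ * (D : ℝ) ^ γ * T) := by rw [hE₁, hE₂]; ring
      _ = _ := by rw [e4, hT]; ring

/-- `n₁ = ⌈p n / 2⌉` -/
lemma ceil_bounds {p : ℝ} (hp : 2 ≤ p) {n : ℕ} (hn : 1 ≤ n) :
    p / 2 * n ≤ (⌈p / 2 * n⌉₊ : ℝ) ∧ (⌈p / 2 * n⌉₊ : ℝ) ≤ p / 2 * n + 1 ∧ n ≤ ⌈p / 2 * n⌉₊ ∧
      (⌈p / 2 * n⌉₊ : ℝ) ≤ (p / 2 + 1) * n := by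
  have hn' : (1 : ℝ) ≤ n := by exact_mod_cast hn
  have h1 := Nat.le_ceil (p / 2 * n)
  have h2 := (Nat.ceil_lt_add_one (by positivity : 0 ≤ p / 2 * (n : ℝ))).le
  refine ⟨h1, h2, ?_, by linarith⟩
  have : (n : ℝ) ≤ (⌈p / 2 * n⌉₊ : ℝ) := by
    refine le_trans ?_ h1
    nlinarith
  exact_mod_cast this

lemma ceil_comp {p : ℝ} (hp : 2 ≤ p) {n : ℕ} (hn : 1 ≤ n) (γ : ℝ) :
    ((⌈p / 2 * n⌉₊ : ℕ) : ℝ) ^ γ ≤ (p / 2 + 1) ^ |γ| * (n : ℝ) ^ γ := by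
  obtain ⟨h1, h2, h3, h4⟩ := ceil_bounds hp hn
  have hn' : (1 : ℝ) ≤ n := by exact_mod_cast hn
  have h3' : (n : ℝ) ≤ (⌈p / 2 * n⌉₊ : ℝ) := by exact_mod_cast h3
  apply rpow_comp (by linarith) (by linarith) (by linarith) h4
  nlinarith

/-- upper estimate, regime `a = 1`, `p ≥ 2` -/
theorem upB {p : ℝ} (hp : 2 ≤ p) (hd : 0 < d) (γ : ℝ) :
    UpS d p 1 γ (1 / 2) (γ + 1) 0 := by
  have hp0 : 0 < p := by linarith
  have hip : 0 < 1 / p := by positivity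
  obtain ⟨C, hC0, hC⟩ := upper_large hp hd
  obtain ⟨N₀, hN₀⟩ := cutoff d
  obtain ⟨C₂, hC₂0, hC₂⟩ := sum_down (1 - (1 - 1 / p)) γ (by linarith)
  set K : ℝ := p / 2 + 1 with hK
  have hK2 : 2 ≤ K := by rw [hK]; linarith
  have hK0 : 0 < K := by linarith
  refine ⟨C * (K ^ |γ| * K + C₂ * K ^ |γ|), 2 ^ (d + 1) + 1, N₀, by positivity, by positivity,
    fun n hn f hf => ?_⟩
  obtain ⟨hn4, he1, he2, he3⟩ := hN₀ n hn
  set e : ℕ := Nat.log 2 (n ^ (d - 1)) with he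
  have hn0 : (0 : ℝ) < n := by
    have : 0 < n := by omega
    exact_mod_cast this
  have hn1 : (1 : ℝ) ≤ n := by
    have : 1 ≤ n := by omega
    exact_mod_cast this
  set n₀ : ℕ := n - e with hn₀
  have hn₀1 : 1 ≤ n₀ := by omega
  have hn₀n : n₀ ≤ n := by omega
  have hn₀2 : n ≤ 2 * n₀ := by omega
  have hn₀0 : (0 : ℝ) < n₀ := by exact_mod_cast hn₀1
  set n₁ : ℕ := ⌈p / 2 * n⌉₊ with hn₁
  obtain ⟨c1, c2, c3, c4⟩ := ceil_bounds hp (by omega : 1 ≤ n)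
  rw [← hn₁] at c1 c2 c3 c4
  have c5 : (n₁ : ℝ) ≤ K * n := c4
  have hceil := ceil_comp hp (by omega : 1 ≤ n) γ
  rw [← hn₁, ← hK] at hceil
  set E₁ : ℝ := K ^ |γ| * K * ((n : ℝ) ^ (γ + 1)) with hE₁
  set E₂ : ℝ := C₂ * K ^ |γ| * ((2 : ℝ) ^ (-((n : ℝ) / 2)) * (n : ℝ) ^ (γ + 1)) with hE₂
  have hnγ : (n : ℝ) ^ (γ + 1) = (n : ℝ) ^ γ * n := by rw [Real.rpow_add hn0, Real.rpow_one]
  obtain ⟨G, hG1, hG2⟩ := hC (ep 1 γ) (fun l => (ep_pos 1 γ l).le) (ep_summable one_pos γ) f hf.1 hf.2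
    n₀ n₁ (2 ^ n) E₁ E₂ (by omega) (by positivity) (by positivity)
    (by
      have e1 : ∀ l ∈ Finset.Ico n₀ n₁, 2 ^ l * ep 1 γ l ≤ K ^ |γ| * (n : ℝ) ^ γ := by
        intro l hl
        rw [Finset.mem_Ico] at hl
        have hl1 : 1 ≤ l := by omega
        have hl1' : (1 : ℝ) ≤ l := by exact_mod_cast hl1
        unfold ep
        rw [two_pow_rpow l, ← mul_assoc, ← Real.rpow_add (by norm_num)]
        have : (l : ℝ) + -(1 * (l : ℝ)) = 0 := by ring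
        rw [this, Real.rpow_zero, one_mul, max_eq_left hl1']
        apply rpow_comp (by linarith) (by linarith) hn0
        · have : (l : ℝ) ≤ n₁ := by exact_mod_cast hl.2.le
          exact this.trans c5
        · have h5 : (n : ℝ) ≤ 2 * n₀ := by exact_mod_cast hn₀2
          have h6 : (n₀ : ℝ) ≤ l := by exact_mod_cast hl.1
          nlinarith
      calc ∑ l ∈ Finset.Ico n₀ n₁, 2 ^ l * ep 1 γ l ≤ ∑ _l ∈ Finset.Ico n₀ n₁, K ^ |γ| * (n : ℝ) ^ γ :=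
            Finset.sum_le_sum e1
        _ = ((n₁ - n₀ : ℕ) : ℝ) * (K ^ |γ| * (n : ℝ) ^ γ) := by
            rw [Finset.sum_const, Nat.card_Ico, nsmul_eq_mul]
        _ ≤ (K * n) * (K ^ |γ| * (n : ℝ) ^ γ) := by
            apply mul_le_mul_of_nonneg_right _ (by positivity)
            have : ((n₁ - n₀ : ℕ) : ℝ) ≤ n₁ := by exact_mod_cast Nat.sub_le _ _
            exact this.trans c5
        _ = E₁ := by rw [hE₁, hnγ]; ring)
    (by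
      intro L
      have e1 : ∀ l ∈ Finset.Ico n₁ L, (2 : ℝ) ^ ((1 - 1 / p) * l) * ep 1 γ l =
          (2 : ℝ) ^ (-((1 - (1 - 1 / p)) * l)) * (max (l : ℝ) 1) ^ γ := by
        intro l _
        unfold ep
        rw [← mul_assoc, ← Real.rpow_add (by norm_num)]; congr 2; ring
      rw [Finset.sum_congr rfl e1]
      refine (hC₂ n₁ _ (by omega) (fun l hl => by rw [Finset.mem_Ico] at hl; omega)).trans ?_
      have h7 : (2 : ℝ) ^ (-((1 - (1 - 1 / p)) * n₁)) ≤ (2 : ℝ) ^ (-((n : ℝ) / 2)) := by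
        apply Real.rpow_le_rpow_of_exponent_le (by norm_num)
        have h8 : (1 - (1 - 1 / p)) * (p / 2 * n) = (n : ℝ) / 2 := by field_simp; ring
        have h9 : (1 - (1 - 1 / p)) * (p / 2 * n) ≤ (1 - (1 - 1 / p)) * n₁ :=
          mul_le_mul_of_nonneg_left c1 (by linarith)
        linarith
      calc C₂ * ((2 : ℝ) ^ (-((1 - (1 - 1 / p)) * n₁)) * (n₁ : ℝ) ^ γ)
          ≤ C₂ * ((2 : ℝ) ^ (-((n : ℝ) / 2)) * (K ^ |γ| * (n : ℝ) ^ γ)) := by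
            apply mul_le_mul_of_nonneg_left _ hC₂0.le
            exact mul_le_mul h7 hceil (by positivity) (by positivity)
        _ ≤ C₂ * ((2 : ℝ) ^ (-((n : ℝ) / 2)) * (K ^ |γ| * (n : ℝ) ^ (γ + 1))) := by
            apply mul_le_mul_of_nonneg_left _ hC₂0.le
            apply mul_le_mul_of_nonneg_left _ (by positivity)
            apply mul_le_mul_of_nonneg_left _ (by positivity)
            exact Real.rpow_le_rpow_of_exponent_le hn1 (by linarith)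
        _ = E₂ := by rw [hE₂]; ring)
  refine ⟨G, hG1.mono ?_, ?_⟩
  · have e2 : (2 : ℝ) ^ d * 2 ^ n₀ * (n₀ : ℝ) ^ (d - 1) ≤ 2 ^ (d + 1) * 2 ^ n := by
      have q3 : (n₀ : ℝ) ^ (d - 1) ≤ 2 * (2 : ℝ) ^ e := by
        refine le_trans ?_ he3
        exact pow_le_pow_left₀ hn₀0.le (by exact_mod_cast hn₀n) _
      calc (2 : ℝ) ^ d * 2 ^ n₀ * (n₀ : ℝ) ^ (d - 1) ≤ 2 ^ d * 2 ^ n₀ * (2 * (2 : ℝ) ^ e) :=
            mul_le_mul_of_nonneg_left q3 (by positivity)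
        _ = 2 ^ (d + 1) * (2 ^ n₀ * 2 ^ e) := by ring
        _ = 2 ^ (d + 1) * 2 ^ n := by rw [← pow_add]; congr 2; omega
    push_cast
    linarith
  · refine hG2.trans (ENNReal.ofReal_le_ofReal ?_)
    rw [Rt_zero]
    have e3 : ((2 ^ n : ℕ) : ℝ) ^ (-(1 / 2 : ℝ)) = (2 : ℝ) ^ (-((n : ℝ) / 2)) := by
      push_cast; rw [two_pow_rpow, ← Real.rpow_mul (by norm_num)]; congr 1; ring
    have e5 : -(1 / 2 * (n : ℝ)) = -((n : ℝ) / 2) := by ring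
    rw [e3, e5]
    apply le_of_eq
    rw [hE₁, hE₂]; ring

/-- upper estimate, regime `β < a < 1`, `p ≥ 2` -/
theorem upC {p : ℝ} (hp : 2 ≤ p) (hd : 0 < d) {a : ℝ} (γ : ℝ) (h1 : 1 - 1 / p < a) (h2 : a < 1) :
    UpS d p a γ ((a - (1 - 1 / p)) * (p / 2)) γ 0 := by
  have hp0 : 0 < p := by linarith
  have hip : 0 < 1 / p := by positivity
  have hip2 : 1 / p ≤ 1 / 2 := by rw [div_le_div_iff₀ hp0 (by norm_num)]; linarith
  obtain ⟨C, hC0, hC⟩ := upper_large hp hd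
  obtain ⟨C₁, hC₁0, hC₁⟩ := sum_up (1 - a) γ (by linarith)
  obtain ⟨C₂, hC₂0, hC₂⟩ := sum_down (a - (1 - 1 / p)) γ (by linarith)
  set K : ℝ := p / 2 + 1 with hK
  have hK2 : 2 ≤ K := by rw [hK]; linarith
  have hK0 : 0 < K := by linarith
  refine ⟨C * (C₁ * (2 : ℝ) ^ (1 - a) * K ^ |γ| + C₂ * K ^ |γ|), 2 ^ d + 1, 1, by positivity, by positivity,
    fun n hn f hf => ?_⟩
  have hn0 : (0 : ℝ) < n := by exact_mod_cast hn
  set n₁ : ℕ := ⌈p / 2 * n⌉₊ with hn₁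
  obtain ⟨c1, c2, c3, c4⟩ := ceil_bounds hp hn
  rw [← hn₁] at c1 c2 c3 c4
  have hceil := ceil_comp hp hn γ
  rw [← hn₁, ← hK] at hceil
  set E₁ : ℝ := C₁ * (2 : ℝ) ^ (1 - a) * K ^ |γ| * ((2 : ℝ) ^ ((1 - a) * (p / 2 * n)) * (n : ℝ) ^ γ) with hE₁
  set E₂ : ℝ := C₂ * K ^ |γ| * ((2 : ℝ) ^ (-((a - (1 - 1 / p)) * (p / 2) * n)) * (n : ℝ) ^ γ) with hE₂
  obtain ⟨G, hG1, hG2⟩ := hC (ep a γ) (fun l => (ep_pos a γ l).le) (ep_summable (by linarith) γ) f hf.1 hf.2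
    0 n₁ (2 ^ n) E₁ E₂ (by omega) (by positivity) (by positivity)
    (by
      have e1 : ∀ l ∈ Finset.Ico 0 n₁, 2 ^ l * ep a γ l = (2 : ℝ) ^ ((1 - a) * l) * (max (l : ℝ) 1) ^ γ := by
        intro l _
        unfold ep
        rw [two_pow_rpow l, ← mul_assoc, ← Real.rpow_add (by norm_num)]; congr 2; ring
      rw [Finset.sum_congr rfl e1]
      refine (hC₁ n₁ _ (by omega) (fun l hl => by rw [Finset.mem_Ico] at hl; omega)).trans ?_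
      have h7 : (2 : ℝ) ^ ((1 - a) * n₁) ≤ (2 : ℝ) ^ (1 - a) * (2 : ℝ) ^ ((1 - a) * (p / 2 * n)) := by
        rw [← Real.rpow_add (by norm_num)]
        apply Real.rpow_le_rpow_of_exponent_le (by norm_num)
        have : (1 - a) * n₁ ≤ (1 - a) * (p / 2 * n + 1) := mul_le_mul_of_nonneg_left c2 (by linarith)
        linarith
      calc C₁ * ((2 : ℝ) ^ ((1 - a) * n₁) * (n₁ : ℝ) ^ γ)
          ≤ C₁ * ((2 : ℝ) ^ (1 - a) * (2 : ℝ) ^ ((1 - a) * (p / 2 * n)) * (K ^ |γ| * (n : ℝ) ^ γ)) := by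
            apply mul_le_mul_of_nonneg_left _ hC₁0.le
            exact mul_le_mul h7 hceil (by positivity) (by positivity)
        _ = E₁ := by rw [hE₁]; ring)
    (by
      intro L
      have e1 : ∀ l ∈ Finset.Ico n₁ L, (2 : ℝ) ^ ((1 - 1 / p) * l) * ep a γ l =
          (2 : ℝ) ^ (-((a - (1 - 1 / p)) * l)) * (max (l : ℝ) 1) ^ γ := by
        intro l _
        unfold ep
        rw [← mul_assoc, ← Real.rpow_add (by norm_num)]; congr 2; ring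
      rw [Finset.sum_congr rfl e1]
      refine (hC₂ n₁ _ (by omega) (fun l hl => by rw [Finset.mem_Ico] at hl; omega)).trans ?_
      have h7 : (2 : ℝ) ^ (-((a - (1 - 1 / p)) * n₁)) ≤ (2 : ℝ) ^ (-((a - (1 - 1 / p)) * (p / 2) * n)) := by
        apply Real.rpow_le_rpow_of_exponent_le (by norm_num)
        have h9 : (a - (1 - 1 / p)) * (p / 2 * n) ≤ (a - (1 - 1 / p)) * n₁ :=
          mul_le_mul_of_nonneg_left c1 (by linarith)
        linarith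
      calc C₂ * ((2 : ℝ) ^ (-((a - (1 - 1 / p)) * n₁)) * (n₁ : ℝ) ^ γ)
          ≤ C₂ * ((2 : ℝ) ^ (-((a - (1 - 1 / p)) * (p / 2) * n)) * (K ^ |γ| * (n : ℝ) ^ γ)) := by
            apply mul_le_mul_of_nonneg_left _ hC₂0.le
            exact mul_le_mul h7 hceil (by positivity) (by positivity)
        _ = E₂ := by rw [hE₂]; ring)
  refine ⟨G, hG1.mono ?_, ?_⟩
  · have e2 : (2 : ℝ) ^ d * 2 ^ 0 * ((0 : ℕ) : ℝ) ^ (d - 1) ≤ 2 ^ d * 2 ^ n := by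
      have q3 : ((0 : ℕ) : ℝ) ^ (d - 1) ≤ 1 := by
        rw [Nat.cast_zero]; exact pow_le_one₀ le_rfl zero_le_one
      have q4 : (1 : ℝ) ≤ 2 ^ n := one_le_pow₀ (by norm_num)
      calc (2 : ℝ) ^ d * 2 ^ 0 * ((0 : ℕ) : ℝ) ^ (d - 1) ≤ 2 ^ d * 2 ^ 0 * 1 :=
            mul_le_mul_of_nonneg_left q3 (by positivity)
        _ = 2 ^ d * 1 := by norm_num
        _ ≤ _ := mul_le_mul_of_nonneg_left q4 (by positivity)
    push_cast at e2 ⊢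
    linarith
  · refine hG2.trans (ENNReal.ofReal_le_ofReal ?_)
    rw [Rt_zero]
    have e3 : ((2 ^ n : ℕ) : ℝ) ^ (-(1 / 2 : ℝ)) = (2 : ℝ) ^ (-((n : ℝ) / 2)) := by
      push_cast; rw [two_pow_rpow, ← Real.rpow_mul (by norm_num)]; congr 1; ring
    have e4 : (2 : ℝ) ^ ((1 - a) * (p / 2 * n)) * (2 : ℝ) ^ (-((n : ℝ) / 2)) =
        (2 : ℝ) ^ (-((a - (1 - 1 / p)) * (p / 2) * n)) := by
      rw [← Real.rpow_add (by norm_num)]; congr 1; field_simp; ring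
    rw [e3]
    apply le_of_eq
    calc C * (E₁ * (2 : ℝ) ^ (-((n : ℝ) / 2)) + E₂)
        = C * (C₁ * (2 : ℝ) ^ (1 - a) * K ^ |γ| *
          (((2 : ℝ) ^ ((1 - a) * (p / 2 * n)) * (2 : ℝ) ^ (-((n : ℝ) / 2))) * (n : ℝ) ^ γ) + E₂) := by
          rw [hE₁]; ring
      _ = _ := by rw [e4, hE₂]; ring

/-- lower estimate, regime `a > 1`, `p ≥ 2` -/
theorem loA {p : ℝ} (hp : 2 ≤ p) (hd : 0 < d) {a : ℝ} (γ : ℝ) (h1 : 1 < a) :
    LoS d p a γ (a - 1 / 2) (γ + (d - 1 : ℕ) * (a - 1)) 0 := by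
  have h22 : (2 : ℝ).HolderConjugate 2 := by rw [Real.holderConjugate_iff]; norm_num
  have h2 : (2 : ℝ) / 2 < a := by norm_num; exact h1
  obtain ⟨c, N₀, hc0, hc⟩ := lo1 h22 le_rfl hd γ h2
  refine ⟨c, N₀, hc0, fun n hn => ?_⟩
  obtain ⟨f, hf1, hf2, hf3⟩ := hc n hn
  refine ⟨f, hf1, hf2, fun G hG => ?_⟩
  have h3 := hf3 G hG
  have e : (2 : ℝ) / 2 = 1 := by norm_num
  rw [e] at h3
  exact h3.trans (Np_mono (by norm_num) hp (hf1.sub hG.BC))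

lemma floor_facts {p : ℝ} (hp : 2 < p) (d : ℕ) : ∃ N₀ : ℕ, ∀ n : ℕ, N₀ ≤ n → 1 ≤ n ∧
    n + 2 * d + 1 ≤ ⌊p / 2 * n⌋₊ ∧ (⌊p / 2 * n⌋₊ : ℝ) ≤ p / 2 * n ∧ p / 2 * n - 1 ≤ (⌊p / 2 * n⌋₊ : ℝ) ∧
    (p / 2 - 1) / 2 * n ≤ ((⌊p / 2 * n⌋₊ + 1 - (n + 2 * d + 1) : ℕ) : ℝ) := by
  obtain ⟨N₀, hN₀⟩ := exists_nat_ge ((2 * d + 2 : ℝ) / ((p / 2 - 1) / 2))
  refine ⟨max N₀ 1, fun n hn => ?_⟩
  have hn1 : 1 ≤ n := (le_max_right _ _).trans hn
  have hn' : (1 : ℝ) ≤ n := by exact_mod_cast hn1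
  have hN : ((N₀ : ℕ) : ℝ) ≤ n := by exact_mod_cast (le_max_left _ _).trans hn
  have hδ : 0 < (p / 2 - 1) / 2 := by linarith
  have h1 : (2 * d + 2 : ℝ) ≤ (p / 2 - 1) / 2 * n := by
    have := hN₀.trans hN
    rw [div_le_iff₀ hδ] at this; linarith
  have h2 : (⌊p / 2 * n⌋₊ : ℝ) ≤ p / 2 * n := Nat.floor_le (by positivity)
  have h3 : p / 2 * n < (⌊p / 2 * n⌋₊ : ℝ) + 1 := Nat.lt_floor_add_one _
  have h4 : ((n + 2 * d + 1 : ℕ) : ℝ) + (p / 2 - 1) / 2 * n ≤ p / 2 * n := by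
    push_cast
    linarith
  have h5 : n + 2 * d + 1 ≤ ⌊p / 2 * n⌋₊ := by
    apply Nat.le_floor
    have : 0 < (p / 2 - 1) / 2 * n := by positivity
    linarith
  refine ⟨hn1, h5, h2, by linarith, ?_⟩
  rw [Nat.cast_sub (by omega)]
  push_cast at h4 ⊢
  linarith

/-- lower estimate, regime `a = 1`, `p > 2` -/
theorem loB {p : ℝ} (hp : 2 < p) (hd : 0 < d) (γ : ℝ) : LoS d p 1 γ (1 / 2) (γ + 1) 0 := by
  have hp0 : 0 < p := by linarith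
  set q : ℝ := p / (p - 1) with hq
  have hqp : q.HolderConjugate p := by
    rw [Real.holderConjugate_iff]
    constructor
    · rw [hq, lt_div_iff₀ (by linarith)]; linarith
    · rw [hq, inv_div]; field_simp; ring
  obtain ⟨c, hc0, hc⟩ := lowB hqp hp.le hd
  obtain ⟨N₀, hN₀⟩ := floor_facts hp d
  set K : ℝ := p / 2 with hK
  have hK1 : 1 < K := by rw [hK]; linarith
  have hK0 : 0 < K := by linarith
  refine ⟨c * ((K - 1) / 2) * (K ^ |γ|)⁻¹, N₀, ?_, fun n hn => ?_⟩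
  · have : 0 < (K - 1) / 2 := by linarith
    positivity
  obtain ⟨hn1, f1, f2, f3, f4⟩ := hN₀ n hn
  have hn0 : (0 : ℝ) < n := by exact_mod_cast hn1
  set l₁ : ℕ := ⌊K * n⌋₊ with hl₁
  have e3 : ((2 : ℝ) ^ n) ^ (1 / 2 : ℝ) = (2 : ℝ) ^ ((n : ℝ) / 2) := by
    rw [two_pow_rpow, ← Real.rpow_mul (by norm_num)]; congr 1; ring
  have e3' : ((2 : ℝ) ^ n) ^ (-(1 / 2 : ℝ)) = (2 : ℝ) ^ (-((n : ℝ) / 2)) := by
    rw [two_pow_rpow, ← Real.rpow_mul (by norm_num)]; congr 1; ring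
  obtain ⟨f, hf1, hf2, hf3⟩ := hc (n + 2 * d + 1) l₁ (2 ^ n) (ep 1 γ) (by omega)
    (fun l => (ep_pos 1 γ l).le) (one_le_pow₀ (by norm_num))
    (by
      have : (4 : ℝ) = 2 ^ 2 := by norm_num
      rw [this, ← pow_mul, pow_add, pow_add]; apply le_of_eq; ring)
    (by
      rw [e3]
      apply Real.rpow_le_rpow_of_exponent_le (by norm_num)
      rw [div_le_iff₀ hp0]
      calc (l₁ : ℝ) ≤ K * n := f2
        _ = (n : ℝ) / 2 * p := by rw [hK]; ring)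
  refine ⟨f, hf1, ⟨hf1.integrable, hf2⟩, fun G hG => ?_⟩
  refine le_trans ?_ (hf3 G hG)
  rw [e3', Rt_zero]
  have h5 : ∀ l ∈ Finset.Icc (n + 2 * d + 1) l₁, (K ^ |γ|)⁻¹ * (n : ℝ) ^ γ ≤ 2 ^ l * ep 1 γ l := by
    intro l hl
    rw [Finset.mem_Icc] at hl
    have hl1 : 1 ≤ l := by omega
    have hl1' : (1 : ℝ) ≤ l := by exact_mod_cast hl1
    unfold ep
    rw [two_pow_rpow l, ← mul_assoc, ← Real.rpow_add (by norm_num)]
    have : (l : ℝ) + -(1 * (l : ℝ)) = 0 := by ring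
    rw [this, Real.rpow_zero, one_mul, max_eq_left hl1', inv_mul_le_iff₀ (by positivity)]
    have h6 : (n : ℝ) ≤ l := by
      have : n ≤ l := by omega
      exact_mod_cast this
    have h7 : (l : ℝ) ≤ l₁ := by exact_mod_cast hl.2
    apply rpow_comp hK1.le hn0 (by linarith)
    · nlinarith
    · linarith
  have h8 : (K - 1) / 2 * n * ((K ^ |γ|)⁻¹ * (n : ℝ) ^ γ) ≤ ∑ l ∈ Finset.Icc (n + 2 * d + 1) l₁, 2 ^ l * ep 1 γ l := by
    calc (K - 1) / 2 * n * ((K ^ |γ|)⁻¹ * (n : ℝ) ^ γ)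
        ≤ ((l₁ + 1 - (n + 2 * d + 1) : ℕ) : ℝ) * ((K ^ |γ|)⁻¹ * (n : ℝ) ^ γ) :=
          mul_le_mul_of_nonneg_right f4 (by positivity)
      _ = ∑ _l ∈ Finset.Icc (n + 2 * d + 1) l₁, (K ^ |γ|)⁻¹ * (n : ℝ) ^ γ := by
          rw [Finset.sum_const, Nat.card_Icc, nsmul_eq_mul]
      _ ≤ _ := Finset.sum_le_sum h5
  have e5 : -(1 / 2 * (n : ℝ)) = -((n : ℝ) / 2) := by ring
  rw [e5, Real.rpow_add hn0, Real.rpow_one]
  calc c * ((K - 1) / 2) * (K ^ |γ|)⁻¹ * ((2 : ℝ) ^ (-((n : ℝ) / 2)) * ((n : ℝ) ^ γ * n))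
      = c * (2 : ℝ) ^ (-((n : ℝ) / 2)) * ((K - 1) / 2 * n * ((K ^ |γ|)⁻¹ * (n : ℝ) ^ γ)) := by ring
    _ ≤ _ := mul_le_mul_of_nonneg_left h8 (by positivity)

/-- lower estimate, regime `a < 1`, `p > 2` -/
theorem loC {p : ℝ} (hp : 2 < p) (hd : 0 < d) {a : ℝ} (γ : ℝ) (h2 : a < 1) :
    LoS d p a γ ((a - (1 - 1 / p)) * (p / 2)) γ 0 := by
  have hp0 : 0 < p := by linarith
  set q : ℝ := p / (p - 1) with hq
  have hqp : q.HolderConjugate p := by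
    rw [Real.holderConjugate_iff]
    constructor
    · rw [hq, lt_div_iff₀ (by linarith)]; linarith
    · rw [hq, inv_div]; field_simp; ring
  obtain ⟨c, hc0, hc⟩ := lowB hqp hp.le hd
  obtain ⟨N₀, hN₀⟩ := floor_facts hp d
  set K : ℝ := p / 2 with hK
  have hK1 : 1 < K := by rw [hK]; linarith
  have hK0 : 0 < K := by linarith
  refine ⟨c * (2 : ℝ) ^ (-(1 - a)) * (K ^ |γ|)⁻¹, N₀, by positivity, fun n hn => ?_⟩
  obtain ⟨hn1, f1, f2, f3, f4⟩ := hN₀ n hn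
  have hn0 : (0 : ℝ) < n := by exact_mod_cast hn1
  set l₁ : ℕ := ⌊K * n⌋₊ with hl₁
  have e3 : ((2 : ℝ) ^ n) ^ (1 / 2 : ℝ) = (2 : ℝ) ^ ((n : ℝ) / 2) := by
    rw [two_pow_rpow, ← Real.rpow_mul (by norm_num)]; congr 1; ring
  have e3' : ((2 : ℝ) ^ n) ^ (-(1 / 2 : ℝ)) = (2 : ℝ) ^ (-((n : ℝ) / 2)) := by
    rw [two_pow_rpow, ← Real.rpow_mul (by norm_num)]; congr 1; ring
  obtain ⟨f, hf1, hf2, hf3⟩ := hc l₁ l₁ (2 ^ n) (ep a γ) (by omega)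
    (fun l => (ep_pos a γ l).le) (one_le_pow₀ (by norm_num))
    (by
      have h4 : (4 : ℝ) = 2 ^ 2 := by norm_num
      have h5 : 2 * (4 : ℝ) ^ d * 2 ^ n = 2 ^ (n + 2 * d + 1) := by
        rw [h4, ← pow_mul, pow_add, pow_add]; ring
      rw [h5]; exact pow_le_pow_right₀ (by norm_num) f1)
    (by
      rw [e3]
      apply Real.rpow_le_rpow_of_exponent_le (by norm_num)
      rw [div_le_iff₀ hp0]
      calc (l₁ : ℝ) ≤ K * n := f2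
        _ = (n : ℝ) / 2 * p := by rw [hK]; ring)
  refine ⟨f, hf1, ⟨hf1.integrable, hf2⟩, fun G hG => ?_⟩
  refine le_trans ?_ (hf3 G hG)
  rw [e3', Rt_zero, Finset.Icc_self, Finset.sum_singleton]
  have hl1 : 1 ≤ l₁ := by omega
  have hl1' : (1 : ℝ) ≤ l₁ := by exact_mod_cast hl1
  have h6 : (n : ℝ) ≤ l₁ := by
    have : n ≤ l₁ := by omega
    exact_mod_cast this
  have h5 : (K ^ |γ|)⁻¹ * (n : ℝ) ^ γ ≤ (max (l₁ : ℝ) 1) ^ γ := by
    rw [max_eq_left hl1', inv_mul_le_iff₀ (by positivity)]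
    apply rpow_comp hK1.le hn0 (by linarith)
    · nlinarith
    · linarith
  have h7 : (2 : ℝ) ^ (-(1 - a)) * (2 : ℝ) ^ ((1 - a) * (K * n)) ≤ (2 : ℝ) ^ ((1 - a) * l₁) := by
    rw [← Real.rpow_add (by norm_num)]
    apply Real.rpow_le_rpow_of_exponent_le (by norm_num)
    have : (1 - a) * (K * n - 1) ≤ (1 - a) * l₁ := mul_le_mul_of_nonneg_left f3 (by linarith)
    linarith
  have h8 : (2 : ℝ) ^ l₁ * ep a γ l₁ = (2 : ℝ) ^ ((1 - a) * l₁) * (max (l₁ : ℝ) 1) ^ γ := by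
    unfold ep
    rw [two_pow_rpow l₁, ← mul_assoc, ← Real.rpow_add (by norm_num)]; congr 2; ring
  rw [h8]
  have e4 : (2 : ℝ) ^ (-((n : ℝ) / 2)) * (2 : ℝ) ^ ((1 - a) * (K * n)) =
      (2 : ℝ) ^ (-((a - (1 - 1 / p)) * K * n)) := by
    rw [← Real.rpow_add (by norm_num)]; congr 1; rw [hK]; field_simp; ring
  calc c * (2 : ℝ) ^ (-(1 - a)) * (K ^ |γ|)⁻¹ * ((2 : ℝ) ^ (-((a - (1 - 1 / p)) * K * n)) * (n : ℝ) ^ γ)
      = c * (2 : ℝ) ^ (-((n : ℝ) / 2)) * (((2 : ℝ) ^ (-(1 - a)) * (2 : ℝ) ^ ((1 - a) * (K * n))) *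
        ((K ^ |γ|)⁻¹ * (n : ℝ) ^ γ)) := by rw [← e4]; ring
    _ ≤ _ := by
        apply mul_le_mul_of_nonneg_left _ (by positivity)
        exact mul_le_mul h7 h5 (by positivity) (by positivity)

end Pool.Agent.Helper935.MT
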