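import Mathlib

open MeasureTheory
open scoped ENNReal ComplexConjugate

namespace Pool.Agent.Helper935.MT

instance instTwoPiPos : Fact (0 < 2 * Real.pi) := ⟨Real.two_pi_pos⟩

/-- The circle `ℝ / 2πℤ`. -/
abbrev Circ := AddCircle (2 * Real.pi)

/-- The torus `T^d = (ℝ / 2πℤ)^d`. -/
abbrev Torus (d : ℕ) := Fin d → Circ

/-- Normalised Lebesgue (Haar) measure on the torus. -/
noncomputable def mu (d : ℕ) : Measure (Torus d) :=
  Measure.pi fun _ => (AddCircle.haarAddCircle : Measure Circ)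

/-- The character `e^{i(k,x)}` of the torus. -/
noncomputable def ek {d : ℕ} (k : Fin d → ℤ) (x : Torus d) : ℂ := ∏ j, fourier (k j) (x j)

variable {d : ℕ}

instance : IsProbabilityMeasure (mu d) := by unfold mu; infer_instance
instance : Measure.IsAddHaarMeasure (mu d) := by unfold mu; infer_instance
instance : (mu d).IsNegInvariant := Measure.IsAddHaarMeasure.isNegInvariant_of_regular (mu d)

lemma norm_fourier (n : ℤ) (x : Circ) : ‖(fourier n x : ℂ)‖ = 1 := by
  rw [fourier_apply]; exact Circle.norm_coe _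

lemma norm_ek (k : Fin d → ℤ) (x : Torus d) : ‖ek k x‖ = 1 := by
  unfold ek; rw [norm_prod]
  exact Finset.prod_eq_one fun j _ => norm_fourier _ _

lemma ek_zero (x : Torus d) : ek 0 x = 1 := by simp [ek]

lemma ek_add (k l : Fin d → ℤ) (x : Torus d) : ek (k + l) x = ek k x * ek l x := by
  unfold ek; rw [← Finset.prod_mul_distrib]
  apply Finset.prod_congr rfl; intro j _
  rw [Pi.add_apply, fourier_add]

lemma conj_ek (k : Fin d → ℤ) (x : Torus d) : conj (ek k x) = ek (-k) x := by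
  unfold ek; rw [map_prod]
  apply Finset.prod_congr rfl; intro j _
  rw [Pi.neg_apply, fourier_neg]

lemma fourier_arg_add (n : ℤ) (x y : Circ) : (fourier n (x + y) : ℂ) = fourier n x * fourier n y := by
  rw [fourier_apply, fourier_apply, fourier_apply, smul_add, AddCircle.toCircle_add]
  simp

lemma fourier_arg_neg (n : ℤ) (x : Circ) : (fourier n (-x) : ℂ) = fourier (-n) x := by
  rw [fourier_apply, fourier_apply, smul_neg, neg_smul]

lemma ek_arg_sub (k : Fin d → ℤ) (x y : Torus d) : ek k (x - y) = ek k x * ek (-k) y := by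
  unfold ek; rw [← Finset.prod_mul_distrib]
  apply Finset.prod_congr rfl; intro j _
  rw [Pi.sub_apply, sub_eq_add_neg, fourier_arg_add, fourier_arg_neg, Pi.neg_apply]

lemma continuous_ek (k : Fin d → ℤ) : Continuous (ek k) := by
  unfold ek
  exact continuous_finsetProd _ (fun j _ => (fourier (k j)).continuous.comp (continuous_apply j))

lemma integral_fourier (n : ℤ) :
    ∫ x : Circ, (fourier n x : ℂ) ∂AddCircle.haarAddCircle = if n = 0 then 1 else 0 := by
  split_ifs with h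
  · subst h; simp
  · exact integral_eq_zero_of_add_right_eq_neg (μ := AddCircle.haarAddCircle)
      (fourier_add_half_inv_index h Real.two_pi_pos)

lemma integral_ek (k : Fin d → ℤ) : ∫ x, ek k x ∂(mu d) = if k = 0 then 1 else 0 := by
  unfold ek mu
  rw [integral_fintype_prod_eq_prod (fun j t => (fourier (k j) t : ℂ))]
  simp only [integral_fourier]
  by_cases hk : k = 0
  · subst hk; simp
  · rw [if_neg hk]
    obtain ⟨j, hj⟩ : ∃ j, k j ≠ 0 := by
      by_contra hcon; push Not at hcon; exact hk (funext hcon)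
    exact Finset.prod_eq_zero (Finset.mem_univ j) (by simp [hj])

/-! ### Bounded measurable real functions -/

/-- bounded and measurable -/
def BM {α : Type*} [MeasurableSpace α] (f : α → ℝ) : Prop := Measurable f ∧ ∃ C, ∀ x, |f x| ≤ C

section BM

variable {α β : Type*} [MeasurableSpace α] [MeasurableSpace β]

lemma BM.integrable {f : α → ℝ} (hf : BM f) (μ : Measure α) [IsFiniteMeasure μ] : Integrable f μ := by
  obtain ⟨h1, C, hC⟩ := hf
  exact (integrable_const C).mono' h1.aestronglyMeasurable (Filter.Eventually.of_forall hC)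

lemma BM.mul {f g : α → ℝ} (hf : BM f) (hg : BM g) : BM (fun x => f x * g x) := by
  obtain ⟨h1, C, hC⟩ := hf
  obtain ⟨h2, D, hD⟩ := hg
  refine ⟨h1.mul h2, |C| * |D|, fun x => ?_⟩
  rw [abs_mul]
  exact mul_le_mul ((hC x).trans (le_abs_self _)) ((hD x).trans (le_abs_self _)) (abs_nonneg _) (abs_nonneg _)

lemma BM.add {f g : α → ℝ} (hf : BM f) (hg : BM g) : BM (fun x => f x + g x) := by
  obtain ⟨h1, C, hC⟩ := hf
  obtain ⟨h2, D, hD⟩ := hg
  exact ⟨h1.add h2, C + D, fun x => (abs_add_le _ _).trans (add_le_add (hC x) (hD x))⟩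

lemma BM.sub {f g : α → ℝ} (hf : BM f) (hg : BM g) : BM (fun x => f x - g x) := by
  obtain ⟨h1, C, hC⟩ := hf
  obtain ⟨h2, D, hD⟩ := hg
  exact ⟨h1.sub h2, C + D, fun x => (abs_sub _ _).trans (add_le_add (hC x) (hD x))⟩

lemma BM.const (c : ℝ) : BM (fun _ : α => c) := ⟨measurable_const, |c|, fun _ => le_rfl⟩

lemma BM.sum {ι : Type*} (s : Finset ι) {f : ι → α → ℝ} (hf : ∀ i ∈ s, BM (f i)) :
    BM (fun x => ∑ i ∈ s, f i x) := by
  classical
  induction s using Finset.induction_on with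
  | empty => simpa using BM.const (α := α) 0
  | insert i s hi ih =>
    have h : (fun x => ∑ j ∈ insert i s, f j x) = fun x => f i x + ∑ j ∈ s, f j x := by
      funext x; rw [Finset.sum_insert hi]
    rw [h]
    exact (hf i (Finset.mem_insert_self _ _)).add (ih (fun j hj => hf j (Finset.mem_insert_of_mem hj)))

lemma BM.prod {ι : Type*} (s : Finset ι) {f : ι → α → ℝ} (hf : ∀ i ∈ s, BM (f i)) :
    BM (fun x => ∏ i ∈ s, f i x) := by
  classical
  induction s using Finset.induction_on with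
  | empty => simpa using BM.const (α := α) 1
  | insert i s hi ih =>
    have h : (fun x => ∏ j ∈ insert i s, f j x) = fun x => f i x * ∏ j ∈ s, f j x := by
      funext x; rw [Finset.prod_insert hi]
    rw [h]
    exact (hf i (Finset.mem_insert_self _ _)).mul (ih (fun j hj => hf j (Finset.mem_insert_of_mem hj)))

lemma BM.comp {f : β → ℝ} (hf : BM f) {g : α → β} (hg : Measurable g) : BM (fun x => f (g x)) := by
  obtain ⟨h1, C, hC⟩ := hf
  exact ⟨h1.comp hg, C, fun x => hC _⟩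

lemma BM.rpow {f : α → ℝ} (hf : BM f) (h0 : ∀ x, 0 ≤ f x) {r : ℝ} (hr : 0 ≤ r) :
    BM (fun x => f x ^ r) := by
  obtain ⟨h1, C, hC⟩ := hf
  refine ⟨h1.pow_const r, |C| ^ r, fun x => ?_⟩
  rw [abs_of_nonneg (Real.rpow_nonneg (h0 x) r)]
  exact Real.rpow_le_rpow (h0 x) (((le_abs_self _).trans (hC x)).trans (le_abs_self _)) hr

lemma BM.of_continuous [TopologicalSpace α] [CompactSpace α] [OpensMeasurableSpace α] {f : α → ℝ}
    (hf : Continuous f) : BM f := by
  refine ⟨hf.measurable, ?_⟩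
  obtain ⟨C, hC⟩ := (isCompact_range hf.abs).bddAbove
  exact ⟨C, fun x => hC ⟨x, rfl⟩⟩

lemma BM.memLp {f : α → ℝ} (hf : BM f) (μ : Measure α) [IsFiniteMeasure μ] (p : ℝ≥0∞) :
    MemLp f p μ := by
  obtain ⟨h1, C, hC⟩ := hf
  exact MemLp.of_bound h1.aestronglyMeasurable C (Filter.Eventually.of_forall hC)

lemma BM.sqrt {f : α → ℝ} (hf : BM f) : BM (fun x => Real.sqrt (f x)) := by
  obtain ⟨h1, C, hC⟩ := hf
  refine ⟨Real.continuous_sqrt.measurable.comp h1, Real.sqrt |C|, fun x => ?_⟩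
  rw [abs_of_nonneg (Real.sqrt_nonneg _)]
  exact Real.sqrt_le_sqrt (((le_abs_self _).trans (hC x)).trans (le_abs_self _))

end BM

/-! ### Convolution of nonnegative functions -/

/-- convolution -/
noncomputable def cv (M h : Torus d → ℝ) (x : Torus d) : ℝ := ∫ y, M (x - y) * h y ∂(mu d)

lemma BM.kernel {M h : Torus d → ℝ} (hM : BM M) (hh : BM h) :
    BM (fun p : Torus d × Torus d => M (p.1 - p.2) * h p.2) :=
  (hM.comp (measurable_fst.sub measurable_snd)).mul (hh.comp measurable_snd)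

lemma BM.slice {M h : Torus d → ℝ} (hM : BM M) (hh : BM h) (x : Torus d) :
    BM (fun y => M (x - y) * h y) :=
  (hM.comp (measurable_const.sub measurable_id)).mul hh

lemma BM.cv {M h : Torus d → ℝ} (hM : BM M) (hh : BM h) : BM (cv M h) := by
  have hk := hM.kernel hh
  refine ⟨?_, ?_⟩
  · have := hk.1.stronglyMeasurable.integral_prod_right' (ν := mu d)
    exact this.measurable
  · obtain ⟨_, C, hC⟩ := hk
    refine ⟨C, fun x => ?_⟩
    unfold MT.cv
    have h1 := norm_integral_le_of_norm_le_const (μ := mu d) (f := fun y => M (x - y) * h y) (C := C)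
      (Filter.Eventually.of_forall fun y => hC (x, y))
    simpa using h1

lemma cv_nonneg {M h : Torus d → ℝ} (hM : ∀ x, 0 ≤ M x) (hh : ∀ x, 0 ≤ h x) (x : Torus d) :
    0 ≤ cv M h x := integral_nonneg fun y => mul_nonneg (hM _) (hh _)

lemma cv_mono {M h h' : Torus d → ℝ} (hM : BM M) (hM0 : ∀ x, 0 ≤ M x) (hh : BM h) (hh' : BM h')
    (hle : ∀ x, h x ≤ h' x) (x : Torus d) : cv M h x ≤ cv M h' x :=
  integral_mono ((hM.slice hh x).integrable _) ((hM.slice hh' x).integrable _)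
    (fun y => mul_le_mul_of_nonneg_left (hle y) (hM0 _))

lemma cv_const_mul (M h : Torus d → ℝ) (c : ℝ) (x : Torus d) :
    cv M (fun y => c * h y) x = c * cv M h x := by
  unfold cv
  rw [← integral_const_mul]
  congr 1; funext y; ring

lemma cv_sum {ι : Type*} (s : Finset ι) {M : Torus d → ℝ} {h : ι → Torus d → ℝ} (hM : BM M)
    (hh : ∀ i ∈ s, BM (h i)) (x : Torus d) :
    cv M (fun y => ∑ i ∈ s, h i y) x = ∑ i ∈ s, cv M (h i) x := by
  unfold cv
  rw [← integral_finsetSum _ (fun i hi => (hM.slice (hh i hi) x).integrable _)]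
  congr 1; funext y; rw [Finset.mul_sum]

lemma integral_sub_left (M : Torus d → ℝ) (x : Torus d) : ∫ y, M (x - y) ∂(mu d) = ∫ y, M y ∂(mu d) :=
  integral_sub_left_eq_self M (mu d) x

lemma integral_cv {M h : Torus d → ℝ} (hM : BM M) (hh : BM h) :
    ∫ x, cv M h x ∂(mu d) = (∫ x, M x ∂(mu d)) * ∫ x, h x ∂(mu d) := by
  unfold cv
  rw [integral_integral_swap ((hM.kernel hh).integrable _)]
  have h1 : ∀ y, ∫ x, M (x - y) * h y ∂(mu d) = (∫ x, M x ∂(mu d)) * h y := by
    intro y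
    rw [integral_mul_const]
    congr 1
    exact integral_sub_right_eq_self M y
  simp only [h1]
  rw [integral_const_mul]

/-- symmetry -/
lemma integral_cv_mul {M g h : Torus d → ℝ} (hM : BM M) (hMe : ∀ x, M (-x) = M x) (hg : BM g)
    (hh : BM h) : ∫ x, cv M g x * h x ∂(mu d) = ∫ x, g x * cv M h x ∂(mu d) := by
  have hk : BM (fun p : Torus d × Torus d => M (p.1 - p.2) * g p.2 * h p.1) :=
    (hM.kernel hg).mul (hh.comp measurable_fst)
  have h1 : ∀ x, cv M g x * h x = ∫ y, M (x - y) * g y * h x ∂(mu d) := by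
    intro x; unfold cv; rw [integral_mul_const]
  have h2 : ∀ y, g y * cv M h y = ∫ x, M (x - y) * g y * h x ∂(mu d) := by
    intro y; unfold cv; rw [← integral_const_mul]
    congr 1; funext x
    have : M (y - x) = M (x - y) := by rw [← hMe (x - y)]; congr 1; abel
    rw [this]; ring
  simp only [h1, h2]
  exact integral_integral_swap (hk.integrable _)

/-- sup bound for a double convolution -/
lemma cv_cv_le {M M' h : Torus d → ℝ} (hM : BM M) (hM' : BM M')
    (hh : BM h) (hh0 : ∀ x, 0 ≤ h x) {S : ℝ}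
    (hS : ∀ x z, ∫ y, M (x - y) * M' (y - z) ∂(mu d) ≤ S) (x : Torus d) :
    cv M (cv M' h) x ≤ S * ∫ z, h z ∂(mu d) := by
  have hk : BM (fun p : Torus d × Torus d => M (x - p.1) * (M' (p.1 - p.2) * h p.2)) :=
    ((hM.comp (measurable_const.sub measurable_fst))).mul (hM'.kernel hh)
  have h1 : cv M (cv M' h) x = ∫ y, ∫ z, M (x - y) * (M' (y - z) * h z) ∂(mu d) ∂(mu d) := by
    unfold cv
    congr 1; funext y; rw [integral_const_mul]
  rw [h1, integral_integral_swap (hk.integrable _), ← integral_const_mul]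
  have hk2 : Integrable (fun z => ∫ y, M (x - y) * (M' (y - z) * h z) ∂(mu d)) (mu d) := by
    have := (hk.integrable ((mu d).prod (mu d))).integral_prod_right
    exact this
  refine integral_mono hk2 ((hh.integrable _).const_mul S) (fun z => ?_)
  have h2 : ∫ y, M (x - y) * (M' (y - z) * h z) ∂(mu d) =
      (∫ y, M (x - y) * M' (y - z) ∂(mu d)) * h z := by
    rw [← integral_mul_const]; congr 1; funext y; ring
  simp only [h2]
  exact mul_le_mul_of_nonneg_right (hS x z) (hh0 z)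

/-- Hoelder inequality for nonnegative bounded functions -/
lemma holder {α : Type*} [MeasurableSpace α] {μ : Measure α} [IsFiniteMeasure μ] {p q : ℝ}
    (hpq : p.HolderConjugate q) {f g : α → ℝ} (hf : BM f) (hf0 : ∀ x, 0 ≤ f x) (hg : BM g)
    (hg0 : ∀ x, 0 ≤ g x) :
    ∫ x, f x * g x ∂μ ≤ (∫ x, f x ^ p ∂μ) ^ (1 / p) * (∫ x, g x ^ q ∂μ) ^ (1 / q) :=
  integral_mul_le_Lp_mul_Lq_of_nonneg hpq (Filter.Eventually.of_forall hf0)
    (Filter.Eventually.of_forall hg0) (hf.memLp μ _) (hg.memLp μ _)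

/-- weighted Jensen inequality -/
lemma jensen {α : Type*} [MeasurableSpace α] {μ : Measure α} [IsFiniteMeasure μ] {r : ℝ} (hr : 1 ≤ r)
    {w f : α → ℝ} (hw : BM w) (hw0 : ∀ x, 0 ≤ w x) (hf : BM f) (hf0 : ∀ x, 0 ≤ f x) :
    (∫ x, w x * f x ∂μ) ^ r ≤ (∫ x, w x ∂μ) ^ (r - 1) * ∫ x, w x * f x ^ r ∂μ := by
  rcases hr.eq_or_lt with h1 | h1
  · subst h1; simp
  · have hr0 : 0 < r := by linarith
    set q : ℝ := r / (r - 1) with hq
    have hq0 : 0 < q := div_pos hr0 (by linarith)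
    have hpq : q.HolderConjugate r := by
      rw [Real.holderConjugate_iff]
      constructor
      · rw [hq, lt_div_iff₀ (by linarith)]; linarith
      · rw [hq, inv_div]; field_simp; ring
    have hw1 : BM (fun x => w x ^ (1 / q)) := hw.rpow hw0 (by positivity)
    have hw2 : BM (fun x => w x ^ (1 / r) * f x) := (hw.rpow hw0 (by positivity)).mul hf
    have h2 := holder (μ := μ) hpq hw1 (fun x => Real.rpow_nonneg (hw0 x) _) hw2
      (fun x => mul_nonneg (Real.rpow_nonneg (hw0 x) _) (hf0 x))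
    have h3 : ∀ x, w x ^ (1 / q) * (w x ^ (1 / r) * f x) = w x * f x := by
      intro x
      rw [← mul_assoc, ← Real.rpow_add_of_nonneg (hw0 x) (by positivity) (by positivity)]
      have : 1 / q + 1 / r = 1 := by
        have := hpq.inv_add_inv_eq_one; simpa [one_div] using this
      rw [this, Real.rpow_one]
    have h4 : ∀ x, (w x ^ (1 / q)) ^ q = w x := by
      intro x; rw [← Real.rpow_mul (hw0 x), one_div_mul_cancel hq0.ne', Real.rpow_one]
    have h5 : ∀ x, (w x ^ (1 / r) * f x) ^ r = w x * f x ^ r := by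
      intro x
      rw [Real.mul_rpow (Real.rpow_nonneg (hw0 x) _) (hf0 x), ← Real.rpow_mul (hw0 x),
        one_div_mul_cancel hr0.ne', Real.rpow_one]
    simp only [h3, h4, h5] at h2
    have hI0 : 0 ≤ ∫ x, w x * f x ∂μ := integral_nonneg fun x => mul_nonneg (hw0 x) (hf0 x)
    have hW0 : 0 ≤ ∫ x, w x ∂μ := integral_nonneg hw0
    have hF0 : 0 ≤ ∫ x, w x * f x ^ r ∂μ :=
      integral_nonneg fun x => mul_nonneg (hw0 x) (Real.rpow_nonneg (hf0 x) _)
    have h6 := Real.rpow_le_rpow hI0 h2 hr0.le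
    refine h6.trans (le_of_eq ?_)
    rw [Real.mul_rpow (Real.rpow_nonneg hW0 _) (Real.rpow_nonneg hF0 _), ← Real.rpow_mul hW0,
      ← Real.rpow_mul hF0, one_div_mul_cancel hr0.ne', Real.rpow_one]
    congr 2
    rw [hq]; field_simp

/-- product version: `(∫ w f g)^r ≤ (∫ w)^(r-2) (∫ w f^r) (∫ w g^r)` -/
lemma jensen2 {α : Type*} [MeasurableSpace α] {μ : Measure α} [IsFiniteMeasure μ] {r : ℝ} (hr : 2 ≤ r)
    {w f g : α → ℝ} (hw : BM w) (hw0 : ∀ x, 0 ≤ w x) (hf : BM f) (hf0 : ∀ x, 0 ≤ f x) (hg : BM g)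
    (hg0 : ∀ x, 0 ≤ g x) :
    (∫ x, w x * (f x * g x) ∂μ) ^ r ≤
      (∫ x, w x ∂μ) ^ (r - 2) * ((∫ x, w x * f x ^ r ∂μ) * ∫ x, w x * g x ^ r ∂μ) := by
  have hr0 : 0 < r := by linarith
  have hs : ∀ x, 0 ≤ Real.sqrt (w x) := fun x => Real.sqrt_nonneg _
  have hsBM := hw.sqrt
  have hf1 : BM (fun x => Real.sqrt (w x) * f x) := hsBM.mul hf
  have hg1 : BM (fun x => Real.sqrt (w x) * g x) := hsBM.mul hg
  have h22 : (2 : ℝ).HolderConjugate 2 := by
    rw [Real.holderConjugate_iff]; norm_num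
  have h1 := holder (μ := μ) h22 hf1 (fun x => mul_nonneg (hs x) (hf0 x)) hg1
    (fun x => mul_nonneg (hs x) (hg0 x))
  have h3 : ∀ x, Real.sqrt (w x) * f x * (Real.sqrt (w x) * g x) = w x * (f x * g x) := by
    intro x
    calc Real.sqrt (w x) * f x * (Real.sqrt (w x) * g x) =
        (Real.sqrt (w x) * Real.sqrt (w x)) * (f x * g x) := by ring
      _ = w x * (f x * g x) := by rw [Real.mul_self_sqrt (hw0 x)]
  have h4 : ∀ u : α → ℝ, ∀ x, (Real.sqrt (w x) * u x) ^ (2 : ℝ) = w x * u x ^ 2 := by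
    intro u x
    rw [Real.rpow_two, mul_pow, Real.sq_sqrt (hw0 x)]
  simp only [h3, h4] at h1
  have hI0 : 0 ≤ ∫ x, w x * (f x * g x) ∂μ :=
    integral_nonneg fun x => mul_nonneg (hw0 x) (mul_nonneg (hf0 x) (hg0 x))
  have hW0 : 0 ≤ ∫ x, w x ∂μ := integral_nonneg hw0
  have key : ∀ u : α → ℝ, BM u → (∀ x, 0 ≤ u x) →
      ((∫ x, w x * u x ^ 2 ∂μ) ^ (1 / (2 : ℝ))) ^ r ≤
        (∫ x, w x ∂μ) ^ (r / 2 - 1) * ∫ x, w x * u x ^ r ∂μ := by
    intro u hu hu0
    have hu2 : BM (fun x => u x ^ 2) := by simpa [pow_two] using hu.mul hu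
    have h5 := jensen (μ := μ) (r := r / 2) (by linarith) hw hw0 hu2 (fun x => by positivity)
    have h6 : ∀ x, (u x ^ 2) ^ (r / 2) = u x ^ r := by
      intro x
      rw [← Real.rpow_natCast, ← Real.rpow_mul (hu0 x)]
      congr 1; push_cast; ring
    simp only [h6] at h5
    have hA : 0 ≤ ∫ x, w x * u x ^ 2 ∂μ := integral_nonneg fun x => mul_nonneg (hw0 x) (by positivity)
    rw [← Real.rpow_mul hA]
    have : (1 / (2 : ℝ)) * r = r / 2 := by ring
    rw [this]; exact h5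
  have hkf := key f hf hf0
  have hkg := key g hg hg0
  have hA : 0 ≤ ∫ x, w x * f x ^ 2 ∂μ := integral_nonneg fun x => mul_nonneg (hw0 x) (by positivity)
  have hB : 0 ≤ ∫ x, w x * g x ^ 2 ∂μ := integral_nonneg fun x => mul_nonneg (hw0 x) (by positivity)
  calc (∫ x, w x * (f x * g x) ∂μ) ^ r
      ≤ ((∫ x, w x * f x ^ 2 ∂μ) ^ (1 / (2 : ℝ)) * (∫ x, w x * g x ^ 2 ∂μ) ^ (1 / (2 : ℝ))) ^ r :=
        Real.rpow_le_rpow hI0 h1 hr0.le
    _ = ((∫ x, w x * f x ^ 2 ∂μ) ^ (1 / (2 : ℝ))) ^ r * ((∫ x, w x * g x ^ 2 ∂μ) ^ (1 / (2 : ℝ))) ^ r :=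
        Real.mul_rpow (Real.rpow_nonneg hA _) (Real.rpow_nonneg hB _)
    _ ≤ ((∫ x, w x ∂μ) ^ (r / 2 - 1) * ∫ x, w x * f x ^ r ∂μ) *
          ((∫ x, w x ∂μ) ^ (r / 2 - 1) * ∫ x, w x * g x ^ r ∂μ) :=
        mul_le_mul hkf hkg (Real.rpow_nonneg (Real.rpow_nonneg hB _) _)
          (mul_nonneg (Real.rpow_nonneg hW0 _) (integral_nonneg fun x => mul_nonneg (hw0 x)
            (Real.rpow_nonneg (hf0 x) _)))
    _ = (∫ x, w x ∂μ) ^ (r - 2) * ((∫ x, w x * f x ^ r ∂μ) * ∫ x, w x * g x ^ r ∂μ) := by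
        have : (∫ x, w x ∂μ) ^ (r - 2) = (∫ x, w x ∂μ) ^ (r / 2 - 1) * (∫ x, w x ∂μ) ^ (r / 2 - 1) := by
          rw [← Real.rpow_add_of_nonneg hW0 (by linarith) (by linarith)]; congr 1; ring
        rw [this]; ring

end Pool.Agent.Helper935.MT
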