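import Pool.Agent.Helper935.MT.RegU

open MeasureTheory
open scoped ENNReal ComplexConjugate

namespace Pool.Agent.Helper935.MT

variable {d : ℕ}

/-- from dyadic scales to all `m`, upper estimates -/
theorem trans_up {p a γ A B D : ℝ} (h : UpS d p a γ A B D) :
    ∃ (C : ℝ) (m₀ : ℕ), 0 < C ∧ ∀ m : ℕ, m₀ ≤ m → ∀ f : Torus d → ℂ, InW a γ f →
      ∃ G : Torus d → ℂ, Rep (m : ℝ) G ∧
        eLpNorm (fun x => f x - G x) (ENNReal.ofReal p) (mu d) ≤ ENNReal.ofReal (C * Ft A B D m) := by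
  obtain ⟨C, S, N₀, hC0, hS0, hU⟩ := h
  obtain ⟨s, hs⟩ : ∃ s : ℕ, S < 2 ^ s := pow_unbounded_of_one_lt S one_lt_two
  obtain ⟨C₁, N₁, hC₁0, hRF⟩ := Rt_Ft A B D
  obtain ⟨C₂, x₀, hC₂0, hFc⟩ := Ft_comp A B D (2 ^ (s + 1)) (one_le_pow₀ (by norm_num))
  obtain ⟨X, hX⟩ := exists_nat_ge x₀
  refine ⟨C * C₁ * C₂, 2 ^ (s + N₀ + N₁ + X), by positivity, fun m hm f hf => ?_⟩
  set N : ℕ := Nat.log 2 m with hN
  have hm0 : m ≠ 0 := by
    have : 0 < 2 ^ (s + N₀ + N₁ + X) := by positivity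
    omega
  have hN1 : 2 ^ N ≤ m := Nat.pow_log_le_self 2 hm0
  have hN2 : m < 2 ^ (N + 1) := Nat.lt_pow_succ_log_self (by norm_num) m
  have hN3 : s + N₀ + N₁ + X ≤ N := by
    have h1 : 2 ^ (s + N₀ + N₁ + X) < 2 ^ (N + 1) := lt_of_le_of_lt hm hN2
    have h2 := (Nat.pow_lt_pow_iff_right (by norm_num : 1 < 2)).1 h1
    omega
  set n : ℕ := N - s with hn
  obtain ⟨G, hG1, hG2⟩ := hU n (by omega) f hf
  have h2N : (2 : ℝ) ^ s * 2 ^ n = 2 ^ N := by rw [← pow_add]; congr 1; omega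
  have hN1' : (2 : ℝ) ^ N ≤ m := by exact_mod_cast hN1
  have hN2' : (m : ℝ) ≤ 2 ^ (N + 1) := by exact_mod_cast hN2.le
  have hXn : x₀ ≤ (2 : ℝ) ^ n := by
    have h1 : (X : ℝ) ≤ n := by
      have : X ≤ n := by omega
      exact_mod_cast this
    have h2 : (n : ℝ) ≤ 2 ^ n := by exact_mod_cast Nat.lt_two_pow_self.le
    linarith
  have hnN : (2 : ℝ) ^ n ≤ 2 ^ N := pow_le_pow_right₀ (by norm_num) (by omega)
  have h2s : (1 : ℝ) ≤ 2 ^ (s + 1) := one_le_pow₀ (by norm_num)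
  refine ⟨G, hG1.mono ?_, hG2.trans (ENNReal.ofReal_le_ofReal ?_)⟩
  · calc S * 2 ^ n ≤ 2 ^ s * 2 ^ n := mul_le_mul_of_nonneg_right hs.le (by positivity)
      _ ≤ m := by rw [h2N]; exact hN1'
  · have h3 := (hRF n (by omega)).1
    have h4 : Ft A B D ((2 : ℝ) ^ n) ≤ C₂ * Ft A B D m := by
      apply hFc _ _ hXn ((hXn.trans hnN).trans hN1')
      · calc (2 : ℝ) ^ n ≤ m := hnN.trans hN1'
          _ ≤ 2 ^ (s + 1) * m := le_mul_of_one_le_left (Nat.cast_nonneg _) h2s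
      · calc (m : ℝ) ≤ 2 ^ (N + 1) := hN2'
          _ = 2 ^ (s + 1) * 2 ^ n := by rw [pow_succ, ← h2N]; ring
    calc C * Rt A B D n ≤ C * (C₁ * (C₂ * Ft A B D m)) := by
          apply mul_le_mul_of_nonneg_left _ hC0.le
          exact h3.trans (mul_le_mul_of_nonneg_left h4 hC₁0.le)
      _ = _ := by ring

/-- from dyadic scales to all `m`, lower estimates -/
theorem trans_lo {p a γ A B D : ℝ} (h : LoS d p a γ A B D) :
    ∃ (c : ℝ) (m₀ : ℕ), 0 < c ∧ ∀ m : ℕ, m₀ ≤ m → ∃ f : Torus d → ℂ, BC f ∧ InW a γ f ∧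
      ∀ G : Torus d → ℂ, Rep (m : ℝ) G → c * Ft A B D m ≤ Np p (fun x => f x - G x) := by
  obtain ⟨c, N₀, hc0, hL⟩ := h
  obtain ⟨C₁, N₁, hC₁0, hRF⟩ := Rt_Ft A B D
  obtain ⟨C₂, x₀, hC₂0, hFc⟩ := Ft_comp A B D 2 (by norm_num)
  obtain ⟨X, hX⟩ := exists_nat_ge x₀
  refine ⟨c * (C₁ * C₂)⁻¹, 2 ^ (N₀ + N₁ + X), by positivity, fun m hm => ?_⟩
  set N : ℕ := Nat.log 2 m with hN
  have hm0 : m ≠ 0 := by
    have : 0 < 2 ^ (N₀ + N₁ + X) := by positivity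
    omega
  have hN1 : 2 ^ N ≤ m := Nat.pow_log_le_self 2 hm0
  have hN2 : m < 2 ^ (N + 1) := Nat.lt_pow_succ_log_self (by norm_num) m
  have hN3 : N₀ + N₁ + X ≤ N := by
    have h1 : 2 ^ (N₀ + N₁ + X) < 2 ^ (N + 1) := lt_of_le_of_lt hm hN2
    have h2 := (Nat.pow_lt_pow_iff_right (by norm_num : 1 < 2)).1 h1
    omega
  obtain ⟨f, hf1, hf2, hf3⟩ := hL (N + 1) (by omega)
  have hN1' : (2 : ℝ) ^ N ≤ m := by exact_mod_cast hN1
  have hN2' : (m : ℝ) ≤ 2 ^ (N + 1) := by exact_mod_cast hN2.le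
  have hXN : x₀ ≤ (2 : ℝ) ^ N := by
    have h1 : (X : ℝ) ≤ N := by
      have : X ≤ N := by omega
      exact_mod_cast this
    have h2 : (N : ℝ) ≤ 2 ^ N := by exact_mod_cast Nat.lt_two_pow_self.le
    linarith
  have hXm := hXN.trans hN1'
  refine ⟨f, hf1, hf2, fun G hG => ?_⟩
  refine le_trans ?_ (hf3 G (hG.mono hN2'))
  have h3 := (hRF (N + 1) (by omega)).2
  have h4 : Ft A B D m ≤ C₂ * Ft A B D ((2 : ℝ) ^ (N + 1)) := by
    apply hFc _ _ hXm (hXm.trans hN2')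
    · calc (m : ℝ) ≤ 2 ^ (N + 1) := hN2'
        _ ≤ 2 * 2 ^ (N + 1) := le_mul_of_one_le_left (by positivity) (by norm_num)
    · calc (2 : ℝ) ^ (N + 1) = 2 * 2 ^ N := by rw [pow_succ]; ring
        _ ≤ 2 * m := mul_le_mul_of_nonneg_left hN1' (by norm_num)
  have h5 : Ft A B D m ≤ (C₁ * C₂) * Rt A B D (N + 1) := by
    calc Ft A B D m ≤ C₂ * (C₁ * Rt A B D (N + 1)) := h4.trans (mul_le_mul_of_nonneg_left h3 hC₂0.le)
      _ = _ := by ring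
  calc c * (C₁ * C₂)⁻¹ * Ft A B D m = c * ((C₁ * C₂)⁻¹ * Ft A B D m) := by ring
    _ ≤ c * Rt A B D (N + 1) := by
        apply mul_le_mul_of_nonneg_left _ hc0.le
        rw [inv_mul_le_iff₀ (by positivity)]; exact h5

end Pool.Agent.Helper935.MT
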