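import Pool.Agent.Helper935.MT.Cons

open MeasureTheory
open scoped ENNReal ComplexConjugate

namespace Pool.Agent.Helper935.MT

variable {d : ℕ}

/-- general upper estimate for `p ≤ 2` -/
theorem upper_small {p r : ℝ} (hpr : p.HolderConjugate r) (hr : 2 ≤ r) (hd : 0 < d) :
    ∃ C : ℝ, 0 < C ∧ ∀ (eps : ℕ → ℝ), (∀ l, 0 ≤ eps l) → Summable eps → ∀ f : Torus d → ℂ,
      Integrable f (mu d) → (∀ l, ∫ x, ‖fl f l x‖ ∂(mu d) ≤ eps l) →
      ∀ (n₀ n₁ : ℕ) (m : ℕ → ℝ) (E : ℝ), n₀ ≤ n₁ → (∀ l, 0 < m l) → 0 ≤ E →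
      (∑ l ∈ Finset.Ico n₀ n₁, (2 ^ ((l : ℝ) / r) * eps l * (2 ^ l / m l) ^ (1 / r)) ^ p ≤ E ^ p) →
      (∀ L, ∑ l ∈ Finset.Ico n₁ L, (2 ^ ((l : ℝ) / r) * eps l) ^ p ≤ E ^ p) →
      ∃ G : Torus d → ℂ, Rep (2 ^ d * 2 ^ n₀ * (n₀ : ℝ) ^ (d - 1) + C * ∑ l ∈ Finset.Ico n₀ n₁, m l) G ∧
        eLpNorm (fun x => f x - G x) (ENNReal.ofReal p) (mu d) ≤ ENNReal.ofReal (C * E) := by
  classical
  have hp1 : 1 < p := hpr.lt
  have hp0 : 0 < p := by linarith
  have hr0 : 0 < r := by linarith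
  obtain ⟨CK, hCK0, hCK⟩ := keyK hpr hr d
  obtain ⟨CJ, hCJ0, hCJ⟩ := keyJ hpr hr d
  refine ⟨8 ^ d + CJ * (2 ^ (1 / p) * CK), by positivity, fun eps heps hsum f hf hW n₀ n₁ m E hn hm hE h1 h2 => ?_⟩
  set B : ℕ → ℝ := fun l => CK * (2 ^ ((l : ℝ) / r) * eps l) with hB
  have hB0 : ∀ l, 0 ≤ B l := fun l => by have := heps l; simp only [hB]; positivity
  set N : ℕ → (Fin d → ℕ) → ℝ := fun l s => Np p (As s (fl f l)) with hN
  have hN0 : ∀ l s, 0 ≤ N l s := fun l s => Np_nonneg _ _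
  have hNB : ∀ l, ∑ s ∈ SS d l, N l s ≤ B l := by
    intro l
    have e1 := hCK l (layer d l) (ft f) (inLayer_layer l)
    calc ∑ s ∈ SS d l, N l s ≤ CK * 2 ^ ((l : ℝ) / r) * ∫ x, ‖tp (layer d l) (ft f) x‖ ∂(mu d) := e1
      _ ≤ CK * 2 ^ ((l : ℝ) / r) * eps l := mul_le_mul_of_nonneg_left (hW l) (by positivity)
      _ = B l := by simp only [hB]; ring
  set τ : ℕ → ℝ := fun l => B l * (2 ^ l / m l) with hτ
  have hτ0 : ∀ l, 0 ≤ τ l := fun l => by
    have := hB0 l; have := hm l; simp only [hτ]; positivity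
  set kp : ℕ → Finset (Fin d → ℕ) := fun l => if l < n₁ then (SS d l).filter (fun s => τ l < N l s) else ∅ with hkp
  have hkpsub : ∀ l, kp l ⊆ SS d l := by
    intro l; simp only [hkp]; split_ifs
    · exact Finset.filter_subset _ _
    · exact Finset.empty_subset _
  have hcard : ∀ l, ((kp l).card : ℝ) * 2 ^ l ≤ m l := by
    intro l
    have hml := hm l
    simp only [hkp]; split_ifs with hl
    · rcases (hB0 l).eq_or_lt with h0 | h0
      · have : (SS d l).filter (fun s => τ l < N l s) = ∅ := by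
          rw [Finset.filter_eq_empty_iff]
          intro s hs
          rw [not_lt]
          have e1 : N l s ≤ ∑ s ∈ SS d l, N l s := Finset.single_le_sum (fun s _ => hN0 l s) hs
          have e2 := hNB l
          have := hτ0 l
          linarith
        rw [this]; simp; exact hml.le
      · have e1 : (((SS d l).filter (fun s => τ l < N l s)).card : ℝ) * τ l ≤ B l := by
          rw [← nsmul_eq_mul, ← Finset.sum_const]
          calc ∑ _s ∈ (SS d l).filter (fun s => τ l < N l s), τ l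
              ≤ ∑ s ∈ (SS d l).filter (fun s => τ l < N l s), N l s :=
                Finset.sum_le_sum fun s hs => (Finset.mem_filter.1 hs).2.le
            _ ≤ ∑ s ∈ SS d l, N l s :=
                Finset.sum_le_sum_of_subset_of_nonneg (Finset.filter_subset _ _) (fun s _ _ => hN0 l s)
            _ ≤ B l := hNB l
        have e2 : ((((SS d l).filter (fun s => τ l < N l s)).card : ℝ) * 2 ^ l / m l) * B l ≤ 1 * B l := by
          calc ((((SS d l).filter (fun s => τ l < N l s)).card : ℝ) * 2 ^ l / m l) * B l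
              = (((SS d l).filter (fun s => τ l < N l s)).card : ℝ) * τ l := by simp only [hτ]; ring
            _ ≤ 1 * B l := by rw [one_mul]; exact e1
        have e3 := le_of_mul_le_mul_right e2 h0
        rw [div_le_one hml] at e3
        exact e3
    · simp; exact hml.le
  -- the approximant
  set G : Torus d → ℂ := fun x => ∑ l ∈ Finset.range n₀, fl f l x +
    ∑ l ∈ Finset.Ico n₀ n₁, ∑ s ∈ kp l, As s (fl f l) x with hG
  have hrep : Rep (2 ^ d * 2 ^ n₀ * (n₀ : ℝ) ^ (d - 1) + 8 ^ d * ∑ l ∈ Finset.Ico n₀ n₁, m l) G := by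
    apply (rep_low hd f n₀).add
    have e1 : Rep (∑ l ∈ Finset.Ico n₀ n₁, ∑ s ∈ kp l, ((box s).card : ℝ))
        (fun x => ∑ l ∈ Finset.Ico n₀ n₁, ∑ s ∈ kp l, As s (fl f l) x) :=
      Rep.sum _ (fun l _ => Rep.sum _ (fun s _ => rep_tp _ _))
    refine e1.mono ?_
    rw [Finset.mul_sum]
    apply Finset.sum_le_sum; intro l _
    calc ∑ s ∈ kp l, ((box s).card : ℝ) ≤ ∑ _s ∈ kp l, (8 : ℝ) ^ d * 2 ^ l := by
          apply Finset.sum_le_sum; intro s hs
          refine (card_box_le s).trans ?_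
          apply mul_le_mul_of_nonneg_left _ (by positivity)
          exact pow_le_pow_right₀ (by norm_num) (mem_SS.1 (hkpsub l hs)).1
      _ = 8 ^ d * (((kp l).card : ℝ) * 2 ^ l) := by rw [Finset.sum_const, nsmul_eq_mul]; ring
      _ ≤ 8 ^ d * m l := mul_le_mul_of_nonneg_left (hcard l) (by positivity)
  refine ⟨G, hrep.mono ?_, ?_⟩
  · apply add_le_add le_rfl
    apply mul_le_mul_of_nonneg_right
    · have : 0 < CJ * (2 ^ (1 / p) * CK) := by positivity
      linarith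
    · exact Finset.sum_nonneg fun l _ => (hm l).le
  have hsummable : Summable (fun l => ∫ x, ‖fl f l x‖ ∂(mu d)) :=
    Summable.of_nonneg_of_le (fun l => integral_nonneg fun x => norm_nonneg _) hW hsum
  apply closure_bound hf hsummable hrep.BC (L₀ := n₁)
  intro L hL
  -- the remainder
  set R : ℕ → Finset (Fin d → ℕ) := fun l => SS d l \ kp l with hR
  set I : Finset (ℕ × (Fin d → ℕ)) :=
    ((Finset.Ico n₀ L) ×ˢ ((Finset.Ico n₀ L).biUnion R)).filter (fun q => q.2 ∈ R q.1) with hI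
  have hImem : ∀ q : ℕ × (Fin d → ℕ), q ∈ I ↔ q.1 ∈ Finset.Ico n₀ L ∧ q.2 ∈ R q.1 := by
    intro q
    rw [hI, Finset.mem_filter, Finset.mem_product, Finset.mem_biUnion]
    constructor
    · rintro ⟨⟨h3, _⟩, h4⟩; exact ⟨h3, h4⟩
    · rintro ⟨h3, h4⟩; exact ⟨⟨h3, q.1, h3, h4⟩, h4⟩
  have hdec : ∀ x, ∑ l ∈ Finset.range L, fl f l x - G x = ∑ i ∈ I, As i.2 (fl f i.1) x := by
    intro x
    rw [Finset.sum_finset_product I (Finset.Ico n₀ L) R hImem]
    have e1 : ∀ l, fl f l x = ∑ s ∈ kp l, As s (fl f l) x + ∑ s ∈ R l, As s (fl f l) x := by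
      intro l
      have e2 : ∑ s ∈ SS d l, As s (fl f l) x = fl f l x := sum_As_tp (inLayer_layer l) (ft f) x
      rw [← e2, ← Finset.sum_sdiff (hkpsub l), add_comm]
    have e3 : ∑ l ∈ Finset.range L, fl f l x = ∑ l ∈ Finset.range n₀, fl f l x +
        ∑ l ∈ Finset.Ico n₀ L, fl f l x := by
      rw [Finset.sum_range_add_sum_Ico _ (hn.trans hL)]
    have e4 : ∑ l ∈ Finset.Ico n₀ L, fl f l x = ∑ l ∈ Finset.Ico n₀ L, ∑ s ∈ kp l, As s (fl f l) x +
        ∑ l ∈ Finset.Ico n₀ L, ∑ s ∈ R l, As s (fl f l) x := by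
      rw [← Finset.sum_add_distrib]; exact Finset.sum_congr rfl fun l _ => e1 l
    have e5 : ∑ l ∈ Finset.Ico n₀ L, ∑ s ∈ kp l, As s (fl f l) x =
        ∑ l ∈ Finset.Ico n₀ n₁, ∑ s ∈ kp l, As s (fl f l) x := by
      symm
      apply Finset.sum_subset (Finset.Ico_subset_Ico_right hL)
      intro l hl hl2
      rw [Finset.mem_Ico] at hl hl2
      have : ¬ l < n₁ := fun h => hl2 ⟨hl.1, h⟩
      simp only [hkp, if_neg this, Finset.sum_empty]
    simp only [hG]
    rw [e3, e4, e5]; ring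
  simp only [hdec]
  have hBCsum : BC (fun x => ∑ i ∈ I, As i.2 (fl f i.1) x) := BC.sum _ (fun i _ => BC_As _ _)
  rw [eLpNorm_eq hp0 hBCsum]
  apply ENNReal.ofReal_le_ofReal
  have hj := hCJ I (fun i => fl f i.1) (fun i hi => (Finset.mem_sdiff.1 ((hImem i).1 hi).2).1)
  have hsumI : ∑ i ∈ I, Np p (As i.2 (fl f i.1)) ^ p ≤ 2 * (CK * E) ^ p := by
    rw [Finset.sum_finset_product I (Finset.Ico n₀ L) R hImem, ← Finset.sum_Ico_consecutive _ hn hL]
    have hpow : ∀ v : ℝ, 0 ≤ v → ∀ t : ℝ, v ≤ t → v ^ p ≤ t ^ (p - 1) * v := by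
      intro v hv t hvt
      rcases hv.eq_or_lt with h0 | h0
      · rw [← h0, Real.zero_rpow hp0.ne', mul_zero]
      · have : v ^ p = v ^ (p - 1) * v := by
          nth_rewrite 3 [← Real.rpow_one v]
          rw [← Real.rpow_add h0]; congr 1; ring
        rw [this]
        exact mul_le_mul_of_nonneg_right (Real.rpow_le_rpow hv hvt (by linarith)) hv
    have hsub : ∀ l, ∑ s ∈ R l, N l s ≤ B l := fun l =>
      (Finset.sum_le_sum_of_subset_of_nonneg Finset.sdiff_subset (fun s _ _ => hN0 l s)).trans (hNB l)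
    have e1 : ∑ l ∈ Finset.Ico n₀ n₁, ∑ s ∈ R l, N l s ^ p ≤ (CK * E) ^ p := by
      have e2 : ∀ l ∈ Finset.Ico n₀ n₁, ∑ s ∈ R l, N l s ^ p ≤
          CK ^ p * (2 ^ ((l : ℝ) / r) * eps l * (2 ^ l / m l) ^ (1 / r)) ^ p := by
        intro l hl
        rw [Finset.mem_Ico] at hl
        calc ∑ s ∈ R l, N l s ^ p ≤ ∑ s ∈ R l, τ l ^ (p - 1) * N l s := by
              apply Finset.sum_le_sum; intro s hs
              apply hpow _ (hN0 l s)
              simp only [hR, hkp, Finset.mem_sdiff, if_pos hl.2, Finset.mem_filter, not_and, not_lt] at hs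
              exact hs.2 hs.1
          _ = τ l ^ (p - 1) * ∑ s ∈ R l, N l s := by rw [Finset.mul_sum]
          _ ≤ τ l ^ (p - 1) * B l := mul_le_mul_of_nonneg_left (hsub l) (Real.rpow_nonneg (hτ0 l) _)
          _ = CK ^ p * (2 ^ ((l : ℝ) / r) * eps l * (2 ^ l / m l) ^ (1 / r)) ^ p := by
              have hml := hm l
              have hq : 0 ≤ (2 : ℝ) ^ l / m l := by positivity
              have hb : 0 ≤ 2 ^ ((l : ℝ) / r) * eps l := by have := heps l; positivity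
              have hpr2 : 1 / r * p = p - 1 := by
                have := hpr.symm.sub_one_mul_conj
                have h3 : p * r = p + r := hpr.mul_eq_add
                field_simp; linarith
              rw [Real.mul_rpow hb (Real.rpow_nonneg hq _), ← Real.rpow_mul hq, hpr2]
              simp only [hτ]
              rw [Real.mul_rpow (hB0 l) hq]
              have e3 : B l ^ (p - 1) * B l = B l ^ p := by
                rcases (hB0 l).eq_or_lt with h0 | h0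
                · rw [← h0, Real.zero_rpow hp0.ne', mul_zero]
                · nth_rewrite 2 [← Real.rpow_one (B l)]
                  rw [← Real.rpow_add h0]; congr 1; ring
              have e4 : B l ^ p = CK ^ p * (2 ^ ((l : ℝ) / r) * eps l) ^ p := by
                simp only [hB]; rw [Real.mul_rpow hCK0.le hb]
              calc B l ^ (p - 1) * (2 ^ l / m l) ^ (p - 1) * B l =
                  (B l ^ (p - 1) * B l) * (2 ^ l / m l) ^ (p - 1) := by ring
                _ = _ := by rw [e3, e4]; ring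
      calc ∑ l ∈ Finset.Ico n₀ n₁, ∑ s ∈ R l, N l s ^ p
          ≤ ∑ l ∈ Finset.Ico n₀ n₁, CK ^ p * (2 ^ ((l : ℝ) / r) * eps l * (2 ^ l / m l) ^ (1 / r)) ^ p :=
            Finset.sum_le_sum e2
        _ = CK ^ p * ∑ l ∈ Finset.Ico n₀ n₁, (2 ^ ((l : ℝ) / r) * eps l * (2 ^ l / m l) ^ (1 / r)) ^ p := by
            rw [Finset.mul_sum]
        _ ≤ CK ^ p * E ^ p := mul_le_mul_of_nonneg_left h1 (by positivity)
        _ = (CK * E) ^ p := (Real.mul_rpow hCK0.le hE).symm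
    have e5 : ∑ l ∈ Finset.Ico n₁ L, ∑ s ∈ R l, N l s ^ p ≤ (CK * E) ^ p := by
      have e2 : ∀ l ∈ Finset.Ico n₁ L, ∑ s ∈ R l, N l s ^ p ≤
          CK ^ p * (2 ^ ((l : ℝ) / r) * eps l) ^ p := by
        intro l _
        have hb : 0 ≤ 2 ^ ((l : ℝ) / r) * eps l := by have := heps l; positivity
        calc ∑ s ∈ R l, N l s ^ p ≤ ∑ s ∈ R l, B l ^ (p - 1) * N l s := by
              apply Finset.sum_le_sum; intro s hs
              apply hpow _ (hN0 l s)
              exact (Finset.single_le_sum (fun s _ => hN0 l s) hs).trans (hsub l)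
          _ = B l ^ (p - 1) * ∑ s ∈ R l, N l s := by rw [Finset.mul_sum]
          _ ≤ B l ^ (p - 1) * B l := mul_le_mul_of_nonneg_left (hsub l) (Real.rpow_nonneg (hB0 l) _)
          _ = B l ^ p := by
                rcases (hB0 l).eq_or_lt with h0 | h0
                · rw [← h0, Real.zero_rpow hp0.ne', mul_zero]
                · nth_rewrite 2 [← Real.rpow_one (B l)]
                  rw [← Real.rpow_add h0]; congr 1; ring
          _ = _ := by simp only [hB]; rw [Real.mul_rpow hCK0.le hb]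
      calc ∑ l ∈ Finset.Ico n₁ L, ∑ s ∈ R l, N l s ^ p
          ≤ ∑ l ∈ Finset.Ico n₁ L, CK ^ p * (2 ^ ((l : ℝ) / r) * eps l) ^ p := Finset.sum_le_sum e2
        _ = CK ^ p * ∑ l ∈ Finset.Ico n₁ L, (2 ^ ((l : ℝ) / r) * eps l) ^ p := by rw [Finset.mul_sum]
        _ ≤ CK ^ p * E ^ p := mul_le_mul_of_nonneg_left (h2 L) (by positivity)
        _ = (CK * E) ^ p := (Real.mul_rpow hCK0.le hE).symm
    have e6 : ∀ l s, Np p (As s (fl f l)) = N l s := fun _ _ => rfl
    simp only [e6]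
    linarith
  refine hj.trans ?_
  have hfin : CJ * (∑ i ∈ I, Np p (As i.2 (fl f i.1)) ^ p) ^ (1 / p) ≤ CJ * (2 ^ (1 / p) * CK) * E := by
    have e1 : (∑ i ∈ I, Np p (As i.2 (fl f i.1)) ^ p) ^ (1 / p) ≤ (2 * (CK * E) ^ p) ^ (1 / p) :=
      Real.rpow_le_rpow (Finset.sum_nonneg fun i _ => Real.rpow_nonneg (Np_nonneg _ _) _) hsumI (by positivity)
    have e2 : (2 * (CK * E) ^ p) ^ (1 / p) = 2 ^ (1 / p) * (CK * E) := by
      rw [Real.mul_rpow (by norm_num) (by positivity), ← Real.rpow_mul (by positivity),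
        mul_one_div_cancel hp0.ne', Real.rpow_one]
    rw [e2] at e1
    calc CJ * (∑ i ∈ I, Np p (As i.2 (fl f i.1)) ^ p) ^ (1 / p) ≤ CJ * (2 ^ (1 / p) * (CK * E)) :=
          mul_le_mul_of_nonneg_left e1 hCJ0.le
      _ = _ := by ring
  refine hfin.trans ?_
  apply mul_le_mul_of_nonneg_right _ hE
  have : (0 : ℝ) < 8 ^ d := by positivity
  linarith

/-- general upper estimate for `p ≥ 2` -/
theorem upper_large {p : ℝ} (hp : 2 ≤ p) (hd : 0 < d) :
    ∃ C : ℝ, 0 < C ∧ ∀ (eps : ℕ → ℝ), (∀ l, 0 ≤ eps l) → Summable eps → ∀ f : Torus d → ℂ,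
      Integrable f (mu d) → (∀ l, ∫ x, ‖fl f l x‖ ∂(mu d) ≤ eps l) →
      ∀ (n₀ n₁ n : ℕ) (E₁ E₂ : ℝ), n₀ ≤ n₁ → 0 < n → 0 ≤ E₂ →
      (∑ l ∈ Finset.Ico n₀ n₁, 2 ^ l * eps l ≤ E₁) →
      (∀ L, ∑ l ∈ Finset.Ico n₁ L, 2 ^ ((1 - 1 / p) * l) * eps l ≤ E₂) →
      ∃ G : Torus d → ℂ, Rep (2 ^ d * 2 ^ n₀ * (n₀ : ℝ) ^ (d - 1) + n) G ∧
        eLpNorm (fun x => f x - G x) (ENNReal.ofReal p) (mu d) ≤
          ENNReal.ofReal (C * (E₁ * (n : ℝ) ^ (-(1 / 2 : ℝ)) + E₂)) := by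
  classical
  have hp0 : 0 < p := by linarith
  obtain ⟨C₁, hC₁0, hC₁⟩ := wiener d
  obtain ⟨C₂, hC₂0, hC₂⟩ := layer_Lp hp d
  obtain ⟨C₃, hC₃0, hC₃⟩ := maureyLp p hp0 d
  refine ⟨C₃ * C₁ + C₂, by positivity, fun eps heps hsum f hf hW n₀ n₁ n E₁ E₂ hn hn0 hE₂ h1 h2 => ?_⟩
  have hE₁ : 0 ≤ E₁ := le_trans (Finset.sum_nonneg fun l _ => by have := heps l; positivity) h1
  -- middle part
  set K : Finset (Fin d → ℤ) := (Finset.Ico n₀ n₁).biUnion (layer d) with hK
  have hdisj : ∀ l ∈ Finset.Ico n₀ n₁, ∀ l' ∈ Finset.Ico n₀ n₁, l ≠ l' → Disjoint (layer d l) (layer d l') := by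
    intro l _ l' _ hne
    rw [Finset.disjoint_left]
    intro k hk hk'
    exact hne ((mem_layer.1 hk).symm.trans (mem_layer.1 hk'))
  have hmid : ∀ x, ∑ l ∈ Finset.Ico n₀ n₁, fl f l x = tp K (ft f) x := by
    intro x
    unfold fl tp
    rw [hK, Finset.sum_biUnion hdisj]
  have hmidA : ∑ k ∈ K, ‖ft f k‖ ≤ C₁ * E₁ := by
    rw [hK, Finset.sum_biUnion hdisj]
    calc ∑ l ∈ Finset.Ico n₀ n₁, ∑ k ∈ layer d l, ‖ft f k‖ ≤ ∑ l ∈ Finset.Ico n₀ n₁, C₁ * (2 ^ l * eps l) := by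
          apply Finset.sum_le_sum; intro l _
          refine (hC₁ l (layer d l) (ft f) (inLayer_layer l)).trans ?_
          rw [mul_assoc]
          apply mul_le_mul_of_nonneg_left _ hC₁0.le
          exact mul_le_mul_of_nonneg_left (hW l) (by positivity)
      _ = C₁ * ∑ l ∈ Finset.Ico n₀ n₁, 2 ^ l * eps l := by rw [Finset.mul_sum]
      _ ≤ C₁ * E₁ := mul_le_mul_of_nonneg_left h1 hC₁0.le
  obtain ⟨K', hK', c', hc'⟩ := hC₃ K (ft f) n hn0
  set G : Torus d → ℂ := fun x => ∑ l ∈ Finset.range n₀, fl f l x + tp K' c' x with hG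
  have hrep : Rep (2 ^ d * 2 ^ n₀ * (n₀ : ℝ) ^ (d - 1) + n) G := by
    apply (rep_low hd f n₀).add
    exact (rep_tp K' c').mono (by exact_mod_cast hK')
  refine ⟨G, hrep, ?_⟩
  have hsummable : Summable (fun l => ∫ x, ‖fl f l x‖ ∂(mu d)) :=
    Summable.of_nonneg_of_le (fun l => integral_nonneg fun x => norm_nonneg _) hW hsum
  apply closure_bound hf hsummable hrep.BC (L₀ := n₁)
  intro L hL
  have hdec : (fun x => ∑ l ∈ Finset.range L, fl f l x - G x) =
      (fun x => tp K (ft f) x - tp K' c' x) + (fun x => ∑ l ∈ Finset.Ico n₁ L, fl f l x) := by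
    funext x
    rw [Pi.add_apply, ← hmid x, ← Finset.sum_range_add_sum_Ico _ (hn.trans hL),
      ← Finset.sum_Ico_consecutive _ hn hL]
    simp only [hG]; ring
  rw [hdec]
  have hBC1 : BC (fun x => tp K (ft f) x - tp K' c' x) := (BC_tp _ _).sub (BC_tp _ _)
  have hBC2 : BC (fun x => ∑ l ∈ Finset.Ico n₁ L, fl f l x) := BC.sum _ (fun l _ => BC_fl f l)
  have hp1 : (1 : ℝ≥0∞) ≤ ENNReal.ofReal p := by
    rw [← ENNReal.ofReal_one]; exact ENNReal.ofReal_le_ofReal (by linarith)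
  refine (eLpNorm_add_le hBC1.1.aestronglyMeasurable hBC2.1.aestronglyMeasurable hp1).trans ?_
  have e1 : eLpNorm (fun x => tp K (ft f) x - tp K' c' x) (ENNReal.ofReal p) (mu d) ≤
      ENNReal.ofReal (C₃ * C₁ * (E₁ * (n : ℝ) ^ (-(1 / 2 : ℝ)))) := by
    rw [eLpNorm_eq hp0 hBC1]
    apply ENNReal.ofReal_le_ofReal
    refine hc'.trans ?_
    calc C₃ * (∑ k ∈ K, ‖ft f k‖) * (n : ℝ) ^ (-(1 / 2 : ℝ)) ≤ C₃ * (C₁ * E₁) * (n : ℝ) ^ (-(1 / 2 : ℝ)) := by
          apply mul_le_mul_of_nonneg_right _ (by positivity)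
          exact mul_le_mul_of_nonneg_left hmidA hC₃0.le
      _ = _ := by ring
  have e2 : eLpNorm (fun x => ∑ l ∈ Finset.Ico n₁ L, fl f l x) (ENNReal.ofReal p) (mu d) ≤
      ENNReal.ofReal (C₂ * E₂) := by
    have e3 : (fun x => ∑ l ∈ Finset.Ico n₁ L, fl f l x) = ∑ l ∈ Finset.Ico n₁ L, fl f l := by
      funext x; rw [Finset.sum_apply]
    rw [e3]
    refine (eLpNorm_sum_le (fun l _ => (BC_fl f l).1.aestronglyMeasurable) hp1).trans ?_
    calc ∑ l ∈ Finset.Ico n₁ L, eLpNorm (fl f l) (ENNReal.ofReal p) (mu d)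
        ≤ ∑ l ∈ Finset.Ico n₁ L, ENNReal.ofReal (C₂ * (2 ^ ((1 - 1 / p) * l) * eps l)) := by
          apply Finset.sum_le_sum; intro l _
          rw [eLpNorm_eq hp0 (BC_fl f l)]
          apply ENNReal.ofReal_le_ofReal
          refine (hC₂ l (layer d l) (ft f) (inLayer_layer l)).trans ?_
          rw [mul_assoc]
          apply mul_le_mul_of_nonneg_left _ hC₂0.le
          exact mul_le_mul_of_nonneg_left (hW l) (by positivity)
      _ = ENNReal.ofReal (∑ l ∈ Finset.Ico n₁ L, C₂ * (2 ^ ((1 - 1 / p) * l) * eps l)) := by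
          rw [ENNReal.ofReal_sum_of_nonneg]
          intro l _; have := heps l; positivity
      _ ≤ ENNReal.ofReal (C₂ * E₂) := by
          apply ENNReal.ofReal_le_ofReal
          rw [← Finset.mul_sum]
          exact mul_le_mul_of_nonneg_left (h2 L) hC₂0.le
  refine (add_le_add e1 e2).trans ?_
  rw [← ENNReal.ofReal_add (by positivity) (by positivity)]
  apply ENNReal.ofReal_le_ofReal
  have h3 : 0 ≤ E₁ * (n : ℝ) ^ (-(1 / 2 : ℝ)) := by positivity
  have h4 : 0 ≤ C₃ * C₁ * E₂ := by positivity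
  have h5 : 0 ≤ C₂ * (E₁ * (n : ℝ) ^ (-(1 / 2 : ℝ))) := by positivity
  nlinarith

end Pool.Agent.Helper935.MT
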